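import Pool.Agent.Lib.MP_4e5fcd_ag.LF.J1
import Pool.Agent.Lib.MP_4e5fcd_ag.A1

/-!
# LF-J2: the generators along a jet

Let `h0 : ∀ j, γ (j, 0) = L.p j`. `along f γ = aeval (arc γ) f` is multiplicative. Put
`P i = along (linForm (L.a i)) γ`; by `along_linForm_coeff` its coefficient `l ≤ n` is
`L.a i ⬝ᵥ lev γ l`, the others are `0`; the coefficient `0` is `L.a i ⬝ᵥ L.p = 0` (`L.hp`). By
`le_vv_iff` the coefficients `l ≤ vv i` vanish: `P i = X ^ (vv i + 1) * Q i`; if `vv i < n` the constant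
term of `Q i` is `lc i ≠ 0`; if `vv i = n` then `P i = 0`.
`along (L.V g) γ = V₀` has constant term `eval L.p (L.V g) ≠ 0` (`eval_along_zero`: the evaluation at
`t = 0` of `aeval (arc γ) f` is `eval (fun j => (arc γ j).eval 0) f`, `(arc γ j).eval 0 = γ (j, 0)`).
`along (L.gen g) γ = V₀ * ∏ i, P i ^ w g i`. If some `i` has `w g i ≠ 0` and `vv i = n`: the polynomial is
`0`, and `pair (w g) (vv + 1) ≥ n + 1 ≥ k`. Otherwise it is `X ^ d * (V₀ * ∏ i, Q i ^ w g i)`,
`d = pair (w g) (vv + 1)`, and the constant term of the second factor is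
`eval p (V g) * ∏ lc i ^ w g i ≠ 0`: `lt_iff` and `coeff_eq` follow (`Polynomial.coeff_X_pow_mul'`).
(In `coeff_eq`, `d ≤ n` excludes `vv i = n` for `w g i ≠ 0`.)
-/

open MvPolynomial

namespace MotMono
namespace LF

variable {I Γ : Type} [Fintype I] {N n : ℕ} (L : Loc I Γ N) {γ : Fin N × Fin (n + 1) → ℂ}

theorem coeff_along_zero (f : MvPolynomial (Fin N) ℂ) :
    (along f γ).coeff 0 = eval (fun j => γ (j, 0)) f := by
  rw [Polynomial.coeff_zero_eq_eval_zero, along]
  induction f using MvPolynomial.induction_on with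
  | C a => simp
  | add p q hp hq => rw [map_add, Polynomial.eval_add, hp, hq, map_add]
  | mul_X p i hp =>
    rw [map_mul, Polynomial.eval_mul, hp, map_mul, aeval_X, eval_X]
    congr 1
    rw [← Polynomial.coeff_zero_eq_eval_zero, a1_arc_coeff]
    simp

/-- factorization of the polynomial of a form along a jet -/
private theorem j2_fac (h0 : ∀ j, γ (j, 0) = L.p j) (i : I) :
    ∃ Q : Polynomial ℂ, along (linForm (L.a i)) γ = Polynomial.X ^ (vv L.a γ i + 1) * Q ∧
      (vv L.a γ i < n → Q.coeff 0 = lc L.a γ i) ∧ (vv L.a γ i = n → Q = 0) := by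
  have hvn := vv_le L.a γ i
  have hvan : ∀ l < vv L.a γ i + 1, (along (linForm (L.a i)) γ).coeff l = 0 := by
    intro l hl
    rw [along_linForm_coeff]
    split_ifs with h
    · rcases l with _ | l
      · have : lev γ ⟨0, h⟩ = L.p := by
          funext j
          exact h0 j
        rw [this, L.hp]
      · have h1 := (le_vv_iff (a := L.a) (γ := γ) (i := i) hvn).1 le_rfl ⟨l, by omega⟩
          (by simpa using (by omega : l < vv L.a γ i))
        exact h1
    · rfl
  obtain ⟨Q, hQ⟩ := Polynomial.X_pow_dvd_iff.2 hvan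
  refine ⟨Q, hQ, ?_, ?_⟩
  · intro h
    have h1 : (along (linForm (L.a i)) γ).coeff (vv L.a γ i + 1) = Q.coeff 0 := by
      rw [hQ, Polynomial.coeff_X_pow_mul', if_pos le_rfl, Nat.sub_self]
    rw [← h1, along_linForm_coeff, dif_pos (by omega), lc_eq h]
    rfl
  · intro h
    have h1 : along (linForm (L.a i)) γ = 0 := by
      ext l
      rw [Polynomial.coeff_zero]
      by_cases hl : l < n + 1
      · exact hvan l (by omega)
      · rw [along_linForm_coeff, dif_neg hl]
    rw [h1] at hQ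
    rcases mul_eq_zero.1 hQ.symm with h2 | h2
    · exact absurd h2 (pow_ne_zero _ Polynomial.X_ne_zero)
    · exact h2

private theorem j2_gen (h0 : ∀ j, γ (j, 0) = L.p j) (g : Γ) :
    ∃ R : Polynomial ℂ,
      along (L.gen g) γ = Polynomial.X ^ pair (L.w g) (fun i => vv L.a γ i + 1) * R ∧
      ((∃ i, L.w g i ≠ 0 ∧ vv L.a γ i = n) → R = 0) ∧
      (¬ (∃ i, L.w g i ≠ 0 ∧ vv L.a γ i = n) →
        R.coeff 0 = eval L.p (L.V g) * ∏ i, lc L.a γ i ^ L.w g i) := by
  choose Q hQ1 hQ2 hQ3 using j2_fac L h0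
  have hV : (along (L.V g) γ).coeff 0 = eval L.p (L.V g) := by
    rw [coeff_along_zero]
    congr 2
    funext j
    exact h0 j
  refine ⟨along (L.V g) γ * ∏ i, Q i ^ L.w g i, ?_, ?_, ?_⟩
  · have h1 : along (L.gen g) γ = along (L.V g) γ * ∏ i, along (linForm (L.a i)) γ ^ L.w g i := by
      unfold Loc.gen along
      rw [map_mul, map_prod]
      simp only [map_pow]
    have h2 : ∏ i, along (linForm (L.a i)) γ ^ L.w g i =
        Polynomial.X ^ pair (L.w g) (fun i => vv L.a γ i + 1) * ∏ i, Q i ^ L.w g i := by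
      unfold pair
      rw [← Finset.prod_pow_eq_pow_sum, ← Finset.prod_mul_distrib]
      refine Finset.prod_congr rfl fun i _ => ?_
      rw [hQ1 i, mul_pow, ← pow_mul, mul_comm (vv L.a γ i + 1)]
    rw [h1, h2]
    ring
  · rintro ⟨i, hi, hv⟩
    rw [Finset.prod_eq_zero (Finset.mem_univ i), mul_zero]
    rw [hQ3 i hv, zero_pow hi]
  · intro h
    push Not at h
    rw [Polynomial.mul_coeff_zero, hV]
    congr 1
    have h1 : ∀ i, (Q i ^ L.w g i).coeff 0 = lc L.a γ i ^ L.w g i := by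
      intro i
      by_cases hi : L.w g i = 0
      · simp [hi]
      · have h2 : vv L.a γ i < n := lt_of_le_of_ne (vv_le L.a γ i) (h i hi)
        rw [← hQ2 i h2, Polynomial.coeff_zero_eq_eval_zero, Polynomial.eval_pow,
          ← Polynomial.coeff_zero_eq_eval_zero]
    rw [Polynomial.coeff_zero_eq_eval_zero, Polynomial.eval_prod]
    refine Finset.prod_congr rfl fun i _ => ?_
    rw [← h1 i, Polynomial.coeff_zero_eq_eval_zero]

private theorem j2_big {g : Γ} (h : ∃ i, L.w g i ≠ 0 ∧ vv L.a γ i = n) :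
    n + 1 ≤ pair (L.w g) (fun i => vv L.a γ i + 1) := by
  obtain ⟨i, hi, hv⟩ := h
  unfold pair
  have h1 : L.w g i * (vv L.a γ i + 1) ≤ ∑ i, L.w g i * (vv L.a γ i + 1) :=
    Finset.single_le_sum (f := fun i => L.w g i * (vv L.a γ i + 1)) (fun _ _ => Nat.zero_le _)
      (Finset.mem_univ i)
  refine le_trans ?_ h1
  rw [hv]
  exact Nat.le_mul_of_pos_left _ (Nat.pos_of_ne_zero hi)

private theorem j2_ne (g : Γ) : eval L.p (L.V g) * ∏ i, lc L.a γ i ^ L.w g i ≠ 0 :=
  mul_ne_zero (L.hV g) (Finset.prod_ne_zero_iff.2 fun i _ => pow_ne_zero _ (lc_ne_zero L.a γ i))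

theorem along_gen_lt_iff (h0 : ∀ j, γ (j, 0) = L.p j) (g : Γ) {k : ℕ} (hk : k ≤ n + 1) :
    (∀ l < k, (along (L.gen g) γ).coeff l = 0) ↔
      k ≤ pair (L.w g) (fun i => vv L.a γ i + 1) := by
  obtain ⟨R, hR, hR1, hR2⟩ := j2_gen L h0 g
  by_cases h : ∃ i, L.w g i ≠ 0 ∧ vv L.a γ i = n
  · have h1 := j2_big L h
    rw [hR, hR1 h, mul_zero]
    simp only [Polynomial.coeff_zero, implies_true, true_iff]
    exact hk.trans h1
  · have h2 := hR2 h
    constructor
    · intro h3
      by_contra hlt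
      push Not at hlt
      have h4 := h3 _ hlt
      rw [hR, Polynomial.coeff_X_pow_mul', if_pos le_rfl, Nat.sub_self, h2] at h4
      exact j2_ne L g h4
    · intro h3 l hl
      rw [hR, Polynomial.coeff_X_pow_mul', if_neg (by omega)]

theorem along_gen_coeff (h0 : ∀ j, γ (j, 0) = L.p j) (g : Γ) {d : ℕ}
    (hd : pair (L.w g) (fun i => vv L.a γ i + 1) = d) (hdn : d ≤ n) :
    (along (L.gen g) γ).coeff d = eval L.p (L.V g) * ∏ i, lc L.a γ i ^ L.w g i := by
  obtain ⟨R, hR, hR1, hR2⟩ := j2_gen L h0 g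
  have h : ¬ ∃ i, L.w g i ≠ 0 ∧ vv L.a γ i = n := by
    intro h
    have := j2_big L h
    omega
  rw [hR, hd, Polynomial.coeff_X_pow_mul', if_pos le_rfl, Nat.sub_self, hR2 h]

/-- a jet along which all generators vanish to order at least `k`: so does the ideal -/
theorem along_J_lt (γ : Fin N × Fin (n + 1) → ℂ) {k : ℕ}
    (h : ∀ g, ∀ l < k, (along (L.gen g) γ).coeff l = 0) (f : MvPolynomial (Fin N) ℂ)
    (hf : f ∈ L.J) : ∀ l < k, (along f γ).coeff l = 0 := by
  rw [← Polynomial.X_pow_dvd_iff]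
  unfold Loc.J at hf
  induction hf using Submodule.span_induction with
  | mem x hx =>
    obtain ⟨g, rfl⟩ := hx
    exact Polynomial.X_pow_dvd_iff.2 (h g)
  | zero => simp [along]
  | add x y _ _ hx hy =>
    have : along (x + y) γ = along x γ + along y γ := by simp [along]
    rw [this]
    exact dvd_add hx hy
  | smul a x _ hx =>
    have : along (a • x) γ = along a γ * along x γ := by simp [along]
    rw [this]
    exact hx.mul_left _

end LF
end MotMono
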