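import Pool.Agent.Lib.MP_4e5fcd_ag.LF.Base
import Pool.Agent.Lib.MP_4e5fcd_ag.K1

/-!
# LF-X5: the fibration property with complex coefficients

Let `θ : ℂ →ₗ[ℚ] ℚ`. Choose `M > 0` such that all `M * θ (c i)` are integers (product of the
denominators). For every `y`: `∑ θ (c i) * χ (fibre_i y) = θ (∑ c i * χ (fibre_i y)) = 0`
(`θ (c * (m : ℂ)) = θ c * m` for integers `m`), so by `hχ.fubini` with the integers `M θ (c i)`:
`∑ θ (c i) * χ (cls (X i)) = 0 = θ (∑ c i * χ (cls (X i)))`. The functionals `θ` separate points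
(`Module.forall_dual_apply_eq_zero_iff ℚ`).
-/

open MvPolynomial

namespace MotMono
namespace LF

theorem fubini_C {χ : K0 →+* ℤ} (hχ : IsEulerCharF χ) {ι τ : Type} [Fintype ι] [Finite τ]
    (σ : ι → Type) [∀ i, Finite (σ i)] (X : ∀ i, Set (σ i ⊕ τ → ℂ)) (hX : ∀ i, Constr (X i))
    (c : ι → ℂ)
    (h : ∀ y : τ → ℂ,
      ∑ i, c i * ((χ (cls {x : σ i → ℂ | Sum.elim x y ∈ X i}) : ℤ) : ℂ) = 0) :
    ∑ i, c i * ((χ (cls (X i)) : ℤ) : ℂ) = 0 := by
  classical
  refine (Module.forall_dual_apply_eq_zero_iff ℚ _).mp fun θ => ?_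
  have hθ : ∀ m : ι → ℤ, θ (∑ i, c i * ((m i : ℤ) : ℂ)) = ∑ i, θ (c i) * (m i : ℚ) := by
    intro m
    rw [map_sum]
    refine Finset.sum_congr rfl fun i _ => ?_
    have : c i * ((m i : ℤ) : ℂ) = ((m i : ℤ) : ℚ) • c i := by
      rw [mul_comm, Algebra.smul_def]
      simp
    rw [this, map_smul, smul_eq_mul, mul_comm]
  -- a common denominator
  let M : ℕ := ∏ i, (θ (c i)).den
  have hM : (M : ℚ) ≠ 0 := by
    simp only [M, Nat.cast_prod]
    exact Finset.prod_ne_zero_iff.mpr fun i _ => by exact_mod_cast (θ (c i)).den_nz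
  have hint : ∀ i, ∃ z : ℤ, (z : ℚ) = M * θ (c i) := by
    intro i
    refine ⟨(∏ j ∈ Finset.univ.erase i, ((θ (c j)).den : ℤ)) * (θ (c i)).num, ?_⟩
    have h1 : (M : ℚ) = (∏ j ∈ Finset.univ.erase i, ((θ (c j)).den : ℚ)) * (θ (c i)).den := by
      simp only [M, Nat.cast_prod]
      rw [Finset.prod_erase_mul _ _ (Finset.mem_univ i)]
    rw [h1, mul_assoc, Rat.den_mul_eq_num]
    push_cast
    rfl
  choose z hz using hint
  have key := hχ.fubini σ X hX z (fun y => by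
    have h2 := congrArg θ (h y)
    rw [hθ (fun i => χ (cls {x : σ i → ℂ | Sum.elim x y ∈ X i})), map_zero] at h2
    have h3 : ((∑ i, z i * χ (cls {x : σ i → ℂ | Sum.elim x y ∈ X i}) : ℤ) : ℚ) = 0 := by
      push_cast
      simp only [hz, mul_assoc]
      rw [← Finset.mul_sum, h2, mul_zero]
    exact_mod_cast h3)
  rw [hθ (fun i => χ (cls (X i)))]
  have h4 : ((∑ i, z i * χ (cls (X i)) : ℤ) : ℚ) = 0 := by
    rw [key]; rfl
  push_cast at h4
  simp only [hz, mul_assoc] at h4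
  rw [← Finset.mul_sum] at h4
  exact (mul_eq_zero.mp h4).resolve_left hM

end LF
end MotMono
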