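import Pool.Agent.Lib.MP_4e5fcd_ag.LF.Base
import Pool.Agent.Lib.MP_4e5fcd_ag.K1
import Pool.Agent.Lib.MP_4e5fcd_ag.C2

/-!
# LF-X4: Euler characteristics with the fibration property

`chi_finset`: induction on the finset, `cls_union`, `cls_singleton`.
`chi_fib_const`: `fubini` with `ι = Bool`, `σ true = σ`, `σ false = Empty`, `X true = X`,
`X false = {z : Empty ⊕ τ → ℂ | z ∘ inr ∈ Y}`, coefficients `1, -n`. For `y ∈ Y` the fibres have Euler
characteristic `n` and `1` (`k1_cls_one`: `{x : Empty → ℂ | ..} = univ`), for `y ∉ Y` they are empty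
(`cls_empty`). `cls (X false) = cls Y` (`RegIso.reindex` with `Empty ⊕ τ ≃ τ`).
`isEulerChar_of_F`: `kummer`: the covering `kummerCover E h m` is isomorphic (`Equiv.sumComm`) to
`X = {z : Unit ⊕ σ → ℂ | z ∘ inr ∈ E ∧ z (inl ()) ^ m = eval (z ∘ inr) h}`, apply `chi_fib_const` with
`Y = E`, `n = m`: for `y ∈ E` the fibre is the set of the `m` solutions of `u ^ m = c`, `c ≠ 0`
(finite of cardinality `m`: `Polynomial.nthRoots`, `Complex.card_rootsOfUnity`, or
`IsPrimitiveRoot`), `chi_finset`.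
-/

open MvPolynomial

namespace MotMono
namespace LF

theorem chi_finset (χ : K0 →+* ℤ) {σ : Type} [Finite σ] (s : Finset (σ → ℂ)) :
    χ (cls (s : Set (σ → ℂ))) = s.card := by
  classical
  have e : (s : Set (σ → ℂ)) = ⋃ p ∈ s, ({p} : Set (σ → ℂ)) := by
    ext x; simp
  rw [e, cls_biUnion s (fun p _ => constr_singleton p)]
  · simp only [cls_singleton, Finset.sum_const, nsmul_eq_mul, mul_one, map_natCast]
  · intro i _ j _ hij
    simpa using hij

theorem x4_fub2 {χ : K0 →+* ℤ} (hχ : IsEulerCharF χ) {σ₁ σ₂ τ : Type} [Finite σ₁] [Finite σ₂]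
    [Finite τ] {X₁ : Set (σ₁ ⊕ τ → ℂ)} (hX₁ : Constr X₁) {X₂ : Set (σ₂ ⊕ τ → ℂ)}
    (hX₂ : Constr X₂) (c₁ c₂ : ℤ)
    (h : ∀ y : τ → ℂ, c₁ * χ (cls {x : σ₁ → ℂ | Sum.elim x y ∈ X₁}) +
      c₂ * χ (cls {x : σ₂ → ℂ | Sum.elim x y ∈ X₂}) = 0) :
    c₁ * χ (cls X₁) + c₂ * χ (cls X₂) = 0 := by
  let F : Bool → (σ : Type) × (_ : PLift (Finite σ)) × {X : Set (σ ⊕ τ → ℂ) // Constr X} :=
    fun b => match b with
    | true => ⟨σ₁, ⟨inferInstance⟩, X₁, hX₁⟩
    | false => ⟨σ₂, ⟨inferInstance⟩, X₂, hX₂⟩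
  have : ∀ b, Finite (F b).1 := fun b => (F b).2.1.down
  have key := hχ.fubini (ι := Bool) (τ := τ) (fun b => (F b).1) (fun b => (F b).2.2.1)
    (fun b => (F b).2.2.2) (fun b => match b with | true => c₁ | false => c₂) (fun y => by
      rw [Fintype.sum_bool]
      exact h y)
  rw [Fintype.sum_bool] at key
  exact key

theorem chi_fib_const {χ : K0 →+* ℤ} (hχ : IsEulerCharF χ) {σ τ : Type} [Finite σ] [Finite τ]
    {X : Set (σ ⊕ τ → ℂ)} (hX : Constr X) {Y : Set (τ → ℂ)} (hY : Constr Y) (n : ℤ)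
    (h1 : ∀ y ∈ Y, χ (cls {x : σ → ℂ | Sum.elim x y ∈ X}) = n)
    (h2 : ∀ y, y ∉ Y → ∀ x : σ → ℂ, Sum.elim x y ∉ X) : χ (cls X) = n * χ (cls Y) := by
  have key := x4_fub2 hχ (σ₁ := σ) (σ₂ := Empty) hX
    (hY.comp (Sum.inr : τ → Empty ⊕ τ)) 1 (-n) (by
    intro y
    by_cases hy : y ∈ Y
    · rw [h1 y hy]
      have e : {x : Empty → ℂ | Sum.elim x y ∈
        {z : Empty ⊕ τ → ℂ | (fun j => z (Sum.inr j)) ∈ Y}} = Set.univ := by
        ext x
        simpa using hy
      rw [e, k1_cls_one, map_one]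
      ring
    · have e1 : {x : σ → ℂ | Sum.elim x y ∈ X} = ∅ := by
        ext x
        simpa using h2 y hy x
      have e2 : {x : Empty → ℂ | Sum.elim x y ∈
        {z : Empty ⊕ τ → ℂ | (fun j => z (Sum.inr j)) ∈ Y}} = ∅ := by
        ext x
        simpa using hy
      rw [e1, e2, cls_empty, cls_empty, map_zero]
      ring)
  have e3 : cls {z : Empty ⊕ τ → ℂ | (fun j => z (Sum.inr j)) ∈ Y} = cls Y := by
    refine (cls_iso hY (hY.comp (Sum.inr : τ → Empty ⊕ τ)) ?_).symm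
    exact RegIso.reindex (Equiv.emptySum Empty τ).symm Y
  rw [e3] at key
  linarith

theorem isEulerChar_of_F {χ : K0 →+* ℤ} (hχ : IsEulerCharF χ) : IsEulerChar χ := by
  classical
  refine ⟨hχ.line, ?_⟩
  intro σ _ E hE h hh m hm
  have hK : Constr (kummerCover E h m) := by
    have h1 := hE.comp (Sum.inl : σ → σ ⊕ Unit)
    have h2 := constr_eq (X (Sum.inr ()) ^ m : MvPolynomial (σ ⊕ Unit) ℂ)
      (rename Sum.inl h : MvPolynomial (σ ⊕ Unit) ℂ)
    have h3 := h1.inter h2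
    have e : kummerCover E h m = {x : σ ⊕ Unit → ℂ | (fun j => x (Sum.inl j)) ∈ E} ∩
        {x | eval x (X (Sum.inr ()) ^ m : MvPolynomial (σ ⊕ Unit) ℂ) =
          eval x (rename Sum.inl h : MvPolynomial (σ ⊕ Unit) ℂ)} := by
      ext z
      simp only [kummerCover, Set.mem_ofPred_eq, Set.mem_inter_iff, map_pow, eval_X, eval_rename]
      rfl
    rw [e]
    exact h3
  have hR := RegIso.reindex (Equiv.sumComm σ Unit) (kummerCover E h m)
  set K : Set (Unit ⊕ σ → ℂ) :=
    {y : Unit ⊕ σ → ℂ | (fun i => y (Equiv.sumComm σ Unit i)) ∈ kummerCover E h m} with hKdef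
  have hK' : Constr K := hK.comp (Equiv.sumComm σ Unit)
  rw [cls_iso hK hK' hR]
  refine chi_fib_const hχ hK' hE (m : ℤ) (fun y hy => ?_) (fun y hy x hx => ?_)
  · have hc := hh y hy
    have hmem : {x : Unit → ℂ | Sum.elim x y ∈ K} =
        (((Polynomial.nthRoots m (eval y h)).toFinset.image (fun u => fun _ : Unit => u) :
          Finset (Unit → ℂ)) : Set (Unit → ℂ)) := by
      ext x
      simp only [hKdef, kummerCover, Set.mem_ofPred_eq, Finset.coe_image, Set.mem_image,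
        Finset.mem_coe, Multiset.mem_toFinset, Polynomial.mem_nthRoots hm]
      constructor
      · rintro ⟨-, h2⟩
        exact ⟨x (), h2, by funext u; cases u; rfl⟩
      · rintro ⟨u, hu, rfl⟩
        exact ⟨hy, hu⟩
    rw [hmem, chi_finset]
    have hinj : Function.Injective (fun u : ℂ => fun _ : Unit => u) := by
      intro a b hab
      exact congrFun hab ()
    rw [Finset.card_image_of_injective _ hinj]
    have hprim := Complex.isPrimitiveRoot_exp m hm.ne'
    rw [Multiset.toFinset_card_of_nodup (hprim.nthRoots_nodup hc), hprim.card_nthRoots, if_pos]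
    exact IsAlgClosed.exists_pow_nat_eq (eval y h) hm
  · exact hy hx.1

end LF
end MotMono
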