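import Pool.Agent.Lib.MP_4e5fcd_ag.LF.Base
import Pool.Agent.Lib.MP_4e5fcd_ag.K1
import Pool.Agent.Lib.MP_4e5fcd_ag.C2

/-!
# LF-X0: preimages under surjective affine-linear maps

Choose a linear map `s : (β → ℂ) → (σ → ℂ)` with `s y ∈ W`, `φ (s y) = y` (right inverse of the
surjective map `φ.domRestrict W`, `LinearMap.exists_rightInverse_of_surjective`), and
`Q = W ⊓ ker φ`. The set `E = {γ | γ - p₀ ∈ W ∧ φ (γ - p₀) ∈ X}` is in affine-linear bijection with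
`prodSet (Q : Set) X`: `γ ↦ (γ - p₀ - s (φ (γ - p₀)), φ (γ - p₀))`, inverse
`(k, y) ↦ k + s y + p₀` (`RegIso.linear`, or coordinatewise with `regFun_lin`, `RegFun.add`,
`regFun_const`). `cls_iso`, `cls_prodSet`, `cls_submodule`: `cls E = LL ^ m * cls X`, apply `χ`.
`E` is constructible: `constr_submodule`, `hX`, `Constr.preimage` (the affine-linear maps are
polynomial: `exists_linPoly`).
-/

open MvPolynomial

namespace MotMono
namespace LF

private theorem x0_affPoly {σ : Type} [Finite σ] (l : (σ → ℂ) →ₗ[ℂ] ℂ) (c : ℂ) :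
    ∃ P : MvPolynomial σ ℂ, ∀ x, eval x P = l x + c := by
  obtain ⟨P, hP⟩ := exists_linPoly l
  exact ⟨P + C c, fun x => by rw [map_add, hP, eval_C]⟩

private theorem x0_preim {σ τ : Type} [Finite σ] [Finite τ] (f : (σ → ℂ) →ₗ[ℂ] (τ → ℂ))
    (c : τ → ℂ) {X : Set (τ → ℂ)} (hX : Constr X) : Constr {x : σ → ℂ | f x + c ∈ X} := by
  have h1 : ∀ j : τ, ∃ P : MvPolynomial σ ℂ, ∀ x, eval x P = f x j + c j := by
    intro j
    exact x0_affPoly ((LinearMap.proj j).comp f) (c j)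
  choose P hP using h1
  have h2 := hX.preimage P
  have h3 : {x : σ → ℂ | (fun j => eval x (P j)) ∈ X} = {x : σ → ℂ | f x + c ∈ X} := by
    ext x
    have h4 : (fun j => eval x (P j)) = f x + c := by
      funext j
      rw [hP]
      rfl
    rw [Set.mem_ofPred_eq, Set.mem_ofPred_eq, h4]
  rwa [h3] at h2

theorem constr_linFib {σ β : Type} [Finite σ] [Finite β] (W : Submodule ℂ (σ → ℂ)) (p₀ : σ → ℂ)
    (φ : (σ → ℂ) →ₗ[ℂ] (β → ℂ)) {X : Set (β → ℂ)} (hX : Constr X) :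
    Constr {γ : σ → ℂ | γ - p₀ ∈ W ∧ φ (γ - p₀) ∈ X} := by
  have h1 := x0_preim (LinearMap.id : (σ → ℂ) →ₗ[ℂ] (σ → ℂ)) (-p₀) (constr_submodule W)
  have h2 := x0_preim φ (-(φ p₀)) hX
  have h3 : {γ : σ → ℂ | γ - p₀ ∈ W ∧ φ (γ - p₀) ∈ X} =
      {x : σ → ℂ | (LinearMap.id : (σ → ℂ) →ₗ[ℂ] (σ → ℂ)) x + (-p₀) ∈ (W : Set (σ → ℂ))} ∩
      {x : σ → ℂ | φ x + (-(φ p₀)) ∈ X} := by
    ext x
    simp [sub_eq_add_neg]
  rw [h3]
  exact h1.inter h2

theorem chi_linFib {σ β : Type} [Finite σ] [Finite β] {χ : K0 →+* ℤ} (hχ : χ LL = 1)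
    (W : Submodule ℂ (σ → ℂ)) (p₀ : σ → ℂ) (φ : (σ → ℂ) →ₗ[ℂ] (β → ℂ))
    (hφ : ∀ y, ∃ x ∈ W, φ x = y) {X : Set (β → ℂ)} (hX : Constr X) :
    χ (cls {γ : σ → ℂ | γ - p₀ ∈ W ∧ φ (γ - p₀) ∈ X}) = χ (cls X) := by
  obtain ⟨s, hs⟩ : ∃ s : (β → ℂ) →ₗ[ℂ] W, (φ.domRestrict W).comp s = LinearMap.id := by
    apply LinearMap.exists_rightInverse_of_surjective
    rw [LinearMap.range_eq_top]
    intro y
    obtain ⟨x, hx, hxy⟩ := hφ y
    exact ⟨⟨x, hx⟩, hxy⟩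
  have hs1 : ∀ y, φ (s y : σ → ℂ) = y := by
    intro y
    have := LinearMap.congr_fun hs y
    simpa using this
  let s' : (β → ℂ) →ₗ[ℂ] (σ → ℂ) := W.subtype.comp s
  have hs' : ∀ y, φ (s' y) = y := hs1
  have hsW : ∀ y, s' y ∈ W := fun y => (s y).2
  let Q : Submodule ℂ (σ → ℂ) := W ⊓ LinearMap.ker φ
  let inlM : (σ → ℂ) →ₗ[ℂ] (σ ⊕ β → ℂ) :=
    LinearMap.pi (Sum.elim (fun i => LinearMap.proj i) (fun _ => 0))
  let inrM : (β → ℂ) →ₗ[ℂ] (σ ⊕ β → ℂ) :=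
    LinearMap.pi (Sum.elim (fun _ => 0) (fun i => LinearMap.proj i))
  let prl : (σ ⊕ β → ℂ) →ₗ[ℂ] (σ → ℂ) := LinearMap.pi (fun i => LinearMap.proj (Sum.inl i))
  let prr : (σ ⊕ β → ℂ) →ₗ[ℂ] (β → ℂ) := LinearMap.pi (fun i => LinearMap.proj (Sum.inr i))
  have e1 : ∀ u v, prl (inlM u + inrM v) = u := by
    intro u v
    funext i
    simp [prl, inlM, inrM]
  have e2 : ∀ u v, prr (inlM u + inrM v) = v := by
    intro u v
    funext i
    simp [prr, inlM, inrM]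
  have e3 : ∀ z, inlM (prl z) + inrM (prr z) = z := by
    intro z
    funext i
    rcases i with i | i <;> simp [prl, prr, inlM, inrM]
  have hQ : Constr (Q : Set (σ → ℂ)) := constr_submodule Q
  have hiso : RegIso {γ : σ → ℂ | γ - p₀ ∈ W ∧ φ (γ - p₀) ∈ X} (prodSet (Q : Set (σ → ℂ)) X) := by
    have hmem : ∀ z : σ ⊕ β → ℂ, z ∈ prodSet (Q : Set (σ → ℂ)) X ↔
        (prl z ∈ W ∧ φ (prl z) = 0) ∧ prr z ∈ X := by
      intro z
      rfl
    let Fm : (σ → ℂ) →ₗ[ℂ] (σ ⊕ β → ℂ) := inlM.comp (LinearMap.id - s'.comp φ) + inrM.comp φ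
    have hFm : ∀ x, Fm x + (inlM (-p₀ + s' (φ p₀)) + inrM (-(φ p₀))) =
        inlM ((x - p₀) - s' (φ (x - p₀))) + inrM (φ (x - p₀)) := by
      intro x
      simp only [Fm, LinearMap.add_apply, LinearMap.comp_apply, LinearMap.sub_apply,
        LinearMap.id_apply, map_add, map_sub, map_neg]
      abel
    refine RegIso.linear Fm
      (prl + s'.comp prr) (inlM (-p₀ + s' (φ p₀)) + inrM (-(φ p₀))) p₀ ?_ ?_ ?_ ?_
    · rintro x ⟨hx1, hx2⟩
      rw [hFm x, hmem, e1, e2]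
      refine ⟨⟨W.sub_mem hx1 (hsW _), ?_⟩, hx2⟩
      rw [map_sub, hs', sub_self]
    · intro z hz
      rw [hmem] at hz
      obtain ⟨⟨hz1, hz2⟩, hz3⟩ := hz
      rw [Set.mem_ofPred_eq]
      have h1 : (prl + s'.comp prr) z + p₀ - p₀ = prl z + s' (prr z) := by
        simp
      rw [h1, map_add, hz2, hs', zero_add]
      exact ⟨W.add_mem hz1 (hsW _), hz3⟩
    · rintro x ⟨hx1, hx2⟩
      rw [hFm x]
      simp only [LinearMap.add_apply, LinearMap.comp_apply, e1, e2]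
      abel
    · intro z hz
      rw [hmem] at hz
      obtain ⟨⟨hz1, hz2⟩, hz3⟩ := hz
      have h0 : (prl + s'.comp prr) z + p₀ - p₀ = prl z + s' (prr z) := by
        simp
      rw [hFm, h0, map_add φ, hz2, hs', zero_add, add_sub_cancel_right, e3]
  have hE := constr_linFib W p₀ φ hX
  rw [cls_iso hE (hQ.prodSet hX) hiso, cls_prodSet hQ hX, cls_submodule, map_mul, map_pow, hχ,
    one_pow, one_mul]

end LF
end MotMono
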