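import Pool.Agent.Lib.MP_4e5fcd_ag.Defs

/-!
# Ideals generated by products of linear forms: definitions
-/

open MvPolynomial

namespace MotMono

/-- Euler characteristics of complex varieties: ring homomorphisms `χ : K₀(Var_ℂ) → ℤ` with
`χ(A¹) = 1` and the fibration property: if `X_i ⊆ ℂ^(σ_i) × ℂ^τ` are finitely many constructible
sets and `c_i` are integers with `∑ c_i χ (fibre of X_i over y) = 0` for all `y ∈ ℂ^τ`, then
`∑ c_i χ (X_i) = 0`. The topological Euler characteristic (with compact supports) has these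
properties. -/
structure IsEulerCharF (χ : K0 →+* ℤ) : Prop where
  line : χ LL = 1
  fubini : ∀ {ι τ : Type} [Fintype ι] [Finite τ] (σ : ι → Type) [∀ i, Finite (σ i)]
    (X : ∀ i, Set (σ i ⊕ τ → ℂ)), (∀ i, Constr (X i)) → ∀ c : ι → ℤ,
    (∀ y : τ → ℂ, ∑ i, c i * χ (cls {x : σ i → ℂ | Sum.elim x y ∈ X i}) = 0) →
      ∑ i, c i * χ (cls (X i)) = 0

/-- `f` is a product of linear forms, up to a factor which does not vanish at the origin. -/
def IsProdLin {N : ℕ} (f : MvPolynomial (Fin N) ℂ) : Prop :=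
  ∃ (u : MvPolynomial (Fin N) ℂ) (n : ℕ) (a : Fin n → Fin N → ℂ), eval 0 u ≠ 0 ∧
    f = u * ∏ j, ∑ i, C (a j i) * X i

end MotMono
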