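import Pool.Agent.Lib.MP_4e5fcd_ag.LF.A3

/-!
# LF-A6: the space `LinM`

`LinM.exchange`: if `i ∈ B` then `b = i`. Otherwise `insert i (B.erase b)` is a `MaxB`
(`MaxB.exchange`); compare the weights of `z` on the two bases.
`self_mem`: the weight of `x` on a `MaxB` is the maximal weight of a basis (`MaxB.weight_le` twice);
`one_mem`: all bases have the same cardinality (`isBas_card`).
-/

open MvPolynomial

namespace MotMono
namespace LF

variable {I : Type} {N : ℕ} {a : I → Fin N → ℂ} {D B : Finset I} {x x' : I → ℕ} {i b : I}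
  {z : I → ℚ}

private theorem A6_mem : z ∈ LinM a D x ↔ (∀ i, i ∉ D → z i = 0) ∧
    ∀ B B', MaxB a D x B → MaxB a D x B' → ∑ b ∈ B, z b = ∑ b ∈ B', z b := Iff.rfl

theorem linM_congr (h : ∀ B, MaxB a D x B ↔ MaxB a D x' B) : LinM a D x = LinM a D x' := by
  ext z
  rw [A6_mem, A6_mem]
  refine and_congr_right fun _ => ?_
  constructor
  · intro H B B' hB hB'
    exact H B B' ((h B).2 hB) ((h B').2 hB')
  · intro H B B' hB hB'
    exact H B B' ((h B).1 hB) ((h B').1 hB')

theorem LinM_exchange (hz : z ∈ LinM a D x) (h : MaxB a D x B) (hi : i ∈ D)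
    (hc : cf a B i b ≠ 0) (hx : x b = x i) : z b = z i := by
  classical
  have hb : b ∈ B := by
    by_contra hb
    exact hc (cf_zero hb)
  by_cases hiB : i ∈ B
  · have hbi : b = i := by
      by_contra hne
      exact hc (cf_self_ne h.1.2.1 hiB hne)
    rw [hbi]
  · have h1 := (A6_mem.1 hz).2 B (insert i (B.erase b)) h ((MaxB.exchange h hi hc).2 hx)
    rw [Finset.sum_insert (fun hi' => hiB (Finset.mem_of_mem_erase hi')),
      ← Finset.add_sum_erase B z hb] at h1
    linarith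

open Classical in
theorem self_mem_LinM (a : I → Fin N → ℂ) (D : Finset I) (x : I → ℕ) :
    (fun i => if i ∈ D then (x i : ℚ) else 0) ∈ LinM a D x := by
  refine A6_mem.2 ⟨fun i hi => if_neg hi, fun B B' hB hB' => ?_⟩
  have key : ∀ B, MaxB a D x B → ∑ b ∈ B, (if b ∈ D then (x b : ℚ) else 0) =
      ((∑ b ∈ B, x b : ℕ) : ℚ) := by
    intro B hB
    push_cast
    exact Finset.sum_congr rfl fun b hb => if_pos (hB.1.1 hb)
  rw [key B hB, key B' hB']
  exact_mod_cast le_antisymm (MaxB.weight_le hB' hB.1) (MaxB.weight_le hB hB'.1)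

open Classical in
theorem one_mem_LinM (a : I → Fin N → ℂ) (D : Finset I) (x : I → ℕ) :
    (fun i => if i ∈ D then (1 : ℚ) else 0) ∈ LinM a D x := by
  refine A6_mem.2 ⟨fun i hi => if_neg hi, fun B B' hB hB' => ?_⟩
  have key : ∀ B, MaxB a D x B → ∑ b ∈ B, (if b ∈ D then (1 : ℚ) else 0) =
      (rkS a (D : Set I) : ℚ) := by
    intro B hB
    rw [← isBas_card hB.1, Finset.sum_congr rfl fun b hb => if_pos (hB.1.1 hb)]
    simp
  rw [key B hB, key B' hB']

theorem pq_natCast [Fintype I] (v x : I → ℕ) : pq v (fun i => (x i : ℚ)) = (pair v x : ℚ) := by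
  unfold pq pair
  push_cast
  rfl

/-- only the coordinates in the support of `v` matter -/
theorem pq_congr [Fintype I] {v : I → ℕ} {y z : I → ℚ} (h : ∀ i, v i ≠ 0 → y i = z i) :
    pq v y = pq v z := by
  unfold pq
  refine Finset.sum_congr rfl fun i _ => ?_
  by_cases hv : v i = 0
  · rw [hv]
    simp
  · rw [h i hv]

/-- the minimum of the generators is attained on the face -/
theorem mn_eq {Γ : Type} [Fintype I] [Fintype Γ] {w : Γ → I → ℕ} {u : I → ℕ} {g : Γ}
    (hg : g ∈ Fc w u) : mn w u = pair (w g) u := by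
  have h1 : ∀ g', pair (w g) u ≤ pair (w g') u := by
    unfold Fc at hg
    exact (Finset.mem_filter.1 hg).2
  refine le_antisymm (Nat.sInf_le ⟨g, rfl⟩) (le_csInf ⟨_, g, rfl⟩ ?_)
  rintro _ ⟨g', rfl⟩
  exact h1 g'

theorem mn_le {Γ : Type} [Fintype I] [Fintype Γ] (w : Γ → I → ℕ) (u : I → ℕ) (g : Γ) :
    mn w u ≤ pair (w g) u :=
  Nat.sInf_le ⟨g, rfl⟩

theorem mem_Fc_iff {Γ : Type} [Fintype I] [Fintype Γ] {w : Γ → I → ℕ} {u : I → ℕ} {g : Γ} :
    g ∈ Fc w u ↔ pair (w g) u = mn w u := by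
  constructor
  · exact fun h => (mn_eq h).symm
  · intro h
    unfold Fc
    refine Finset.mem_filter.2 ⟨Finset.mem_univ _, fun g' => ?_⟩
    rw [h]
    exact mn_le w u g'

theorem Fc_nonempty {Γ : Type} [Fintype I] [Fintype Γ] [Nonempty Γ] (w : Γ → I → ℕ)
    (u : I → ℕ) : (Fc w u).Nonempty := by
  obtain ⟨g, hg⟩ := Finite.exists_min (fun g => pair (w g) u)
  refine ⟨g, ?_⟩
  unfold Fc
  exact Finset.mem_filter.2 ⟨Finset.mem_univ _, hg⟩

end LF
end MotMono
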