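import Pool.Agent.Lib.MP_4e5fcd_ag.LF.A5
import Pool.Agent.Lib.MP_4e5fcd_ag.LF.A6

/-!
# LF-S2: directions

Let `u ∈ UU a w S D T`, `E = DT w D T`; `u` (as a rational vector; `u i = 0` off `E`) is in
`LinM a E u` (`self_mem_LinM`).
`UU_pos`: `u ≠ 0` because `Prim u` excludes `u = 0` (take `d = 2`, or `d = 0`). If `S = ∅`, `Sep` gives
`u = 0`. If `pair (w g) u = 0` for some (hence all) `g ∈ S`, `Sep` gives `u = 0` (`pq_natCast`).
`UU_inj`: `LinM a E u = LinM a E u'` (`linM_congr`). Let `k = pair (w g) u`, `k' = pair (w g) u'`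
(`g ∈ S`, both positive). `k' u - k u' ∈ LinM`, `pq (w g) = 0` on it for all `g ∈ S`, so `k' u = k u'`;
both primitive: `u = u'` (`Prim`: with `g = gcd k k'`; for every `i`, `k' u i = k u' i`; so `k / g ∣ u i`
for all `i`, `k / g = 1`, similarly `k' / g = 1`).
`finite_UU`: `u ↦ {B | MaxB a E u B} : Finset (Finset I)` (or `Set`) is injective on `UU` with values in
a finite type (`Set.Finite.of_injOn` / `Set.toFinite` of the image, `Set.Finite.of_finite_image`).
`exists_UU`: `S ≠ ∅`, `1 ≤ n`: `E ≠ ∅` (for `g ∈ S`, `pair (w g) (m + 1) = n ≥ 1`). Let `α` be the gcd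
of the `m i + 1`, `i ∈ E` (`0 < α`), `u i = (m i + 1) / α` for `i ∈ E`, `0` otherwise; `m i + 1 = α u i` on
`E`, `Prim u`. `MaxB a E u B ↔ MaxB a E m B` (`maxB_smul`, `maxB_shift`, `maxB_congr`), so `Sep`.
Closedness: for `i ∈ E`: `clo a E (m + 1) i = m i + 1` (`clo_shift`; `a i ∈ sp E`), and
`clo a E (α u) i = α * clo a E u i` (`clo_smul`), `clo_congr`. For `g ∈ S`: `α * pair (w g) u = n`
(`w g` is supported in `E`), for `g ∈ T`: `α * pair (w g) u ≤ n`.
-/

open MvPolynomial

namespace MotMono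
namespace LF

variable {I Γ : Type} [Fintype I] [Fintype Γ] {N : ℕ} {a : I → Fin N → ℂ} {w : Γ → I → ℕ}
  {S T : Finset Γ} {D : Finset I} {u u' m : I → ℕ} {n : ℕ}

theorem s2_q {E : Finset I} (h : ∀ i, u i ≠ 0 ↔ i ∈ E) :
    (fun i => (u i : ℚ)) ∈ LinM a E u := by
  classical
  have h1 := self_mem_LinM a E u
  convert h1 using 2 with i
  by_cases hi : i ∈ E
  · simp [hi]
  · have h2 : u i = 0 := by
      by_contra h3
      exact hi ((h i).1 h3)
    simp [hi, h2]

theorem s2_ne (hp : Prim u) : ¬ ((fun i => (u i : ℚ)) = 0) := by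
  intro h
  have h1 : ∀ i, u i = 0 := fun i => by
    have h2 := congrFun h i
    simpa using h2
  have := hp 2 (fun i => by rw [h1 i]; exact dvd_zero 2)
  omega

theorem UU_pos (hu : u ∈ UU a w S D T) : S.Nonempty ∧ ∀ g ∈ S, 0 < pair (w g) u := by
  obtain ⟨h1, h2, h3, h4, h5, h6⟩ := hu
  have hq := s2_q (a := a) h1
  have hne := s2_ne h2
  constructor
  · by_contra hS
    rw [Finset.not_nonempty_iff_eq_empty] at hS
    exact hne (h4 _ hq (by intro g hg; rw [hS] at hg; simp at hg))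
  · intro g hg
    by_contra h0
    have h0' : pair (w g) u = 0 := by omega
    refine hne (h4 _ hq ?_)
    intro g' hg'
    rw [pq_natCast, h5 g' hg' g hg, h0']
    simp

theorem s2_prim {k k' : ℕ} (hk : 0 < k) (hk' : 0 < k') (hp : Prim u) (hp' : Prim u')
    (h : ∀ i, k' * u i = k * u' i) : u = u' := by
  have hd : 0 < Nat.gcd k k' := Nat.gcd_pos_of_pos_left _ hk
  obtain ⟨d, k1, k1', hd0, hco, e1, e2⟩ := Nat.exists_coprime' hd
  subst e1 e2
  have h' : ∀ i, k1' * u i = k1 * u' i := by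
    intro i
    have h1 := h i
    have h2 : d * (k1' * u i) = d * (k1 * u' i) := by
      calc d * (k1' * u i) = k1' * d * u i := by ring
        _ = k1 * d * u' i := h1
        _ = d * (k1 * u' i) := by ring
    exact Nat.eq_of_mul_eq_mul_left hd0 h2
  have e1 : k1 = 1 := hp k1 (fun i => by
    have : k1 ∣ k1' * u i := ⟨u' i, h' i⟩
    exact hco.dvd_of_dvd_mul_left this)
  have e2 : k1' = 1 := hp' k1' (fun i => by
    have : k1' ∣ k1 * u' i := ⟨u i, (h' i).symm⟩
    exact hco.symm.dvd_of_dvd_mul_left this)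
  funext i
  have := h' i
  rw [e1, e2] at this
  simpa using this

theorem UU_inj (hu : u ∈ UU a w S D T) (hu' : u' ∈ UU a w S D T)
    (h : ∀ B, MaxB a (DT w D T) u B ↔ MaxB a (DT w D T) u' B) : u = u' := by
  obtain ⟨⟨g, hg⟩, hpos⟩ := UU_pos hu
  obtain ⟨-, hpos'⟩ := UU_pos hu'
  obtain ⟨h1, h2, h3, h4, h5, h6⟩ := hu
  obtain ⟨h1', h2', h3', h4', h5', h6'⟩ := hu'
  have hq := s2_q (a := a) h1
  have hq' := s2_q (a := a) h1'
  rw [← linM_congr h] at hq'
  refine s2_prim (hpos g hg) (hpos' g hg) h2 h2' ?_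
  have hz : ((pair (w g) u' : ℚ)) • (fun i => (u i : ℚ)) - ((pair (w g) u : ℚ)) •
      (fun i => (u' i : ℚ)) ∈ LinM a (DT w D T) u :=
    Submodule.sub_mem _ (Submodule.smul_mem _ _ hq) (Submodule.smul_mem _ _ hq')
  have hz0 := h4 _ hz (by
    intro g' hg'
    have e1 : pq (w g') (((pair (w g) u' : ℚ)) • (fun i => (u i : ℚ)) - ((pair (w g) u : ℚ)) •
      (fun i => (u' i : ℚ))) = (pair (w g) u' : ℚ) * pq (w g') (fun i => (u i : ℚ)) -
        (pair (w g) u : ℚ) * pq (w g') (fun i => (u' i : ℚ)) := by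
      unfold pq
      rw [Finset.mul_sum, Finset.mul_sum, ← Finset.sum_sub_distrib]
      refine Finset.sum_congr rfl fun i _ => ?_
      simp only [Pi.sub_apply, Pi.smul_apply, smul_eq_mul]
      ring
    rw [e1, pq_natCast, pq_natCast, h5 g' hg' g hg, h5' g' hg' g hg]
    ring)
  intro i
  have := congrFun hz0 i
  simp only [Pi.sub_apply, Pi.smul_apply, smul_eq_mul, Pi.zero_apply, sub_eq_zero] at this
  exact_mod_cast this

theorem finite_UU (a : I → Fin N → ℂ) (w : Γ → I → ℕ) (S : Finset Γ) (D : Finset I)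
    (T : Finset Γ) : (UU a w S D T).Finite := by
  refine Set.Finite.of_injOn (f := fun u => {B : Finset I | MaxB a (DT w D T) u B})
    (t := Set.univ) (fun _ _ => Set.mem_univ _) ?_ (Set.toFinite _)
  intro u hu u' hu' h
  refine UU_inj hu hu' (fun B => ?_)
  have := congrArg (fun s => B ∈ s) h
  simpa using this

/-- invariance of `MaxB` -/
theorem maxB_dir {E B : Finset I} {α : ℕ} (hα : 0 < α) (h : ∀ i ∈ E, m i + 1 = α * u i) :
    MaxB a E m B ↔ MaxB a E u B := by
  rw [← maxB_shift 1, maxB_congr h, maxB_smul hα]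

theorem exists_UU (ha : ∀ i, a i ≠ 0) (hD : ∀ i, i ∈ D ↔ ∃ g ∈ S, w g i ≠ 0)
    (hS : S.Nonempty) (hn : 1 ≤ n) (hm : Sx w S (n + 1) m)
    (hT : ∀ g ∈ T, pair (w g) (fun i => m i + 1) ≤ n)
    (hsep : Sep w S (LinM a (DT w D T) m)) (hcl : ∀ i ∈ DT w D T, clo a (DT w D T) m i = m i) :
    ∃ u ∈ UU a w S D T, ∃ α, 0 < α ∧ ∀ i ∈ DT w D T, m i + 1 = α * u i := by
  classical
  set E := DT w D T with hE
  have hES : ∀ g ∈ S, ∀ i, w g i ≠ 0 → i ∈ E := by
    intro g hg i hi
    rw [hE]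
    unfold DT
    simp only [Finset.mem_filter, Finset.mem_univ, true_and]
    exact Or.inl ((hD i).2 ⟨g, hg, hi⟩)
  have hET : ∀ g ∈ T, ∀ i, w g i ≠ 0 → i ∈ E := by
    intro g hg i hi
    rw [hE]
    unfold DT
    simp only [Finset.mem_filter, Finset.mem_univ, true_and]
    exact Or.inr ⟨g, hg, hi⟩
  have hSn : ∀ g ∈ S, pair (w g) (fun i => m i + 1) = n := by
    intro g hg
    have := hm g hg
    omega
  have hEne : E.Nonempty := by
    obtain ⟨g, hg⟩ := hS
    by_contra hE0
    rw [Finset.not_nonempty_iff_eq_empty] at hE0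
    have h1 : pair (w g) (fun i => m i + 1) = 0 := by
      unfold pair
      refine Finset.sum_eq_zero fun i _ => ?_
      by_cases hi : w g i = 0
      · rw [hi, zero_mul]
      · have := hES g hg i hi
        rw [hE0] at this
        simp at this
    rw [hSn g hg] at h1
    omega
  set α := E.gcd (fun i => m i + 1) with hαdef
  have hdvd : ∀ i ∈ E, α ∣ m i + 1 := fun i hi => Finset.gcd_dvd hi
  have hα : 0 < α := by
    obtain ⟨i, hi⟩ := hEne
    exact Nat.pos_of_dvd_of_pos (hdvd i hi) (Nat.succ_pos _)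
  let u : I → ℕ := fun i => if i ∈ E then (m i + 1) / α else 0
  have hu : ∀ i ∈ E, m i + 1 = α * u i := by
    intro i hi
    simp only [u, if_pos hi]
    exact (Nat.mul_div_cancel' (hdvd i hi)).symm
  have hu0 : ∀ i, i ∉ E → u i = 0 := fun i hi => by simp only [u, if_neg hi]
  have hpair : ∀ g, (∀ i, w g i ≠ 0 → i ∈ E) →
      pair (w g) (fun i => m i + 1) = α * pair (w g) u := by
    intro g hg
    unfold pair
    rw [Finset.mul_sum]
    refine Finset.sum_congr rfl fun i _ => ?_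
    by_cases hi : w g i = 0
    · rw [hi]; simp
    · show w g i * (m i + 1) = α * (w g i * u i)
      rw [hu i (hg i hi)]
      ring
  refine ⟨u, ⟨?_, ?_, ?_, ?_, ?_, ?_⟩, α, hα, hu⟩
  · intro i
    constructor
    · intro h
      by_contra hi
      exact h (hu0 i hi)
    · intro hi h0
      have := hu i hi
      rw [h0] at this
      omega
  · intro d hd
    have h1 : ∀ i ∈ E, α * d ∣ m i + 1 := by
      intro i hi
      rw [hu i hi]
      exact Nat.mul_dvd_mul_left α (hd i)
    have h2 : α * d ∣ α := Finset.dvd_gcd h1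
    have h3 : α * d ∣ α * 1 := by simpa using h2
    exact Nat.eq_one_of_dvd_one (Nat.dvd_of_mul_dvd_mul_left hα h3)
  · intro i hi
    have h1 : α * clo a E u i = α * u i := by
      rw [← clo_smul (ha i) hα, ← hu i hi,
        ← clo_congr (a := a) (D := E) (i := i) (x := fun j => m j + 1) (x' := fun j => α * u j) hu,
        clo_shift (ha i) (mem_sp_of_mem (by exact_mod_cast hi)) 1, hcl i hi]
    exact Nat.eq_of_mul_eq_mul_left hα h1
  · rw [← linM_congr (a := a) (D := E) (x := m) (x' := u) (fun B => maxB_dir hα hu)]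
    exact hsep
  · intro g hg g' hg'
    have h1 := hpair g (hES g hg)
    have h2 := hpair g' (hES g' hg')
    rw [hSn g hg] at h1
    rw [hSn g' hg'] at h2
    exact Nat.eq_of_mul_eq_mul_left hα (h1.symm.trans h2)
  · intro g hg g' hg'
    have h1 := hpair g (hET g hg)
    have h2 := hpair g' (hES g' hg')
    have h3 := hT g hg
    rw [hSn g' hg'] at h2
    rw [h1] at h3
    rw [h2] at h3
    exact Nat.le_of_mul_le_mul_left h3 hα

end LF
end MotMono
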