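import Pool.Agent.Lib.MP_4e5fcd_ag.LF.J1
import Pool.Agent.Lib.MP_4e5fcd_ag.C1

/-!
# LF-J3: constructibility

`constr_vv`: for `m ≤ n`, `vv a γ i = m` iff all `a i ⬝ᵥ lev γ l.succ = 0` for `l < m` and (if `m < n`)
`a i ⬝ᵥ lev γ ⟨m, _⟩.succ ≠ 0` (`le_vv_iff`, `vv_eq`); these are polynomial conditions
(`constr_eq`, `constr_ne`, `constr_iInter`); for `m > n` the set is empty (`vv_le`).
`constr_of_vv`: `Φ = ⋃_v {γ ∈ Φ | vv a γ = v}`, `v` in the finite set of functions `I → ℕ` with values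
`≤ n` (`constr_biUnion` over `Fintype.piFinset`, or `constr_iUnion` over `I → Fin (n + 1)`).
On `{vv a γ = v}` the vector `lc a γ` is given by polynomials in `γ`
(`lc i = a i ⬝ᵥ lev γ ⟨v i, _⟩.succ` or `1`), so `{γ | vv a γ = v ∧ lc a γ ∈ Θ}` is constructible
(`Constr.preimage`). `constr_YS`, `constr_XX`, `constr_AT`: `constr_of_vv`; on the stratum `vv = v` the
other conditions are constant, or equalities of coordinates (`γ (j, 0) = p j`).
`constr_Th`: polynomial equations. `constr_XM`: `ci` is a linear form in `c`.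
-/

open MvPolynomial

namespace MotMono
namespace LF

variable {I Γ : Type} [Fintype I] {N n : ℕ}

/-- the polynomial whose value at `γ` is `a ⬝ᵥ lev γ l` -/
private noncomputable def j3P (a : Fin N → ℂ) (l : Fin (n + 1)) :
    MvPolynomial (Fin N × Fin (n + 1)) ℂ := ∑ j, C (a j) * X (j, l)

private theorem j3P_eval (a : Fin N → ℂ) (l : Fin (n + 1)) (γ : Fin N × Fin (n + 1) → ℂ) :
    eval γ (j3P a l) = a ⬝ᵥ lev γ l := by
  simp [j3P, dotProduct, lev]

omit [Fintype I] in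
private theorem j3_le (a : I → Fin N → ℂ) (i : I) (m : ℕ) :
    Constr {γ : Fin N × Fin (n + 1) → ℂ | m ≤ vv a γ i} := by
  by_cases hm : m ≤ n
  · have : {γ : Fin N × Fin (n + 1) → ℂ | m ≤ vv a γ i} =
        ⋂ l : {l : Fin n // (l : ℕ) < m},
          {γ : Fin N × Fin (n + 1) → ℂ | eval γ (j3P (a i) l.1.succ) = 0} := by
      ext γ
      simp only [Set.mem_ofPred_eq, Set.mem_iInter, j3P_eval, Subtype.forall]
      exact le_vv_iff hm
    rw [this]
    exact constr_iInter fun l => Constr.zeroSet _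
  · have : {γ : Fin N × Fin (n + 1) → ℂ | m ≤ vv a γ i} = ∅ := by
      ext γ
      simp only [Set.mem_ofPred_eq, Set.mem_empty_iff_false, iff_false]
      have := vv_le a γ i
      omega
    rw [this]
    exact constr_empty

theorem constr_vv (a : I → Fin N → ℂ) (v : I → ℕ) :
    Constr {γ : Fin N × Fin (n + 1) → ℂ | vv a γ = v} := by
  have : {γ : Fin N × Fin (n + 1) → ℂ | vv a γ = v} =
      ⋂ i, ({γ : Fin N × Fin (n + 1) → ℂ | v i ≤ vv a γ i} \
        {γ : Fin N × Fin (n + 1) → ℂ | v i + 1 ≤ vv a γ i}) := by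
    ext γ
    simp only [Set.mem_ofPred_eq, Set.mem_iInter, Set.mem_sdiff]
    constructor
    · rintro h i
      rw [← h]
      omega
    · intro h
      funext i
      have := h i
      omega
  rw [this]
  exact constr_iInter fun i => (j3_le a i _).diff (j3_le a i _)

theorem constr_vv_lc (a : I → Fin N → ℂ) (v : I → ℕ) {Θ : Set (I → ℂ)} (hΘ : Constr Θ) :
    Constr {γ : Fin N × Fin (n + 1) → ℂ | vv a γ = v ∧ lc a γ ∈ Θ} := by
  classical
  let g : I → MvPolynomial (Fin N × Fin (n + 1)) ℂ := fun i =>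
    if h : v i < n then j3P (a i) (Fin.succ ⟨v i, h⟩) else 1
  have h1 := (constr_vv (n := n) a v).inter (hΘ.preimage g)
  have : {γ : Fin N × Fin (n + 1) → ℂ | vv a γ = v ∧ lc a γ ∈ Θ} =
      {γ : Fin N × Fin (n + 1) → ℂ | vv a γ = v} ∩
        {x | (fun j => eval x (g j)) ∈ Θ} := by
    ext γ
    simp only [Set.mem_ofPred_eq, Set.mem_inter_iff]
    refine and_congr_right fun h => ?_
    have h2 : lc a γ = fun j => eval γ (g j) := by
      funext i
      subst h
      by_cases hi : vv a γ i < n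
      · rw [lc_eq hi]
        simp only [g, dif_pos hi]
        rw [j3P_eval]
      · simp only [g, dif_neg hi, lc, map_one]
    rw [h2]
  rw [this]
  exact h1

theorem constr_of_vv (a : I → Fin N → ℂ) (Φ : Set (Fin N × Fin (n + 1) → ℂ))
    (h : ∀ v : I → ℕ, Constr {γ | γ ∈ Φ ∧ vv a γ = v}) : Constr Φ := by
  have : Φ = ⋃ v : I → Fin (n + 1), {γ | γ ∈ Φ ∧ vv a γ = fun i => (v i : ℕ)} := by
    ext γ
    simp only [Set.mem_ofPred_eq, Set.mem_iUnion]
    constructor
    · intro hγ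
      exact ⟨fun i => ⟨vv a γ i, Nat.lt_succ_of_le (vv_le a γ i)⟩, hγ, rfl⟩
    · rintro ⟨_, hγ, _⟩
      exact hγ
  rw [this]
  exact constr_iUnion fun v => h _

private theorem j3_base (p : Fin N → ℂ) :
    Constr {γ : Fin N × Fin (n + 1) → ℂ | ∀ j, γ (j, 0) = p j} := by
  have : {γ : Fin N × Fin (n + 1) → ℂ | ∀ j, γ (j, 0) = p j} =
      ⋂ j, {γ | eval γ (X (j, 0)) = eval γ (C (p j))} := by
    ext γ
    simp
  rw [this]
  exact constr_iInter fun j => constr_eq _ _

/-- sets defined by the base point, a condition on `vv`, and a condition on `lc` -/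
private theorem j3_main (a : I → Fin N → ℂ) (p : Fin N → ℂ) (P : (I → ℕ) → Prop)
    {Θ : Set (I → ℂ)} (hΘ : Constr Θ) (A : Set (Fin N × Fin (n + 1) → ℂ))
    (hA : ∀ γ, γ ∈ A ↔ (∀ j, γ (j, 0) = p j) ∧ P (vv a γ) ∧ lc a γ ∈ Θ) : Constr A := by
  refine constr_of_vv a A fun v => ?_
  by_cases hv : P v
  · have : {γ | γ ∈ A ∧ vv a γ = v} = {γ : Fin N × Fin (n + 1) → ℂ | ∀ j, γ (j, 0) = p j} ∩
        {γ | vv a γ = v ∧ lc a γ ∈ Θ} := by
      ext γ
      simp only [Set.mem_ofPred_eq, Set.mem_inter_iff, hA]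
      constructor
      · rintro ⟨⟨h1, _, h3⟩, h4⟩
        exact ⟨h1, h4, h3⟩
      · rintro ⟨h1, h4, h3⟩
        exact ⟨⟨h1, by rw [h4]; exact hv, h3⟩, h4⟩
    rw [this]
    exact (j3_base p).inter (constr_vv_lc a v hΘ)
  · have : {γ | γ ∈ A ∧ vv a γ = v} = ∅ := by
      ext γ
      simp only [Set.mem_ofPred_eq, Set.mem_empty_iff_false, iff_false, hA]
      rintro ⟨⟨_, h2, _⟩, rfl⟩
      exact hv h2
    rw [this]
    exact constr_empty

theorem constr_YS (L : Loc I Γ N) (E D : Finset I) (m : I → ℕ) {Θ : Set (I → ℂ)}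
    (hΘ : Constr Θ) : Constr (YS L n E D m Θ) := by
  refine j3_main L.a L.p (fun v => (∀ i ∈ E, m i ≤ v i) ∧ (∀ i ∈ D, v i = m i ∧ m i < n)) hΘ _ ?_
  intro γ
  simp only [YS, Set.mem_ofPred_eq, and_assoc]

theorem constr_XX (L : Loc I Γ N) (S : Finset Γ) {Θ : Set (I → ℂ)} (hΘ : Constr Θ) :
    Constr (XX L n S Θ) := by
  refine j3_main L.a L.p (fun v => Sx L.w S (n + 1) v ∧
    (∀ g, g ∉ S → n + 1 ≤ pair (L.w g) (fun i => v i + 1))) hΘ _ ?_
  intro γ
  simp only [XX, Set.mem_ofPred_eq, and_assoc]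

theorem constr_AT (L : Loc I Γ N) (S T : Finset Γ) {Θ : Set (I → ℂ)} (hΘ : Constr Θ) :
    Constr (AT L n S T Θ) := by
  refine j3_main L.a L.p (fun v => Sx L.w S (n + 1) v ∧
    (∀ g ∈ T, pair (L.w g) (fun i => v i + 1) ≤ n)) hΘ _ ?_
  intro γ
  simp only [AT, Set.mem_ofPred_eq, and_assoc]

theorem constr_Th (w : Γ → I → ℕ) (S : Finset Γ) (t : Γ → ℂ) : Constr (Th w S t) := by
  have : Th w S t = ⋂ g ∈ S, {c : I → ℂ | eval c (∏ i, X i ^ w g i) = eval c (C (t g))} := by
    ext c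
    simp [Th]
  rw [this]
  exact constr_biInter_finset S fun g _ => constr_eq _ _

theorem constr_XM (a : I → Fin N → ℂ) (B : Finset I) (x : I → ℕ) (D : Finset I)
    {Θ : Set (I → ℂ)} (hΘ : Constr Θ) : Constr (XM a B x D Θ) := by
  classical
  have hex : ∀ i, ∃ P : MvPolynomial B ℂ, ∀ c : B → ℂ, eval c P = ci a B x c i := by
    intro i
    refine ⟨∑ b : B, if x b = x i then C (cf a B i b) * X b else 0, fun c => ?_⟩
    simp only [ci, map_sum]
    refine Finset.sum_congr rfl fun b _ => ?_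
    split_ifs
    · simp
    · simp
  choose g hg using hex
  have h1 : Constr (⋂ i ∈ D, {c : B → ℂ | eval c (g i) ≠ 0}) :=
    constr_biInter_finset D (E := fun i => {c : B → ℂ | eval c (g i) ≠ 0})
      fun i _ => constr_ne (g i)
  have h2 := hΘ.preimage g
  have h3 := h1.inter h2
  have h4 : (⋂ i ∈ D, {c : B → ℂ | eval c (g i) ≠ 0}) ∩
      {c | (fun j => eval c (g j)) ∈ Θ} = XM a B x D Θ := by
    ext c
    have h5 : (fun j => eval c (g j)) = ci a B x c := funext fun j => hg j c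
    rw [Set.mem_inter_iff, Set.mem_iInter₂, XM, Set.mem_ofPred_eq, Set.mem_ofPred_eq, h5]
    refine and_congr_left' (forall₂_congr fun i _ => ?_)
    rw [Set.mem_ofPred_eq, hg i c]
  rwa [h4] at h3

end LF
end MotMono
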