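import Pool.Agent.Lib.MP_4e5fcd_ag.LF.A2

/-!
# LF-A3: existence and weights of `MaxB`

`MaxB.card_level`: `{b ∈ B | c ≤ x b}` is linearly independent with span `sp a {j ∈ D | c ≤ x j}`
(`MaxB.level`), so its cardinality is the rank.
`isBas_card_level`: for any basis `B'` of `D`, `{b ∈ B' | c ≤ x b}` is linearly independent in
`sp a {j ∈ D | c ≤ x j}`.
Weights: `∑_{b ∈ B} x b = ∑_{c < M} #{b ∈ B | c + 1 ≤ x b}` for any `M ≥ x b` (e.g. `M = ∑ x b`
over `D`); so `weight_le`. `of_weight`: equality of the weights forces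
`#{b ∈ B' | c + 1 ≤ x b} = rank` for all `c`, so `{b ∈ B' | c + 1 ≤ x b}` spans
`sp a {j ∈ D | c + 1 ≤ x j}` (same dimension); for `i ∈ D` with `x i = c + 1` this is the claim; for
`x i = 0` the claim is that `B'` spans `a i`.
`exists_maxB`: among the bases of `D` (they exist: `exists_linearIndepOn_extension` or
`exists_linearIndependent`; subsets of the finite set `D`) choose `B` with `∑_{b ∈ B} x b` maximal
(`Finset.exists_max_image` on `D.powerset`). For `i ∈ D` and `b ∈ B` with `cf i b ≠ 0`: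
`insert i (B.erase b)` is a basis of weight `∑ - x b + x i` (if `i ∉ B`; if `i ∈ B`, `b = i`), so
`x i ≤ x b`; now `mem_sp_iff`.
-/

open MvPolynomial

namespace MotMono
namespace LF

variable {I : Type} {N : ℕ} {a : I → Fin N → ℂ} {D B B' : Finset I} {x x' : I → ℕ} {i b : I}

open Classical in
private theorem A3_card (hB : LinearIndepOn ℂ a (B : Set I)) (c : ℕ) :
    (B.filter fun b => c ≤ x b).card =
      Module.finrank ℂ (sp a {b | b ∈ B ∧ c ≤ x b}) := by
  have h1 : IsBas a (B.filter fun b => c ≤ x b) (B.filter fun b => c ≤ x b) := by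
    refine ⟨Finset.Subset.refl _, hB.mono ?_, fun i hi => mem_sp_of_mem (by exact_mod_cast hi)⟩
    intro b hb
    rw [Finset.mem_coe, Finset.mem_filter] at hb
    exact hb.1
  have h2 : (((B.filter fun b => c ≤ x b : Finset I)) : Set I) = {b | b ∈ B ∧ c ≤ x b} := by
    ext b
    simp
  have h3 := isBas_card h1
  rw [h2] at h3
  exact h3

open Classical in
theorem MaxB.card_level (h : MaxB a D x B) (c : ℕ) :
    (B.filter fun b => c ≤ x b).card = rkS a {j | j ∈ D ∧ c ≤ x j} := by
  rw [A3_card h.1.2.1, h.level c]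
  rfl

private theorem A3_sub (h : B ⊆ D) (c : ℕ) :
    sp a {b | b ∈ B ∧ c ≤ x b} ≤ sp a {j | j ∈ D ∧ c ≤ x j} :=
  sp_mono fun _ hb => ⟨h hb.1, hb.2⟩

open Classical in
private theorem A3_le (h : IsBas a D B) (c : ℕ) :
    (B.filter fun b => c ≤ x b).card ≤ rkS a {j | j ∈ D ∧ c ≤ x j} := by
  rw [A3_card h.2.1]
  exact Submodule.finrank_mono (A3_sub h.1 c)

open Classical in
private theorem A3_sum (h : B ⊆ D) (x : I → ℕ) :
    ∑ b ∈ B, x b = ∑ c ∈ Finset.range (∑ j ∈ D, x j), (B.filter fun b => c + 1 ≤ x b).card := by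
  have h1 : ∀ b ∈ B, x b = ∑ c ∈ Finset.range (∑ j ∈ D, x j), if c + 1 ≤ x b then 1 else 0 := by
    intro b hb
    have h2 : x b ≤ ∑ j ∈ D, x j :=
      Finset.single_le_sum (f := x) (fun _ _ => Nat.zero_le _) (h hb)
    rw [← Finset.card_filter]
    have h3 : ((Finset.range (∑ j ∈ D, x j)).filter fun c => c + 1 ≤ x b) =
        Finset.range (x b) := by
      ext c
      rw [Finset.mem_filter, Finset.mem_range, Finset.mem_range]
      omega
    rw [h3, Finset.card_range]
  rw [Finset.sum_congr rfl h1, Finset.sum_comm]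
  refine Finset.sum_congr rfl fun c _ => ?_
  rw [Finset.card_filter]

theorem MaxB.weight_le (h : MaxB a D x B) (h' : IsBas a D B') :
    ∑ b ∈ B', x b ≤ ∑ b ∈ B, x b := by
  classical
  rw [A3_sum h.1.1 x, A3_sum h'.1 x]
  refine Finset.sum_le_sum fun c _ => ?_
  rw [h.card_level]
  exact A3_le h' (c + 1)

theorem MaxB.of_weight (h : MaxB a D x B) (h' : IsBas a D B')
    (hw : ∑ b ∈ B, x b ≤ ∑ b ∈ B', x b) : MaxB a D x B' := by
  classical
  refine ⟨h', fun i hi => ?_⟩
  rw [A3_sum h.1.1 x, A3_sum h'.1 x] at hw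
  have hle : ∀ c ∈ Finset.range (∑ j ∈ D, x j),
      (B'.filter fun b => c + 1 ≤ x b).card ≤ (B.filter fun b => c + 1 ≤ x b).card := by
    intro c _
    rw [h.card_level]
    exact A3_le h' (c + 1)
  have heq := (Finset.sum_eq_sum_iff_of_le hle).mp (le_antisymm (Finset.sum_le_sum hle) hw)
  rcases Nat.eq_zero_or_pos (x i) with h0 | hpos
  · have h1 : {b | b ∈ B' ∧ x i ≤ x b} = (B' : Set I) := by
      ext b
      simp [h0]
    rw [h1]
    exact h'.2.2 i hi
  · have h2 : x i ≤ ∑ j ∈ D, x j :=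
      Finset.single_le_sum (f := x) (fun _ _ => Nat.zero_le _) hi
    have h3 := heq (x i - 1) (Finset.mem_range.mpr (by omega))
    have h4 : x i - 1 + 1 = x i := by omega
    rw [h4, h.card_level, A3_card h'.2.1] at h3
    have h5 := Submodule.eq_of_le_of_finrank_eq (A3_sub (a := a) (x := x) h'.1 (x i)) h3
    rw [h5]
    exact mem_sp_of_mem ⟨hi, le_refl (x i)⟩

private theorem A3_exists_bas (a : I → Fin N → ℂ) (D : Finset I) : ∃ B, IsBas a D B := by
  classical
  obtain ⟨b, hb, -, h1, h2⟩ := exists_linearIndepOn_extension (K := ℂ) (v := a)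
    (s := ∅) (t := (D : Set I)) (linearIndepOn_empty ℂ a) (Set.empty_subset _)
  have hfin : b.Finite := D.finite_toSet.subset hb
  refine ⟨hfin.toFinset, ?_, ?_, ?_⟩
  · intro i hi
    rw [Set.Finite.mem_toFinset] at hi
    exact hb hi
  · rw [Set.Finite.coe_toFinset]
    exact h2
  · intro i hi
    rw [Set.Finite.coe_toFinset]
    exact h1 ⟨i, hi, rfl⟩

theorem exists_maxB (a : I → Fin N → ℂ) (D : Finset I) (x : I → ℕ) : ∃ B, MaxB a D x B := by
  classical
  obtain ⟨B₀, hB₀⟩ := A3_exists_bas a D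
  obtain ⟨B, hB, hmax⟩ := (D.powerset.filter fun B => IsBas a D B).exists_max_image
    (fun B => ∑ b ∈ B, x b) ⟨B₀, Finset.mem_filter.mpr ⟨Finset.mem_powerset.mpr hB₀.1, hB₀⟩⟩
  rw [Finset.mem_filter] at hB
  refine ⟨B, hB.2, fun i hi => ?_⟩
  rw [mem_sp_iff hB.2.2.1 (hB.2.2.2 i hi) (fun b hb => hb.1)]
  intro j hj hjE
  by_contra hc
  have hlt : x j < x i := by
    by_contra h
    exact hjE ⟨hj, not_lt.mp h⟩
  have hex := isBas_exchange hB.2 hi hc
  have hm := hmax _ (Finset.mem_filter.mpr ⟨Finset.mem_powerset.mpr hex.1, hex⟩)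
  by_cases hiB : i ∈ B
  · have : j = i := by
      by_contra hne
      exact hc (cf_self_ne hB.2.2.1 hiB hne)
    rw [this] at hlt
    exact lt_irrefl _ hlt
  · rw [Finset.sum_insert (fun h => hiB (Finset.mem_of_mem_erase h)),
      ← Finset.add_sum_erase B x hj] at hm
    omega

theorem maxB_congr (h : ∀ j ∈ D, x j = x' j) : MaxB a D x B ↔ MaxB a D x' B := by
  unfold MaxB
  refine and_congr_right fun hB => forall₂_congr fun i hi => ?_
  have h1 : {b | b ∈ B ∧ x i ≤ x b} = {b | b ∈ B ∧ x' i ≤ x' b} := by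
    ext b
    refine and_congr_right fun hb => ?_
    rw [h i hi, h b (hB.1 hb)]
  rw [h1]

theorem maxB_shift (k : ℕ) : MaxB a D (fun j => x j + k) B ↔ MaxB a D x B := by
  unfold MaxB
  simp only [Nat.add_le_add_iff_right]

theorem maxB_smul {k : ℕ} (hk : 0 < k) : MaxB a D (fun j => k * x j) B ↔ MaxB a D x B := by
  unfold MaxB
  simp only [Nat.mul_le_mul_left_iff hk]

theorem Bc_spec (a : I → Fin N → ℂ) (D : Finset I) (x : I → ℕ) : MaxB a D x (Bc a D x) := by
  have h := exists_maxB a D x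
  unfold Bc
  rw [dif_pos h]
  exact h.choose_spec

theorem Bc_congr (h : ∀ B, MaxB a D x B ↔ MaxB a D x' B) : Bc a D x = Bc a D x' := by
  have h1 : (fun B => MaxB a D x B) = fun B => MaxB a D x' B := funext fun B => propext (h B)
  unfold Bc
  have h2 : ∀ (P Q : Finset I → Prop) (_ : P = Q) (_ : Decidable (∃ B, P B))
      (_ : Decidable (∃ B, Q B)), (if h : ∃ B, P B then h.choose else ∅) =
        (if h : ∃ B, Q B then h.choose else (∅ : Finset I)) := by
    intro P Q e d1 d2
    subst e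
    congr
  exact h2 _ _ h1 _ _

end LF
end MotMono
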