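import Pool.Agent.Lib.MP_4e5fcd_ag.LF.J1
import Pool.Agent.Lib.MP_4e5fcd_ag.LF.A3

/-!
# LF-X1a: the sets `YS` in coordinates

Let `D ⊆ E`, `MaxB L.a E m B`, `m i ≤ n` on `E`, `m i < n` on `D`. For a jet `γ` with level `0` equal to
`p` write `c b = a b ⬝ᵥ lev γ ⟨m b, _⟩.succ` if `m b < n`, `c b = 0` otherwise (`b ∈ B`).

(1) `∀ i ∈ E, m i ≤ vv γ i` iff `∀ b ∈ B, ∀ l : Fin n, l < m b → a b ⬝ᵥ lev γ l.succ = 0`: (→) `B ⊆ E`,
`le_vv_iff`. (←) for `i ∈ E` and `l < m i`: `a i` is in the span of the `a b`, `b ∈ B`, `m i ≤ m b`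
(second part of `MaxB`), which annihilate `lev γ l.succ` (`dot_eq_zero_of_mem_sp`); `le_vv_iff`.
(2) Assume this. For `i ∈ D`: `a i ⬝ᵥ lev γ ⟨m i, _⟩.succ = ci a B m c i`: expand `a i = ∑ cf b • a b`
(`cf_sum`); by `MaxB.le` only the `b` with `m i ≤ m b` occur, those with `m i < m b` annihilate the
level `m i`, and for `m b = m i` we get `cf b * c b`.
(3) For `i ∈ D`, given (1): `vv γ i = m i ↔ ci a B m c i ≠ 0` (`vv_eq`, `lc_ne_zero`, `lc_eq`), and then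
`lc γ i = ci a B m c i`. Since `Θ` depends only on the coordinates in `D`, the claim follows.
-/

open MvPolynomial

namespace MotMono
namespace LF

variable {I Γ : Type} [Fintype I] {N n : ℕ}

open Classical in
/-- the leading coefficients of the forms in `B` at the levels `m` -/
noncomputable def cB (a : I → Fin N → ℂ) (B : Finset I) (m : I → ℕ)
    (γ : Fin N × Fin (n + 1) → ℂ) (b : B) : ℂ :=
  if h : m b < n then a b ⬝ᵥ lev γ (Fin.succ ⟨m b, h⟩) else 0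

private theorem X1a_lev {a : I → Fin N → ℂ} {γ : Fin N × Fin (n + 1) → ℂ} {i : I}
    {k l : ℕ} (hk : k < n) (hl : l < n) (h : k = l) :
    a i ⬝ᵥ lev γ (Fin.succ ⟨k, hk⟩) = a i ⬝ᵥ lev γ (Fin.succ ⟨l, hl⟩) := by
  subst h
  rfl

private theorem X1a_ci {a : I → Fin N → ℂ} {E : Finset I} {m : I → ℕ} {B : Finset I}
    (hB : MaxB a E m B) {γ : Fin N × Fin (n + 1) → ℂ}
    (hz : ∀ b ∈ B, ∀ l : Fin n, (l : ℕ) < m b → a b ⬝ᵥ lev γ l.succ = 0) {i : I} (hi : i ∈ E)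
    (hn : m i < n) : a i ⬝ᵥ lev γ (Fin.succ ⟨m i, hn⟩) = ci a B m (cB a B m γ) i := by
  classical
  have h1 := cf_sum hB.1.2.1 (hB.1.2.2 i hi)
  have h2 : a i ⬝ᵥ lev γ (Fin.succ ⟨m i, hn⟩) =
      ∑ j ∈ B, cf a B i j * (a j ⬝ᵥ lev γ (Fin.succ ⟨m i, hn⟩)) := by
    conv_lhs => rw [h1]
    rw [sum_dotProduct]
    refine Finset.sum_congr rfl fun j _ => ?_
    rw [smul_dotProduct, smul_eq_mul]
  rw [h2, ci, ← Finset.sum_coe_sort B
    (fun j => cf a B i j * (a j ⬝ᵥ lev γ (Fin.succ ⟨m i, hn⟩)))]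
  refine Finset.sum_congr rfl fun b _ => ?_
  split_ifs with h
  · have hb : m b < n := h ▸ hn
    rw [cB, dif_pos hb, X1a_lev hn hb h.symm]
  · by_cases hc : cf a B i b = 0
    · rw [hc, zero_mul]
    · have h3 : m i ≤ m b := hB.le hi hc
      have h4 := hz b b.2 ⟨m i, hn⟩ (lt_of_le_of_ne h3 (Ne.symm h))
      rw [h4, mul_zero]

theorem mem_YS_iff (L : Loc I Γ N) {E D : Finset I} (hDE : D ⊆ E) {m : I → ℕ}
    (hE : ∀ i ∈ E, m i ≤ n) (hDn : ∀ i ∈ D, m i < n) {B : Finset I} (hB : MaxB L.a E m B)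
    {Θ : Set (I → ℂ)} (hΘ : ∀ c c' : I → ℂ, (∀ i ∈ D, c i = c' i) → c ∈ Θ → c' ∈ Θ)
    (γ : Fin N × Fin (n + 1) → ℂ) :
    γ ∈ YS L n E D m Θ ↔ (∀ j, γ (j, 0) = L.p j) ∧
      (∀ b ∈ B, ∀ l : Fin n, (l : ℕ) < m b → L.a b ⬝ᵥ lev γ l.succ = 0) ∧
      cB L.a B m γ ∈ XM L.a B m D Θ := by
  have h1 : (∀ i ∈ E, m i ≤ vv L.a γ i) ↔
      ∀ b ∈ B, ∀ l : Fin n, (l : ℕ) < m b → L.a b ⬝ᵥ lev γ l.succ = 0 := by
    constructor
    · intro h b hb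
      exact (le_vv_iff (hE b (hB.1.1 hb))).1 (h b (hB.1.1 hb))
    · intro h i hi
      rw [le_vv_iff (hE i hi)]
      intro l hl
      refine dot_eq_zero_of_mem_sp (D := {b | b ∈ B ∧ m i ≤ m b}) ?_ (hB.2 i hi)
      rintro b ⟨hb, hmb⟩
      exact h b hb l (lt_of_lt_of_le hl hmb)
  have hlc : ∀ i ∈ D, vv L.a γ i = m i →
      (∀ b ∈ B, ∀ l : Fin n, (l : ℕ) < m b → L.a b ⬝ᵥ lev γ l.succ = 0) →
      lc L.a γ i = ci L.a B m (cB L.a B m γ) i := by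
    intro i hi hv hz
    have hn := hDn i hi
    have hv' : vv L.a γ i < n := by rw [hv]; exact hn
    rw [lc_eq hv', X1a_lev hv' hn hv, X1a_ci hB hz (hDE hi) hn]
  constructor
  · rintro ⟨hp, h2, h3, h4⟩
    have hz := h1.1 h2
    refine ⟨hp, hz, ?_, ?_⟩
    · intro i hi
      rw [← hlc i hi (h3 i hi).1 hz]
      exact lc_ne_zero _ _ _
    · exact hΘ _ _ (fun i hi => hlc i hi (h3 i hi).1 hz) h4
  · rintro ⟨hp, hz, h2, h3⟩
    have hE' := h1.2 hz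
    have hv : ∀ i ∈ D, vv L.a γ i = m i := by
      intro i hi
      refine vv_eq (hDn i hi) ((le_vv_iff (hE i (hDE hi))).1 (hE' i (hDE hi))) ?_
      rw [X1a_ci hB hz (hDE hi) (hDn i hi)]
      exact h2 i hi
    refine ⟨hp, hE', fun i hi => ⟨hv i hi, hDn i hi⟩, ?_⟩
    exact hΘ _ _ (fun i hi => (hlc i hi (hv i hi) hz).symm) h3

end LF
end MotMono
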