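import Pool.Agent.Lib.MP_4e5fcd_ag.LF.X0
import Pool.Agent.Lib.MP_4e5fcd_ag.LF.X1a
import Pool.Agent.Lib.MP_4e5fcd_ag.LF.J3

/-!
# LF-X1b: Euler characteristic of the sets `YS`

Let `β = {b : B // m b < n}` and `X' ⊆ ℂ^β` the set of the `c'` whose extension by `0` to `B` is in
`XM a B m D Θ` (constructible: `Constr.preimage` of `constr_XM`). Membership of `c : B → ℂ` in `XM` does
not depend on the `c b` with `m b ≥ n`: for `i ∈ D`, `ci i` involves only `b` with `m b = m i < n`, and
`Θ` depends only on the coordinates in `D`. Hence: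
(1) `XM = {c | c|β ∈ X'}`: `chi_linFib` with `W = ⊤`, `p₀ = 0`, `φ` the restriction `(B → ℂ) → (β → ℂ)`.
(2) by `mem_YS_iff`, `YS = {γ | γ - p₀ ∈ W ∧ φ (γ - p₀) ∈ X'}`, `p₀ (j, l) = if l = 0 then p j else 0`,
`W = {γ | level 0 = 0, a b ⬝ᵥ lev γ l.succ = 0 for b ∈ B, l < m b}`,
`φ γ b = a b ⬝ᵥ lev γ ⟨m b, _⟩.succ`. `φ` maps `W` onto `ℂ^β`: since `a` is linearly independent on `B`
there are `e b : Fin N → ℂ` (`b ∈ B`) with `a b' ⬝ᵥ e b = if b' = b then 1 else 0` (`exists_dual`);
given `y : β → ℂ` let `γ (j, l) = ∑_{b : β, m b + 1 = l} y b * e b j`; then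
`a b' ⬝ᵥ lev γ l = y b'` if `l = m b' + 1`, `0` otherwise.
-/

open MvPolynomial

namespace MotMono
namespace LF

variable {I Γ : Type} [Fintype I] {N n : ℕ}

open Classical in
/-- the dual basis for the dot product -/
theorem exists_dual {a : I → Fin N → ℂ} {B : Finset I} (hB : LinearIndepOn ℂ a (B : Set I)) :
    ∃ e : I → Fin N → ℂ, ∀ b ∈ B, ∀ b' ∈ B, a b' ⬝ᵥ e b = if b' = b then 1 else 0 := by
  have hli : LinearIndependent ℂ (fun b : B => a b) := hB
  obtain ⟨g, hg⟩ := LinearMap.exists_leftInverse_of_injective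
    (Finsupp.linearCombination ℂ (fun b : B => a b)) (LinearMap.ker_eq_bot.2 hli)
  have hga : ∀ b : B, g (a b) = Finsupp.single b 1 := by
    intro b
    have h1 := congrArg (fun f => f (Finsupp.single b (1 : ℂ))) hg
    simpa using h1
  refine ⟨fun b j => if h : b ∈ B then g (Pi.single j 1) ⟨b, h⟩ else 0, ?_⟩
  intro b hb b' hb'
  have h2 : a b' = ∑ j, a b' j • (Pi.single j 1 : Fin N → ℂ) := by
    conv_lhs => rw [pi_eq_sum_univ' (a b')]
  have h3 : a b' ⬝ᵥ (fun j => if h : b ∈ B then g (Pi.single j 1) ⟨b, h⟩ else 0) =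
      g (a b') ⟨b, hb⟩ := by
    conv_rhs => rw [h2, map_sum]
    rw [Finsupp.finsetSum_apply]
    simp [dotProduct, hb]
  rw [h3, hga ⟨b', hb'⟩, Finsupp.single_apply]
  simp

open Classical in
/-- extension by zero -/
private noncomputable def ext0 {B : Finset I} {m : I → ℕ} (c' : {b : B // m b < n} → ℂ) : B → ℂ :=
  fun b => if h : m b < n then c' ⟨b, h⟩ else 0

omit [Fintype I] in
private theorem ci_ext0 (a : I → Fin N → ℂ) {B D : Finset I} {m : I → ℕ}
    (hDn : ∀ i ∈ D, m i < n) (c : B → ℂ) {i : I} (hi : i ∈ D) :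
    ci a B m (ext0 (n := n) (fun b : {b : B // m b < n} => c b)) i = ci a B m c i := by
  unfold ci
  refine Finset.sum_congr rfl fun b _ => ?_
  split_ifs with h
  · have hb : m b < n := by rw [h]; exact hDn i hi
    simp [ext0, hb]
  · rfl

omit [Fintype I] in
private theorem mem_XM_ext0 (a : I → Fin N → ℂ) {B D : Finset I} {m : I → ℕ}
    (hDn : ∀ i ∈ D, m i < n) {Θ : Set (I → ℂ)}
    (hΘ : ∀ c c' : I → ℂ, (∀ i ∈ D, c i = c' i) → c ∈ Θ → c' ∈ Θ) (c : B → ℂ) :
    ext0 (n := n) (fun b : {b : B // m b < n} => c b) ∈ XM a B m D Θ ↔ c ∈ XM a B m D Θ := by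
  unfold XM
  simp only [Set.mem_ofPred_eq]
  have h1 : ∀ i ∈ D, ci a B m (ext0 (n := n) (fun b : {b : B // m b < n} => c b)) i =
      ci a B m c i := fun i hi => ci_ext0 a hDn c hi
  constructor
  · rintro ⟨h2, h3⟩
    exact ⟨fun i hi => by rw [← h1 i hi]; exact h2 i hi, hΘ _ _ h1 h3⟩
  · rintro ⟨h2, h3⟩
    exact ⟨fun i hi => by rw [h1 i hi]; exact h2 i hi,
      hΘ _ _ (fun i hi => (h1 i hi).symm) h3⟩

theorem chi_YS {χ : K0 →+* ℤ} (hχ : χ LL = 1) (L : Loc I Γ N) {E D : Finset I} (hDE : D ⊆ E)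
    {m : I → ℕ} (hE : ∀ i ∈ E, m i ≤ n) (hDn : ∀ i ∈ D, m i < n) {B : Finset I}
    (hB : MaxB L.a E m B) {Θ : Set (I → ℂ)} (hΘc : Constr Θ)
    (hΘ : ∀ c c' : I → ℂ, (∀ i ∈ D, c i = c' i) → c ∈ Θ → c' ∈ Θ) :
    χ (cls (YS L n E D m Θ)) = χ (cls (XM L.a B m D Θ)) := by
  classical
  set X' : Set ({b : B // m b < n} → ℂ) := {c' | ext0 c' ∈ XM L.a B m D Θ} with hX'
  have hX'c : Constr X' := by
    have h1 := Constr.preimage (constr_XM L.a B m D hΘc)
      (fun b => if h : m b < n then (X (⟨b, h⟩ : {b : B // m b < n}) :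
        MvPolynomial {b : B // m b < n} ℂ) else 0)
    have h2 : ∀ c' : {b : B // m b < n} → ℂ, (fun b : B => eval c' (if h : m b < n then
        (X (⟨b, h⟩ : {b : B // m b < n}) : MvPolynomial {b : B // m b < n} ℂ) else 0)) =
        ext0 c' := by
      intro c'
      funext b
      unfold ext0
      split_ifs with h <;> simp
    simp only [h2] at h1
    exact h1
  have e1 : χ (cls (XM L.a B m D Θ)) = χ (cls X') := by
    have h1 : XM L.a B m D Θ = {γ : B → ℂ | γ - 0 ∈ (⊤ : Submodule ℂ (B → ℂ)) ∧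
        LinearMap.funLeft ℂ ℂ (Subtype.val : {b : B // m b < n} → B) (γ - 0) ∈ X'} := by
      ext c
      simp only [sub_zero, Submodule.mem_top, true_and, Set.mem_ofPred_eq, hX']
      exact (mem_XM_ext0 L.a hDn hΘ c).symm
    rw [h1]
    refine chi_linFib hχ ⊤ 0 _ ?_ hX'c
    intro y
    refine ⟨ext0 y, trivial, ?_⟩
    ext b
    simp [LinearMap.funLeft_apply, ext0, b.2]
  have e2 : χ (cls (YS L n E D m Θ)) = χ (cls X') := by
    set p₀ : Fin N × Fin (n + 1) → ℂ := fun jl => if jl.2 = 0 then L.p jl.1 else 0 with hp₀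
    set W : Submodule ℂ (Fin N × Fin (n + 1) → ℂ) :=
      { carrier := {γ | (∀ j, γ (j, 0) = 0) ∧
          ∀ b ∈ B, ∀ l : Fin n, (l : ℕ) < m b → L.a b ⬝ᵥ lev γ l.succ = 0}
        zero_mem' := by
          refine ⟨fun j => rfl, fun b _ l _ => ?_⟩
          simp [dotProduct, lev]
        add_mem' := by
          rintro x y ⟨hx, hx'⟩ ⟨hy, hy'⟩
          refine ⟨fun j => by simp [hx j, hy j], fun b hb l hl => ?_⟩
          have h1 : lev (x + y) l.succ = lev x l.succ + lev y l.succ := rfl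
          rw [h1, dotProduct_add, hx' b hb l hl, hy' b hb l hl, add_zero]
        smul_mem' := by
          rintro c x ⟨hx, hx'⟩
          refine ⟨fun j => by simp [hx j], fun b hb l hl => ?_⟩
          have h1 : lev (c • x) l.succ = c • lev x l.succ := rfl
          rw [h1, dotProduct_smul, hx' b hb l hl, smul_zero] } with hW
    set φ : (Fin N × Fin (n + 1) → ℂ) →ₗ[ℂ] ({b : B // m b < n} → ℂ) :=
      { toFun := fun γ b => L.a b ⬝ᵥ lev γ (Fin.succ ⟨m b, b.2⟩)
        map_add' := by
          intro x y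
          ext b
          have h1 : lev (x + y) (Fin.succ ⟨m b, b.2⟩) =
            lev x (Fin.succ ⟨m b, b.2⟩) + lev y (Fin.succ ⟨m b, b.2⟩) := rfl
          simp only [h1, dotProduct_add, Pi.add_apply]
        map_smul' := by
          intro c x
          ext b
          have h1 : lev (c • x) (Fin.succ ⟨m b, b.2⟩) =
            c • lev x (Fin.succ ⟨m b, b.2⟩) := rfl
          simp only [h1, dotProduct_smul, Pi.smul_apply, RingHom.id_apply] } with hφ
    have hlev : ∀ (γ : Fin N × Fin (n + 1) → ℂ) (l : Fin n),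
        lev (γ - p₀) l.succ = lev γ l.succ := by
      intro γ l
      funext j
      simp [lev, hp₀]
    have h1 : YS L n E D m Θ = {γ | γ - p₀ ∈ W ∧ φ (γ - p₀) ∈ X'} := by
      ext γ
      rw [mem_YS_iff L hDE hE hDn hB hΘ γ]
      simp only [Set.mem_ofPred_eq]
      have hc : cB L.a B m γ = ext0 (φ (γ - p₀)) := by
        funext b
        unfold cB ext0
        split_ifs with h
        · simp only [hφ, LinearMap.coe_mk, AddHom.coe_mk]
          rw [hlev]
        · rfl
      rw [hc]
      constructor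
      · rintro ⟨h2, h3, h4⟩
        refine ⟨⟨fun j => by simp [hp₀, h2 j], fun b hb l hl => ?_⟩, h4⟩
        rw [hlev]
        exact h3 b hb l hl
      · rintro ⟨⟨h2, h3⟩, h4⟩
        refine ⟨fun j => ?_, fun b hb l hl => ?_, h4⟩
        · have := h2 j
          simp only [Pi.sub_apply, hp₀, if_true] at this
          exact sub_eq_zero.1 this
        · have := h3 b hb l hl
          rwa [hlev] at this
    rw [h1]
    refine chi_linFib hχ W p₀ φ ?_ hX'c
    intro y
    obtain ⟨e, he⟩ := exists_dual hB.1.2.1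
    set γ : Fin N × Fin (n + 1) → ℂ := fun jl =>
      ∑ b : {b : B // m b < n}, if m b + 1 = (jl.2 : ℕ) then y b * e b jl.1 else 0 with hγ
    have key : ∀ (b' : I) (hb' : b' ∈ B) (l : Fin n), L.a b' ⬝ᵥ lev γ l.succ =
        if h : m b' = (l : ℕ) then y ⟨⟨b', hb'⟩, by rw [h]; exact l.2⟩ else 0 := by
      intro b' hb' l
      have h2 : L.a b' ⬝ᵥ lev γ l.succ =
          ∑ b : {b : B // m b < n}, if m b = (l : ℕ) then y b * (if b' = b then 1 else 0)
            else 0 := by
        simp only [dotProduct, lev, hγ, Finset.mul_sum]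
        rw [Finset.sum_comm]
        refine Finset.sum_congr rfl fun b _ => ?_
        by_cases h : m b = (l : ℕ)
        · simp only [h, Fin.val_succ, if_true]
          rw [← he b b.1.2 b' hb', dotProduct, Finset.mul_sum]
          refine Finset.sum_congr rfl fun j _ => ?_
          ring
        · simp [h]
      rw [h2]
      by_cases h : m b' = (l : ℕ)
      · rw [dif_pos h]
        have hlt : m b' < n := by rw [h]; exact l.2
        rw [Finset.sum_eq_single (⟨⟨b', hb'⟩, hlt⟩ : {b : B // m b < n})]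
        · simp [h]
        · intro b _ hb
          have hne : b' ≠ b := by
            intro h3
            apply hb
            ext
            exact h3.symm
          simp [hne]
        · intro h3
          exact absurd (Finset.mem_univ _) h3
      · rw [dif_neg h]
        refine Finset.sum_eq_zero fun b _ => ?_
        split_ifs with h3 h4
        · exact absurd (by rw [h4]; exact h3) h
        · simp
        · rfl
    refine ⟨γ, ⟨fun j => ?_, fun b hb l hl => ?_⟩, ?_⟩
    · simp [hγ]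
    · rw [key b hb l, dif_neg (by omega)]
    · funext b
      simp only [hφ, LinearMap.coe_mk, AddHom.coe_mk]
      rw [key b b.1.2 ⟨m b, b.2⟩]
      simp
  rw [e1, e2]

end LF
end MotMono
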