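import Pool.Agent.Lib.MP_4e5fcd_ag.LF.X2

/-!
# LF-X3: divisibility

`Prim u` gives `e : I → ℤ` with `∑ e i * u i = 1` (the ideal of `ℤ` generated by the `u i` is `⊤`; or
`Finset.exists_sum_eq_gcd`-like results); we may take `e i = 0` for `i ∉ D` (`u i = 0` there). Let
`σ = B`, `ci c = ci a B u c`, `M = {c | ∀ i ∈ D, ci c i ≠ 0}`, `h c = ∏_{i ∈ D} ci c i ^ e i` (`zpow`).
For `s ≠ 0` let `(s • c) b = s ^ u b * c b`; `ci (s • c) i = s ^ u i * ci c i` for `i ∈ D` (`ci_torus`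
with `z = u`), `h (s • c) = s * h c`, `∏ ci (s • c) i ^ w g i = s ^ k * ∏ ci c i ^ w g i` for `g ∈ S`.
Fix `g₀ ∈ S`. Let
`X' = {c ∈ M | h c = 1 ∧ ∀ g ∈ S, t g₀ * ∏ ci c i ^ w g i = t g * ∏ ci c i ^ w g₀ i}` and
`H = C (t g₀)⁻¹ * ∏ (ciPoly i) ^ w g₀ i`, nonzero on `X'`.
`X = XM a B u D (Th w S t)` is isomorphic to `kummerCover X' H k`: `c ↦ (c', v)`, `v = (h c)⁻¹`,
`c' = v • c`; inverse `(c', v) ↦ v⁻¹ • c'`. Check: `c ∈ X`: `h c' = v * h c = 1`,
`∏ ci c' i ^ w g i = v ^ k * t g` for all `g ∈ S`, so `c' ∈ X'` and `H c' = v ^ k`. Conversely for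
`(c', v)`, `v ^ k = H c' ≠ 0`, `c = v⁻¹ • c'`: `∏ ci c i ^ w g i = v ^ (-k) * t g * H c' = t g`,
`(h c)⁻¹ = v`. All maps are regular (`E3_regFun_zpow`, `E3_regFun_npow`, `RegFun.mul`, `RegFun.inv`).
`X'` is constructible: `h c = 1` means `∏_{e i > 0} ci ^ e i = ∏_{e i < 0} ci ^ (-e i)` on `M`.
So `χ (cls X) = k * χ (cls X')` by `hχ.kummer`.
-/

open MvPolynomial

namespace MotMono
namespace LF

variable {I Γ : Type} [Fintype I] {N : ℕ} {a : I → Fin N → ℂ} {D B : Finset I}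

omit [Fintype I] in
private theorem x3_regFun_prod {σ : Type} {E : Set (σ → ℂ)} (s : Finset I)
    {f : I → (σ → ℂ) → ℂ} (hf : ∀ i ∈ s, RegFun E (f i)) :
    RegFun E (fun x => ∏ i ∈ s, f i x) := by
  classical
  induction s using Finset.induction_on with
  | empty => simpa using regFun_const E 1
  | insert a s ha ih =>
    have h1 := (hf a (Finset.mem_insert_self a s)).mul
      (ih fun i hi => hf i (Finset.mem_insert_of_mem hi))
    refine h1.congr fun x _ => ?_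
    rw [Finset.prod_insert ha]

private theorem x3_bezout {u : I → ℕ} (hp : Prim u) : ∃ e : I → ℤ, ∑ i, e i * (u i : ℤ) = 1 := by
  classical
  have hpr : (Ideal.span (Set.range fun i => (u i : ℤ)) : Ideal ℤ).IsPrincipal :=
    IsPrincipalIdealRing.principal _
  obtain ⟨g, hg⟩ := hpr
  have hdvd : ∀ i, g ∣ (u i : ℤ) := by
    intro i
    have h1 : (u i : ℤ) ∈ (Ideal.span (Set.range fun i => (u i : ℤ)) : Ideal ℤ) :=
      Ideal.subset_span ⟨i, rfl⟩
    rw [hg] at h1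
    exact Ideal.mem_span_singleton.1 h1
  have hnat : g.natAbs = 1 := by
    refine hp g.natAbs fun i => ?_
    have := hdvd i
    exact Int.natCast_dvd_natCast.1 ((Int.natAbs_dvd).2 this)
  have hunit : IsUnit g := Int.isUnit_iff_natAbs_eq.2 hnat
  have hone : (1 : ℤ) ∈ (Ideal.span (Set.range fun i => (u i : ℤ)) : Ideal ℤ) := by
    rw [hg]
    have : (Submodule.span ℤ {g} : Ideal ℤ) = ⊤ := Ideal.span_singleton_eq_top.2 hunit
    rw [this]
    trivial
  obtain ⟨c, hc⟩ := (Submodule.mem_span_range_iff_exists_fun ℤ).1 hone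
  exact ⟨c, by simpa using hc⟩

omit [Fintype I] in
private theorem x3_zpow (x : ℂ) (hx : x ≠ 0) (e : ℤ) :
    x ^ e = x ^ e.toNat / x ^ (-e).toNat := by
  conv_lhs => rw [← Int.toNat_sub_toNat_neg e]
  rw [zpow_sub₀ hx, zpow_natCast, zpow_natCast]

theorem dvd_chi_XM {χ : K0 →+* ℤ} (hχ : IsEulerChar χ) {w : Γ → I → ℕ} {S : Finset Γ}
    {t : Γ → ℂ} (ht : ∀ g ∈ S, t g ≠ 0) (hSne : S.Nonempty)
    (hS : ∀ g ∈ S, ∀ i, w g i ≠ 0 → i ∈ D) {u : I → ℕ} (hu : ∀ i, u i ≠ 0 ↔ i ∈ D)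
    (hp : Prim u) {k : ℕ} (hk : 0 < k) (hpair : ∀ g ∈ S, pair (w g) u = k)
    (hB : MaxB a D u B) : (k : ℤ) ∣ χ (cls (XM a B u D (Th w S t))) := by
  classical
  obtain ⟨e, he⟩ := x3_bezout hp
  have heD : ∑ i ∈ D, e i * (u i : ℤ) = 1 := by
    rw [← he]
    refine Finset.sum_subset (Finset.subset_univ D) fun i _ hi => ?_
    have : u i = 0 := by
      by_contra h
      exact hi ((hu i).1 h)
    simp [this]
  obtain ⟨g₀, hg₀⟩ := hSne
  have htg₀ := ht g₀ hg₀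
  choose P hP using fun i => exists_ciPoly a B u i
  -- the action
  have hCI : ∀ (s : ℂ) (c : B → ℂ) (i : I),
      ci a B u (fun b : B => s ^ (u (b : I) : ℤ) * c b) i = s ^ (u i : ℤ) * ci a B u c i := by
    intro s c i
    exact ci_torus (z := fun i => (u i : ℤ)) (fun b _ _ hbi => by simp only [hbi]) s c
  have hact : ∀ (s : ℂ), s ≠ 0 → ∀ c : B → ℂ,
      (fun b : B => s⁻¹ ^ (u (b : I) : ℤ) * (s ^ (u (b : I) : ℤ) * c b)) = c := by
    intro s hs c
    funext b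
    rw [← mul_assoc, ← mul_zpow, inv_mul_cancel₀ hs, one_zpow, one_mul]
  have hact' : ∀ (s : ℂ), s ≠ 0 → ∀ c : B → ℂ,
      (fun b : B => s ^ (u (b : I) : ℤ) * (s⁻¹ ^ (u (b : I) : ℤ) * c b)) = c := by
    intro s hs c
    funext b
    rw [← mul_assoc, ← mul_zpow, mul_inv_cancel₀ hs, one_zpow, one_mul]
  obtain ⟨h, hh⟩ : ∃ h : (B → ℂ) → ℂ, h = fun c => ∏ i ∈ D, ci a B u c i ^ e i := ⟨_, rfl⟩
  have hhval : ∀ c, h c = ∏ i ∈ D, ci a B u c i ^ e i := fun c => by rw [hh]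
  have hhact : ∀ (s : ℂ), s ≠ 0 → ∀ c : B → ℂ,
      h (fun b : B => s ^ (u (b : I) : ℤ) * c b) = s * h c := by
    intro s hs c
    rw [hhval, hhval]
    have h1 : ∀ i ∈ D, ci a B u (fun b : B => s ^ (u (b : I) : ℤ) * c b) i ^ e i =
        s ^ (e i * (u i : ℤ)) * ci a B u c i ^ e i := by
      intro i _
      rw [hCI, mul_zpow, ← zpow_mul, mul_comm (u i : ℤ) (e i)]
    rw [Finset.prod_congr rfl h1, Finset.prod_mul_distrib]
    congr 1
    have h2 : ∀ T : Finset I, ∏ i ∈ T, s ^ (e i * (u i : ℤ)) = s ^ (∑ i ∈ T, e i * (u i : ℤ)) := by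
      intro T
      induction T using Finset.induction_on with
      | empty => simp
      | insert a T ha ih => rw [Finset.prod_insert ha, Finset.sum_insert ha, zpow_add₀ hs, ih]
    rw [h2, heD, zpow_one]
  have hpact : ∀ (s : ℂ), s ≠ 0 → ∀ c : B → ℂ, ∀ g ∈ S,
      ∏ i, ci a B u (fun b : B => s ^ (u (b : I) : ℤ) * c b) i ^ w g i =
        s ^ k * ∏ i, ci a B u c i ^ w g i := by
    intro s hs c g hg
    have h1 : ∀ i ∈ (Finset.univ : Finset I),
        ci a B u (fun b : B => s ^ (u (b : I) : ℤ) * c b) i ^ w g i =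
        s ^ (w g i * u i) * ci a B u c i ^ w g i := by
      intro i _
      rw [hCI, mul_pow, zpow_natCast, ← pow_mul, mul_comm (u i) (w g i)]
    rw [Finset.prod_congr rfl h1, Finset.prod_mul_distrib, Finset.prod_pow_eq_pow_sum]
    congr 2
    exact hpair g hg
  obtain ⟨X', hX'⟩ : ∃ X' : Set (B → ℂ), X' = {c | (∀ i ∈ D, ci a B u c i ≠ 0) ∧ h c = 1 ∧
      ∀ g ∈ S, t g₀ * ∏ i, ci a B u c i ^ w g i = t g * ∏ i, ci a B u c i ^ w g₀ i} := ⟨_, rfl⟩
  have hmemX' : ∀ c, c ∈ X' ↔ ((∀ i ∈ D, ci a B u c i ≠ 0) ∧ h c = 1 ∧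
      ∀ g ∈ S, t g₀ * ∏ i, ci a B u c i ^ w g i = t g * ∏ i, ci a B u c i ^ w g₀ i) := by
    intro c; rw [hX']; rfl
  have hcX' : Constr X' := by
    have e1 : X' = (⋂ i ∈ D, {c : B → ℂ | eval c (P i) ≠ 0}) ∩
        ({c : B → ℂ | eval c (∏ i ∈ D, P i ^ (e i).toNat) = eval c (∏ i ∈ D, P i ^ (-e i).toNat)} ∩
        ⋂ g ∈ S, {c : B → ℂ | eval c (C (t g₀) * ∏ i, P i ^ w g i) =
          eval c (C (t g) * ∏ i, P i ^ w g₀ i)}) := by
      ext c
      rw [hmemX']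
      simp only [Set.mem_inter_iff, Set.mem_iInter, Set.mem_ofPred_eq, map_mul, eval_C,
        map_prod, map_pow, hP]
      refine and_congr_right fun hne => ?_
      refine and_congr_left fun _ => ?_
      rw [hhval]
      have h1 : ∏ i ∈ D, ci a B u c i ^ e i =
          (∏ i ∈ D, ci a B u c i ^ (e i).toNat) / ∏ i ∈ D, ci a B u c i ^ (-e i).toNat := by
        rw [← Finset.prod_div_distrib]
        exact Finset.prod_congr rfl fun i hi => x3_zpow _ (hne i hi) _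
      rw [h1, div_eq_one_iff_eq]
      exact Finset.prod_ne_zero_iff.2 fun i hi => pow_ne_zero _ (hne i hi)
    rw [e1]
    refine (constr_biInter_finset D fun i _ => constr_ne _).inter ((constr_eq _ _).inter ?_)
    exact constr_biInter_finset S fun g _ => constr_eq _ _
  obtain ⟨H, hH⟩ : ∃ H : MvPolynomial B ℂ, H = C (t g₀)⁻¹ * ∏ i, P i ^ w g₀ i := ⟨_, rfl⟩
  have hHval : ∀ c, eval c H = (t g₀)⁻¹ * ∏ i, ci a B u c i ^ w g₀ i := by
    intro c
    rw [hH]
    simp only [map_mul, eval_C, map_prod, map_pow, hP]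
  have hprodne : ∀ c : B → ℂ, (∀ i ∈ D, ci a B u c i ≠ 0) → ∏ i, ci a B u c i ^ w g₀ i ≠ 0 := by
    intro c hc
    refine Finset.prod_ne_zero_iff.2 fun i _ => ?_
    by_cases hi : w g₀ i = 0
    · rw [hi, pow_zero]; exact one_ne_zero
    · exact pow_ne_zero _ (hc i (hS g₀ hg₀ i hi))
  have hHne : ∀ c ∈ X', eval c H ≠ 0 := by
    intro c hc
    rw [hHval]
    exact mul_ne_zero (inv_ne_zero htg₀) (hprodne c ((hmemX' c).1 hc).1)
  have hmemX : ∀ c, c ∈ XM a B u D (Th w S t) ↔ ((∀ i ∈ D, ci a B u c i ≠ 0) ∧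
      ∀ g ∈ S, ∏ i, ci a B u c i ^ w g i = t g) := fun c => Iff.rfl
  have hhne : ∀ c : B → ℂ, (∀ i ∈ D, ci a B u c i ≠ 0) → h c ≠ 0 := by
    intro c hc
    rw [hhval]
    exact Finset.prod_ne_zero_iff.2 fun i hi => zpow_ne_zero _ (hc i hi)
  have hcine : ∀ (s : ℂ), s ≠ 0 → ∀ c : B → ℂ, (∀ i ∈ D, ci a B u c i ≠ 0) →
      ∀ i ∈ D, ci a B u (fun b : B => s ^ (u (b : I) : ℤ) * c b) i ≠ 0 := by
    intro s hs c hc i hi
    rw [hCI]
    exact mul_ne_zero (zpow_ne_zero _ hs) (hc i hi)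
  have hzne : ∀ z ∈ kummerCover X' H k, z (Sum.inr ()) ≠ 0 := by
    intro z hz h0
    have h2 := hz.2
    rw [h0, zero_pow hk.ne'] at h2
    exact hHne _ hz.1 h2.symm
  have hreg : RegFun (XM a B u D (Th w S t)) h := by
    have h1 : RegFun (XM a B u D (Th w S t)) (fun c => ∏ i ∈ D, ci a B u c i ^ e i) := by
      refine x3_regFun_prod D fun i hi => ?_
      refine Kum.E3_regFun_zpow ?_ (fun c hc => hc.1 i hi) (e i)
      refine (regFun_poly _ (P i)).congr fun c _ => hP i c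
    exact h1.congr fun c _ => (hhval c).symm
  have hXne : ∀ c ∈ XM a B u D (Th w S t), h c ≠ 0 := fun c hc => hhne c hc.1
  have hiso : RegIso (XM a B u D (Th w S t)) (kummerCover X' H k) := by
    refine ⟨fun c => Sum.elim (fun b : B => (h c)⁻¹ ^ (u (b : I) : ℤ) * c b) (fun _ => (h c)⁻¹),
      fun z => fun b : B => (z (Sum.inr ()))⁻¹ ^ (u (b : I) : ℤ) * z (Sum.inl b),
      ?_, ?_, ?_, ?_, ?_, ?_⟩
    · intro s
      rcases s with b | s
      · exact (Kum.E3_regFun_zpow (hreg.inv hXne) (fun c hc => inv_ne_zero (hXne c hc)) _).mul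
          (regFun_coord _ _)
      · exact hreg.inv hXne
    · intro b
      exact (Kum.E3_regFun_zpow ((regFun_coord _ (Sum.inr ())).inv hzne)
        (fun z hz => inv_ne_zero (hzne z hz)) _).mul (regFun_coord _ _)
    · intro c hc
      have hc' := (hmemX c).1 hc
      have hv : (h c)⁻¹ ≠ 0 := inv_ne_zero (hXne c hc)
      refine ⟨(hmemX' _).2 ⟨hcine _ hv c hc'.1, ?_, ?_⟩, ?_⟩
      · simp only [Sum.elim_inl]
        rw [hhact _ hv, inv_mul_cancel₀ (hXne c hc)]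
      · intro g hg
        simp only [Sum.elim_inl]
        rw [hpact _ hv c g hg, hpact _ hv c g₀ hg₀, hc'.2 g hg, hc'.2 g₀ hg₀]
        ring
      · simp only [Sum.elim_inl, Sum.elim_inr]
        rw [hHval, hpact _ hv c g₀ hg₀, hc'.2 g₀ hg₀]
        field_simp
    · intro z hz
      have hv := hzne z hz
      have hz1 := (hmemX' _).1 hz.1
      have hz2 := hz.2
      refine (hmemX _).2 ⟨hcine _ (inv_ne_zero hv) _ hz1.1, ?_⟩
      intro g hg
      rw [hpact _ (inv_ne_zero hv) _ g hg]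
      have h1 := hz1.2.2 g hg
      rw [hHval] at hz2
      have h2 : ∏ i, ci a B u (fun b => z (Sum.inl b)) i ^ w g₀ i = t g₀ * z (Sum.inr ()) ^ k := by
        rw [hz2, ← mul_assoc, mul_inv_cancel₀ htg₀, one_mul]
      rw [h2] at h1
      have h3 : ∏ i, ci a B u (fun b => z (Sum.inl b)) i ^ w g i = t g * z (Sum.inr ()) ^ k := by
        have : t g₀ * ∏ i, ci a B u (fun b => z (Sum.inl b)) i ^ w g i =
            t g₀ * (t g * z (Sum.inr ()) ^ k) := by rw [h1]; ring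
        exact mul_left_cancel₀ htg₀ this
      rw [h3, inv_pow]
      have h4 : z (Sum.inr ()) ^ k ≠ 0 := pow_ne_zero _ hv
      field_simp
    · intro c hc
      have hv : (h c)⁻¹ ≠ 0 := inv_ne_zero (hXne c hc)
      simp only [Sum.elim_inl, Sum.elim_inr]
      exact hact _ hv c
    · intro z hz
      have hv := hzne z hz
      have hz1 := (hmemX' _).1 hz.1
      have h1 : h (fun b : B => (z (Sum.inr ()))⁻¹ ^ (u (b : I) : ℤ) * z (Sum.inl b)) =
          (z (Sum.inr ()))⁻¹ := by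
        rw [hhact _ (inv_ne_zero hv) (fun b => z (Sum.inl b)), hz1.2.1, mul_one]
      funext s
      rcases s with b | s
      · simp only [Sum.elim_inl]
        rw [h1, inv_inv]
        exact congrFun (hact' _ hv (fun b => z (Sum.inl b))) b
      · simp only [Sum.elim_inr]
        rw [h1, inv_inv]
  rw [cls_iso (constr_XM a B u D (constr_Th w S t)) (Kum.E3_constr_kummer hcX' H k) hiso,
    hχ.kummer X' hcX' H hHne k hk]
  exact dvd_mul_right _ _

end LF
end MotMono
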