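import Pool.Agent.Lib.MP_4e5fcd_ag.LF.S1
import Pool.Agent.Lib.MP_4e5fcd_ag.LF.S2
import Pool.Agent.Lib.MP_4e5fcd_ag.LF.X1b
import Pool.Agent.Lib.MP_4e5fcd_ag.LF.X3
import Pool.Agent.Lib.MP_4e5fcd_ag.LF.X4

/-!
# LF-S3: the Euler characteristics of the sets of contact jets

`incl_excl`, `cls_AT` and `χ`: `χ (cls (XX ..)) = ∑_T (-1)^|T| ∑_{m ∈ MT} χ (cls (YS L n E E m Θ))`,
`E = DT w D T`, `Θ = Th w S t`. By `chi_YS` (with `B = Bc a E m`; `m i ≤ n`, `m i < n` on `E` since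
`m i ∈ range n`) the summand is `χ (cls (XM a (Bc a E m) m E Θ))`. Call `m` good if `m` is closed on `E`
and `Sep w S (LinM a E m)`; the summands of the others vanish: `XM_empty` (and `cls_empty`),
`chi_XM_eq_zero` (`isEulerChar_of_F`). Good `m ∈ MT` correspond to `u ∈ UU a w S D T` with
`pair (w g) u ∣ n` for `g ∈ S`: `exists_UU` gives `u`, `α` with `m i + 1 = α u i` on `E`, `α * pair = n`;
`u` is unique (the vector `m + 1` on `E` divided by its gcd; or `UU_inj` and `maxB_dir`); conversely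
for `u` take `α = n / pair (w g) u` (the same for all `g ∈ S`, `UU_pos`), `m i = α * u i - 1` on `E` and `0`
off `E`: `Sx`, `pair (w g) (m + 1) = α * pair (w g) u ≤ n` for `g ∈ T`, `m i < n`
(`α u i ≤ α * pair (w g) u ≤ n` for some `g ∈ S ∪ T` with `w g i ≠ 0`), closed on `E` (`clo_smul`,
`clo_shift`), `Sep` (`maxB_dir`, `linM_congr`). Finally `Bc a E m = Bc a E u` (`Bc_congr`) and
`XM a B m E Θ = XM a B u E Θ` (`XM_congr` with `D' = E`).
`struct_dvd` is `dvd_chi_XM` (`hu` from `UU`; `hS` for `E`).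
-/

open MvPolynomial

namespace MotMono
namespace LF

variable {I Γ : Type} [Fintype I] [Fintype Γ] {N : ℕ}

omit [Fintype Γ] in
private theorem s3_mem_DT {w : Γ → I → ℕ} {D : Finset I} {T : Finset Γ} {i : I} :
    i ∈ DT w D T ↔ i ∈ D ∨ ∃ g ∈ T, w g i ≠ 0 := by
  simp [DT]

private theorem s3_pair {v m u : I → ℕ} {α : ℕ} (h : ∀ i, v i ≠ 0 → m i + 1 = α * u i) :
    pair v (fun i => m i + 1) = α * pair v u := by
  simp only [pair, Finset.mul_sum]
  refine Finset.sum_congr rfl fun i _ => ?_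
  by_cases hv : v i = 0
  · simp [hv]
  · rw [h i hv]; ring

private theorem s3_term_le {v u : I → ℕ} {i : I} (h : v i ≠ 0) : u i ≤ pair v u := by
  have h1 : v i * u i ≤ pair v u :=
    Finset.single_le_sum (f := fun i => v i * u i) (fun _ _ => Nat.zero_le _) (Finset.mem_univ i)
  exact (Nat.le_mul_of_pos_left _ (Nat.pos_of_ne_zero h)).trans h1

open Classical in
private noncomputable def s3_map (E : Finset I) (α : ℕ) (u : I → ℕ) : I → ℕ :=
  fun i => if i ∈ E then α * u i - 1 else 0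

omit [Fintype I] in
private theorem s3_map_add {E : Finset I} {α : ℕ} {u : I → ℕ} (hα : 0 < α)
    (hu : ∀ i, u i ≠ 0 ↔ i ∈ E) : ∀ i ∈ E, s3_map E α u i + 1 = α * u i := by
  intro i hi
  unfold s3_map
  rw [if_pos hi]
  have h1 : 0 < α * u i := Nat.mul_pos hα (Nat.pos_of_ne_zero ((hu i).2 hi))
  omega

omit [Fintype I] in
private theorem s3_clo {a : I → Fin N → ℂ} (ha : ∀ i, a i ≠ 0) {E : Finset I} {α : ℕ} (hα : 0 < α)
    {m u : I → ℕ} (h : ∀ i ∈ E, m i + 1 = α * u i) (hc : ∀ i ∈ E, clo a E u i = u i) :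
    ∀ i ∈ E, clo a E m i = m i := by
  intro i hi
  have h1 : clo a E (fun j => m j + 1) i = clo a E m i + 1 :=
    clo_shift (ha i) (mem_sp_of_mem hi) 1
  have h2 : clo a E (fun j => m j + 1) i = clo a E (fun j => α * u j) i :=
    clo_congr fun j hj => h j hj
  have h3 : clo a E (fun j => α * u j) i = α * clo a E u i := clo_smul (ha i) hα
  rw [hc i hi] at h3
  have h4 := h i hi
  omega

private theorem s3_mem_MT {w : Γ → I → ℕ} {S : Finset Γ} {D : Finset I} {n : ℕ} {T : Finset Γ}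
    {m : I → ℕ} : m ∈ MT w S D n T ↔ (∀ i ∈ DT w D T, m i < n) ∧ (∀ i, i ∉ DT w D T → m i = 0) ∧
      Sx w S (n + 1) m ∧ ∀ g ∈ T, pair (w g) (fun i => m i + 1) ≤ n := by
  classical
  unfold MT
  rw [Finset.mem_filter, Fintype.mem_piFinset]
  constructor
  · rintro ⟨h1, h2, h3⟩
    refine ⟨fun i hi => ?_, fun i hi => ?_, h2, h3⟩
    · have := h1 i
      rw [if_pos hi, Finset.mem_range] at this
      exact this
    · have := h1 i
      rw [if_neg hi, Finset.mem_singleton] at this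
      exact this
  · rintro ⟨h1, h1', h2, h3⟩
    refine ⟨fun i => ?_, h2, h3⟩
    split_ifs with hi
    · exact Finset.mem_range.2 (h1 i hi)
    · exact Finset.mem_singleton.2 (h1' i hi)

omit [Fintype Γ] in
private theorem s3_supp {w : Γ → I → ℕ} {S : Finset Γ} {D : Finset I}
    (hD : ∀ i, i ∈ D ↔ ∃ g ∈ S, w g i ≠ 0) (T : Finset Γ) :
    ∀ g ∈ S, ∀ i, w g i ≠ 0 → i ∈ DT w D T :=
  fun g hg i hi => s3_mem_DT.2 (Or.inl ((hD i).2 ⟨g, hg, hi⟩))

open Classical in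
private theorem s3_stratum {χ : K0 →+* ℤ} (hχ : IsEulerCharF χ) (L : Loc I Γ N) (S : Finset Γ)
    (D : Finset I) (hD : ∀ i, i ∈ D ↔ ∃ g ∈ S, L.w g i ≠ 0) (hS : S.Nonempty) {n : ℕ}
    (hn : 1 ≤ n) (t : Γ → ℂ) (T : Finset Γ) :
    ∑ m ∈ MT L.w S D n T, χ (cls (YS L n (DT L.w D T) (DT L.w D T) m (Th L.w S t))) =
      ∑ u ∈ (finite_UU L.a L.w S D T).toFinset,
        if ∀ g ∈ S, pair (L.w g) u ∣ n then
          χ (cls (XM L.a (Bc L.a (DT L.w D T) u) u (DT L.w D T) (Th L.w S t)))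
        else 0 := by
  obtain ⟨g₀, hg₀⟩ := hS
  have hsup := s3_supp hD T
  have hdep : ∀ c c' : I → ℂ, (∀ i ∈ DT L.w D T, c i = c' i) → c ∈ Th L.w S t →
      c' ∈ Th L.w S t := fun c c' h hc => Th_dep hsup c c' h hc
  have h1 : ∀ m ∈ MT L.w S D n T,
      χ (cls (YS L n (DT L.w D T) (DT L.w D T) m (Th L.w S t))) =
        if (∀ i ∈ DT L.w D T, clo L.a (DT L.w D T) m i = m i) ∧
            Sep L.w S (LinM L.a (DT L.w D T) m) then
          χ (cls (XM L.a (Bc L.a (DT L.w D T) m) m (DT L.w D T) (Th L.w S t))) else 0 := by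
    intro m hm
    rw [s3_mem_MT] at hm
    rw [chi_YS hχ.line L (subset_refl _) (fun i hi => (hm.1 i hi).le) hm.1
      (Bc_spec L.a (DT L.w D T) m) (constr_Th L.w S t) hdep]
    split_ifs with hgood
    · rfl
    · by_cases hcl : ∀ i ∈ DT L.w D T, clo L.a (DT L.w D T) m i = m i
      · exact chi_XM_eq_zero (isEulerChar_of_F hχ) hsup (Bc_spec L.a (DT L.w D T) m)
          fun hs => hgood ⟨hcl, hs⟩
      · push Not at hcl
        obtain ⟨i, hi, hne⟩ := hcl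
        rw [XM_empty L.ha (Bc_spec L.a (DT L.w D T) m) hi hne, cls_empty, map_zero]
  rw [Finset.sum_congr rfl h1, ← Finset.sum_filter, ← Finset.sum_filter]
  symm
  have hkey : ∀ u, u ∈ UU L.a L.w S D T → (∀ g ∈ S, pair (L.w g) u ∣ n) →
      0 < n / pair (L.w g₀) u ∧ (∀ g ∈ S, n / pair (L.w g₀) u * pair (L.w g) u = n) ∧
      ∀ i ∈ DT L.w D T, s3_map (DT L.w D T) (n / pair (L.w g₀) u) u i + 1 =
        n / pair (L.w g₀) u * u i := by
    intro u hu hd
    have hk := (UU_pos hu).2 g₀ hg₀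
    have hα : 0 < n / pair (L.w g₀) u :=
      Nat.div_pos (Nat.le_of_dvd hn (hd g₀ hg₀)) hk
    refine ⟨hα, fun g hg => ?_, s3_map_add hα hu.1⟩
    rw [hu.2.2.2.2.1 g hg g₀ hg₀]
    exact Nat.div_mul_cancel (hd g₀ hg₀)
  refine Finset.sum_bij (fun u _ => s3_map (DT L.w D T) (n / pair (L.w g₀) u) u) ?_ ?_ ?_ ?_
  · intro u hu
    rw [Finset.mem_filter, Set.Finite.mem_toFinset] at hu
    obtain ⟨hu, hd⟩ := hu
    obtain ⟨hα, hmul, hadd⟩ := hkey u hu hd
    have hpS : ∀ g ∈ S, pair (L.w g) (fun i => s3_map (DT L.w D T) (n / pair (L.w g₀) u) u i + 1) =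
        n := fun g hg => by
      rw [s3_pair fun i hi => hadd i (hsup g hg i hi), hmul g hg]
    have hpT' : ∀ g ∈ T, n / pair (L.w g₀) u * pair (L.w g) u ≤ n := fun g hg => by
      calc n / pair (L.w g₀) u * pair (L.w g) u ≤ n / pair (L.w g₀) u * pair (L.w g₀) u :=
            Nat.mul_le_mul_left _ (hu.2.2.2.2.2 g hg g₀ hg₀)
        _ = n := hmul g₀ hg₀
    have hpT : ∀ g ∈ T, pair (L.w g)
        (fun i => s3_map (DT L.w D T) (n / pair (L.w g₀) u) u i + 1) ≤ n := fun g hg => by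
      rw [s3_pair fun i hi => hadd i (s3_mem_DT.2 (Or.inr ⟨g, hg, hi⟩))]
      exact hpT' g hg
    rw [Finset.mem_filter, s3_mem_MT]
    refine ⟨⟨fun i hi => ?_, fun i hi => if_neg hi, fun g hg => by rw [hpS g hg], hpT⟩,
      s3_clo L.ha hα hadd hu.2.2.1, ?_⟩
    · have h2 := hadd i hi
      have h3 : n / pair (L.w g₀) u * u i ≤ n := by
        rcases s3_mem_DT.1 hi with h | ⟨g, hg, hgi⟩
        · obtain ⟨g, hg, hgi⟩ := (hD i).1 h
          calc _ ≤ n / pair (L.w g₀) u * pair (L.w g) u :=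
                Nat.mul_le_mul_left _ (s3_term_le hgi)
            _ = n := hmul g hg
        · exact (Nat.mul_le_mul_left _ (s3_term_le hgi)).trans (hpT' g hg)
      omega
    · rw [linM_congr fun B => maxB_dir hα hadd]
      exact hu.2.2.2.1
  · intro u hu u' hu' heq
    rw [Finset.mem_filter, Set.Finite.mem_toFinset] at hu hu'
    obtain ⟨hα, hmul, hadd⟩ := hkey u hu.1 hu.2
    obtain ⟨hα', hmul', hadd'⟩ := hkey u' hu'.1 hu'.2
    refine UU_inj hu.1 hu'.1 fun B => ?_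
    rw [← maxB_dir hα hadd, ← maxB_dir hα' hadd']
    rw [heq]
  · intro m hm
    rw [Finset.mem_filter, s3_mem_MT] at hm
    obtain ⟨⟨hm1, hm2, hm3, hm4⟩, hcl, hsep⟩ := hm
    obtain ⟨u, hu, α, hα, hmu⟩ := exists_UU L.ha hD ⟨g₀, hg₀⟩ hn hm3 hm4 hsep hcl
    have hpS : ∀ g ∈ S, α * pair (L.w g) u = n := fun g hg => by
      have h2 := hm3 g hg
      rw [s3_pair fun i hi => hmu i (hsup g hg i hi)] at h2
      omega
    have hk := (UU_pos hu).2 g₀ hg₀
    have hα' : n / pair (L.w g₀) u = α := by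
      rw [← hpS g₀ hg₀, Nat.mul_div_cancel _ hk]
    refine ⟨u, ?_, ?_⟩
    · rw [Finset.mem_filter, Set.Finite.mem_toFinset]
      exact ⟨hu, fun g hg => ⟨α, by rw [mul_comm, hpS g hg]⟩⟩
    · simp only [hα']
      funext i
      unfold s3_map
      split_ifs with hi
      · rw [← hmu i hi, Nat.add_sub_cancel]
      · exact (hm2 i hi).symm
  · intro u hu
    rw [Finset.mem_filter, Set.Finite.mem_toFinset] at hu
    obtain ⟨hα, hmul, hadd⟩ := hkey u hu.1 hu.2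
    have hB : ∀ B, MaxB L.a (DT L.w D T) u B ↔
        MaxB L.a (DT L.w D T) (s3_map (DT L.w D T) (n / pair (L.w g₀) u) u) B :=
      fun B => (maxB_dir hα hadd).symm
    rw [← Bc_congr hB, XM_congr (subset_refl _) (Bc_spec L.a (DT L.w D T) u) hB hdep]

open Classical in
theorem struct_formula {χ : K0 →+* ℤ} (hχ : IsEulerCharF χ) (L : Loc I Γ N) (S : Finset Γ)
    (D : Finset I) (hD : ∀ i, i ∈ D ↔ ∃ g ∈ S, L.w g i ≠ 0) (hS : S.Nonempty) {n : ℕ}
    (hn : 1 ≤ n) (t : Γ → ℂ) :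
    χ (cls (XX L n S (Th L.w S t))) =
      ∑ T ∈ Sᶜ.powerset, ∑ u ∈ (finite_UU L.a L.w S D T).toFinset,
        if ∀ g ∈ S, pair (L.w g) u ∣ n then
          (-1) ^ T.card * χ (cls (XM L.a (Bc L.a (DT L.w D T) u) u (DT L.w D T) (Th L.w S t)))
        else 0 := by
  rw [incl_excl L n S (constr_Th L.w S t), map_sum]
  refine Finset.sum_congr rfl fun T _ => ?_
  rw [cls_AT L n S D hD T (constr_Th L.w S t), map_mul, map_pow, map_neg, map_one, map_sum,
    s3_stratum hχ L S D hD hS hn t T, Finset.mul_sum]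
  refine Finset.sum_congr rfl fun u _ => ?_
  rw [mul_ite, mul_zero]

theorem struct_dvd {χ : K0 →+* ℤ} (hχ : IsEulerCharF χ) (L : Loc I Γ N) (S : Finset Γ)
    (D : Finset I) (hD : ∀ i, i ∈ D ↔ ∃ g ∈ S, L.w g i ≠ 0) (t : Γ → ℂ)
    (ht : ∀ g ∈ S, t g ≠ 0) (T : Finset Γ) (u : I → ℕ) (hu : u ∈ UU L.a L.w S D T) (g : Γ)
    (hg : g ∈ S) :
    (pair (L.w g) u : ℤ) ∣
      χ (cls (XM L.a (Bc L.a (DT L.w D T) u) u (DT L.w D T) (Th L.w S t))) :=
  dvd_chi_XM (isEulerChar_of_F hχ) ht ⟨g, hg⟩ (s3_supp hD T) hu.1 hu.2.1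
    ((UU_pos hu).2 g hg) (fun g' hg' => hu.2.2.2.2.1 g' hg' g hg)
    (Bc_spec L.a (DT L.w D T) u)

end LF
end MotMono
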