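import Pool.Agent.Lib.MP_4e5fcd_ag.LF.Base

/-!
# LF-A1: coefficients with respect to a basis

Proofs. Everything follows from linear independence of `a` on `B`.
`cf_sum`: `a i ∈ span (a '' B)` gives `c` with `a i = ∑ j ∈ B, c j • a j`
(`Submodule.mem_span_image_finset_iff_exists_fun` or `Finsupp`/`mem_span_finset`), replace `c` by `0`
off `B`; then `dif_pos` and `Exists.choose_spec` in the definition of `cf`.
`cf_unique`: both families of coefficients represent `a i`; subtract and use `LinearIndepOn`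
(`linearIndepOn_finset_iff`). `cf_zero`: `choose_spec.1`.
`mem_sp_iff`: (→) expand `a i` in `E ⊆ B`, compare with `cf_unique`; (←) the sum `cf_sum` runs over `E`.
-/

open MvPolynomial

namespace MotMono
namespace LF

variable {I : Type} {N : ℕ} {a : I → Fin N → ℂ} {B : Finset I} {i : I}

theorem sp_mono {D E : Set I} (h : D ⊆ E) : sp a D ≤ sp a E :=
  Submodule.span_mono (Set.image_mono h)

theorem mem_sp_of_mem {D : Set I} (h : i ∈ D) : a i ∈ sp a D :=
  Submodule.subset_span ⟨i, h, rfl⟩

private theorem A1_exists (hi : a i ∈ sp a (B : Set I)) :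
    ∃ c : I → ℂ, (∀ j, j ∉ B → c j = 0) ∧ a i = ∑ j ∈ B, c j • a j := by
  classical
  obtain ⟨c, hc⟩ := (Submodule.mem_span_image_finset_iff_exists_fun' ℂ).1 hi
  refine ⟨fun j => if j ∈ B then c j else 0, fun j hj => if_neg hj, ?_⟩
  rw [← hc]
  refine Finset.sum_congr rfl fun j hj => ?_
  simp only [if_pos hj]

theorem cf_sum (hB : LinearIndepOn ℂ a (B : Set I)) (hi : a i ∈ sp a (B : Set I)) :
    a i = ∑ j ∈ B, cf a B i j • a j := by
  have h := A1_exists hi
  have h1 : ∀ j, cf a B i j = h.choose j := fun j => by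
    unfold cf
    rw [dif_pos h]
  simp only [h1]
  exact h.choose_spec.2

/-- no hypothesis is needed -/
theorem cf_zero {j : I} (hj : j ∉ B) : cf a B i j = 0 := by
  unfold cf
  split_ifs with h
  · exact h.choose_spec.1 j hj
  · rfl

theorem cf_unique (hB : LinearIndepOn ℂ a (B : Set I)) (c : I → ℂ)
    (h : a i = ∑ j ∈ B, c j • a j) : ∀ j ∈ B, cf a B i j = c j := by
  have hi : a i ∈ sp a (B : Set I) := by
    rw [h]
    exact Submodule.sum_mem _ fun j hj => Submodule.smul_mem _ _ (mem_sp_of_mem hj)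
  refine linearIndepOn_finset_iffₛ.1 hB _ _ ?_
  rw [← cf_sum hB hi, ← h]

theorem cf_self (hB : LinearIndepOn ℂ a (B : Set I)) (hi : i ∈ B) : cf a B i i = 1 := by
  classical
  have h := cf_unique (i := i) hB (fun j => if j = i then 1 else 0) (by simp [hi]) i hi
  simpa using h

theorem cf_self_ne (hB : LinearIndepOn ℂ a (B : Set I)) (hi : i ∈ B) {j : I} (hj : j ≠ i) :
    cf a B i j = 0 := by
  classical
  by_cases hjB : j ∈ B
  · have h := cf_unique (i := i) hB (fun j => if j = i then 1 else 0) (by simp [hi]) j hjB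
    simpa [hj] using h
  · exact cf_zero hjB

theorem mem_sp_iff (hB : LinearIndepOn ℂ a (B : Set I)) (hi : a i ∈ sp a (B : Set I)) {E : Set I}
    (hE : E ⊆ B) : a i ∈ sp a E ↔ ∀ j ∈ B, j ∉ E → cf a B i j = 0 := by
  classical
  constructor
  · intro h j hj hjE
    have hfin : E.Finite := B.finite_toSet.subset hE
    have hE' : (hfin.toFinset : Set I) = E := hfin.coe_toFinset
    rw [← hE'] at h
    obtain ⟨c, hc0, hc⟩ := A1_exists h
    have hsub : hfin.toFinset ⊆ B := by
      intro x hx
      exact hE (hfin.mem_toFinset.1 hx)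
    have h1 : a i = ∑ j ∈ B, c j • a j := by
      rw [hc]
      refine Finset.sum_subset hsub fun x _ hx => ?_
      rw [hc0 x hx, zero_smul]
    rw [cf_unique hB c h1 j hj]
    exact hc0 j fun hx => hjE (hfin.mem_toFinset.1 hx)
  · intro h
    rw [cf_sum hB hi]
    refine Submodule.sum_mem _ fun j hj => ?_
    by_cases hjE : j ∈ E
    · exact Submodule.smul_mem _ _ (mem_sp_of_mem hjE)
    · rw [h j hj hjE, zero_smul]
      exact Submodule.zero_mem _

theorem cf_subset (hB : LinearIndepOn ℂ a (B : Set I)) {B' : Finset I} (hB' : B' ⊆ B)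
    (hi : a i ∈ sp a (B' : Set I)) : ∀ j ∈ B', cf a B' i j = cf a B i j := by
  intro j hj
  have hB'i : LinearIndepOn ℂ a (B' : Set I) := hB.mono (Finset.coe_subset.2 hB')
  have h1 : a i = ∑ j ∈ B, cf a B' i j • a j := by
    conv_lhs => rw [cf_sum hB'i hi]
    refine Finset.sum_subset hB' fun x _ hx => ?_
    rw [cf_zero hx, zero_smul]
  exact (cf_unique hB _ h1 j (hB' hj)).symm

end LF
end MotMono
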