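import Pool.Agent.Lib.MP_4e5fcd_ag.LF.A1

/-!
# LF-A2: exchange for bases

`isBas_exchange`: `B' = insert i (B.erase b)`. If `i ∈ B` then `b = i` (`cf_self_ne`) and `B' = B`.
Otherwise `a b = (cf i b)⁻¹ (a i - ∑_{j ∈ B, j ≠ b} cf i j a j)` is in the span of `B'`, so `B'` spans
`D`; it is independent: `a i` is not in the span of `B.erase b` by `mem_sp_iff`, use
`LinearIndepOn.insert` / `linearIndepOn_insert`. (Or: `B'` spans and has the right cardinality.)
`MaxB.le`: `a i` is in the span of `{b | b ∈ B ∧ x i ≤ x b}`, so by `mem_sp_iff` the coefficients of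
the other elements of `B` vanish.
`MaxB.level`: ⊆ clear (`B ⊆ D`), ⊇: for `j ∈ D`, `c ≤ x j`, `a j` is in the span of `b ∈ B` with
`x j ≤ x b`.
`MaxB.exchange` (←): `B'` is a basis. Let `j ∈ D`. `a j` is in the span of `b' ∈ B`, `x j ≤ x b'`. If
`b` is not among these (i.e. `x b < x j`) all these are in `B'`. If `x j ≤ x b = x i`, then `a b` is in
the span of `i` and of the `b' ∈ B`, `b' ≠ b`, `cf i b' ≠ 0`, all of which have `x b' ≥ x i ≥ x j`
(`MaxB.le`). (→): `x i ≤ x b` by `MaxB.le`. If `x i < x b`: `b ∈ D`, so `a b` is in the span of the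
`b' ∈ B'` with `x b ≤ x b'`, none of which is `i`, so `a b` is in the span of `B.erase b`,
contradiction. (If `i ∈ B` then `b = i` and everything is trivial.)
-/

open MvPolynomial

namespace MotMono
namespace LF

variable {I : Type} {N : ℕ} {a : I → Fin N → ℂ} {D B : Finset I} {x : I → ℕ} {i b : I}

private theorem A2_mem (hc : cf a B i b ≠ 0) : b ∈ B := by
  by_contra hb
  exact hc (cf_zero hb)

/-- `a b` is in the span of `i` and of the other elements of `B` with nonzero coefficients -/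
private theorem A2_repr [DecidableEq I] (h : IsBas a D B) (hi : i ∈ D) (hc : cf a B i b ≠ 0)
    {E : Set I} (hiE : i ∈ E) (hE : ∀ j ∈ B, j ≠ b → cf a B i j ≠ 0 → j ∈ E) :
    a b ∈ sp a E := by
  have hb := A2_mem hc
  have h1 := cf_sum h.2.1 (h.2.2 i hi)
  rw [← Finset.add_sum_erase B (fun j => cf a B i j • a j) hb] at h1
  have h2 : a b = (cf a B i b)⁻¹ • (a i - ∑ j ∈ B.erase b, cf a B i j • a j) := by
    have h3 : a i - ∑ j ∈ B.erase b, cf a B i j • a j = cf a B i b • a b := by
      rw [sub_eq_iff_eq_add]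
      exact h1
    rw [h3, smul_smul, inv_mul_cancel₀ hc, one_smul]
  rw [h2]
  refine Submodule.smul_mem _ _ (Submodule.sub_mem _ (mem_sp_of_mem hiE) ?_)
  refine Submodule.sum_mem _ fun j hj => ?_
  rw [Finset.mem_erase] at hj
  by_cases h0 : cf a B i j = 0
  · rw [h0, zero_smul]
    exact Submodule.zero_mem _
  · exact Submodule.smul_mem _ _ (mem_sp_of_mem (hE j hj.2 hj.1 h0))

private theorem A2_notMem [DecidableEq I] (h : IsBas a D B) (hi : i ∈ D) (hc : cf a B i b ≠ 0) :
    a i ∉ sp a ((B.erase b : Finset I) : Set I) := by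
  intro h1
  have hsub : ((B.erase b : Finset I) : Set I) ⊆ B := Finset.coe_subset.2 (Finset.erase_subset _ _)
  refine hc ((mem_sp_iff h.2.1 (h.2.2 i hi) hsub).1 h1 b (A2_mem hc) ?_)
  rw [Finset.mem_coe]
  exact Finset.notMem_erase b B

theorem isBas_exchange [DecidableEq I] (h : IsBas a D B) (hi : i ∈ D) (hc : cf a B i b ≠ 0) :
    IsBas a D (insert i (B.erase b)) := by
  refine ⟨?_, ?_, ?_⟩
  · intro j hj
    rw [Finset.mem_insert] at hj
    rcases hj with rfl | hj
    · exact hi
    · exact h.1 (Finset.mem_of_mem_erase hj)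
  · rw [Finset.coe_insert]
    exact (h.2.1.mono (Finset.coe_subset.2 (Finset.erase_subset _ _))).insert
      (A2_notMem h hi hc)
  · intro j hj
    have h1 : sp a (B : Set I) ≤ sp a ((insert i (B.erase b) : Finset I) : Set I) := by
      refine Submodule.span_le.2 ?_
      rintro _ ⟨j, hj, rfl⟩
      by_cases hjb : j = b
      · subst hjb
        refine A2_repr h hi hc ?_ ?_
        · exact Finset.mem_coe.2 (Finset.mem_insert_self _ _)
        · intro j' hj' hne _
          exact Finset.mem_coe.2 (Finset.mem_insert_of_mem (Finset.mem_erase.2 ⟨hne, hj'⟩))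
      · exact mem_sp_of_mem (Finset.mem_coe.2
          (Finset.mem_insert_of_mem (Finset.mem_erase.2 ⟨hjb, hj⟩)))
    exact h1 (h.2.2 j hj)

theorem isBas_card (h : IsBas a D B) : B.card = rkS a (D : Set I) := by
  have h1 : sp a (D : Set I) = sp a (B : Set I) := by
    refine le_antisymm (Submodule.span_le.2 ?_) (sp_mono (Finset.coe_subset.2 h.1))
    rintro _ ⟨j, hj, rfl⟩
    exact h.2.2 j hj
  have h2 := finrank_span_eq_card h.2.1
  have h3 : Set.range (fun x : (B : Set I) => a x) = a '' (B : Set I) := by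
    ext y
    simp
  rw [h3] at h2
  rw [rkS, h1, sp, h2]
  simp

theorem MaxB.le (h : MaxB a D x B) (hi : i ∈ D) (hc : cf a B i b ≠ 0) : x i ≤ x b := by
  by_contra hcon
  have hE : {b | b ∈ B ∧ x i ≤ x b} ⊆ (B : Set I) := fun _ hj => hj.1
  exact hc ((mem_sp_iff h.1.2.1 (h.1.2.2 i hi) hE).1 (h.2 i hi) b (A2_mem hc)
    fun hb => hcon hb.2)

theorem MaxB.level (h : MaxB a D x B) (c : ℕ) :
    sp a {b | b ∈ B ∧ c ≤ x b} = sp a {j | j ∈ D ∧ c ≤ x j} := by
  refine le_antisymm (sp_mono fun b hb => ⟨h.1.1 hb.1, hb.2⟩) (Submodule.span_le.2 ?_)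
  rintro _ ⟨j, hj, rfl⟩
  have hsub : {b | b ∈ B ∧ x j ≤ x b} ⊆ {b | b ∈ B ∧ c ≤ x b} := fun b hb =>
    ⟨hb.1, hj.2.trans hb.2⟩
  exact sp_mono hsub (h.2 j hj.1)

theorem MaxB.exchange [DecidableEq I] (h : MaxB a D x B) (hi : i ∈ D) (hc : cf a B i b ≠ 0) :
    MaxB a D x (insert i (B.erase b)) ↔ x b = x i := by
  have hb := A2_mem hc
  have hle := h.le hi hc
  by_cases hiB : i ∈ B
  · have hbi : b = i := by
      by_contra hne
      exact hc (cf_self_ne h.1.2.1 hiB hne)
    subst hbi
    rw [Finset.insert_erase hb]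
    exact ⟨fun _ => rfl, fun _ => h⟩
  constructor
  · intro h'
    by_contra hne
    have hlt : x i < x b := lt_of_le_of_ne hle fun h0 => hne h0.symm
    have h1 := h'.2 b (h.1.1 hb)
    have h2 : a b ∈ sp a ((B.erase b : Finset I) : Set I) := by
      refine sp_mono ?_ h1
      rintro j ⟨hj, hxj⟩
      rw [Finset.mem_insert] at hj
      rcases hj with rfl | hj
      · exact absurd hxj (not_le.2 hlt)
      · exact Finset.mem_coe.2 hj
    have hsub : ((B.erase b : Finset I) : Set I) ⊆ B :=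
      Finset.coe_subset.2 (Finset.erase_subset _ _)
    have h3 := (mem_sp_iff h.1.2.1 (h.1.2.2 b (h.1.1 hb)) hsub).1 h2 b hb
      (by rw [Finset.mem_coe]; exact Finset.notMem_erase b B)
    rw [cf_self h.1.2.1 hb] at h3
    exact one_ne_zero h3
  · intro hx
    refine ⟨isBas_exchange h.1 hi hc, fun j hj => ?_⟩
    have h1 := h.2 j hj
    have h2 : sp a {b' | b' ∈ B ∧ x j ≤ x b'} ≤
        sp a {b' | b' ∈ insert i (B.erase b) ∧ x j ≤ x b'} := by
      refine Submodule.span_le.2 ?_
      rintro _ ⟨j', hj', rfl⟩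
      by_cases hjb : j' = b
      · subst hjb
        refine A2_repr h.1 hi hc ⟨Finset.mem_insert_self _ _, ?_⟩ ?_
        · rw [← hx]
          exact hj'.2
        · intro k hk hne hck
          refine ⟨Finset.mem_insert_of_mem (Finset.mem_erase.2 ⟨hne, hk⟩), ?_⟩
          have h3 := h.le hi hck
          have h4 := hj'.2
          omega
      · exact mem_sp_of_mem
          ⟨Finset.mem_insert_of_mem (Finset.mem_erase.2 ⟨hjb, hj'.1⟩), hj'.2⟩
    exact h2 h1

end LF
end MotMono
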