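import Pool.Agent.Lib.MP_4e5fcd_ag.LF.A3

/-!
# LF-A4: the closure

For `a i ≠ 0` the set `{c | a i ∈ sp a {j | j ∈ D ∧ c ≤ x j}}` is downward closed and bounded (for
`c` larger than all `x j`, `j ∈ D`, the span is `⊥`; note that `D` is finite), so `le_clo_iff` holds
for `c > 0` (if the set is empty both sides are false: `sSup ∅ = 0`).
`sp_clo`: ⊇: `le_clo`; ⊆: `le_clo_iff`. `clo_clo`: for `c > 0`, `c ≤ clo a D' (clo a D x) i` iff `a i` is
in the span of `{j ∈ D' | c ≤ clo a D x j}`, which by `le_clo_iff` is contained in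
`sp a {j ∈ D | c ≤ x j}`, and contains it if `D ⊆ D'`. Compare all `c > 0` (`eq_of_forall_...`, or
`le_antisymm` with `c` = the value, the case of value `0` being trivial).
`clo_shift`: `c ≤ x j + k ↔ c - k ≤ x j`; for `c ≤ k` the condition is `a i ∈ sp a D`.
`clo_smul`: `c ≤ k * x j ↔ ⌈c / k⌉ ≤ x j`.
-/

open MvPolynomial

namespace MotMono
namespace LF

variable {I : Type} {N : ℕ} {a : I → Fin N → ℂ} {D D' B : Finset I} {x x' : I → ℕ} {i b : I}

private theorem clo_anti {c c' : ℕ} (h : c ≤ c') :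
    sp a {j | j ∈ D ∧ c' ≤ x j} ≤ sp a {j | j ∈ D ∧ c ≤ x j} :=
  sp_mono (fun _ hj => ⟨hj.1, h.trans hj.2⟩)

private theorem clo_bdd (ha : a i ≠ 0) : BddAbove {c | a i ∈ sp a {j | j ∈ D ∧ c ≤ x j}} := by
  refine ⟨D.sup x, fun c hc => ?_⟩
  by_contra hlt
  have hemp : {j | j ∈ D ∧ c ≤ x j} = (∅ : Set I) := by
    ext j
    simp only [Set.mem_ofPred_eq, Set.mem_empty_iff_false, iff_false, not_and]
    intro hj hcj
    exact hlt (hcj.trans (Finset.le_sup (f := x) hj))
  rw [Set.mem_ofPred_eq, hemp] at hc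
  unfold sp at hc
  rw [Set.image_empty, Submodule.span_empty, Submodule.mem_bot] at hc
  exact ha hc

theorem le_clo_iff (ha : a i ≠ 0) {c : ℕ} (hc : 0 < c) :
    c ≤ clo a D x i ↔ a i ∈ sp a {j | j ∈ D ∧ c ≤ x j} := by
  constructor
  · intro h
    have hne : {c | a i ∈ sp a {j | j ∈ D ∧ c ≤ x j}}.Nonempty := by
      by_contra hne
      rw [Set.not_nonempty_iff_eq_empty] at hne
      unfold clo at h
      rw [hne, csSup_empty] at h
      have h0 : (⊥ : ℕ) = 0 := rfl
      rw [h0] at h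
      omega
    have hmem := Nat.sSup_mem hne (clo_bdd ha)
    exact clo_anti h hmem
  · intro h
    exact le_csSup (clo_bdd ha) h

theorem le_clo (ha : a i ≠ 0) (hi : i ∈ D) : x i ≤ clo a D x i := by
  rcases Nat.eq_zero_or_pos (x i) with h0 | h0
  · rw [h0]; exact Nat.zero_le _
  · rw [le_clo_iff ha h0]
    exact mem_sp_of_mem ⟨hi, le_rfl⟩

theorem clo_mono (ha : a i ≠ 0) (hD : D ⊆ D') (hx : ∀ j ∈ D, x j ≤ x' j) :
    clo a D x i ≤ clo a D' x' i := by
  rcases Nat.eq_zero_or_pos (clo a D x i) with h0 | h0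
  · rw [h0]; exact Nat.zero_le _
  · rw [le_clo_iff ha h0]
    have h1 := (le_clo_iff (D := D) (x := x) ha h0).mp le_rfl
    have hsub : {j | j ∈ D ∧ clo a D x i ≤ x j} ⊆ {j | j ∈ D' ∧ clo a D x i ≤ x' j} :=
      fun j hj => ⟨hD hj.1, hj.2.trans (hx j hj.1)⟩
    exact sp_mono hsub h1

theorem clo_congr (hx : ∀ j ∈ D, x j = x' j) : clo a D x i = clo a D x' i := by
  unfold clo
  congr 1
  ext c
  have : {j | j ∈ D ∧ c ≤ x j} = {j | j ∈ D ∧ c ≤ x' j} := by
    ext j
    simp only [Set.mem_ofPred_eq]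
    constructor
    · rintro ⟨h1, h2⟩; exact ⟨h1, (hx j h1) ▸ h2⟩
    · rintro ⟨h1, h2⟩; exact ⟨h1, (hx j h1).symm ▸ h2⟩
  rw [Set.mem_ofPred_eq, Set.mem_ofPred_eq, this]

theorem clo_eq_zero (hi : a i ∉ sp a (D : Set I)) : clo a D x i = 0 := by
  unfold clo
  have : {c | a i ∈ sp a {j | j ∈ D ∧ c ≤ x j}} = ∅ := by
    ext c
    simp only [Set.mem_ofPred_eq, Set.mem_empty_iff_false, iff_false]
    intro h
    exact hi (sp_mono (fun j hj => hj.1) h)
  rw [this, csSup_empty]
  rfl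

theorem sp_clo (ha : ∀ i, a i ≠ 0) {c : ℕ} (hc : 0 < c) :
    sp a {j | c ≤ clo a D x j} = sp a {j | j ∈ D ∧ c ≤ x j} := by
  apply le_antisymm
  · unfold sp
    rw [Submodule.span_le]
    rintro _ ⟨j, hj, rfl⟩
    exact (le_clo_iff (ha j) hc).mp hj
  · exact sp_mono (fun j hj => hj.2.trans (le_clo (ha j) hj.1))

private theorem eq_of_pos {m n : ℕ} (h : ∀ c, 0 < c → (c ≤ m ↔ c ≤ n)) : m = n := by
  apply le_antisymm
  · rcases Nat.eq_zero_or_pos m with h0 | h0
    · rw [h0]; exact Nat.zero_le _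
    · exact (h m h0).mp le_rfl
  · rcases Nat.eq_zero_or_pos n with h0 | h0
    · rw [h0]; exact Nat.zero_le _
    · exact (h n h0).mpr le_rfl

theorem clo_clo (ha : ∀ i, a i ≠ 0) (h : D ⊆ D') (i : I) :
    clo a D' (clo a D x) i = clo a D x i := by
  apply eq_of_pos
  intro c hc
  rw [le_clo_iff (ha i) hc, le_clo_iff (ha i) hc]
  have : sp a {j | j ∈ D' ∧ c ≤ clo a D x j} = sp a {j | j ∈ D ∧ c ≤ x j} := by
    apply le_antisymm
    · rw [← sp_clo (D := D) (x := x) ha hc]
      have hsub : {j | j ∈ D' ∧ c ≤ clo a D x j} ⊆ {j | c ≤ clo a D x j} := fun j hj => hj.2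
      exact sp_mono hsub
    · exact sp_mono (fun j hj => ⟨h hj.1, hj.2.trans (le_clo (ha j) hj.1)⟩)
  rw [this]

/-- a vector which is closed with respect to `D` is closed with respect to `D' ⊇ D` -/
theorem clo_of_clo (ha : ∀ i, a i ≠ 0) (h : D ⊆ D') (hx : ∀ i, clo a D x i = x i) (i : I) :
    clo a D' x i = x i := by
  have h1 : clo a D x = x := funext hx
  have h2 := clo_clo (x := x) ha h i
  rw [h1] at h2
  exact h2

theorem clo_shift (ha : a i ≠ 0) (hi : a i ∈ sp a (D : Set I)) (k : ℕ) :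
    clo a D (fun j => x j + k) i = clo a D x i + k := by
  apply eq_of_pos
  intro c hc
  rw [le_clo_iff ha hc]
  rcases le_or_gt c k with hck | hck
  · have : {j | j ∈ D ∧ c ≤ x j + k} = (D : Set I) := by
      ext j
      simp only [Set.mem_ofPred_eq, Finset.mem_coe, and_iff_left_iff_imp]
      intro _
      omega
    rw [this]
    constructor
    · intro _; omega
    · intro _; exact hi
  · have : {j | j ∈ D ∧ c ≤ x j + k} = {j | j ∈ D ∧ c - k ≤ x j} := by
      ext j
      simp only [Set.mem_ofPred_eq, and_congr_right_iff]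
      intro _
      omega
    rw [this, ← le_clo_iff ha (by omega : 0 < c - k)]
    omega

theorem clo_smul (ha : a i ≠ 0) {k : ℕ} (hk : 0 < k) :
    clo a D (fun j => k * x j) i = k * clo a D x i := by
  apply eq_of_pos
  intro c hc
  have key : ∀ y : ℕ, c ≤ k * y ↔ (c + (k - 1)) / k ≤ y := by
    intro y
    rw [Nat.div_le_iff_le_mul_add_pred hk]
    omega
  rw [le_clo_iff ha hc]
  have hpos : 0 < (c + (k - 1)) / k := by
    apply Nat.div_pos _ hk
    omega
  have : {j | j ∈ D ∧ c ≤ k * x j} = {j | j ∈ D ∧ (c + (k - 1)) / k ≤ x j} := by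
    ext j
    simp only [Set.mem_ofPred_eq, and_congr_right_iff]
    intro _
    exact key _
  rw [this, ← le_clo_iff ha hpos, ← key]

/-- the value of the closure is one of the values of `x` -/
theorem exists_clo_value (ha : a i ≠ 0) (h : 0 < clo a D x i) : ∃ j ∈ D, x j = clo a D x i := by
  by_contra hcon
  push Not at hcon
  have h1 := (le_clo_iff (D := D) (x := x) ha h).mp le_rfl
  have h2 : {j | j ∈ D ∧ clo a D x i ≤ x j} = {j | j ∈ D ∧ clo a D x i + 1 ≤ x j} := by
    ext j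
    simp only [Set.mem_ofPred_eq, and_congr_right_iff]
    intro hj
    have := hcon j hj
    omega
  rw [h2] at h1
  have h3 := (le_clo_iff (D := D) (x := x) ha (Nat.succ_pos _)).mpr h1
  omega

end LF
end MotMono
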