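import Pool.Agent.Lib.MP_4e5fcd_ag.LF.A4

/-!
# LF-A5: closure and bases

Let `MaxB a D x B`, `a i ∈ sp a D = sp a B`. For every `c`, `sp a {j ∈ D | c ≤ x j} =
sp a {b ∈ B | c ≤ x b}` (`MaxB.level`) contains `a i` iff `c ≤ x b` for all `b ∈ B` with
`cf a B i b ≠ 0` (`mem_sp_iff`). So `clo a D x i` is the minimum of `x b` over these `b` (nonempty set
because `a i ≠ 0`).
`nu_clo`: `nu a y = ∑_c rk {c + 1 ≤ y j}` with `y = clo a D x`; `sp_clo` gives
`rk {j | c + 1 ≤ y j} = rk {j ∈ D | c + 1 ≤ x j} = #{b ∈ B | c + 1 ≤ x b}` (`MaxB.card_level`), and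
`∑_c #{b ∈ B | c + 1 ≤ x b} = ∑_{b ∈ B} x b` (the range of `c` in the definition of `nu` is large
enough: `x b ≤ y b ≤ ∑ y`).
`mem_maxB_iff`: (→) let `clo a D x i = x i`, `B` a `MaxB`. There is `b ∈ B` with `cf a B i b ≠ 0` and
`x b = clo a D x i = x i`; `MaxB.exchange`. (←) `i ∈ B' ` and suppose `c = x i + 1 ≤ clo a D x i`;
then `a i` is in the span of `{b ∈ B' | x i + 1 ≤ x b}`, which does not contain `i`: contradiction
with independence.
`MaxB.restrict`: elements of `B` with `u b ≠ 0` are in `E`; independent; for `i ∈ E`,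
`u i = clo a D' u i ≥ 1`, so `a i ∈ sp a {j ∈ D' | u i ≤ u j} = sp a {b ∈ B | u i ≤ u b}`.
`MaxB.enlarge`: `B` is a basis of `D'`; for `i ∈ D'` with `x i = 0` clear, otherwise
`a i ∈ sp a {j ∈ D | x i ≤ x j}` by `le_clo_iff`.
-/

open MvPolynomial

namespace MotMono
namespace LF

variable {I : Type} {N : ℕ} {a : I → Fin N → ℂ} {D D' B : Finset I} {x : I → ℕ} {i b : I}

theorem a5_sp_le (h : IsBas a D B) : sp a (D : Set I) ≤ sp a (B : Set I) := by
  refine Submodule.span_le.2 ?_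
  rintro v ⟨j, hj, rfl⟩
  exact h.2.2 j (Finset.mem_coe.1 hj)

theorem a5_sub (c : ℕ) : ({b | b ∈ B ∧ c ≤ x b} : Set I) ⊆ (B : Set I) :=
  fun _ hb => Finset.mem_coe.2 hb.1

theorem clo_le_of_cf (ha : a i ≠ 0) (h : MaxB a D x B) (hi : a i ∈ sp a (D : Set I))
    (hc : cf a B i b ≠ 0) : clo a D x i ≤ x b := by
  rcases Nat.eq_zero_or_pos (clo a D x i) with h0 | h0
  · rw [h0]
    exact Nat.zero_le _
  · have h1 := (le_clo_iff ha h0).1 le_rfl
    rw [← h.level] at h1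
    have hb : b ∈ B := by
      by_contra hb
      exact hc (cf_zero hb)
    have h2 := (mem_sp_iff h.1.2.1 (a5_sp_le h.1 hi) (a5_sub _)).1 h1 b hb
    by_contra h3
    exact hc (h2 fun h4 => h3 h4.2)

theorem exists_clo_eq (ha : a i ≠ 0) (h : MaxB a D x B) (hi : a i ∈ sp a (D : Set I)) :
    ∃ b ∈ B, cf a B i b ≠ 0 ∧ clo a D x i = x b := by
  classical
  have hiB := a5_sp_le h.1 hi
  have hne : (B.filter fun b => cf a B i b ≠ 0).Nonempty := by
    by_contra h1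
    rw [Finset.not_nonempty_iff_eq_empty, Finset.filter_eq_empty_iff] at h1
    refine ha ?_
    rw [cf_sum h.1.2.1 hiB]
    refine Finset.sum_eq_zero fun j hj => ?_
    rw [not_not.1 (h1 hj), zero_smul]
  obtain ⟨b, hb, hmin⟩ := Finset.exists_min_image _ x hne
  rw [Finset.mem_filter] at hb
  refine ⟨b, hb.1, hb.2, le_antisymm (clo_le_of_cf ha h hi hb.2) ?_⟩
  rcases Nat.eq_zero_or_pos (x b) with h0 | h0
  · rw [h0]
    exact Nat.zero_le _
  · rw [le_clo_iff ha h0, ← h.level]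
    refine (mem_sp_iff h.1.2.1 hiB (a5_sub _)).2 fun j hj hjE => ?_
    by_contra hc
    exact hjE ⟨hj, hmin j (Finset.mem_filter.2 ⟨hj, hc⟩)⟩

theorem nu_clo [Fintype I] (ha : ∀ i, a i ≠ 0) (h : MaxB a D x B) :
    nu a (clo a D x) = ∑ b ∈ B, x b := by
  classical
  unfold nu
  have h1 : ∀ c, rkS a {j | c + 1 ≤ clo a D x j} = ∑ b ∈ B, if c + 1 ≤ x b then 1 else 0 := by
    intro c
    have h2 : rkS a {j | c + 1 ≤ clo a D x j} = rkS a {j | j ∈ D ∧ c + 1 ≤ x j} := by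
      unfold rkS
      rw [sp_clo ha (Nat.succ_pos c)]
    rw [h2, ← h.card_level, Finset.card_filter]
  simp only [h1]
  rw [Finset.sum_comm]
  refine Finset.sum_congr rfl fun b hb => ?_
  rw [← Finset.card_filter]
  have h2 : x b ≤ ∑ j, clo a D x j :=
    (le_clo (ha b) (h.1.1 hb)).trans
      (Finset.single_le_sum (f := fun j => clo a D x j) (fun _ _ => Nat.zero_le _)
        (Finset.mem_univ b))
  have h3 : (Finset.range (∑ j, clo a D x j)).filter (fun c => c + 1 ≤ x b) =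
      Finset.range (x b) := by
    ext c
    rw [Finset.mem_filter, Finset.mem_range, Finset.mem_range]
    omega
  rw [h3, Finset.card_range]

theorem mem_maxB_iff (ha : a i ≠ 0) (hi : i ∈ D) :
    clo a D x i = x i ↔ ∃ B', MaxB a D x B' ∧ i ∈ B' := by
  classical
  constructor
  · intro h
    obtain ⟨B, hB⟩ := exists_maxB a D x
    obtain ⟨b, _, hc, he⟩ := exists_clo_eq ha hB (mem_sp_of_mem (Finset.mem_coe.2 hi))
    exact ⟨_, (hB.exchange hi hc).2 (by rw [← he, h]), Finset.mem_insert_self _ _⟩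
  · rintro ⟨B', hB', hi'⟩
    refine le_antisymm ?_ (le_clo ha hi)
    refine clo_le_of_cf ha hB' (mem_sp_of_mem (Finset.mem_coe.2 hi)) ?_
    rw [cf_self hB'.1.2.1 hi']
    exact one_ne_zero

open Classical in
theorem MaxB.restrict (ha : ∀ i, a i ≠ 0) {E : Finset I} {u : I → ℕ}
    (hu : ∀ i, clo a D' u i = u i) (h1 : ∀ i ∈ D', u i ≠ 0 → i ∈ E) (h2 : ∀ i ∈ E, u i ≠ 0)
    (h : MaxB a D' u B) : MaxB a E u (B.filter fun b => u b ≠ 0) := by
  have key : ∀ i ∈ E, a i ∈ sp a {b | b ∈ B.filter (fun b => u b ≠ 0) ∧ u i ≤ u b} := by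
    intro i hi
    have h3 : 0 < u i := Nat.pos_of_ne_zero (h2 i hi)
    have h4 : a i ∈ sp a {j | j ∈ D' ∧ u i ≤ u j} :=
      (le_clo_iff (ha i) h3).1 (le_of_eq (hu i).symm)
    rw [← h.level] at h4
    refine sp_mono ?_ h4
    rintro b ⟨hb, hb'⟩
    exact ⟨Finset.mem_filter.2 ⟨hb, by omega⟩, hb'⟩
  refine ⟨⟨?_, ?_, ?_⟩, key⟩
  · intro b hb
    rw [Finset.mem_filter] at hb
    exact h1 b (h.1.1 hb.1) hb.2
  · refine LinearIndepOn.mono h.1.2.1 ?_
    intro b hb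
    exact Finset.mem_coe.2 (Finset.mem_filter.1 (Finset.mem_coe.1 hb)).1
  · intro i hi
    refine sp_mono ?_ (key i hi)
    rintro b ⟨hb, _⟩
    exact Finset.mem_coe.2 hb

theorem MaxB.enlarge (ha : ∀ i, a i ≠ 0) (hD : D ⊆ D') (hx : ∀ i, clo a D x i = x i)
    (hs : ∀ i ∈ D', a i ∈ sp a (D : Set I)) (h : MaxB a D x B) : MaxB a D' x B := by
  refine ⟨⟨h.1.1.trans hD, h.1.2.1, fun i hi => a5_sp_le h.1 (hs i hi)⟩, fun i hi => ?_⟩
  rcases Nat.eq_zero_or_pos (x i) with h0 | h0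
  · refine sp_mono ?_ (a5_sp_le h.1 (hs i hi))
    intro b hb
    exact ⟨Finset.mem_coe.1 hb, by rw [h0]; exact Nat.zero_le _⟩
  · have h4 : a i ∈ sp a {j | j ∈ D ∧ x i ≤ x j} :=
      (le_clo_iff (ha i) h0).1 (le_of_eq (hx i).symm)
    rw [← h.level] at h4
    exact h4

end LF
end MotMono
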