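import Pool.Agent.Lib.MP_4e5fcd_ag.LF.J2
import Pool.Agent.Lib.MP_4e5fcd_ag.LF.J3
import Pool.Agent.Lib.MP_4e5fcd_ag.LF.X5

/-!
# LF-B1: integration over the values

`exists_alongPoly`: the coefficients of `along f γ` are polynomials in `γ` (induction on `f`:
constants, sums, products with variables; `Polynomial.coeff_mul` is a finite sum).
`TX L n S R₀ = {z | (z ∘ inr) ∈ Q, (z ∘ inl) ∈ XX L n S (Th w S (z ∘ inr))}`,
`Q = {t | t g ≠ 0 (g ∈ S), t g = 0 (g ∉ S), t g = 1 (g ∈ R₀)}`. For `γ ∈ XX L n S (Th w R₀ 1)` put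
`τ g = ∏ lc i ^ w g i = (along (gen g) γ).coeff n / eval p (V g)` for `g ∈ S` (`along_gen_coeff`), `0` for
`g ∉ S`; a polynomial in `γ`. Then `TX = {z | z ∘ inl ∈ XX L n S (Th w R₀ 1) ∧ ∀ g, z (inr g) = τ g}`: `⊆`: for
`z ∈ TX`, `g ∈ S`: `∏ lc ^ w g = z (inr g)`, equal to `1` for `g ∈ R₀ ⊆ S`; `⊇`: `∏ lc ^ w g ≠ 0`
(`lc_ne_zero`). So `TX` is constructible (`Constr.comp`, `constr_eq`) and isomorphic to
`XX L n S (Th w R₀ 1)` (projection, inverse `γ ↦ (γ, τ)`).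
`chi_transfer`: `fubini_C` for the sets `TX L (n i) S R₀`: the fibre over `y : Γ → ℂ` is
`XX L (n i) S (Th w S y)` if `y ∈ Q` and empty otherwise.
-/

open MvPolynomial

namespace MotMono
namespace LF

variable {I Γ : Type} [Fintype I] [Fintype Γ] {N : ℕ}

theorem exists_alongPoly {n : ℕ} (f : MvPolynomial (Fin N) ℂ) (l : ℕ) :
    ∃ P : MvPolynomial (Fin N × Fin n) ℂ, ∀ γ, eval γ P = (along f γ).coeff l := by
  revert l
  induction f using MvPolynomial.induction_on with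
  | C a =>
    intro l
    refine ⟨C (if l = 0 then a else 0), fun γ => ?_⟩
    rw [eval_C, along, aeval_C, Polynomial.algebraMap_eq, Polynomial.coeff_C]
  | add p q hp hq =>
    intro l
    obtain ⟨P, hP⟩ := hp l
    obtain ⟨Q, hQ⟩ := hq l
    refine ⟨P + Q, fun γ => ?_⟩
    have h : along (p + q) γ = along p γ + along q γ := map_add _ _ _
    rw [map_add, hP, hQ, h, Polynomial.coeff_add]
  | mul_X p i hp =>
    intro l
    choose P hP using hp
    refine ⟨∑ x ∈ Finset.HasAntidiagonal.antidiagonal l, P x.1 *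
      (if h : x.2 < n then X (i, ⟨x.2, h⟩) else 0), fun γ => ?_⟩
    have h : along (p * X i) γ = along p γ * arc γ i := by
      rw [along, map_mul, aeval_X]
      rfl
    rw [h, Polynomial.coeff_mul, map_sum]
    refine Finset.sum_congr rfl fun x _ => ?_
    rw [map_mul, hP, a1_arc_coeff]
    congr 1
    split_ifs with h1
    · rw [eval_X]
    · rw [map_zero]

/-- the total space -/
def TX (L : Loc I Γ N) (n : ℕ) (S R₀ : Finset Γ) : Set (Fin N × Fin (n + 1) ⊕ Γ → ℂ) :=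
  {z | ((∀ g ∈ S, z (Sum.inr g) ≠ 0) ∧ (∀ g, g ∉ S → z (Sum.inr g) = 0) ∧
      ∀ g ∈ R₀, z (Sum.inr g) = 1) ∧
    (fun x => z (Sum.inl x)) ∈ XX L n S (Th L.w S (fun g => z (Sum.inr g)))}

/-- the values are polynomials in the jet -/
theorem b1_exists_tau (L : Loc I Γ N) (n : ℕ) (S : Finset Γ) :
    ∃ T : Γ → MvPolynomial (Fin N × Fin (n + 1)) ℂ, (∀ g, g ∉ S → T g = 0) ∧
      ∀ (Θ : Set (I → ℂ)), ∀ γ ∈ XX L n S Θ, ∀ g ∈ S,
        eval γ (T g) = ∏ i, lc L.a γ i ^ L.w g i := by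
  classical
  choose P hP using fun g => exists_alongPoly (N := N) (n := n + 1) (L.gen g) n
  refine ⟨fun g => if g ∈ S then P g * C (eval L.p (L.V g))⁻¹ else 0, fun g hg => if_neg hg, ?_⟩
  rintro Θ γ ⟨h0, hS, -, -⟩ g hg
  have h1 : pair (L.w g) (fun i => vv L.a γ i + 1) = n := by
    have := hS g hg
    omega
  have h2 := along_gen_coeff L h0 g h1 le_rfl
  show eval γ (if g ∈ S then P g * C (eval L.p (L.V g))⁻¹ else 0) = _
  rw [if_pos hg, map_mul, eval_C, hP, h2]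
  field_simp [L.hV g]

theorem b1_TX_eq (L : Loc I Γ N) (n : ℕ) (S R₀ : Finset Γ) (hR : R₀ ⊆ S)
    (T : Γ → MvPolynomial (Fin N × Fin (n + 1)) ℂ) (hT0 : ∀ g, g ∉ S → T g = 0)
    (hT : ∀ (Θ : Set (I → ℂ)), ∀ γ ∈ XX L n S Θ, ∀ g ∈ S,
        eval γ (T g) = ∏ i, lc L.a γ i ^ L.w g i) :
    TX L n S R₀ = {z | (fun x => z (Sum.inl x)) ∈ XX L n S (Th L.w R₀ fun _ => 1)} ∩
      ⋂ g : Γ, {z | eval z (X (Sum.inr g) : MvPolynomial (Fin N × Fin (n + 1) ⊕ Γ) ℂ) =
        eval z (rename Sum.inl (T g))} := by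
  have hev : ∀ (z : Fin N × Fin (n + 1) ⊕ Γ → ℂ) (g : Γ),
      eval z (rename Sum.inl (T g)) = eval (fun x => z (Sum.inl x)) (T g) := by
    intro z g
    rw [eval_rename]
    rfl
  ext z
  simp only [Set.mem_inter_iff, Set.mem_iInter, Set.mem_ofPred_eq, eval_X, hev]
  constructor
  · rintro ⟨⟨h1, h2, h3⟩, hz⟩
    have hz' := hz
    obtain ⟨k0, kS, kn, kl⟩ := hz
    refine ⟨⟨k0, kS, kn, fun g hg => ?_⟩, fun g => ?_⟩
    · rw [kl g (hR hg)]
      exact h3 g hg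
    · by_cases hg : g ∈ S
      · rw [hT _ _ hz' g hg, kl g hg]
      · rw [h2 g hg, hT0 g hg, map_zero]
  · rintro ⟨hz, hg⟩
    have hz' := hz
    obtain ⟨k0, kS, kn, kl⟩ := hz
    refine ⟨⟨fun g hgS => ?_, fun g hgS => ?_, fun g hgR => ?_⟩, k0, kS, kn, fun g hgS => ?_⟩
    · rw [hg g, hT _ _ hz' g hgS]
      exact Finset.prod_ne_zero_iff.mpr fun i _ => pow_ne_zero _ (lc_ne_zero _ _ _)
    · rw [hg g, hT0 g hgS, map_zero]
    · rw [hg g, hT _ _ hz' g (hR hgR), kl g hgR]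
    · rw [← hT _ _ hz' g hgS]
      exact (hg g).symm

theorem cls_TX (L : Loc I Γ N) (n : ℕ) (S R₀ : Finset Γ) (hR : R₀ ⊆ S) :
    Constr (TX L n S R₀) ∧ cls (TX L n S R₀) = cls (XX L n S (Th L.w R₀ fun _ => 1)) := by
  obtain ⟨T, hT0, hT⟩ := b1_exists_tau L n S
  have hXX : Constr (XX L n S (Th L.w R₀ fun _ => 1)) := constr_XX L S (constr_Th L.w R₀ _)
  have hTX : Constr (TX L n S R₀) := by
    rw [b1_TX_eq L n S R₀ hR T hT0 hT]
    exact (hXX.comp Sum.inl).inter (constr_iInter fun g => constr_eq _ _)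
  refine ⟨hTX, cls_iso hTX hXX ?_⟩
  refine ⟨fun z x => z (Sum.inl x), fun γ => Sum.elim γ fun g => eval γ (T g), fun x => ?_, ?_,
    fun z hz => ?_, fun γ hγ => ?_, fun z hz => ?_, fun γ _ => rfl⟩
  · exact regFun_coord _ _
  · rintro (x | g)
    · exact regFun_coord _ x
    · exact regFun_poly _ (T g)
  · rw [b1_TX_eq L n S R₀ hR T hT0 hT] at hz
    exact hz.1
  · rw [b1_TX_eq L n S R₀ hR T hT0 hT]
    refine ⟨hγ, ?_⟩
    rw [Set.mem_iInter]
    intro g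
    show eval _ _ = eval _ _
    rw [eval_X, eval_rename]
    rfl
  · rw [b1_TX_eq L n S R₀ hR T hT0 hT] at hz
    obtain ⟨-, hz⟩ := hz
    rw [Set.mem_iInter] at hz
    funext y
    rcases y with x | g
    · rfl
    · have h := hz g
      have h' : eval z (X (Sum.inr g)) = eval z (rename Sum.inl (T g)) := h
      rw [eval_X, eval_rename] at h'
      exact h'.symm

theorem chi_transfer {χ : K0 →+* ℤ} (hχ : IsEulerCharF χ) (L : Loc I Γ N) (S R₀ : Finset Γ)
    (hR : R₀ ⊆ S) {ι : Type} [Fintype ι] (n : ι → ℕ) (c : ι → ℂ)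
    (h : ∀ t : Γ → ℂ, (∀ g ∈ S, t g ≠ 0) →
      ∑ i, c i * ((χ (cls (XX L (n i) S (Th L.w S t))) : ℤ) : ℂ) = 0) :
    ∑ i, c i * ((χ (cls (XX L (n i) S (Th L.w R₀ fun _ => 1))) : ℤ) : ℂ) = 0 := by
  have h1 := fubini_C hχ (fun i => Fin N × Fin (n i + 1)) (fun i => TX L (n i) S R₀)
    (fun i => (cls_TX L (n i) S R₀ hR).1) c (fun y => by
      by_cases hy : (∀ g ∈ S, y g ≠ 0) ∧ (∀ g, g ∉ S → y g = 0) ∧ ∀ g ∈ R₀, y g = 1
      · rw [← h y hy.1]
        refine Finset.sum_congr rfl fun i _ => ?_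
        have h2 : {x : Fin N × Fin (n i + 1) → ℂ | Sum.elim x y ∈ TX L (n i) S R₀} =
            XX L (n i) S (Th L.w S y) := by
          ext x
          constructor
          · intro hx
            exact hx.2
          · intro hx
            exact ⟨hy, hx⟩
        rw [h2]
      · refine Finset.sum_eq_zero fun i _ => ?_
        have h2 : {x : Fin N × Fin (n i + 1) → ℂ | Sum.elim x y ∈ TX L (n i) S R₀} = ∅ := by
          rw [Set.eq_empty_iff_forall_notMem]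
          intro x hx
          exact hy hx.1
        rw [h2, cls_empty, map_zero, Int.cast_zero, mul_zero])
  rw [← h1]
  exact Finset.sum_congr rfl fun i _ => by rw [(cls_TX L (n i) S R₀ hR).2]

end LF
end MotMono
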