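import Pool.Agent.Lib.MP_4e5fcd_ag.LF.J2
import Pool.Agent.Lib.MP_4e5fcd_ag.Det.M7

/-!
# LF-C1: cone points and contact jets

Let `γ₀ ∈ XX L n S (Th w S t)`, `1 ≤ n`. Apply `exists_conePoint_curve` (Det/M7) to `I = L.J`,
`c = arc γ₀` (so `aeval c f = along f γ₀`), `n₀ = n`: all `f ∈ J` vanish to order `≥ n` along `γ₀`: for the
generators `along_gen_lt_iff` with `k = n` (for `g ∈ S`, `pair = n`; for `g ∉ S`, `pair ≥ n + 1`), then
`along_J_lt`. `(arc γ₀ j).eval 0 = γ₀ (j, 0) = L.p j`: transport the cone point along this equality of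
base points (`subst`/`cast`; e.g. first prove the existence statement for `fun j => (arc γ₀ j).eval 0` and
rewrite `L.p` by the equality). So `y.φ 1 f = (along f γ₀).coeff n` for `f ∈ J`; for generators
(`along_gen_coeff`): `y.φ 1 (gen g) = κ g * t g` for `g ∈ S` (`κ g = eval p (V g) ≠ 0`), `0` for `g ∉ S`
(`along_gen_lt_iff` with `k = n + 1`). `y.Nonzero`: `g ∈ S`, `t g ≠ 0`.
`contactArcs L.J L.p y m = XX L m S (Th w S t)` for `1 ≤ m`. (⊆) let `γ` be a contact jet. For `g ∈ S`:
coefficients `< m` of `along (gen g) γ` vanish and the coefficient `m` is `κ g * t g ≠ 0`, so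
`pair = m` (`along_gen_lt_iff` for `k = m` and `k = m + 1`), `along_gen_coeff`:
`κ g * ∏ lc ^ w = κ g * t g`. For `g ∉ S`: `pair ≥ m + 1`. (⊇) for generators reverse this; for `f ∈ J`
(`Submodule.span_induction`, or write `f = ∑ h g * gen g`): the coefficients `< m` vanish
(`along_J_lt`) and the coefficient `m` of `along (h * gen g) γ` is
`(along h γ).coeff 0 * (along (gen g) γ).coeff m = eval p h * κ g t g`, and likewise
`y.φ 1 (h * gen g) = (along (h * gen g) γ₀).coeff n = eval p h * κ g t g`; both sides are additive in `f`.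
-/

open MvPolynomial

namespace MotMono
namespace LF

variable {I Γ : Type} [Fintype I] [Fintype Γ] {N : ℕ}

theorem exists_conePoint (L : Loc I Γ N) {n : ℕ} (hn : 1 ≤ n) (S : Finset Γ) (hS : S.Nonempty)
    (t : Γ → ℂ) (ht : ∀ g ∈ S, t g ≠ 0) (hne : (XX L n S (Th L.w S t)).Nonempty) :
    ∃ y : ConePoint L.J L.p, y.Nonzero ∧
      ∀ m, 1 ≤ m → contactArcs L.J L.p y m = XX L m S (Th L.w S t) := by
  obtain ⟨γ₀, hγ0, hS0, hT0, hlc0⟩ := hne
  -- orders of the generators along a jet in XX
  have hord : ∀ {m : ℕ} {γ : Fin N × Fin (m + 1) → ℂ}, (∀ j, γ (j, 0) = L.p j) →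
      Sx L.w S (m + 1) (vv L.a γ) →
      (∀ g, g ∉ S → m + 1 ≤ pair (L.w g) (fun i => vv L.a γ i + 1)) →
      ∀ f ∈ L.J, ∀ l < m, (along f γ).coeff l = 0 := by
    intro m γ h0 h1 h2 f hf
    refine along_J_lt L γ (fun g => ?_) f hf
    rw [along_gen_lt_iff L h0 g (by omega)]
    by_cases hg : g ∈ S
    · have := h1 g hg
      omega
    · have := h2 g hg
      omega
  have h := hord hγ0 hS0 hT0
  have hp : (fun i => (arc γ₀ i).eval 0) = L.p := by
    funext i
    rw [← hγ0 i, ← Polynomial.coeff_zero_eq_eval_zero]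
    have h1 := coeff_along_zero (γ := γ₀) (X i)
    rw [eval_X] at h1
    rw [← h1]
    unfold along
    rw [aeval_X]
  have key : ∃ y : ConePoint L.J L.p, ∀ f ∈ L.J, y.φ 1 f = (along f γ₀).coeff n := by
    rw [← hp]
    exact exists_conePoint_curve L.J (arc γ₀) n h
  obtain ⟨y, hy⟩ := key
  have hmem : ∀ g, L.gen g ∈ L.J := fun g => Ideal.subset_span ⟨g, rfl⟩
  have hin : ∀ g ∈ S, y.φ 1 (L.gen g) = eval L.p (L.V g) * t g := by
    intro g hg
    rw [hy _ (hmem g), along_gen_coeff L hγ0 g (d := n) (by have := hS0 g hg; omega) le_rfl]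
    have := hlc0 g hg
    rw [this]
  have hout : ∀ g, g ∉ S → y.φ 1 (L.gen g) = 0 := by
    intro g hg
    rw [hy _ (hmem g)]
    exact (along_gen_lt_iff L hγ0 g (k := n + 1) le_rfl).2 (hT0 g hg) n (Nat.lt_succ_self n)
  refine ⟨y, ?_, fun m hm => ?_⟩
  · obtain ⟨g, hg⟩ := hS
    exact ⟨L.gen g, hmem g, by rw [hin g hg]; exact mul_ne_zero (L.hV g) (ht g hg)⟩
  · ext γ
    constructor
    · rintro ⟨h0, hc⟩
      have hin' : ∀ g ∈ S, pair (L.w g) (fun i => vv L.a γ i + 1) = m := by
        intro g hg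
        obtain ⟨hc1, hc2⟩ := hc _ (hmem g)
        have h1 := (along_gen_lt_iff L h0 g (k := m) (by omega)).1 hc1
        have h2 : ¬ m + 1 ≤ pair (L.w g) (fun i => vv L.a γ i + 1) := by
          intro h2
          have h3 := (along_gen_lt_iff L h0 g (k := m + 1) le_rfl).2 h2 m (Nat.lt_succ_self m)
          rw [h3, hin g hg] at hc2
          exact mul_ne_zero (L.hV g) (ht g hg) hc2.symm
        omega
      refine ⟨h0, fun g hg => ?_, fun g hg => ?_, fun g hg => ?_⟩
      · rw [hin' g hg]
      · rw [← along_gen_lt_iff L h0 g le_rfl]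
        intro l hl
        rcases Nat.lt_succ_iff_lt_or_eq.mp hl with hl | rfl
        · exact (hc _ (hmem g)).1 l hl
        · rw [(hc _ (hmem g)).2, hout g hg]
      · have h1 := (hc _ (hmem g)).2
        rw [along_gen_coeff L h0 g (hin' g hg) le_rfl, hin g hg] at h1
        exact mul_left_cancel₀ (L.hV g) h1
    · rintro ⟨h0, h1, h2, h3⟩
      have hlt := hord h0 h1 h2
      refine ⟨h0, fun f hf => ⟨hlt f hf, ?_⟩⟩
      rw [hy f hf]
      have hz : ∀ (q : MvPolynomial (Fin N) ℂ), (along q γ).coeff 0 = (along q γ₀).coeff 0 := by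
        intro q
        rw [coeff_along_zero, coeff_along_zero]
        congr 2
        funext j
        rw [h0 j, hγ0 j]
      unfold Loc.J Ideal.span at hf
      have hf' : f ∈ Submodule.span (MvPolynomial (Fin N) ℂ) (Set.range L.gen) := hf
      induction hf' using Submodule.span_induction with
      | mem x hx =>
        obtain ⟨g, rfl⟩ := hx
        by_cases hg : g ∈ S
        · rw [along_gen_coeff L h0 g (d := m) (by have := h1 g hg; omega) le_rfl,
            along_gen_coeff L hγ0 g (d := n) (by have := hS0 g hg; omega) le_rfl,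
            h3 g hg, hlc0 g hg]
        · rw [(along_gen_lt_iff L h0 g (k := m + 1) le_rfl).2 (h2 g hg) m (Nat.lt_succ_self m),
            (along_gen_lt_iff L hγ0 g (k := n + 1) le_rfl).2 (hT0 g hg) n (Nat.lt_succ_self n)]
      | zero => simp [along]
      | add x z hx hz' ihx ihz =>
        have e1 := ihx hx
        have e2 := ihz hz'
        unfold along at e1 e2 ⊢
        rw [map_add, map_add, Polynomial.coeff_add, Polynomial.coeff_add, e1, e2]
      | smul q x hx ihx =>
        have e1 := ihx hx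
        have hd1 : (Polynomial.X : Polynomial ℂ) ^ m ∣ along x γ :=
          Polynomial.X_pow_dvd_iff.mpr (hlt x hx)
        have hd2 : (Polynomial.X : Polynomial ℂ) ^ n ∣ along x γ₀ :=
          Polynomial.X_pow_dvd_iff.mpr (h x hx)
        have e2 := m7_coeff (F := along q γ) (a := 0) (by rw [pow_zero]; exact one_dvd _) hd1
        have e3 := m7_coeff (F := along q γ₀) (a := 0) (by rw [pow_zero]; exact one_dvd _) hd2
        rw [zero_add] at e2 e3
        have e4 : along (q • x) γ = along q γ * along x γ := by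
          unfold along
          rw [smul_eq_mul, map_mul]
        have e5 : along (q • x) γ₀ = along q γ₀ * along x γ₀ := by
          unfold along
          rw [smul_eq_mul, map_mul]
        rw [e4, e5, e2, e3, e1, hz q]

end LF
end MotMono
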