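import Pool.Agent.Lib.MP_4e5fcd_ag.LF.S3
import Pool.Agent.Lib.MP_4e5fcd_ag.LF.C1
import Pool.Agent.Lib.MP_4e5fcd_ag.Kum.E11

/-!
# LF-B2: if no point of the normal cone works

Index set: `s = (Sᶜ.powerset).sigma (fun T => (finite_UU a w S D T).toFinset)` or a finset of pairs
`(T, u)`. Fix `g₀ ∈ S`; `k (T, u) = pair (w g₀) u > 0` (`UU_pos`; equal for all `g ∈ S`, so the condition
`∀ g ∈ S, pair (w g) u ∣ n` in `struct_formula` is `k ∣ n`). Let `M = k₀ * ∏_{i ∈ s} k i`: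
`lam ^ M = 1`, `k i ∣ M`. Let `t` with `t g ≠ 0` on `S`. By `struct_dvd`,
`(-1)^|T| χ (..) = c i * k i` with integers `c i` (`i = (T, u)`), so for `n ≥ 1`:
`Λ n := χ (cls (XX L n S (Th w S t))) = ∑_{i ∈ s} if k i ∣ n then c i * k i else 0`.
Periodicity: `k i ∣ n + M ↔ k i ∣ n`. `∑_{n=1}^M lam^n Λ n = ∑_i c i k i ∑_{n ∈ [1, M], k i ∣ n} lam^n`;
the inner sum is `M / k i` if `lam ^ k i = 1` and `0` otherwise (`n = k i * j`, `j = 1, …, M / k i`;
geometric sum with ratio `ρ = lam ^ k i`, `ρ ^ (M / k i) = lam ^ M = 1`), so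
`∑_{n=1}^M lam^n Λ n = M * ∑_{i, lam ^ k i = 1} c i`.
If all `XX L n S (Th w S t)`, `n ≥ 1`, are empty, the sum is `0` (`cls_empty`). Otherwise
`exists_conePoint` gives `y`, `Nonzero`, with `contactArcs y m = XX L m S (Th w S t)` for `m ≥ 1`; if
`∑_{i, lam ^ k i = 1} c i ≠ 0`, `exists_zeta_prod` gives `Z` with `IsZeta (fun d => χ (cls
(contactArcs .. y d))) Z` (its hypothesis concerns only `d > 0`) and `ZeroOrPole Z lam`, contradicting `hno`.
-/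

open MvPolynomial

namespace MotMono
namespace LF

variable {I Γ : Type} [Fintype I] [Fintype Γ] {N : ℕ}

private theorem b2_geom (lam : ℂ) {k M : ℕ} (hk : 0 < k) (hkM : k ∣ M) (hl : lam ^ M = 1) :
    ∑ n ∈ Finset.Icc 1 M, (if k ∣ n then lam ^ n else 0) =
      if lam ^ k = 1 then ((M / k : ℕ) : ℂ) else 0 := by
  obtain ⟨q, rfl⟩ := hkM
  rw [Nat.mul_div_cancel_left _ hk]
  have h1 : ∑ n ∈ Finset.Icc 1 (k * q), (if k ∣ n then lam ^ n else 0) =
      ∑ j ∈ Finset.range q, (lam ^ k) ^ (j + 1) := by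
    rw [← Finset.sum_filter]
    refine Finset.sum_nbij' (fun n => n / k - 1) (fun j => k * (j + 1)) ?_ ?_ ?_ ?_ ?_
    · intro n hn
      rw [Finset.mem_filter, Finset.mem_Icc] at hn
      obtain ⟨⟨h1, h2⟩, c, rfl⟩ := hn
      rw [Nat.mul_div_cancel_left _ hk, Finset.mem_range]
      have hc : 0 < c := Nat.pos_of_ne_zero (by rintro rfl; simp at h1)
      have hcq : c ≤ q := Nat.le_of_mul_le_mul_left h2 hk
      omega
    · intro j hj
      rw [Finset.mem_range] at hj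
      rw [Finset.mem_filter, Finset.mem_Icc]
      refine ⟨⟨Nat.succ_le_of_lt (Nat.mul_pos hk (Nat.succ_pos _)), ?_⟩, dvd_mul_right _ _⟩
      exact Nat.mul_le_mul_left _ hj
    · intro n hn
      rw [Finset.mem_filter, Finset.mem_Icc] at hn
      obtain ⟨⟨h1, h2⟩, c, rfl⟩ := hn
      have hc : 0 < c := Nat.pos_of_ne_zero (by rintro rfl; simp at h1)
      simp only [Nat.mul_div_cancel_left _ hk]
      rw [Nat.sub_add_cancel hc]
    · intro j _
      simp only [Nat.mul_div_cancel_left _ hk]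
      omega
    · intro n hn
      rw [Finset.mem_filter, Finset.mem_Icc] at hn
      obtain ⟨⟨h1, h2⟩, c, rfl⟩ := hn
      have hc : 0 < c := Nat.pos_of_ne_zero (by rintro rfl; simp at h1)
      simp only [Nat.mul_div_cancel_left _ hk]
      rw [Nat.sub_add_cancel hc, pow_mul]
  rw [h1]
  have h2 : (lam ^ k) ^ q = 1 := by rw [← pow_mul, hl]
  split_ifs with h
  · simp [h]
  · have h3 : ∑ j ∈ Finset.range q, (lam ^ k) ^ (j + 1) =
        (∑ j ∈ Finset.range q, (lam ^ k) ^ j) * lam ^ k := by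
      rw [Finset.sum_mul]
      exact Finset.sum_congr rfl fun j _ => pow_succ _ _
    have h4 : (∑ j ∈ Finset.range q, (lam ^ k) ^ j) * (lam ^ k - 1) = 0 := by
      rw [geom_sum_mul, h2, sub_self]
    rcases mul_eq_zero.1 h4 with h5 | h5
    · rw [h3, h5, zero_mul]
    · exact absurd (sub_eq_zero.1 h5) h

open Classical in
private theorem b2_form {χ : K0 →+* ℤ} (hχ : IsEulerCharF χ) (L : Loc I Γ N) (S : Finset Γ)
    (D : Finset I) (hD : ∀ i, i ∈ D ↔ ∃ g ∈ S, L.w g i ≠ 0) {g₀ : Γ} (hg₀ : g₀ ∈ S)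
    (t : Γ → ℂ) (ht : ∀ g ∈ S, t g ≠ 0) :
    ∃ c : (Σ _ : Finset Γ, (I → ℕ)) → ℤ, ∀ n, 1 ≤ n →
      χ (cls (XX L n S (Th L.w S t))) =
        ∑ x ∈ (Sᶜ.powerset).sigma (fun T => (finite_UU L.a L.w S D T).toFinset),
          if pair (L.w g₀) x.2 ∣ n then c x * (pair (L.w g₀) x.2 : ℕ) else 0 := by
  refine ⟨fun x => (-1) ^ x.1.card *
    (χ (cls (XM L.a (Bc L.a (DT L.w D x.1) x.2) x.2 (DT L.w D x.1) (Th L.w S t))) /
      (pair (L.w g₀) x.2 : ℕ)), fun n hn => ?_⟩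
  rw [struct_formula hχ L S D hD ⟨g₀, hg₀⟩ hn t, Finset.sum_sigma]
  refine Finset.sum_congr rfl fun T _ => Finset.sum_congr rfl fun u hu => ?_
  rw [Set.Finite.mem_toFinset] at hu
  have h1 : (∀ g ∈ S, pair (L.w g) u ∣ n) ↔ pair (L.w g₀) u ∣ n := by
    refine ⟨fun h => h g₀ hg₀, fun h g hg => ?_⟩
    rw [hu.2.2.2.2.1 g hg g₀ hg₀]
    exact h
  have h2 : (χ (cls (XM L.a (Bc L.a (DT L.w D T) u) u (DT L.w D T) (Th L.w S t))) /
      (pair (L.w g₀) u : ℕ)) * (pair (L.w g₀) u : ℕ) =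
      χ (cls (XM L.a (Bc L.a (DT L.w D T) u) u (DT L.w D T) (Th L.w S t))) :=
    Int.ediv_mul_cancel (struct_dvd hχ L S D hD t ht T u hu g₀ hg₀)
  simp only [h1]
  split_ifs with h
  · rw [mul_assoc, h2]
  · rfl

theorem lambda_sum {χ : K0 →+* ℤ} (hχ : IsEulerCharF χ) (L : Loc I Γ N) (S : Finset Γ)
    (D : Finset I) (hD : ∀ i, i ∈ D ↔ ∃ g ∈ S, L.w g i ≠ 0) (hS : S.Nonempty) (lam : ℂ)
    {k₀ : ℕ} (hk₀ : 0 < k₀) (hlam : lam ^ k₀ = 1)
    (hno : ∀ y : ConePoint L.J L.p, y.Nonzero →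
      ∀ Z, IsZeta (fun d => χ (cls (contactArcs L.J L.p y d))) Z → ¬ ZeroOrPole Z lam) :
    ∃ M, 0 < M ∧ lam ^ M = 1 ∧ ∀ t : Γ → ℂ, (∀ g ∈ S, t g ≠ 0) →
      (∀ n, 1 ≤ n → χ (cls (XX L (n + M) S (Th L.w S t))) = χ (cls (XX L n S (Th L.w S t)))) ∧
      ∑ n ∈ Finset.Icc 1 M, lam ^ n * ((χ (cls (XX L n S (Th L.w S t))) : ℤ) : ℂ) = 0 := by
  classical
  obtain ⟨g₀, hg₀⟩ := hS
  set s := (Sᶜ.powerset).sigma (fun T => (finite_UU L.a L.w S D T).toFinset) with hs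
  have hpos : ∀ x ∈ s, 0 < pair (L.w g₀) x.2 := by
    intro x hx
    rw [hs, Finset.mem_sigma, Set.Finite.mem_toFinset] at hx
    exact (UU_pos hx.2).2 g₀ hg₀
  have hdvd : ∀ x ∈ s, pair (L.w g₀) x.2 ∣ k₀ * ∏ x ∈ s, pair (L.w g₀) x.2 := fun x hx =>
    Dvd.dvd.mul_left (Finset.dvd_prod_of_mem _ hx) _
  have hM : 0 < k₀ * ∏ x ∈ s, pair (L.w g₀) x.2 :=
    Nat.mul_pos hk₀ (Finset.prod_pos hpos)
  have hlM : lam ^ (k₀ * ∏ x ∈ s, pair (L.w g₀) x.2) = 1 := by rw [pow_mul, hlam, one_pow]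
  refine ⟨k₀ * ∏ x ∈ s, pair (L.w g₀) x.2, hM, hlM, fun t ht => ?_⟩
  obtain ⟨c, hc⟩ := b2_form hχ L S D hD hg₀ t ht
  rw [← hs] at hc
  refine ⟨fun n hn => ?_, ?_⟩
  · rw [hc _ (by omega), hc _ hn]
    refine Finset.sum_congr rfl fun x hx => ?_
    simp only [Nat.dvd_add_left (hdvd x hx)]
  · by_cases hne : ∃ n, 1 ≤ n ∧ (XX L n S (Th L.w S t)).Nonempty
    · obtain ⟨n, hn, hne⟩ := hne
      obtain ⟨y, hy, hyc⟩ := exists_conePoint L hn S ⟨g₀, hg₀⟩ t ht hne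
      have hz : ∑ x ∈ s.filter (fun x => lam ^ pair (L.w g₀) x.2 = 1), c x = 0 := by
        by_contra hcon
        obtain ⟨Z, hZ, hZ'⟩ := Kum.exists_zeta_prod s (fun x => pair (L.w g₀) x.2) c hpos
          (fun d => χ (cls (contactArcs L.J L.p y d)))
          (fun d hd => by simp only [hyc d hd]; rw [hc d hd]) lam hcon
        exact hno y hy Z hZ hZ'
      have h1 : ∀ n ∈ Finset.Icc 1 (k₀ * ∏ x ∈ s, pair (L.w g₀) x.2),
          lam ^ n * ((χ (cls (XX L n S (Th L.w S t))) : ℤ) : ℂ) =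
            ∑ x ∈ s, ((c x : ℂ) * (pair (L.w g₀) x.2 : ℕ)) *
              (if pair (L.w g₀) x.2 ∣ n then lam ^ n else 0) := by
        intro n hn
        rw [hc n (Finset.mem_Icc.1 hn).1, Int.cast_sum, Finset.mul_sum]
        refine Finset.sum_congr rfl fun x _ => ?_
        split_ifs
        · push_cast; ring
        · simp
      rw [Finset.sum_congr rfl h1, Finset.sum_comm]
      have h2 : ∀ x ∈ s, ∑ n ∈ Finset.Icc 1 (k₀ * ∏ x ∈ s, pair (L.w g₀) x.2),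
          ((c x : ℂ) * (pair (L.w g₀) x.2 : ℕ)) *
            (if pair (L.w g₀) x.2 ∣ n then lam ^ n else 0) =
          if lam ^ pair (L.w g₀) x.2 = 1 then
            ((k₀ * ∏ x ∈ s, pair (L.w g₀) x.2 : ℕ) : ℂ) * (c x : ℂ) else 0 := by
        intro x hx
        rw [← Finset.mul_sum, b2_geom lam (hpos x hx) (hdvd x hx) hlM]
        split_ifs
        · have h3 : ((pair (L.w g₀) x.2 : ℕ) : ℂ) *
              (((k₀ * ∏ x ∈ s, pair (L.w g₀) x.2) / pair (L.w g₀) x.2 : ℕ) : ℂ) =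
              ((k₀ * ∏ x ∈ s, pair (L.w g₀) x.2 : ℕ) : ℂ) := by
            rw [← Nat.cast_mul, Nat.mul_div_cancel' (hdvd x hx)]
          rw [mul_assoc, h3, mul_comm]
        · rw [mul_zero]
      rw [Finset.sum_congr rfl h2, ← Finset.sum_filter, ← Finset.mul_sum, ← Int.cast_sum, hz]
      simp
    · refine Finset.sum_eq_zero fun n hn => ?_
      have h1 : XX L n S (Th L.w S t) = ∅ := by
        rw [← Set.not_nonempty_iff_eq_empty]
        exact fun h => hne ⟨n, (Finset.mem_Icc.1 hn).1, h⟩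
      rw [h1, cls_empty, map_zero]
      simp

end LF
end MotMono
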