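import Pool.Agent.Lib.MP_4e5fcd_ag.LF.Defs
import Pool.Agent.Lib.MP_4e5fcd_ag.Basic
import Pool.Agent.Lib.MP_4e5fcd_ag.Det.Base

/-!
# LF-Base: auxiliary definitions for ideals generated by products of linear forms
-/

open MvPolynomial

namespace MotMono
namespace LF

variable {I Γ : Type} {N : ℕ}

/-! ### Bases of maximal weight -/

/-- the span of the vectors with index in `D` -/
def sp (a : I → Fin N → ℂ) (D : Set I) : Submodule ℂ (Fin N → ℂ) := Submodule.span ℂ (a '' D)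

/-- the rank -/
noncomputable def rkS (a : I → Fin N → ℂ) (D : Set I) : ℕ := Module.finrank ℂ (sp a D)

/-- `B` is a basis of `D` -/
def IsBas (a : I → Fin N → ℂ) (D B : Finset I) : Prop :=
  B ⊆ D ∧ LinearIndepOn ℂ a (B : Set I) ∧ ∀ i ∈ D, a i ∈ sp a (B : Set I)

/-- `B` is a basis of `D` which is compatible with the levels of `x`; equivalently, a basis of
maximal weight -/
def MaxB (a : I → Fin N → ℂ) (D : Finset I) (x : I → ℕ) (B : Finset I) : Prop :=
  IsBas a D B ∧ ∀ i ∈ D, a i ∈ sp a {b | b ∈ B ∧ x i ≤ x b}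

open Classical in
/-- the coefficient of `a b` in the expansion of `a i` with respect to `B` -/
noncomputable def cf (a : I → Fin N → ℂ) (B : Finset I) (i b : I) : ℂ :=
  if h : ∃ c : I → ℂ, (∀ j, j ∉ B → c j = 0) ∧ a i = ∑ j ∈ B, c j • a j then h.choose b else 0

/-- the largest level `c` such that `a i` is in the span of the `a j`, `j ∈ D`, `c ≤ x j`
(`0` if `a i` is not in the span of `D`) -/
noncomputable def clo (a : I → Fin N → ℂ) (D : Finset I) (x : I → ℕ) (i : I) : ℕ :=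
  sSup {c | a i ∈ sp a {j | j ∈ D ∧ c ≤ x j}}

/-- the sum of the ranks of the levels -/
noncomputable def nu [Fintype I] (a : I → Fin N → ℂ) (x : I → ℕ) : ℕ :=
  ∑ c ∈ Finset.range (∑ j, x j), rkS a {j | c + 1 ≤ x j}

/-- the vectors which have the same weight on all `B` with `MaxB a D x B` -/
def LinM (a : I → Fin N → ℂ) (D : Finset I) (x : I → ℕ) : Submodule ℚ (I → ℚ) where
  carrier := {z | (∀ i, i ∉ D → z i = 0) ∧
    ∀ B B', MaxB a D x B → MaxB a D x B' → ∑ b ∈ B, z b = ∑ b ∈ B', z b}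
  zero_mem' := by simp
  add_mem' := by
    rintro y z ⟨hy, hy'⟩ ⟨hz, hz'⟩
    refine ⟨fun i hi => by simp [hy i hi, hz i hi], fun B B' hB hB' => ?_⟩
    simp only [Pi.add_apply, Finset.sum_add_distrib]
    rw [hy' B B' hB hB', hz' B B' hB hB']
  smul_mem' := by
    rintro c z ⟨hz, hz'⟩
    refine ⟨fun i hi => by simp [hz i hi], fun B B' hB hB' => ?_⟩
    simp only [Pi.smul_apply, smul_eq_mul, ← Finset.mul_sum]
    rw [hz' B B' hB hB']

/-! ### Faces and essential vectors -/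

/-- the pairing of an exponent vector and a rational vector -/
def pq [Fintype I] (v : I → ℕ) (z : I → ℚ) : ℚ := ∑ i, (v i : ℚ) * z i

/-- the exponent vectors with index in `S` separate the points of `L` -/
def Sep [Fintype I] (w : Γ → I → ℕ) (S : Finset Γ) (L : Submodule ℚ (I → ℚ)) : Prop :=
  ∀ z ∈ L, (∀ g ∈ S, pq (w g) z = 0) → z = 0

open Classical in
/-- the generators of minimal order at `u` -/
noncomputable def Fc [Fintype I] [Fintype Γ] (w : Γ → I → ℕ) (u : I → ℕ) : Finset Γ :=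
  Finset.univ.filter fun g => ∀ g', pair (w g) u ≤ pair (w g') u

/-- the minimal order at `u` -/
noncomputable def mn [Fintype I] (w : Γ → I → ℕ) (u : I → ℕ) : ℕ :=
  sInf (Set.range fun g => pair (w g) u)

open Classical in
/-- `D` together with the supports of the exponent vectors with index in `T` -/
noncomputable def DT [Fintype I] (w : Γ → I → ℕ) (D : Finset I) (T : Finset Γ) : Finset I :=
  Finset.univ.filter fun i => i ∈ D ∨ ∃ g ∈ T, w g i ≠ 0

open Classical in
/-- the indices which are visible at `u` -/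
noncomputable def Du [Fintype I] [Fintype Γ] (w : Γ → I → ℕ) (u : I → ℕ) : Finset I :=
  Finset.univ.filter fun i => u i ≠ 0 ∧ ∃ g ∈ Fc w u, w g i ≠ 0

/-- essential vectors: the candidates for poles -/
structure Ess [Fintype I] [Fintype Γ] (a : I → Fin N → ℂ) (w : Γ → I → ℕ) (u : I → ℕ) :
    Prop where
  pos : 0 < mn w u
  closed : ∀ i, clo a (Du w u) u i = u i
  ext : ∀ z ∈ LinM a (Du w u) u,
    (∀ g ∈ Fc w u, ∀ g' ∈ Fc w u, pq (w g) z = pq (w g') z) →
      ∃ c : ℚ, ∀ i ∈ Du w u, z i = c * u i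

/-! ### Moebius inversion -/

open Classical in
/-- the support -/
noncomputable def spt [Fintype I] (m : I → ℕ) : Finset I := Finset.univ.filter fun i => m i ≠ 0

open Classical in
/-- subtraction of the indicator function of `J` -/
noncomputable def sb (m : I → ℕ) (J : Finset I) : I → ℕ := fun i => if i ∈ J then m i - 1 else m i

open Classical in
/-- the Moebius inversion of `f` over the closed vectors which are equal to `mh` on `D` -/
noncomputable def al [Fintype I] (a : I → Fin N → ℂ) (D : Finset I) (f : (I → ℕ) → ℤ)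
    (mh : I → ℕ) : ℤ :=
  ∑ H ∈ (spt mh \ D).powerset.filter (fun H => clo a Finset.univ (sb mh H) = mh),
    ∑ J ∈ ((spt mh \ D) \ H).powerset, (-1) ^ J.card * f (sb mh (H ∪ J))

/-- the generators with index in `G'` vanish to order at least `K` if the orders of the forms are
`m i + 1` -/
def UC [Fintype I] (w : Γ → I → ℕ) (G' : Finset Γ) (K : ℕ) (m : I → ℕ) : Prop :=
  ∀ g ∈ G', K ≤ pair (w g) (fun i => m i + 1)

open Classical in
/-- the indicator function of `UC` -/
noncomputable def ucf [Fintype I] (w : Γ → I → ℕ) (G' : Finset Γ) (K : ℕ) (m : I → ℕ) : ℤ :=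
  if UC w G' K m then 1 else 0

/-- a large constant -/
def Hb [Fintype I] [Fintype Γ] (w : Γ → I → ℕ) : ℕ := 1 + ∑ g, ∑ i, w g i

open Classical in
/-- the generators with index in `G'` and order less than `K + Hb w` -/
noncomputable def TT [Fintype I] [Fintype Γ] (w : Γ → I → ℕ) (G' : Finset Γ) (K : ℕ)
    (mh : I → ℕ) : Finset Γ :=
  G'.filter fun g => pair (w g) (fun i => mh i + 1) < K + Hb w

/-- the exact conditions for the generators with index in `S` -/
def Sx [Fintype I] (w : Γ → I → ℕ) (S : Finset Γ) (K : ℕ) (mh : I → ℕ) : Prop :=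
  ∀ g ∈ S, pair (w g) (fun i => mh i + 1) + 1 = K

/-! ### Patterns and polyhedra -/

/-- a pattern -/
structure Pat (I Γ : Type) where
  /-- the generators of small order -/
  T : Finset Γ
  /-- their orders, minus `K` -/
  off : Γ → ℕ
  /-- the bases of maximal weight -/
  BB : Finset (Finset I)
  /-- the zeros -/
  Z0 : Finset I

/-- the pair `(K, mh)` has the pattern `P` -/
structure IsPat [Fintype I] [Fintype Γ] (a : I → Fin N → ℂ) (w : Γ → I → ℕ) (S : Finset Γ)
    (D : Finset I) (K : ℕ) (mh : I → ℕ) (P : Pat I Γ) : Prop where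
  closed : ∀ i, clo a (DT w D P.T) mh i = mh i
  sx : Sx w S K mh
  T : ∀ g, g ∈ P.T ↔ g ∉ S ∧ pair (w g) (fun i => mh i + 1) < K + Hb w
  off : ∀ g ∈ P.T, pair (w g) (fun i => mh i + 1) = K + P.off g
  off0 : ∀ g, g ∉ P.T → P.off g = 0
  BB : ∀ B, B ∈ P.BB ↔ MaxB a (DT w D P.T) mh B
  Z0 : ∀ i, i ∈ P.Z0 ↔ i ∈ DT w D P.T ∧ mh i = 0

/-- the lattice points of a polyhedron -/
def InP {ι : Type} [Fintype ι] (Z : Set ι) (Cs : Finset ((ι → ℤ) × ℤ)) (b : ι → ℕ) : Prop :=
  (∀ i ∈ Z, b i = 0) ∧ (∀ i, i ∉ Z → 1 ≤ b i) ∧ ∀ c ∈ Cs, c.2 ≤ ∑ i, c.1 i * (b i : ℤ)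

/-- the linear form on `Option I` with coefficients `v` on `I` and `s` at `none` -/
def fo (v : I → ℤ) (s : ℤ) : Option I → ℤ := fun o => o.elim s v

/-- the vanishing coordinates of the polyhedron of a pattern -/
def Zp [Fintype I] (w : Γ → I → ℕ) (D : Finset I) (P : Pat I Γ) : Set (Option I) :=
  {o | ∃ i, o = some i ∧ (i ∉ DT w D P.T ∨ i ∈ P.Z0)}

open Classical in
/-- choice functions -/
noncomputable def Cc [Fintype I] (a : I → Fin N → ℂ) (D' B₀ : Finset I) : Finset (I → I) :=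
  Finset.univ.filter fun c => ∀ i, i ∉ D' → a i ∈ sp a (D' : Set I) →
    c i ∈ B₀ ∧ cf a B₀ i (c i) ≠ 0

open Classical in
/-- the linear form `∑_{i ∈ D'} v i x i + ∑_{i ∉ D', a i ∈ span D'} v i x (c i)` -/
noncomputable def cform [Fintype I] (a : I → Fin N → ℂ) (D' : Finset I) (v : I → ℕ) (c : I → I)
    (j : I) : ℤ :=
  (if j ∈ D' then (v j : ℤ) else 0) +
    ∑ i, if i ∉ D' ∧ a i ∈ sp a (D' : Set I) ∧ c i = j then (v i : ℤ) else 0

open Classical in
/-- the inequalities of the polyhedron of a pattern -/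
noncomputable def Cp [Fintype I] [Fintype Γ] (a : I → Fin N → ℂ) (w : Γ → I → ℕ) (S : Finset Γ)
    (D : Finset I) (P : Pat I Γ) (B₀ : Finset I) : Finset ((Option I → ℤ) × ℤ) :=
  S.image (fun g => (fo (fun i => (w g i : ℤ)) (-1), -(∑ i, (w g i : ℤ)) - 1)) ∪
  S.image (fun g => (fo (fun i => -(w g i : ℤ)) 1, (∑ i, (w g i : ℤ)) + 1)) ∪
  P.T.image (fun g => (fo (fun i => (w g i : ℤ)) (-1), (P.off g : ℤ) - ∑ i, (w g i : ℤ))) ∪
  P.T.image (fun g => (fo (fun i => -(w g i : ℤ)) 1, (∑ i, (w g i : ℤ)) - P.off g)) ∪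
  P.BB.image (fun B => (fo (fun i => (if i ∈ B then 1 else 0) - (if i ∈ B₀ then 1 else 0)) 0,
    0)) ∪
  (Finset.univ.filter fun B => IsBas a (DT w D P.T) B).image (fun B =>
    (fo (fun i => (if i ∈ B₀ then 1 else 0) - (if i ∈ B then 1 else 0)) 0,
      if B ∈ P.BB then 0 else 1)) ∪
  (Finset.univ.filter fun gc : Γ × (I → I) => gc.1 ∉ S ∧ gc.1 ∉ P.T ∧
      gc.2 ∈ Cc a (DT w D P.T) B₀).image (fun gc =>
    (fo (cform a (DT w D P.T) (w gc.1) gc.2) (-1), (Hb w : ℤ) - ∑ i, (w gc.1 i : ℤ)))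

open Classical in
/-- the exponent of `q` on the polyhedron -/
noncomputable def nuP (B₀ : Finset I) : Option I → ℕ :=
  fun o => o.elim 0 (fun i => if i ∈ B₀ then 1 else 0)

open Classical in
/-- the coefficients of the generating function -/
noncomputable def Gc [Fintype I] [Fintype Γ] {R : Type*} [CommRing R] (a : I → Fin N → ℂ)
    (w : Γ → I → ℕ) (S : Finset Γ) (D : Finset I) (𝒯 : Set (Finset Γ))
    (φ : Finset I → (I → ℕ) → R) (q : R) (K : ℕ) : R :=
  ∑ mh ∈ Fintype.piFinset (fun _ : I => Finset.range K),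
    if (∀ i, clo a Finset.univ mh i = mh i) ∧ Sx w S K mh ∧ TT w Sᶜ K mh ∈ 𝒯 then
      (al a D (ucf w Sᶜ K) mh : R) * φ (DT w D (TT w Sᶜ K mh)) mh * q ^ nu a mh
    else 0

/-! ### Arcs -/

/-- local data: the forms `a i` vanish at the point `p`, the polynomials `V g` do not -/
structure Loc (I Γ : Type) (N : ℕ) where
  /-- the forms -/
  a : I → Fin N → ℂ
  /-- the exponents -/
  w : Γ → I → ℕ
  /-- the units -/
  V : Γ → MvPolynomial (Fin N) ℂ
  /-- the point -/
  p : Fin N → ℂ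
  ha : ∀ i, a i ≠ 0
  hp : ∀ i, a i ⬝ᵥ p = 0
  hV : ∀ g, eval p (V g) ≠ 0

/-- the generators -/
noncomputable def Loc.gen [Fintype I] (L : Loc I Γ N) (g : Γ) : MvPolynomial (Fin N) ℂ :=
  L.V g * ∏ i, linForm (L.a i) ^ L.w g i

/-- the ideal -/
noncomputable def Loc.J [Fintype I] (L : Loc I Γ N) : Ideal (MvPolynomial (Fin N) ℂ) :=
  Ideal.span (Set.range L.gen)

/-- the orders of the forms along a jet with the levels `0, …, n`, minus one, cut off at `n` -/
noncomputable def vv (a : I → Fin N → ℂ) {n : ℕ} (γ : Fin N × Fin (n + 1) → ℂ) (i : I) : ℕ :=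
  sInf {l | ∀ h : l < n, a i ⬝ᵥ lev γ (Fin.succ ⟨l, h⟩) ≠ 0}

open Classical in
/-- the leading coefficients of the forms along a jet (`1` if the form vanishes) -/
noncomputable def lc (a : I → Fin N → ℂ) {n : ℕ} (γ : Fin N × Fin (n + 1) → ℂ) (i : I) : ℂ :=
  if h : vv a γ i < n then a i ⬝ᵥ lev γ (Fin.succ ⟨vv a γ i, h⟩) else 1

open Classical in
/-- the vectors `m ≤ v` which are equal to `v` on `D` -/
noncomputable def Bd [Fintype I] (D : Finset I) (v : I → ℕ) : Finset (I → ℕ) :=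
  Fintype.piFinset fun i => if i ∈ D then {v i} else Finset.range (v i + 1)

/-- the conditions `∏ c_i ^ (w g i) = t g` on the leading coefficients -/
def Th [Fintype I] (w : Γ → I → ℕ) (S : Finset Γ) (t : Γ → ℂ) : Set (I → ℂ) :=
  {c | ∀ g ∈ S, ∏ i, c i ^ w g i = t g}

/-- `n`-jets with `vv ≥ m` on `E`, `vv = m < n` on `D`, and leading coefficients in `Θ` -/
def YS (L : Loc I Γ N) (n : ℕ) (E D : Finset I) (m : I → ℕ) (Θ : Set (I → ℂ)) :
    Set (Fin N × Fin (n + 1) → ℂ) :=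
  {γ | (∀ j, γ (j, 0) = L.p j) ∧ (∀ i ∈ E, m i ≤ vv L.a γ i) ∧
    (∀ i ∈ D, vv L.a γ i = m i ∧ m i < n) ∧ lc L.a γ ∈ Θ}

/-- the jets with exact conditions for `g ∈ S`, order at least `n + 1` for `g ∉ S`, and leading
coefficients in `Θ` -/
def XX [Fintype I] (L : Loc I Γ N) (n : ℕ) (S : Finset Γ) (Θ : Set (I → ℂ)) :
    Set (Fin N × Fin (n + 1) → ℂ) :=
  {γ | (∀ j, γ (j, 0) = L.p j) ∧ Sx L.w S (n + 1) (vv L.a γ) ∧
    (∀ g, g ∉ S → n + 1 ≤ pair (L.w g) (fun i => vv L.a γ i + 1)) ∧ lc L.a γ ∈ Θ}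

/-- the jets with exact conditions for `g ∈ S`, order at most `n` for `g ∈ T`, and leading
coefficients in `Θ` -/
def AT [Fintype I] (L : Loc I Γ N) (n : ℕ) (S T : Finset Γ) (Θ : Set (I → ℂ)) :
    Set (Fin N × Fin (n + 1) → ℂ) :=
  {γ | (∀ j, γ (j, 0) = L.p j) ∧ Sx L.w S (n + 1) (vv L.a γ) ∧
    (∀ g ∈ T, pair (L.w g) (fun i => vv L.a γ i + 1) ≤ n) ∧ lc L.a γ ∈ Θ}

/-! ### The sets of leading coefficients -/

open Classical in
/-- the leading coefficient of the form `i` in terms of those of the basis `B` -/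
noncomputable def ci (a : I → Fin N → ℂ) (B : Finset I) (x : I → ℕ) (c : B → ℂ) (i : I) : ℂ :=
  ∑ b : B, if x b = x i then cf a B i b * c b else 0

/-- the complement of the initial arrangement, with conditions on the leading coefficients -/
def XM (a : I → Fin N → ℂ) (B : Finset I) (x : I → ℕ) (D : Finset I) (Θ : Set (I → ℂ)) :
    Set (B → ℂ) :=
  {c | (∀ i ∈ D, ci a B x c i ≠ 0) ∧ ci a B x c ∈ Θ}

open Classical in
/-- a basis compatible with `x` -/
noncomputable def Bc (a : I → Fin N → ℂ) (D : Finset I) (x : I → ℕ) : Finset I :=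
  if h : ∃ B, MaxB a D x B then h.choose else ∅

/-- the directions of the strata with nonzero Euler characteristic -/
def UU [Fintype I] (a : I → Fin N → ℂ) (w : Γ → I → ℕ) (S : Finset Γ) (D : Finset I)
    (T : Finset Γ) : Set (I → ℕ) :=
  {u | (∀ i, u i ≠ 0 ↔ i ∈ DT w D T) ∧ Prim u ∧ (∀ i ∈ DT w D T, clo a (DT w D T) u i = u i) ∧
    Sep w S (LinM a (DT w D T) u) ∧ (∀ g ∈ S, ∀ g' ∈ S, pair (w g) u = pair (w g') u) ∧
    ∀ g ∈ T, ∀ g' ∈ S, pair (w g) u ≤ pair (w g') u}

/-- the directions of the strata in `F2` -/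
def VV [Fintype I] [Fintype Γ] (a : I → Fin N → ℂ) (w : Γ → I → ℕ) (S R₀ : Finset Γ)
    (D : Finset I) : Set (I → ℕ) :=
  {v | (∀ i, 0 < v i) ∧ Prim v ∧ (∀ i, clo a D v i = v i) ∧ Fc w v = S ∧
    Sep w R₀ (LinM a D v)}

end LF
end MotMono
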