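import Pool.Agent.Lib.MP_4e5fcd_ag.LF.Base

/-!
# LF-F1: Moebius inversion on the product order

`telescope`: for `m` with `m = v` on `D` put
`am m = ∑ J ⊆ spt m \ D, (-1)^|J| f (sb m J)`. Claim `∑_{m ≤ v, m = v on D} am m = f v`.
Pairs `(m, J)` with `J ⊆ spt m \ D` correspond to pairs `(p, J)`, `p = sb m J`, `J ⊆ Dᶜ` (`m = p + 1_J`:
`m i = p i + 1` for `i ∈ J`, so automatically `J ⊆ spt m`), with `p = v` on `D`, `p i + 1 ≤ v i` for
`i ∈ J`, `p i ≤ v i` otherwise. For fixed `p ≤ v` the sum of `(-1)^|J|` over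
`J ⊆ {i ∉ D | p i < v i}` is `0` unless this set is empty, i.e. `p = v`
(`Finset.sum_powerset_neg_one_pow_card`).
-/

open MvPolynomial

namespace MotMono
namespace LF

open Classical in
private theorem F1_mem_Bd {I : Type} [Fintype I] {D : Finset I} {v m : I → ℕ} :
    m ∈ Bd D v ↔ (∀ i ∈ D, m i = v i) ∧ ∀ i, m i ≤ v i := by
  simp only [Bd, Fintype.mem_piFinset]
  constructor
  · intro h
    refine ⟨fun i hi => ?_, fun i => ?_⟩
    · have := h i
      rw [if_pos hi] at this
      simpa using this
    · have := h i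
      by_cases hi : i ∈ D
      · rw [if_pos hi] at this
        exact le_of_eq (by simpa using this)
      · rw [if_neg hi] at this
        rw [Finset.mem_range] at this
        omega
  · rintro ⟨h1, h2⟩ i
    by_cases hi : i ∈ D
    · rw [if_pos hi, Finset.mem_singleton]
      exact h1 i hi
    · rw [if_neg hi, Finset.mem_range]
      have := h2 i
      omega

open Classical in
theorem telescope {I : Type} [Fintype I] (D : Finset I) (f : (I → ℕ) → ℤ) (v : I → ℕ) :
    f v = ∑ m ∈ Bd D v, ∑ J ∈ (spt m \ D).powerset, (-1) ^ J.card * f (sb m J) := by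
  have hswap : ∑ m ∈ Bd D v, ∑ J ∈ (spt m \ D).powerset, (-1 : ℤ) ^ J.card * f (sb m J)
      = ∑ p ∈ Bd D v, ∑ J ∈ (Finset.univ.filter fun i => i ∉ D ∧ p i < v i).powerset,
        (-1 : ℤ) ^ J.card * f p := by
    rw [Finset.sum_sigma', Finset.sum_sigma']
    refine Finset.sum_bij' (fun x _ => ⟨sb x.1 x.2, x.2⟩)
      (fun x _ => ⟨fun i => if i ∈ x.2 then x.1 i + 1 else x.1 i, x.2⟩) ?_ ?_ ?_ ?_ ?_
    · rintro ⟨m, J⟩ h
      simp only [Finset.mem_sigma, Finset.mem_powerset, F1_mem_Bd] at h ⊢
      obtain ⟨⟨h1, h2⟩, h3⟩ := h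
      refine ⟨⟨fun i hi => ?_, fun i => ?_⟩, fun i hi => ?_⟩
      · have hiJ : i ∉ J := fun hJ => (Finset.mem_sdiff.mp (h3 hJ)).2 hi
        simp only [sb, if_neg hiJ]
        exact h1 i hi
      · have := h2 i
        simp only [sb]
        split_ifs <;> omega
      · have h4 := Finset.mem_sdiff.mp (h3 hi)
        have h5 : m i ≠ 0 := by
          have := h4.1
          simpa [spt] using this
        have := h2 i
        refine Finset.mem_filter.mpr ⟨Finset.mem_univ _, h4.2, ?_⟩
        simp only [sb, if_pos hi]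
        omega
    · rintro ⟨p, J⟩ h
      simp only [Finset.mem_sigma, Finset.mem_powerset, F1_mem_Bd] at h ⊢
      obtain ⟨⟨h1, h2⟩, h3⟩ := h
      have h4 : ∀ i ∈ J, i ∉ D ∧ p i < v i := fun i hi => by
        have := h3 hi
        simpa using this
      refine ⟨⟨fun i hi => ?_, fun i => ?_⟩, fun i hi => ?_⟩
      · have hiJ : i ∉ J := fun hJ => (h4 i hJ).1 hi
        simp only [if_neg hiJ]
        exact h1 i hi
      · by_cases hiJ : i ∈ J
        · simp only [if_pos hiJ]
          have := (h4 i hiJ).2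
          omega
        · simp only [if_neg hiJ]
          exact h2 i
      · simp only [spt, Finset.mem_sdiff, Finset.mem_filter, Finset.mem_univ, true_and, if_pos hi]
        exact ⟨by omega, (h4 i hi).1⟩
    · rintro ⟨m, J⟩ h
      simp only [Finset.mem_sigma, Finset.mem_powerset, F1_mem_Bd] at h
      obtain ⟨⟨h1, h2⟩, h3⟩ := h
      simp only [Sigma.mk.injEq, heq_eq_eq, and_true]
      funext i
      by_cases hi : i ∈ J
      · have h4 := Finset.mem_sdiff.mp (h3 hi)
        have h5 : m i ≠ 0 := by
          have := h4.1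
          simpa [spt] using this
        simp only [if_pos hi, sb]
        omega
      · simp only [if_neg hi, sb]
    · rintro ⟨p, J⟩ h
      simp only [Sigma.mk.injEq, heq_eq_eq, and_true]
      funext i
      by_cases hi : i ∈ J
      · simp only [if_pos hi, sb]
        omega
      · simp only [if_neg hi, sb]
    · rintro ⟨m, J⟩ h
      rfl
  rw [hswap]
  have hin : ∀ p ∈ Bd D v, ∑ J ∈ (Finset.univ.filter fun i => i ∉ D ∧ p i < v i).powerset,
      (-1 : ℤ) ^ J.card * f p = if p = v then f v else 0 := by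
    intro p hp
    rw [F1_mem_Bd] at hp
    rw [← Finset.sum_mul, Finset.sum_powerset_neg_one_pow_card]
    by_cases hpv : p = v
    · subst hpv
      simp
    · rw [if_neg hpv, if_neg, zero_mul]
      intro he
      apply hpv
      funext i
      by_cases hi : i ∈ D
      · exact hp.1 i hi
      · by_contra hne
        have : i ∈ (Finset.univ.filter fun i => i ∉ D ∧ p i < v i) := by
          simp only [Finset.mem_filter, Finset.mem_univ, true_and]
          exact ⟨hi, lt_of_le_of_ne (hp.2 i) hne⟩
        rw [he] at this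
        simp at this
  rw [Finset.sum_congr rfl hin, Finset.sum_ite_eq']
  rw [if_pos]
  rw [F1_mem_Bd]
  exact ⟨fun _ _ => rfl, fun _ => le_rfl⟩

end LF
end MotMono
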