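import Pool.Agent.Lib.MP_4e5fcd_ag.LF.A4

/-!
# LF-F2: the involution

`clo_toggle`: let `p i + 2 ≤ mh i` and `clo a univ (Function.update m i (p i)) = mh`, or the same with
`p i + 1`; the two are equivalent. More precisely: if `m i < mh i`, `m' i < mh i` and `m = m'` off
`i`, then `clo a univ m = mh → clo a univ m' = mh`. Proof: it suffices that
`sp {j | c ≤ m j} = sp {j | c ≤ m' j}` for all `c ≥ 1` (then `le_clo_iff`). By symmetry assume
`m' i < m i` (the other case: first show the equality of spans for the pair in the order in which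
the closure of the larger one is known, or do both cases at once as follows). The two sets differ at
most by `i`, and `i` is in one of them only if `c ≤ max (m i) (m' i) < mh i`. Now
`mh i = clo a univ m i`, so `a i ∈ sp {j | mh i ≤ m j}` by `le_clo_iff`, and `i` is not in this set
(`m i < mh i`); all its elements `j ≠ i` satisfy `c < mh i ≤ m j = m' j`. So adding `i` to either set
does not change the span.

`al_eq_sum`: in the sum over pairs `(m, J)`, `m ∈ Bd D mh`, `clo a univ m = mh`, `J ⊆ spt m \ D`, put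
`p = sb m J`; then `m i = p i + 1` for `i ∈ J`, `m i = p i` for `i ∉ J`. For fixed `p` (with `p = mh`
on `D`, `p ≤ mh`) sum `(-1)^|J|` over the `J ⊆ Dᶜ` with `clo (p + 1_J) = mh`. If some `i ∉ D` has
`p i + 2 ≤ mh i`, toggling `i` (the least such `i`, or `Classical.choose`) is a sign reversing
involution (`Finset.sum_involution`; on pairs `(m, J)`: `J ↦ J ∆ {i}`, `m ↦ p + 1_{J ∆ {i}}`, `p` is
unchanged). The remaining pairs have `mh i - 1 ≤ p i ≤ mh i` for all `i`; they are the pairs
`m = sb mh H`, `J ⊆ (spt mh \ D) \ H`: `H = {i ∉ D | m i ≠ mh i}` (then `m i = mh i - 1`, and `i ∉ J`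
because otherwise `p i = mh i - 2`), and `p = sb mh (H ∪ J)`. If `clo a univ mh ≠ mh` both sides are `0`
(`clo_clo`).
-/

open MvPolynomial

namespace MotMono
namespace LF

variable {I : Type} [Fintype I] {N : ℕ} {a : I → Fin N → ℂ}

theorem sp_eq_of_toggle {m m' : I → ℕ} {i : I} {c k : ℕ} (hck : c ≤ k) (hki : m i < k)
    (h : ∀ j, j ≠ i → m j = m' j)
    (hi : a i ∈ sp a {j | j ∈ (Finset.univ : Finset I) ∧ k ≤ m j}) :
    sp a {j | j ∈ (Finset.univ : Finset I) ∧ c ≤ m j} =
      sp a {j | j ∈ (Finset.univ : Finset I) ∧ c ≤ m' j} := by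
  have hE : a i ∈ sp a {j | j ≠ i ∧ c ≤ m j} := by
    refine sp_mono ?_ hi
    intro j hj
    refine ⟨?_, hck.trans hj.2⟩
    rintro rfl
    exact absurd hj.2 (not_le.mpr hki)
  have h1 : sp a {j | j ∈ (Finset.univ : Finset I) ∧ c ≤ m j} = sp a {j | j ≠ i ∧ c ≤ m j} := by
    apply le_antisymm
    · refine Submodule.span_le.mpr ?_
      rintro _ ⟨j, hj, rfl⟩
      by_cases hji : j = i
      · subst hji
        exact hE
      · exact mem_sp_of_mem ⟨hji, hj.2⟩
    · exact sp_mono fun j hj => ⟨Finset.mem_univ j, hj.2⟩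
  have h2 : sp a {j | j ∈ (Finset.univ : Finset I) ∧ c ≤ m' j} = sp a {j | j ≠ i ∧ c ≤ m j} := by
    apply le_antisymm
    · refine Submodule.span_le.mpr ?_
      rintro _ ⟨j, hj, rfl⟩
      by_cases hji : j = i
      · subst hji
        exact hE
      · refine mem_sp_of_mem ⟨hji, ?_⟩
        rw [h j hji]
        exact hj.2
    · refine sp_mono fun j hj => ⟨Finset.mem_univ j, ?_⟩
      rw [← h j hj.1]
      exact hj.2
  rw [h1, h2]

theorem clo_toggle (ha : ∀ i, a i ≠ 0) {m m' mh : I → ℕ} {i : I} (hm : m i < mh i)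
    (hm' : m' i < mh i) (h : ∀ j, j ≠ i → m j = m' j) (hc : clo a Finset.univ m = mh) :
    clo a Finset.univ m' = mh := by
  have hpos : 0 < mh i := lt_of_le_of_lt (Nat.zero_le _) hm
  have hai : a i ∈ sp a {j | j ∈ (Finset.univ : Finset I) ∧ mh i ≤ m j} := by
    rw [← le_clo_iff (ha i) hpos, hc]
  have key : ∀ c, 0 < c → sp a {j | j ∈ (Finset.univ : Finset I) ∧ c ≤ m j} =
      sp a {j | j ∈ (Finset.univ : Finset I) ∧ c ≤ m' j} := by
    intro c hc0
    by_cases hci : c ≤ mh i
    · exact sp_eq_of_toggle hci hm h hai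
    · have hset : {j | j ∈ (Finset.univ : Finset I) ∧ c ≤ m j} =
          {j | j ∈ (Finset.univ : Finset I) ∧ c ≤ m' j} := by
        ext j
        by_cases hji : j = i
        · subst hji
          constructor
          · intro hj
            have := hj.2
            omega
          · intro hj
            have := hj.2
            omega
        · have := h j hji
          constructor
          · intro hj
            refine ⟨hj.1, ?_⟩
            rw [← this]
            exact hj.2
          · intro hj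
            refine ⟨hj.1, ?_⟩
            rw [this]
            exact hj.2
      rw [hset]
  have hiff : ∀ x c, 0 < c → (c ≤ clo a Finset.univ m' x ↔ c ≤ mh x) := by
    intro x c hc0
    rw [← hc, le_clo_iff (ha x) hc0, le_clo_iff (ha x) hc0, key c hc0]
  funext x
  apply le_antisymm
  · rcases Nat.eq_zero_or_pos (clo a Finset.univ m' x) with h0 | h0
    · rw [h0]
      exact Nat.zero_le _
    · exact (hiff x _ h0).mp le_rfl
  · rcases Nat.eq_zero_or_pos (mh x) with h0 | h0
    · rw [h0]
      exact Nat.zero_le _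
    · exact (hiff x _ h0).mpr le_rfl

open Classical in
theorem mem_Bd_f2 {D : Finset I} {v m : I → ℕ} :
    m ∈ Bd D v ↔ (∀ i ∈ D, m i = v i) ∧ ∀ i, m i ≤ v i := by
  unfold Bd
  rw [Fintype.mem_piFinset]
  constructor
  · intro h
    refine ⟨fun i hi => ?_, fun i => ?_⟩
    · have := h i
      rw [if_pos hi, Finset.mem_singleton] at this
      exact this
    · have := h i
      by_cases hi : i ∈ D
      · rw [if_pos hi, Finset.mem_singleton] at this
        exact this.le
      · rw [if_neg hi, Finset.mem_range] at this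
        omega
  · rintro ⟨h1, h2⟩ i
    by_cases hi : i ∈ D
    · rw [if_pos hi, Finset.mem_singleton]
      exact h1 i hi
    · rw [if_neg hi, Finset.mem_range]
      have := h2 i
      omega

theorem mem_spt_f2 {m : I → ℕ} {i : I} : i ∈ spt m ↔ m i ≠ 0 := by
  classical
  unfold spt
  simp

theorem sb_mem_f2 {m : I → ℕ} {J : Finset I} {i : I} (h : i ∈ J) : sb m J i = m i - 1 := by
  classical
  unfold sb
  exact if_pos h

theorem sb_notMem_f2 {m : I → ℕ} {J : Finset I} {i : I} (h : i ∉ J) : sb m J i = m i := by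
  classical
  unfold sb
  exact if_neg h

theorem sb_le_f2 {m : I → ℕ} {J : Finset I} {i : I} : sb m J i ≤ m i := by
  by_cases h : i ∈ J
  · rw [sb_mem_f2 h]
    exact Nat.sub_le _ _
  · rw [sb_notMem_f2 h]

theorem le_sb_f2 {m : I → ℕ} {J : Finset I} {i : I} : m i ≤ sb m J i + 1 := by
  by_cases h : i ∈ J
  · rw [sb_mem_f2 h]
    omega
  · rw [sb_notMem_f2 h]
    omega

theorem sb_sb_f2 [DecidableEq I] {m : I → ℕ} {H J : Finset I} (h : Disjoint H J) :
    sb (sb m H) J = sb m (H ∪ J) := by
  funext i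
  by_cases hJ : i ∈ J
  · have hH : i ∉ H := fun hH => (Finset.disjoint_left.mp h) hH hJ
    rw [sb_mem_f2 hJ, sb_notMem_f2 hH, sb_mem_f2 (Finset.mem_union_right _ hJ)]
  · by_cases hH : i ∈ H
    · rw [sb_notMem_f2 hJ, sb_mem_f2 hH, sb_mem_f2 (Finset.mem_union_left _ hH)]
    · rw [sb_notMem_f2 hJ, sb_notMem_f2 hH, sb_notMem_f2]
      rw [Finset.mem_union]
      tauto

/-- the toggled vector -/
noncomputable def tgm (p m : I → ℕ) (J : Finset I) (i : I) : I → ℕ := by
  classical
  exact Function.update m i (if i ∈ J then p i else p i + 1)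

/-- the toggled set -/
noncomputable def tgJ (J : Finset I) (i : I) : Finset I := by
  classical
  exact if i ∈ J then J.erase i else insert i J

theorem tgm_of_ne {p m : I → ℕ} {J : Finset I} {i j : I} (h : j ≠ i) : tgm p m J i j = m j := by
  classical
  unfold tgm
  exact Function.update_of_ne h _ _

theorem tgm_mem {p m : I → ℕ} {J : Finset I} {i : I} (h : i ∈ J) : tgm p m J i i = p i := by
  classical
  unfold tgm
  rw [Function.update_self, if_pos h]

theorem tgm_notMem {p m : I → ℕ} {J : Finset I} {i : I} (h : i ∉ J) :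
    tgm p m J i i = p i + 1 := by
  classical
  unfold tgm
  rw [Function.update_self, if_neg h]

theorem mem_tgJ_of_ne {J : Finset I} {i j : I} (h : j ≠ i) : j ∈ tgJ J i ↔ j ∈ J := by
  classical
  unfold tgJ
  by_cases hi : i ∈ J
  · rw [if_pos hi, Finset.mem_erase]
    tauto
  · rw [if_neg hi, Finset.mem_insert]
    tauto

theorem mem_tgJ_self {J : Finset I} {i : I} : i ∈ tgJ J i ↔ i ∉ J := by
  classical
  unfold tgJ
  by_cases hi : i ∈ J
  · rw [if_pos hi, Finset.mem_erase]
    tauto
  · rw [if_neg hi, Finset.mem_insert]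
    tauto

theorem tgJ_tgJ {J : Finset I} {i : I} : tgJ (tgJ J i) i = J := by
  ext j
  by_cases h : j = i
  · subst h
    rw [mem_tgJ_self, mem_tgJ_self]
    tauto
  · rw [mem_tgJ_of_ne h, mem_tgJ_of_ne h]

theorem tgJ_ne {J : Finset I} {i : I} : tgJ J i ≠ J := by
  intro h
  have h1 : i ∈ tgJ J i ↔ i ∉ J := mem_tgJ_self
  rw [h] at h1
  tauto

theorem neg_one_tgJ {J : Finset I} {i : I} :
    ((-1 : ℤ)) ^ J.card + (-1) ^ (tgJ J i).card = 0 := by
  classical
  unfold tgJ
  by_cases hi : i ∈ J
  · rw [if_pos hi]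
    have := Finset.card_erase_add_one hi
    rw [← this, pow_succ]
    ring
  · rw [if_neg hi, Finset.card_insert_of_notMem hi, pow_succ]
    ring

theorem sb_tg_f2 {m : I → ℕ} {J : Finset I} {i : I} (hJ : ∀ j ∈ J, m j ≠ 0) :
    sb (tgm (sb m J) m J i) (tgJ J i) = sb m J := by
  funext j
  by_cases hji : j = i
  · subst hji
    by_cases hj : j ∈ J
    · have h1 : j ∉ tgJ J j := by rw [mem_tgJ_self]; exact not_not.mpr hj
      rw [sb_notMem_f2 h1, tgm_mem hj]
    · have h1 : j ∈ tgJ J j := by rw [mem_tgJ_self]; exact hj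
      rw [sb_mem_f2 h1, tgm_notMem hj]
      rfl
  · by_cases hj : j ∈ J
    · have h1 : j ∈ tgJ J i := by rw [mem_tgJ_of_ne hji]; exact hj
      rw [sb_mem_f2 h1, tgm_of_ne hji, sb_mem_f2 hj]
    · have h1 : j ∉ tgJ J i := by rw [mem_tgJ_of_ne hji]; exact hj
      rw [sb_notMem_f2 h1, tgm_of_ne hji, sb_notMem_f2 hj]

theorem tgm_tgm {m : I → ℕ} {J : Finset I} {i : I} (hJ : ∀ j ∈ J, m j ≠ 0) :
    tgm (sb m J) (tgm (sb m J) m J i) (tgJ J i) i = m := by
  funext j
  by_cases hji : j = i
  · subst hji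
    by_cases hj : j ∈ J
    · have h1 : j ∉ tgJ J j := by rw [mem_tgJ_self]; exact not_not.mpr hj
      rw [tgm_notMem h1, sb_mem_f2 hj]
      have := hJ j hj
      omega
    · have h1 : j ∈ tgJ J j := by rw [mem_tgJ_self]; exact hj
      rw [tgm_mem h1, sb_notMem_f2 hj]
  · rw [tgm_of_ne hji, tgm_of_ne hji]

open Classical in
/-- an index at which the pair can be toggled, depending only on `p` -/
noncomputable def tgi (D : Finset I) (mh p : I → ℕ) (i₀ : I) : I :=
  if h : ∃ i, i ∉ D ∧ p i + 2 ≤ mh i then h.choose else i₀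

theorem tgi_spec {D : Finset I} {mh p : I → ℕ} {i₀ : I} (h : ∃ i, i ∉ D ∧ p i + 2 ≤ mh i) :
    tgi D mh p i₀ ∉ D ∧ p (tgi D mh p i₀) + 2 ≤ mh (tgi D mh p i₀) := by
  classical
  unfold tgi
  rw [dif_pos h]
  exact h.choose_spec

open Classical in
theorem al_eq_sum (ha : ∀ i, a i ≠ 0) (D : Finset I) (f : (I → ℕ) → ℤ) (mh : I → ℕ) :
    ∑ m ∈ (Bd D mh).filter (fun m => clo a Finset.univ m = mh),
      ∑ J ∈ (spt m \ D).powerset, (-1) ^ J.card * f (sb m J) = al a D f mh := by
  unfold al
  rw [Finset.sum_sigma', Finset.sum_sigma']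
  have memT : ∀ x : (Σ _ : I → ℕ, Finset I),
      x ∈ ((Bd D mh).filter (fun m => clo a Finset.univ m = mh)).sigma
        (fun m => (spt m \ D).powerset) ↔
      ((∀ i ∈ D, x.1 i = mh i) ∧ ∀ i, x.1 i ≤ mh i) ∧ clo a Finset.univ x.1 = mh ∧
        ∀ i ∈ x.2, x.1 i ≠ 0 ∧ i ∉ D := by
    intro x
    rw [Finset.mem_sigma, Finset.mem_filter, mem_Bd_f2, Finset.mem_powerset, and_assoc]
    refine and_congr_right fun _ => and_congr_right fun _ => ?_
    constructor
    · intro h i hi
      have := h hi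
      rw [Finset.mem_sdiff, mem_spt_f2] at this
      exact this
    · intro h i hi
      rw [Finset.mem_sdiff, mem_spt_f2]
      exact h i hi
  rw [← Finset.sum_filter_add_sum_filter_not _
    (fun x : (Σ _ : I → ℕ, Finset I) => ∃ i, i ∉ D ∧ sb x.1 x.2 i + 2 ≤ mh i)]
  have hbad : ∑ x ∈ (((Bd D mh).filter (fun m => clo a Finset.univ m = mh)).sigma
        (fun m => (spt m \ D).powerset)).filter
        (fun x : (Σ _ : I → ℕ, Finset I) => ∃ i, i ∉ D ∧ sb x.1 x.2 i + 2 ≤ mh i),
        (-1) ^ x.2.card * f (sb x.1 x.2) = 0 := by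
    rcases isEmpty_or_nonempty I with hI | ⟨⟨i₀⟩⟩
    · apply Finset.sum_eq_zero
      intro x hx
      rw [Finset.mem_filter] at hx
      obtain ⟨i, _⟩ := hx.2
      exact (hI.false i).elim
    refine Finset.sum_involution
      (fun x _ => ⟨tgm (sb x.1 x.2) x.1 x.2 (tgi D mh (sb x.1 x.2) i₀),
        tgJ x.2 (tgi D mh (sb x.1 x.2) i₀)⟩) ?_ ?_ ?_ ?_
    · rintro ⟨m, J⟩ hx
      rw [Finset.mem_filter, memT] at hx
      dsimp only at hx ⊢
      rw [sb_tg_f2 fun j hj => (hx.1.2.2 j hj).1, ← add_mul, neg_one_tgJ, zero_mul]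
    · rintro ⟨m, J⟩ hx _ heq
      have h2 := congrArg Sigma.snd heq
      dsimp only at h2
      exact tgJ_ne h2
    · rintro ⟨m, J⟩ hx
      rw [Finset.mem_filter, memT] at hx
      rw [Finset.mem_filter, memT]
      dsimp only at hx ⊢
      obtain ⟨⟨⟨h1, h2⟩, h3, h4⟩, h5⟩ := hx
      obtain ⟨h6, h7⟩ := tgi_spec (i₀ := i₀) h5
      obtain ⟨i, hidef⟩ : ∃ i, i = tgi D mh (sb m J) i₀ := ⟨_, rfl⟩
      rw [← hidef] at h6 h7 ⊢
      have hmi : m i ≤ sb m J i + 1 := le_sb_f2
      have hti : tgm (sb m J) m J i i ≤ sb m J i + 1 := by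
        by_cases hj : i ∈ J
        · rw [tgm_mem hj]
          omega
        · rw [tgm_notMem hj]
      refine ⟨⟨⟨?_, ?_⟩, ?_, ?_⟩, ?_⟩
      · intro j hj
        have hji : j ≠ i := by
          rintro rfl
          exact h6 hj
        rw [tgm_of_ne hji]
        exact h1 j hj
      · intro j
        by_cases hji : j = i
        · subst hji
          omega
        · rw [tgm_of_ne hji]
          exact h2 j
      · refine clo_toggle ha (m := m) (i := i) (by omega) (by omega) ?_ h3
        intro j hji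
        rw [tgm_of_ne hji]
      · intro j hj
        by_cases hji : j = i
        · subst hji
          rw [mem_tgJ_self] at hj
          rw [tgm_notMem hj]
          exact ⟨by omega, h6⟩
        · rw [mem_tgJ_of_ne hji] at hj
          rw [tgm_of_ne hji]
          exact h4 j hj
      · rw [sb_tg_f2 fun j hj => (h4 j hj).1]
        exact h5
    · rintro ⟨m, J⟩ hx
      rw [Finset.mem_filter, memT] at hx
      dsimp only at hx ⊢
      rw [sb_tg_f2 fun j hj => (hx.1.2.2 j hj).1, tgm_tgm fun j hj => (hx.1.2.2 j hj).1, tgJ_tgJ]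
  rw [hbad, zero_add]
  refine Finset.sum_bij'
    (fun x _ => ⟨Finset.univ.filter (fun i => x.1 i ≠ mh i), x.2⟩)
    (fun y _ => ⟨sb mh y.1, y.2⟩) ?_ ?_ ?_ ?_ ?_
  · rintro ⟨m, J⟩ hx
    rw [Finset.mem_filter, memT] at hx
    dsimp only at hx ⊢
    obtain ⟨⟨⟨h1, h2⟩, h3, h4⟩, h5⟩ := hx
    push Not at h5
    have hsb : sb mh (Finset.univ.filter (fun i => m i ≠ mh i)) = m := by
      funext i
      by_cases hi : m i = mh i
      · rw [sb_notMem_f2 (by simp [hi]), hi]
      · rw [sb_mem_f2 (by simp [hi])]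
        have hiD : i ∉ D := fun h => hi (h1 i h)
        have e1 := h5 i hiD
        have e2 := h2 i
        have e3 : sb m J i ≤ m i := sb_le_f2
        omega
    rw [Finset.mem_sigma, Finset.mem_filter, Finset.mem_powerset, Finset.mem_powerset]
    dsimp only
    rw [hsb]
    refine ⟨⟨?_, h3⟩, ?_⟩
    · intro i hi
      rw [Finset.mem_filter] at hi
      rw [Finset.mem_sdiff, mem_spt_f2]
      refine ⟨?_, fun h => hi.2 (h1 i h)⟩
      have := h2 i
      have := hi.2
      omega
    · intro i hi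
      obtain ⟨e1, e2⟩ := h4 i hi
      have e3 := h5 i e2
      rw [sb_mem_f2 hi] at e3
      have e4 := h2 i
      rw [Finset.mem_sdiff, Finset.mem_sdiff, mem_spt_f2, Finset.mem_filter]
      refine ⟨⟨?_, e2⟩, ?_⟩
      · omega
      · rintro ⟨_, e5⟩
        omega
  · rintro ⟨H, J⟩ hy
    rw [Finset.mem_sigma, Finset.mem_filter, Finset.mem_powerset, Finset.mem_powerset] at hy
    dsimp only at hy
    obtain ⟨⟨h1, h2⟩, h3⟩ := hy
    rw [Finset.mem_filter, memT]
    dsimp only
    refine ⟨⟨⟨?_, ?_⟩, h2, ?_⟩, ?_⟩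
    · intro i hi
      rw [sb_notMem_f2]
      intro hH
      have := h1 hH
      rw [Finset.mem_sdiff] at this
      exact this.2 hi
    · intro i
      exact sb_le_f2
    · intro i hi
      have e1 := h3 hi
      rw [Finset.mem_sdiff, Finset.mem_sdiff, mem_spt_f2] at e1
      rw [sb_notMem_f2 e1.2]
      exact e1.1
    · push Not
      intro i hi
      by_cases hJ : i ∈ J
      · have e1 := h3 hJ
        rw [Finset.mem_sdiff] at e1
        rw [sb_mem_f2 hJ, sb_notMem_f2 e1.2]
        have e2 := e1.1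
        rw [Finset.mem_sdiff, mem_spt_f2] at e2
        omega
      · rw [sb_notMem_f2 hJ]
        have : mh i ≤ sb mh H i + 1 := le_sb_f2
        omega
  · rintro ⟨m, J⟩ hx
    rw [Finset.mem_filter, memT] at hx
    dsimp only at hx ⊢
    obtain ⟨⟨⟨h1, h2⟩, h3, h4⟩, h5⟩ := hx
    push Not at h5
    have hsb : sb mh (Finset.univ.filter (fun i => m i ≠ mh i)) = m := by
      funext i
      by_cases hi : m i = mh i
      · rw [sb_notMem_f2 (by simp [hi]), hi]
      · rw [sb_mem_f2 (by simp [hi])]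
        have hiD : i ∉ D := fun h => hi (h1 i h)
        have e1 := h5 i hiD
        have e2 := h2 i
        have e3 : sb m J i ≤ m i := sb_le_f2
        omega
    rw [hsb]
  · rintro ⟨H, J⟩ hy
    rw [Finset.mem_sigma, Finset.mem_filter, Finset.mem_powerset, Finset.mem_powerset] at hy
    dsimp only at hy ⊢
    obtain ⟨⟨h1, h2⟩, h3⟩ := hy
    have hH : Finset.univ.filter (fun i => sb mh H i ≠ mh i) = H := by
      ext i
      rw [Finset.mem_filter]
      constructor
      · rintro ⟨_, h⟩
        by_contra hi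
        exact h (sb_notMem_f2 hi)
      · intro hi
        refine ⟨Finset.mem_univ i, ?_⟩
        rw [sb_mem_f2 hi]
        have := h1 hi
        rw [Finset.mem_sdiff, mem_spt_f2] at this
        have := this.1
        omega
    rw [hH]
  · rintro ⟨m, J⟩ hx
    rw [Finset.mem_filter, memT] at hx
    dsimp only at hx ⊢
    obtain ⟨⟨⟨h1, h2⟩, h3, h4⟩, h5⟩ := hx
    push Not at h5
    have hsb : sb mh (Finset.univ.filter (fun i => m i ≠ mh i)) = m := by
      funext i
      by_cases hi : m i = mh i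
      · rw [sb_notMem_f2 (by simp [hi]), hi]
      · rw [sb_mem_f2 (by simp [hi])]
        have hiD : i ∉ D := fun h => hi (h1 i h)
        have e1 := h5 i hiD
        have e2 := h2 i
        have e3 : sb m J i ≤ m i := sb_le_f2
        omega
    have hdisj : Disjoint (Finset.univ.filter (fun i => m i ≠ mh i)) J := by
      rw [Finset.disjoint_left]
      intro i hi hJ
      rw [Finset.mem_filter] at hi
      obtain ⟨e1, e2⟩ := h4 i hJ
      have e3 := h5 i e2
      rw [sb_mem_f2 hJ] at e3
      have e4 := h2 i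
      have e5 := hi.2
      omega
    rw [← sb_sb_f2 hdisj, hsb]

end LF
end MotMono
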