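import Pool.Agent.Lib.MP_4e5fcd_ag.LF.F1
import Pool.Agent.Lib.MP_4e5fcd_ag.LF.F2

/-!
# LF-F3: Moebius inversion on closed vectors
-/

open MvPolynomial

namespace MotMono
namespace LF

variable {I : Type} [Fintype I] {N : ℕ} {a : I → Fin N → ℂ}

private theorem f3_mem (D : Finset I) (v m : I → ℕ) :
    m ∈ Bd D v ↔ (∀ i ∈ D, m i = v i) ∧ ∀ i, m i ≤ v i := by
  classical
  unfold Bd
  rw [Fintype.mem_piFinset]
  constructor
  · intro h
    refine ⟨fun i hi => ?_, fun i => ?_⟩
    · have h1 := h i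
      rw [if_pos hi, Finset.mem_singleton] at h1
      exact h1
    · have h1 := h i
      by_cases hi : i ∈ D
      · rw [if_pos hi, Finset.mem_singleton] at h1
        exact h1.le
      · rw [if_neg hi, Finset.mem_range] at h1
        omega
  · rintro ⟨h1, h2⟩ i
    by_cases hi : i ∈ D
    · rw [if_pos hi, Finset.mem_singleton]
      exact h1 i hi
    · rw [if_neg hi, Finset.mem_range]
      have := h2 i
      omega

open Classical in
theorem f0 (ha : ∀ i, a i ≠ 0) (D : Finset I) (f : (I → ℕ) → ℤ) (v : I → ℕ)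
    (hv : clo a Finset.univ v = v) :
    f v = ∑ mh ∈ (Bd D v).filter (fun mh => clo a Finset.univ mh = mh), al a D f mh := by
  have hle : ∀ m i, m i ≤ clo a Finset.univ m i := fun m i => le_clo (ha i) (Finset.mem_univ i)
  have hcl : ∀ m : I → ℕ, clo a Finset.univ (clo a Finset.univ m) = clo a Finset.univ m :=
    fun m => funext fun i => clo_clo ha (Finset.Subset.refl _) i
  have hmaps : ∀ m ∈ Bd D v, clo a Finset.univ m ∈
      (Bd D v).filter (fun mh => clo a Finset.univ mh = mh) := by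
    intro m hm
    rw [f3_mem] at hm
    have h2 : ∀ i, clo a Finset.univ m i ≤ v i := by
      intro i
      have h3 := clo_mono (ha i) (Finset.Subset.refl Finset.univ) (fun j _ => hm.2 j)
      rw [hv] at h3
      exact h3
    rw [Finset.mem_filter, f3_mem]
    refine ⟨⟨fun i hi => ?_, h2⟩, hcl m⟩
    refine le_antisymm (h2 i) ?_
    rw [← hm.1 i hi]
    exact hle m i
  rw [telescope D f v, ← Finset.sum_fiberwise_of_maps_to hmaps]
  refine Finset.sum_congr rfl fun mh hmh => ?_
  rw [← al_eq_sum ha D f mh]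
  rw [Finset.mem_filter, f3_mem] at hmh
  refine Finset.sum_congr ?_ fun _ _ => rfl
  ext m
  rw [Finset.mem_filter, Finset.mem_filter, f3_mem, f3_mem]
  constructor
  · rintro ⟨⟨h1, h2⟩, h3⟩
    refine ⟨⟨fun i hi => ?_, fun i => ?_⟩, h3⟩
    · rw [h1 i hi, hmh.1.1 i hi]
    · rw [← h3]
      exact hle m i
  · rintro ⟨⟨h1, h2⟩, h3⟩
    refine ⟨⟨fun i hi => ?_, fun i => ?_⟩, h3⟩
    · rw [h1 i hi, hmh.1.1 i hi]
    · exact (h2 i).trans (hmh.1.2 i)

end LF
end MotMono
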