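import Pool.Agent.Lib.MP_4e5fcd_ag.LF.A5

/-!
# LF-F4: the Moebius function depends only on `D'`

Put `E₀ = spt mh \ D`. `al a D f mh = ∑_{H ⊆ E₀, clo (sb mh H) = mh} ∑_{J ⊆ E₀ \ H} (-1)^|J| f (sb mh (H ∪ J))`.

Step 1 (cancellation outside `D'`). By `hf`, `f (sb mh (H ∪ J)) = f (sb mh ((H ∪ J) ∩ D'))`. For
fixed `H` write `J = J₁ ∪ J₂`, `J₁ ⊆ D'`, `J₂ ∩ D' = ∅`: the sum over `J₂ ⊆ (E₀ \ H) \ D'` of
`(-1)^|J₂|` is `0` unless `(E₀ \ H) \ D' = ∅`. So only the `H ⊇ E₀ \ D'` contribute; for them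
`J ⊆ (E₀ ∩ D') \ H`. Write `H = H₁ ∪ (E₀ \ D')`, `H₁ = H ∩ D' ⊆ (D' \ D) ∩ spt mh`; then
`(H ∪ J) ∩ D' = H₁ ∪ J`.

Step 2 (`clo_sb_iff`): for such `H`: `clo a univ (sb mh H) = mh` iff `clo a D' mh = mh` and there is
`B` with `MaxB a D' mh B`, `Disjoint B H₁`. Note first: `clo a univ (sb mh H) ≤ clo a univ mh = mh`
always (`clo_mono`), so the left side means: for all `i` with `mh i ≥ 1`,
`a i ∈ sp {j | mh i ≤ sb mh H j}` (`le_clo_iff`).
(→) Claim: for all `i` with `mh i ≥ 1`, `a i ∈ W (mh i)` where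
`W c = sp {j | j ∈ D' ∧ j ∉ H₁ ∧ c ≤ mh j}`. Induction on `mh i` downwards (strong induction on
`M - mh i`, `M` a bound of `mh`): the `j` with `mh i ≤ sb mh H j` are of two kinds: `j ∉ H`, then
`mh i ≤ mh j`, and `j ∈ D'` (otherwise `j ∈ Dᶜ`, `j ∈ spt mh`, so `j ∈ E₀ \ D' ⊆ H`), so
`a j ∈ W (mh i)`; or `j ∈ H`, then `mh j ≥ mh i + 1` and `a j ∈ W (mh j) ⊆ W (mh i)` by induction.
Hence `clo a D' mh ≥ mh` (`le_clo_iff`), and `≤` by `clo_mono` and closedness. Let `B` be a `MaxB` of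
`D' \ H₁` (`exists_maxB`). It is a `MaxB` of `D'`: for `i ∈ D'` with `mh i ≥ 1`,
`a i ∈ W (mh i) = sp {b ∈ B | mh i ≤ mh b}` (`MaxB.level`); for `i ∈ D'` with `mh i = 0`: `i ∉ H₁`
(`H₁ ⊆ spt mh`), so `i ∈ D' \ H₁` and `a i ∈ sp B`.
(←) for `mh i ≥ 1`: `a i ∈ sp {j ∈ D' | mh i ≤ mh j} = sp {b ∈ B | mh i ≤ mh b}`, and `b ∈ B ⊆ D'`,
`b ∉ H₁` gives `b ∉ H`, `sb mh H b = mh b`.

If `clo a D' mh ≠ mh` then no `H` contributes: `al = 0`.
-/

open MvPolynomial

namespace MotMono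
namespace LF

variable {I : Type} [Fintype I] {N : ℕ} {a : I → Fin N → ℂ}

omit [Fintype I] in
theorem f4_sb_le (mh : I → ℕ) (H : Finset I) (j : I) : sb mh H j ≤ mh j := by
  classical
  unfold sb
  split_ifs
  · exact Nat.sub_le _ _
  · exact le_rfl

omit [Fintype I] in
theorem f4_sb_of_mem {mh : I → ℕ} {H : Finset I} {j : I} (h : j ∈ H) : sb mh H j = mh j - 1 := by
  unfold sb
  rw [if_pos h]

omit [Fintype I] in
theorem f4_sb_of_notMem {mh : I → ℕ} {H : Finset I} {j : I} (h : j ∉ H) : sb mh H j = mh j := by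
  unfold sb
  rw [if_neg h]

theorem f4_mem_spt {m : I → ℕ} {j : I} : j ∈ spt m ↔ m j ≠ 0 := by
  unfold spt
  simp

omit [Fintype I] in
theorem f4_sp_le {E F : Set I} (h : ∀ j ∈ E, a j ∈ sp a F) : sp a E ≤ sp a F := by
  unfold sp
  rw [Submodule.span_le]
  rintro _ ⟨j, hj, rfl⟩
  exact h j hj

open Classical in
theorem clo_sb_iff (ha : ∀ i, a i ≠ 0) (D D' : Finset I) (hD : D ⊆ D') (mh : I → ℕ)
    (hmh : clo a Finset.univ mh = mh) (H₁ : Finset I) (hH₁ : H₁ ⊆ (D' \ D) ∩ spt mh) :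
    clo a Finset.univ (sb mh (H₁ ∪ ((spt mh \ D) \ D'))) = mh ↔
      clo a D' mh = mh ∧ ∃ B, MaxB a D' mh B ∧ Disjoint B H₁ := by
  set H : Finset I := H₁ ∪ ((spt mh \ D) \ D') with hH
  have hH1D : ∀ j ∈ H₁, j ∈ D' ∧ mh j ≠ 0 := by
    intro j hj
    have := Finset.mem_inter.1 (hH₁ hj)
    exact ⟨(Finset.mem_sdiff.1 this.1).1, f4_mem_spt.1 this.2⟩
  have hHD : ∀ j, j ∉ D' → mh j ≠ 0 → j ∈ H := by
    intro j hj h0
    rw [hH, Finset.mem_union, Finset.mem_sdiff, Finset.mem_sdiff, f4_mem_spt]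
    exact Or.inr ⟨⟨h0, fun h => hj (hD h)⟩, hj⟩
  have hHH : ∀ j ∈ D', j ∉ H₁ → j ∉ H := by
    intro j hj h1 h2
    rw [hH, Finset.mem_union, Finset.mem_sdiff] at h2
    rcases h2 with h2 | h2
    · exact h1 h2
    · exact h2.2 hj
  have hH1H : ∀ j ∈ H₁, j ∈ H := fun j hj => Finset.mem_union_left _ hj
  constructor
  · intro hc
    have hW : ∀ t M : ℕ, (∀ j, mh j ≤ M) → ∀ i, mh i ≠ 0 → M ≤ mh i + t →
        a i ∈ sp a {j | j ∈ D' \ H₁ ∧ mh i ≤ mh j} := by
      intro t M hM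
      induction t with
      | zero =>
        intro i hi hMi
        have h1 : a i ∈ sp a {j | j ∈ Finset.univ ∧ mh i ≤ sb mh H j} := by
          rw [← le_clo_iff (ha i) (Nat.pos_of_ne_zero hi), hc]
        refine f4_sp_le (fun j hj => ?_) h1
        obtain ⟨_, hj⟩ := hj
        by_cases hjH : j ∈ H
        · rw [f4_sb_of_mem hjH] at hj
          have := hM j
          omega
        · rw [f4_sb_of_notMem hjH] at hj
          have hjD : j ∈ D' := by
            by_contra h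
            exact hjH (hHD j h (by omega))
          exact mem_sp_of_mem ⟨Finset.mem_sdiff.2 ⟨hjD, fun h => hjH (hH1H j h)⟩, hj⟩
      | succ t ih =>
        intro i hi hMi
        have h1 : a i ∈ sp a {j | j ∈ Finset.univ ∧ mh i ≤ sb mh H j} := by
          rw [← le_clo_iff (ha i) (Nat.pos_of_ne_zero hi), hc]
        refine f4_sp_le (fun j hj => ?_) h1
        obtain ⟨_, hj⟩ := hj
        by_cases hjH : j ∈ H
        · rw [f4_sb_of_mem hjH] at hj
          refine sp_mono ?_ (ih j (by omega) (by omega))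
          rintro k ⟨hk1, hk2⟩
          exact ⟨hk1, by omega⟩
        · rw [f4_sb_of_notMem hjH] at hj
          have hjD : j ∈ D' := by
            by_contra h
            exact hjH (hHD j h (by omega))
          exact mem_sp_of_mem ⟨Finset.mem_sdiff.2 ⟨hjD, fun h => hjH (hH1H j h)⟩, hj⟩
    have hW' : ∀ i, mh i ≠ 0 → a i ∈ sp a {j | j ∈ D' \ H₁ ∧ mh i ≤ mh j} := by
      intro i hi
      refine hW (∑ j, mh j) (∑ j, mh j) (fun j => ?_) i hi (Nat.le_add_left _ _)
      exact Finset.single_le_sum (f := mh) (fun _ _ => Nat.zero_le _) (Finset.mem_univ j)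
    refine ⟨?_, ?_⟩
    · funext i
      apply le_antisymm
      · have h1 : clo a D' mh i ≤ clo a Finset.univ mh i :=
          clo_mono (ha i) (Finset.subset_univ _) fun _ _ => le_rfl
        rwa [hmh] at h1
      · rcases Nat.eq_zero_or_pos (mh i) with h0 | h0
        · rw [h0]
          exact Nat.zero_le _
        · rw [le_clo_iff (ha i) h0]
          refine sp_mono ?_ (hW' i h0.ne')
          rintro k ⟨hk1, hk2⟩
          exact ⟨(Finset.mem_sdiff.1 hk1).1, hk2⟩
    · obtain ⟨B, hB⟩ := exists_maxB a (D' \ H₁) mh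
      have hB2 : ∀ i ∈ D', a i ∈ sp a {b | b ∈ B ∧ mh i ≤ mh b} := by
        intro i hi
        rcases Nat.eq_zero_or_pos (mh i) with h0 | h0
        · exact hB.2 i (Finset.mem_sdiff.2 ⟨hi, fun h => (hH1D i h).2 h0⟩)
        · rw [hB.level]
          exact hW' i h0.ne'
      refine ⟨B, ⟨⟨fun b hb => (Finset.mem_sdiff.1 (hB.1.1 hb)).1, hB.1.2.1, fun i hi => ?_⟩, hB2⟩,
        ?_⟩
      · refine sp_mono ?_ (hB2 i hi)
        rintro k ⟨hk1, _⟩
        exact hk1
      · rw [Finset.disjoint_left]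
        intro b hb
        exact (Finset.mem_sdiff.1 (hB.1.1 hb)).2
  · rintro ⟨hc, B, hB, hdis⟩
    funext i
    apply le_antisymm
    · have h1 : clo a Finset.univ (sb mh H) i ≤ clo a Finset.univ mh i :=
        clo_mono (ha i) (Finset.Subset.refl _) fun j _ => f4_sb_le mh H j
      rwa [hmh] at h1
    · rcases Nat.eq_zero_or_pos (mh i) with h0 | h0
      · rw [h0]
        exact Nat.zero_le _
      · rw [le_clo_iff (ha i) h0]
        have h1 : mh i ≤ clo a D' mh i := by rw [hc]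
        rw [le_clo_iff (ha i) h0, ← hB.level] at h1
        refine sp_mono ?_ h1
        rintro b ⟨hb1, hb2⟩
        refine ⟨Finset.mem_univ _, ?_⟩
        rw [f4_sb_of_notMem (hHH b (hB.1.1 hb1) (Finset.disjoint_left.1 hdis hb1))]
        exact hb2

open Classical in
theorem alp (ha : ∀ i, a i ≠ 0) (D D' : Finset I) (hD : D ⊆ D') (f : (I → ℕ) → ℤ) (mh : I → ℕ)
    (hmh : clo a Finset.univ mh = mh)
    (hf : ∀ Z, Z ⊆ spt mh \ D → f (sb mh Z) = f (sb mh (Z ∩ D'))) :
    al a D f mh = if clo a D' mh = mh then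
      ∑ H ∈ ((D' \ D) ∩ spt mh).powerset.filter (fun H => ∃ B, MaxB a D' mh B ∧ Disjoint B H),
        ∑ J ∈ (((D' \ D) ∩ spt mh) \ H).powerset, (-1) ^ J.card * f (sb mh (H ∪ J))
      else 0 := by
  have hiff := clo_sb_iff ha D D' hD mh hmh
  set E₀ : Finset I := spt mh \ D with hE₀
  set R : Finset I := E₀ \ D' with hR
  set E₁ : Finset I := (D' \ D) ∩ spt mh with hE₁
  have hE : ∀ i, i ∈ E₁ ↔ i ∈ E₀ ∧ i ∈ D' := by
    intro i
    simp only [hE₁, hE₀, Finset.mem_inter, Finset.mem_sdiff]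
    tauto
  have hRm : ∀ i, i ∈ R ↔ i ∈ E₀ ∧ i ∉ D' := fun i => Finset.mem_sdiff
  have hin0 : ∀ H, H ⊆ E₀ → ¬ R ⊆ H →
      ∑ J ∈ (E₀ \ H).powerset, (-1) ^ J.card * f (sb mh (H ∪ J)) = 0 := by
    intro H hH hRH
    obtain ⟨i, hiR, hiH⟩ := Finset.not_subset.1 hRH
    have hi1 : i ∈ E₀ \ H := Finset.mem_sdiff.2 ⟨(Finset.mem_sdiff.1 hiR).1, hiH⟩
    have hiD : i ∉ D' := (Finset.mem_sdiff.1 hiR).2
    rw [← Finset.insert_erase hi1, Finset.sum_powerset_insert (Finset.notMem_erase i _),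
      ← Finset.sum_add_distrib]
    refine Finset.sum_eq_zero fun J hJ => ?_
    have hJ' := Finset.mem_powerset.1 hJ
    have hiJ : i ∉ J := fun h => Finset.notMem_erase i _ (hJ' h)
    have hJE : J ⊆ E₀ := fun j hj => (Finset.mem_sdiff.1 (Finset.mem_of_mem_erase (hJ' hj))).1
    have h1 : H ∪ J ⊆ E₀ := Finset.union_subset hH hJE
    have h2 : H ∪ insert i J ⊆ E₀ :=
      Finset.union_subset hH (Finset.insert_subset (Finset.mem_sdiff.1 hi1).1 hJE)
    have h3 : (H ∪ insert i J) ∩ D' = (H ∪ J) ∩ D' := by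
      ext j
      simp only [Finset.mem_inter, Finset.mem_union, Finset.mem_insert]
      constructor
      · rintro ⟨h | h | h, hj⟩
        · exact ⟨Or.inl h, hj⟩
        · exact absurd (h ▸ hj) hiD
        · exact ⟨Or.inr h, hj⟩
      · rintro ⟨h | h, hj⟩
        · exact ⟨Or.inl h, hj⟩
        · exact ⟨Or.inr (Or.inr h), hj⟩
    rw [Finset.card_insert_of_notMem hiJ, hf _ h1, hf _ h2, h3, pow_succ]
    ring
  have hstep : al a D f mh = ∑ H₁ ∈ E₁.powerset,
      if clo a Finset.univ (sb mh (H₁ ∪ R)) = mh then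
        ∑ J ∈ (E₁ \ H₁).powerset, (-1) ^ J.card * f (sb mh (H₁ ∪ J)) else 0 := by
    unfold al
    rw [← hE₀, Finset.sum_filter]
    have e1 : ∑ H ∈ E₀.powerset, (if clo a Finset.univ (sb mh H) = mh then
        ∑ J ∈ (E₀ \ H).powerset, (-1) ^ J.card * f (sb mh (H ∪ J)) else 0)
        = ∑ H ∈ E₀.powerset.filter (fun H => R ⊆ H),
          (if clo a Finset.univ (sb mh H) = mh then
          ∑ J ∈ (E₀ \ H).powerset, (-1) ^ J.card * f (sb mh (H ∪ J)) else 0) := by
      symm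
      apply Finset.sum_subset (Finset.filter_subset _ _)
      intro H hH hn
      have hRH : ¬ R ⊆ H := fun h => hn (Finset.mem_filter.2 ⟨hH, h⟩)
      rw [hin0 H (Finset.mem_powerset.1 hH) hRH, ite_self]
    rw [e1]
    refine Finset.sum_nbij' (fun H => H ∩ D') (fun H₁ => H₁ ∪ R) ?_ ?_ ?_ ?_ ?_
    · intro H hH
      rw [Finset.mem_filter, Finset.mem_powerset] at hH
      rw [Finset.mem_powerset]
      intro i hi
      rw [Finset.mem_inter] at hi
      exact (hE i).2 ⟨hH.1 hi.1, hi.2⟩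
    · intro H₁ hH₁
      rw [Finset.mem_powerset] at hH₁
      rw [Finset.mem_filter, Finset.mem_powerset]
      refine ⟨Finset.union_subset (fun i hi => ((hE i).1 (hH₁ hi)).1)
        (fun i hi => ((hRm i).1 hi).1), Finset.subset_union_right⟩
    · intro H hH
      rw [Finset.mem_filter, Finset.mem_powerset] at hH
      ext i
      simp only [Finset.mem_union, Finset.mem_inter]
      constructor
      · rintro (h | h)
        · exact h.1
        · exact hH.2 h
      · intro h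
        by_cases hi : i ∈ D'
        · exact Or.inl ⟨h, hi⟩
        · exact Or.inr ((hRm i).2 ⟨hH.1 h, hi⟩)
    · intro H₁ hH₁
      rw [Finset.mem_powerset] at hH₁
      ext i
      simp only [Finset.mem_union, Finset.mem_inter]
      constructor
      · rintro ⟨h | h, hi⟩
        · exact h
        · exact absurd hi ((hRm i).1 h).2
      · intro h
        exact ⟨Or.inl h, ((hE i).1 (hH₁ h)).2⟩
    · intro H hH
      rw [Finset.mem_filter, Finset.mem_powerset] at hH
      have h1 : H ∩ D' ∪ R = H := by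
        ext i
        simp only [Finset.mem_union, Finset.mem_inter]
        constructor
        · rintro (h | h)
          · exact h.1
          · exact hH.2 h
        · intro h
          by_cases hi : i ∈ D'
          · exact Or.inl ⟨h, hi⟩
          · exact Or.inr ((hRm i).2 ⟨hH.1 h, hi⟩)
      have h2 : E₀ \ H = E₁ \ (H ∩ D') := by
        ext i
        simp only [Finset.mem_sdiff, Finset.mem_inter]
        rw [hE]
        constructor
        · rintro ⟨h, hi⟩
          have hiD : i ∈ D' := by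
            by_contra hc
            exact hi (hH.2 ((hRm i).2 ⟨h, hc⟩))
          exact ⟨⟨h, hiD⟩, fun hx => hi hx.1⟩
        · rintro ⟨⟨h, hiD⟩, hi⟩
          exact ⟨h, fun hx => hi ⟨hx, hiD⟩⟩
      rw [h1, h2]
      congr 1
      refine Finset.sum_congr rfl fun J hJ => ?_
      rw [Finset.mem_powerset] at hJ
      have hJE : J ⊆ E₀ := fun j hj => ((hE j).1 (Finset.mem_sdiff.1 (hJ hj)).1).1
      have hJD : ∀ j ∈ J, j ∈ D' := fun j hj => ((hE j).1 (Finset.mem_sdiff.1 (hJ hj)).1).2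
      rw [hf _ (Finset.union_subset hH.1 hJE)]
      have h3 : (H ∪ J) ∩ D' = H ∩ D' ∪ J := by
        ext i
        simp only [Finset.mem_union, Finset.mem_inter]
        constructor
        · rintro ⟨h | h, hi⟩
          · exact Or.inl ⟨h, hi⟩
          · exact Or.inr h
        · rintro (h | h)
          · exact ⟨Or.inl h.1, h.2⟩
          · exact ⟨Or.inr h, hJD i h⟩
      rw [h3]
  rw [hstep, Finset.sum_filter]
  by_cases hc : clo a D' mh = mh
  · rw [if_pos hc]
    refine Finset.sum_congr rfl fun H₁ hH₁ => ?_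
    rw [Finset.mem_powerset] at hH₁
    by_cases hB : ∃ B, MaxB a D' mh B ∧ Disjoint B H₁
    · rw [if_pos hB, if_pos ((hiff H₁ hH₁).2 ⟨hc, hB⟩)]
    · rw [if_neg hB, if_neg fun h => hB ((hiff H₁ hH₁).1 h).2]
  · rw [if_neg hc]
    refine Finset.sum_eq_zero fun H₁ hH₁ => ?_
    rw [Finset.mem_powerset] at hH₁
    rw [if_neg fun h => hc ((hiff H₁ hH₁).1 h).1]

end LF
end MotMono
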