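import Pool.Agent.Lib.MP_4e5fcd_ag.LF.F4

/-!
# LF-F5: the Moebius function of `UC`

Notation `pr g Z = pair (w g) (sb mh Z + 1)`. For `Z ⊆ spt mh`,
`pr g Z + ∑_{i ∈ Z} w g i = pair (w g) (mh + 1)` (`pair_sb`).

`al_box`: apply `alp` with `D' = {i | mh i < K}` (filter); `D ⊆ D'` by `hD`. Hypothesis `hf`: for
`g` and `Z ⊆ spt mh \ D`: if some `i ∉ D'` has `w g i ≠ 0`, then `pr g Z ≥ w g i * (sb mh Z i + 1) ≥
mh i ≥ K` for every `Z`, so the condition for `g` holds for `Z` and for `Z ∩ D'`; otherwise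
`w g` vanishes off `D'` and `pr g Z = pr g (Z ∩ D')`. So `al ≠ 0` would give `clo a D' mh = mh`, but
for `i` with `K ≤ mh i` (`K ≤ mh i`, `0 < mh i` since ... if `K = 0` then `D' = ∅`; `mh i = clo a ∅ mh i
= 0`, so assume `0 < K`) `le_clo_iff` gives `a i ∈ sp {j ∈ D' | mh i ≤ mh j} = sp ∅ = ⊥`,
contradiction with `a i ≠ 0`.

`al_closed`: apply `alp` with `D' = DT w D (TT w Sᶜ K mh)`: for `g ∈ Sᶜ` with `g ∉ TT`,
`pair (w g) (mh + 1) ≥ K + Hb w`, so `pr g Z ≥ K` for all `Z` (`∑_{i ∈ Z} w g i ≤ ∑ i, w g i < Hb w`);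
for `g ∈ TT`, `w g` vanishes off `D'`, so `pr g Z = pr g (Z ∩ D')`. If `clo a D' mh ≠ mh` (as functions)
then `al = 0`.

`al_off`: if `g ∈ TT` and `pair (w g) (mh + 1) < K`, then `ucf (sb mh Z) = 0` for all `Z ⊆ spt mh`
(`pr g Z ≤ pair (w g) (mh + 1) < K`), so `al = 0` by definition.

`al_pattern`: put, for a pattern `P`, `D' = DT w D P.T`,
`A P = ∑_{H ⊆ (D' \ D) \ Z0, ∃ B ∈ BB, Disjoint B H} ∑_{J ⊆ ((D' \ D) \ Z0) \ H} (-1)^|J| *
(if ∀ g ∈ P.T, ∑_{i ∈ H ∪ J} w g i ≤ P.off g then 1 else 0)`. By `alp` (closedness of `mh`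
w.r.t. `univ`: `clo_of_clo`) and `(D' \ D) ∩ spt mh = (D' \ D) \ P.Z0`. For `Z = H ∪ J ⊆ spt mh`:
`UC (sb mh Z)` iff for all `g ∉ S`: `K ≤ pr g Z`; for `g ∈ P.T` this means
`∑_{i ∈ Z} w g i ≤ P.off g`, for `g ∉ S`, `g ∉ P.T` it holds because `pair (w g) (mh + 1) ≥ K + Hb w`.
-/

open MvPolynomial

namespace MotMono
namespace LF

variable {I Γ : Type} [Fintype I] [Fintype Γ] {N : ℕ} {a : I → Fin N → ℂ} {w : Γ → I → ℕ}
  {S : Finset Γ} {D : Finset I} {K : ℕ} {mh : I → ℕ}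

theorem pair_sb (v mh : I → ℕ) (Z : Finset I) (hZ : Z ⊆ spt mh) :
    pair v (fun i => sb mh Z i + 1) + ∑ i ∈ Z, v i = pair v (fun i => mh i + 1) := by
  classical
  unfold pair
  have h1 : ∑ i ∈ Z, v i = ∑ i, if i ∈ Z then v i else 0 := by
    rw [Finset.sum_ite_mem, Finset.univ_inter]
  rw [h1, ← Finset.sum_add_distrib]
  refine Finset.sum_congr rfl fun i _ => ?_
  beta_reduce
  by_cases hi : i ∈ Z
  · have h0 : mh i ≠ 0 := f4_mem_spt.1 (hZ hi)
    rw [if_pos hi, f4_sb_of_mem hi, Nat.sub_add_cancel (Nat.one_le_iff_ne_zero.2 h0)]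
    ring
  · rw [if_neg hi, f4_sb_of_notMem hi, add_zero]

/-- the order is large for all `Z` if it is very large for `Z = ∅` -/
theorem f5_big {g : Γ} (h : K + Hb w ≤ pair (w g) (fun i => mh i + 1)) {Z : Finset I}
    (hZ : Z ⊆ spt mh) : K ≤ pair (w g) (fun i => sb mh Z i + 1) := by
  have h1 := pair_sb (w g) mh Z hZ
  have h2 : ∑ i ∈ Z, w g i ≤ ∑ i, w g i :=
    Finset.sum_le_univ_sum_of_nonneg fun _ => Nat.zero_le _
  have h3 : ∑ i, w g i ≤ ∑ g', ∑ i, w g' i :=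
    Finset.single_le_sum (f := fun g' => ∑ i, w g' i) (fun _ _ => Nat.zero_le _)
      (Finset.mem_univ g)
  unfold Hb at h
  omega

open Classical in
theorem f5_van {v : I → ℕ} {D' : Finset I} (h : ∀ j, j ∉ D' → v j = 0) (mh : I → ℕ) (Z : Finset I) :
    pair v (fun i => sb mh (Z ∩ D') i + 1) = pair v (fun i => sb mh Z i + 1) := by
  unfold pair
  refine Finset.sum_congr rfl fun i _ => ?_
  beta_reduce
  by_cases hi : i ∈ D'
  · by_cases hZ : i ∈ Z
    · rw [f4_sb_of_mem (Finset.mem_inter.2 ⟨hZ, hi⟩), f4_sb_of_mem hZ]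
    · rw [f4_sb_of_notMem fun hx => hZ (Finset.mem_inter.1 hx).1, f4_sb_of_notMem hZ]
  · rw [h i hi, zero_mul, zero_mul]

omit [Fintype Γ] in
open Classical in
theorem f5_hf {D' : Finset I} (G' T : Finset Γ)
    (h1 : ∀ g ∈ G', g ∉ T → ∀ Z, Z ⊆ spt mh → K ≤ pair (w g) (fun i => sb mh Z i + 1))
    (h2 : ∀ g ∈ T, ∀ j, j ∉ D' → w g j = 0) {Z : Finset I} (hZ : Z ⊆ spt mh) :
    ucf w G' K (sb mh Z) = ucf w G' K (sb mh (Z ∩ D')) := by
  have h3 : Z ∩ D' ⊆ spt mh := Finset.inter_subset_left.trans hZ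
  have h4 : UC w G' K (sb mh Z) ↔ UC w G' K (sb mh (Z ∩ D')) := by
    unfold UC
    refine forall₂_congr fun g hg => ?_
    by_cases hT : g ∈ T
    · rw [f5_van (h2 g hT)]
    · exact iff_of_true (h1 g hg hT Z hZ) (h1 g hg hT _ h3)
  unfold ucf
  rw [if_congr h4 rfl rfl]

open Classical in
theorem al_box (ha : ∀ i, a i ≠ 0) (hmh : clo a Finset.univ mh = mh) (hD : ∀ i ∈ D, mh i < K)
    (G' : Finset Γ) (i : I) (hi : K ≤ mh i) (hK : 0 < K) :
    al a D (ucf w G' K) mh = 0 := by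
  set D' : Finset I := Finset.univ.filter (fun j => mh j < K) with hD'
  have hm : ∀ j, j ∈ D' ↔ mh j < K := fun j => by simp [hD']
  have hDD : D ⊆ D' := fun j hj => (hm j).2 (hD j hj)
  set T : Finset Γ := G'.filter (fun g => ∀ j, j ∉ D' → w g j = 0) with hT
  rw [alp ha D D' hDD _ mh hmh fun Z hZ => ?_]
  · rw [if_neg]
    intro hc
    have h1 : mh i ≤ clo a D' mh i := by rw [hc]
    rw [le_clo_iff (ha i) (by omega)] at h1
    have h2 : {j | j ∈ D' ∧ mh i ≤ mh j} = ∅ := by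
      ext j
      simp only [Set.mem_ofPred_eq, Set.mem_empty_iff_false, iff_false, not_and]
      intro hj
      have := (hm j).1 hj
      omega
    rw [h2] at h1
    unfold sp at h1
    rw [Set.image_empty, Submodule.span_empty, Submodule.mem_bot] at h1
    exact ha i h1
  · refine f5_hf G' T (fun g hg hgT Z' hZ' => ?_) (fun g hg => (Finset.mem_filter.1 hg).2)
      (hZ.trans Finset.sdiff_subset)
    have h1 : ∃ j, j ∉ D' ∧ w g j ≠ 0 := by
      by_contra hc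
      push Not at hc
      exact hgT (Finset.mem_filter.2 ⟨hg, hc⟩)
    obtain ⟨j, hj, hwj⟩ := h1
    have h2 : K ≤ mh j := by
      rw [hm] at hj
      omega
    have h3 : w g j * (sb mh Z' j + 1) ≤ pair (w g) (fun i => sb mh Z' i + 1) := by
      unfold pair
      exact Finset.single_le_sum (f := fun i => w g i * (sb mh Z' i + 1))
        (fun _ _ => Nat.zero_le _) (Finset.mem_univ j)
    have h4 : mh j ≤ sb mh Z' j + 1 := by
      by_cases hjZ : j ∈ Z'
      · rw [f4_sb_of_mem hjZ]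
        omega
      · rw [f4_sb_of_notMem hjZ]
        omega
    have h5 : 1 * (sb mh Z' j + 1) ≤ w g j * (sb mh Z' j + 1) :=
      Nat.mul_le_mul_right _ (Nat.one_le_iff_ne_zero.2 hwj)
    omega

omit [Fintype Γ] in
open Classical in
theorem f5_DT {D : Finset I} {T : Finset Γ} {g : Γ} (hg : g ∈ T) {j : I} (hj : j ∉ DT w D T) :
    w g j = 0 := by
  by_contra hc
  apply hj
  unfold DT
  rw [Finset.mem_filter]
  exact ⟨Finset.mem_univ _, Or.inr ⟨g, hg, hc⟩⟩

omit [Fintype Γ] in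
theorem f5_sub_DT (w : Γ → I → ℕ) (D : Finset I) (T : Finset Γ) : D ⊆ DT w D T := by
  classical
  intro j hj
  unfold DT
  rw [Finset.mem_filter]
  exact ⟨Finset.mem_univ _, Or.inl hj⟩

open Classical in
theorem al_closed (ha : ∀ i, a i ≠ 0) (hmh : clo a Finset.univ mh = mh)
    (hal : al a D (ucf w Sᶜ K) mh ≠ 0) :
    clo a (DT w D (TT w Sᶜ K mh)) mh = mh := by
  by_contra hc
  apply hal
  rw [alp ha D (DT w D (TT w Sᶜ K mh)) (f5_sub_DT _ _ _) _ mh hmh fun Z hZ => ?_]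
  · rw [if_neg hc]
  · refine f5_hf Sᶜ (TT w Sᶜ K mh) (fun g hg hgT Z' hZ' => f5_big ?_ hZ')
      (fun g hg j hj => f5_DT hg hj) (hZ.trans Finset.sdiff_subset)
    by_contra hlt
    apply hgT
    unfold TT
    rw [Finset.mem_filter]
    exact ⟨hg, by omega⟩

open Classical in
theorem al_off (hal : al a D (ucf w Sᶜ K) mh ≠ 0) :
    ∀ g, g ∉ S → K ≤ pair (w g) (fun i => mh i + 1) := by
  intro g hg
  by_contra hlt
  apply hal
  unfold al
  refine Finset.sum_eq_zero fun H hH => Finset.sum_eq_zero fun J hJ => ?_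
  have h1 : ucf w Sᶜ K (sb mh (H ∪ J)) = 0 := by
    unfold ucf
    rw [if_neg]
    intro hc
    have h2 := hc g (Finset.mem_compl.2 hg)
    have h3 : pair (w g) (fun i => sb mh (H ∪ J) i + 1) ≤ pair (w g) (fun i => mh i + 1) := by
      unfold pair
      refine Finset.sum_le_sum fun i _ => Nat.mul_le_mul_left _ ?_
      exact Nat.add_le_add_right (f4_sb_le mh (H ∪ J) i) 1
    omega
  rw [h1, mul_zero]

open Classical in
theorem al_pattern (ha : ∀ i, a i ≠ 0) (w : Γ → I → ℕ) (S : Finset Γ) (D : Finset I) :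
    ∃ A : Pat I Γ → ℤ, ∀ (K : ℕ) (mh : I → ℕ) (P : Pat I Γ), IsPat a w S D K mh P →
      al a D (ucf w Sᶜ K) mh = A P := by
  refine ⟨fun P => ∑ H ∈ (((DT w D P.T) \ D) \ P.Z0).powerset.filter
      (fun H => ∃ B ∈ P.BB, Disjoint B H),
    ∑ J ∈ ((((DT w D P.T) \ D) \ P.Z0) \ H).powerset,
      (-1) ^ J.card * (if ∀ g ∈ P.T, ∑ i ∈ H ∪ J, w g i ≤ P.off g then 1 else 0), ?_⟩
  intro K mh P hP
  have hcl : clo a Finset.univ mh = mh := by
    funext i
    exact clo_of_clo ha (Finset.subset_univ _) hP.closed i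
  have hbig : ∀ g ∈ Sᶜ, g ∉ P.T → ∀ Z, Z ⊆ spt mh →
      K ≤ pair (w g) (fun i => sb mh Z i + 1) := by
    intro g hg hgT Z hZ
    refine f5_big ?_ hZ
    by_contra hlt
    exact hgT ((hP.T g).2 ⟨Finset.mem_compl.1 hg, by omega⟩)
  rw [alp ha D (DT w D P.T) (f5_sub_DT _ _ _) _ mh hcl fun Z hZ =>
    f5_hf Sᶜ P.T hbig (fun g hg j hj => f5_DT hg hj) (hZ.trans Finset.sdiff_subset),
    if_pos (funext hP.closed)]
  have hE : ((DT w D P.T) \ D) ∩ spt mh = ((DT w D P.T) \ D) \ P.Z0 := by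
    ext i
    rw [Finset.mem_inter, Finset.mem_sdiff (t := P.Z0), f4_mem_spt, hP.Z0]
    constructor
    · rintro ⟨h1, h2⟩
      exact ⟨h1, fun h => h2 h.2⟩
    · rintro ⟨h1, h2⟩
      exact ⟨h1, fun h => h2 ⟨(Finset.mem_sdiff.1 h1).1, h⟩⟩
  have hEs : ((DT w D P.T) \ D) \ P.Z0 ⊆ spt mh := by
    rw [← hE]
    exact Finset.inter_subset_right
  rw [hE]
  have hfil : (((DT w D P.T) \ D) \ P.Z0).powerset.filter
      (fun H => ∃ B, MaxB a (DT w D P.T) mh B ∧ Disjoint B H) =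
      (((DT w D P.T) \ D) \ P.Z0).powerset.filter (fun H => ∃ B ∈ P.BB, Disjoint B H) := by
    refine Finset.filter_congr fun H _ => ?_
    refine exists_congr fun B => ?_
    rw [hP.BB]
  rw [hfil]
  refine Finset.sum_congr rfl fun H hH => Finset.sum_congr rfl fun J hJ => ?_
  congr 1
  rw [Finset.mem_filter, Finset.mem_powerset] at hH
  rw [Finset.mem_powerset] at hJ
  have hZ : H ∪ J ⊆ spt mh :=
    Finset.union_subset (hH.1.trans hEs) ((hJ.trans Finset.sdiff_subset).trans hEs)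
  unfold ucf
  refine if_congr ?_ rfl rfl
  unfold UC
  constructor
  · intro h g hg
    have h1 := h g (Finset.mem_compl.2 ((hP.T g).1 hg).1)
    have h2 := pair_sb (w g) mh _ hZ
    have h3 := hP.off g hg
    omega
  · intro h g hg
    by_cases hgT : g ∈ P.T
    · have h1 := h g hgT
      have h2 := pair_sb (w g) mh _ hZ
      have h3 := hP.off g hgT
      omega
    · exact hbig g hg hgT _ hZ

open Classical in
/-- if no generator outside `S` has small order, `al` is `1` or `0`: `alp` with `D' = D` -/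
theorem al_one (ha : ∀ i, a i ≠ 0) (hmh : clo a Finset.univ mh = mh)
    (hT : ∀ g, g ∉ S → K + Hb w ≤ pair (w g) (fun i => mh i + 1)) :
    al a D (ucf w Sᶜ K) mh = if clo a D mh = mh then 1 else 0 := by
  have hbig : ∀ g ∈ Sᶜ, g ∉ (∅ : Finset Γ) → ∀ Z, Z ⊆ spt mh →
      K ≤ pair (w g) (fun i => sb mh Z i + 1) := fun g hg _ Z hZ =>
    f5_big (hT g (Finset.mem_compl.1 hg)) hZ
  rw [alp ha D D (Finset.Subset.refl _) _ mh hmh fun Z hZ =>
    f5_hf Sᶜ ∅ hbig (fun g hg => absurd hg (Finset.notMem_empty g))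
      (hZ.trans Finset.sdiff_subset)]
  have h0 : (D \ D) ∩ spt mh = ∅ := by
    rw [Finset.sdiff_self, Finset.empty_inter]
  rw [h0]
  refine if_congr Iff.rfl ?_ rfl
  have h1 : (∅ : Finset I).powerset.filter (fun H => ∃ B, MaxB a D mh B ∧ Disjoint B H) = {∅} := by
    rw [Finset.powerset_empty, Finset.filter_singleton, if_pos]
    obtain ⟨B, hB⟩ := exists_maxB a D mh
    exact ⟨B, hB, Finset.disjoint_empty_right B⟩
  rw [h1, Finset.sum_singleton, Finset.sdiff_self, Finset.powerset_empty, Finset.sum_singleton,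
    Finset.card_empty, pow_zero, one_mul, Finset.union_self]
  unfold ucf
  rw [if_pos]
  intro g hg
  exact hbig g hg (Finset.notMem_empty g) ∅ (Finset.empty_subset _)

end LF
end MotMono
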