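import Pool.Agent.Lib.MP_4e5fcd_ag.LF.S2
import Pool.Agent.Lib.MP_4e5fcd_ag.LF.X1b
import Pool.Agent.Lib.MP_4e5fcd_ag.LF.X3
import Pool.Agent.Lib.MP_4e5fcd_ag.LF.X4
import Pool.Agent.Lib.MP_4e5fcd_ag.LF.F5

/-!
# LF-G1: the part without small generators

Hypotheses: `D = sup S`, every `a i` is in `sp a D` (`hspan`), `R₀ ⊆ S`, `S ≠ ∅`.

`finite_VV`: `v ↦ {B | MaxB a D v B}` is injective on `VV`: let `u = v` on `D`, `0` off `D`; `u`, `u'` are in
`LinM a D v = LinM a D v'` (`self_mem_LinM`, `linM_congr`), `pq (w g) u = mn w v =: k` for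
`g ∈ R₀ ⊆ S = Fc w v` (`mn_eq`), so `k' u - k u'` is killed by `R₀`, hence `k' v = k v'` on `D`; then
everywhere by closedness (`clo_smul`: `clo a D (k' v) = k' clo a D v = k' v`); `k, k' > 0` (otherwise
`Sep` gives `u = 0`, but `v > 0` and `D ≠ ∅`, because `Prim v` implies `I` nonempty and `v i = clo a D v i > 0`
implies `D ≠ ∅`); `Prim` gives `v = v'`.

`f2_formula`: `F2 n = ∑_{mh} [closed, Sx, TT = ∅] al * χ (YS)`. By `al_one` (`TT = ∅` means
`pair (w g) (mh + 1) ≥ n + 1 + Hb w` for `g ∉ S`), `al = 1` if `clo a D mh = mh` and `0` otherwise. For the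
remaining `mh`: `B = Bc a D mh` is a `MaxB a univ mh` (`MaxB.enlarge`, `hspan`), so
`χ (YS L n univ D mh Θ) = χ (XM a B mh D Θ)` (`chi_YS`; `mh i < n` for `i ∈ D` by `Sx`), `Θ = Th w R₀ 1`
(`Th_dep`). If `¬ Sep w R₀ (LinM a D mh)` this is `0` (`chi_XM_eq_zero`). If `Sep`: let `α` be the gcd of the
`mh i + 1` (`I ≠ ∅` since `n ≥ 1`, ...: for `g ∈ S`, `pair (w g) (mh + 1) = n ≥ 1`), `v = (mh + 1) / α`:
positive, `Prim`, `clo a D v = v` (`clo_shift` with `hspan`, `clo_smul`), `pair (w g) v = n / α` for `g ∈ S`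
and `α * pair (w g) v ≥ n + 1` for `g ∉ S`, so `Fc w v = S`, `mn w v = n / α ∣ n`; `Sep w R₀ (LinM a D v)`
(`maxB_dir`, `linM_congr`): `v ∈ VV`.
Conversely let `v ∈ VV`, `mn w v ∣ n`, `n ≥ n₀ := max 1 (max over VV of (Hb w + 1) * mn w v)`; `α = n / mn w v`,
`mh = α v - 1`: `mh i < n + 1` (`α v i ≤ n` for `i ∈ D`, as `w g i ≠ 0` for some `g ∈ S`; for the other
`i`, `v i = v j` for some `j ∈ D`, `exists_clo_value`), closed w.r.t. `D` (`clo_shift`) and `univ`
(`clo_of_clo`), `Sx`; for `g ∉ S`: `pair (w g) v ≥ mn w v + 1`, so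
`pair (w g) (mh + 1) ≥ n + α ≥ n + 1 + Hb w`. This is a bijection, and `Bc a D mh = Bc a D v`,
`XM a B mh D Θ = XM a B v D Θ` (`Bc_congr`, `XM_congr`, `maxB_dir`).
-/

open MvPolynomial

namespace MotMono
namespace LF

variable {I Γ : Type} [Fintype I] [Fintype Γ] [Nonempty Γ] {N : ℕ}

omit [Fintype Γ] [Nonempty Γ] in
private theorem g1_pair {v m u : I → ℕ} {α : ℕ} (h : ∀ i, m i + 1 = α * u i) :
    pair v (fun i => m i + 1) = α * pair v u := by
  simp only [pair, Finset.mul_sum]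
  refine Finset.sum_congr rfl fun i _ => ?_
  rw [h i]; ring

private theorem g1_term_le {v u : I → ℕ} {i : I} (h : v i ≠ 0) : u i ≤ pair v u := by
  have h1 : v i * u i ≤ pair v u :=
    Finset.single_le_sum (f := fun i => v i * u i) (fun _ _ => Nat.zero_le _) (Finset.mem_univ i)
  exact (Nat.le_mul_of_pos_left _ (Nat.pos_of_ne_zero h)).trans h1

private theorem g1_pq_lin (v : I → ℕ) (c d : ℚ) (y z : I → ℚ) :
    pq v (c • y - d • z) = c * pq v y - d * pq v z := by
  simp only [pq, Pi.sub_apply, Pi.smul_apply, smul_eq_mul, Finset.mul_sum]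
  rw [← Finset.sum_sub_distrib]
  exact Finset.sum_congr rfl fun i _ => by ring

omit [Fintype I] in
private theorem g1_prim {v v' : I → ℕ} {k k' : ℕ} (hk : 0 < k) (hv : Prim v)
    (hv' : Prim v') (h : ∀ i, k' * v i = k * v' i) : v = v' := by
  obtain ⟨g, c, c', hg, hcop, rfl, rfl⟩ := Nat.exists_coprime' (m := k) (n := k')
    (Nat.gcd_pos_of_pos_left k' hk)
  have h1 : ∀ i, c' * v i = c * v' i := fun i => by
    have h2 := h i
    have h3 : g * (c' * v i) = g * (c * v' i) := by linarith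
    exact Nat.eq_of_mul_eq_mul_left hg h3
  have hc : c = 1 := hv c fun i =>
    hcop.dvd_of_dvd_mul_left (h1 i ▸ dvd_mul_right c (v' i))
  have hc' : c' = 1 := hv' c' fun i =>
    hcop.symm.dvd_of_dvd_mul_left ((h1 i).symm ▸ dvd_mul_right c' (v i))
  funext i
  have h4 := h1 i
  rw [hc, hc', one_mul, one_mul] at h4
  exact h4

omit [Nonempty Γ] in
private theorem g1_VV_pos {a : I → Fin N → ℂ} (ha : ∀ i, a i ≠ 0) {w : Γ → I → ℕ}
    {S R₀ : Finset Γ} {D : Finset I} (hD : ∀ i, i ∈ D ↔ ∃ g ∈ S, w g i ≠ 0) (hR : R₀ ⊆ S)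
    {v : I → ℕ} (hv : v ∈ VV a w S R₀ D) :
    (∀ g ∈ S, pair (w g) v = mn w v) ∧ 0 < mn w v := by
  classical
  obtain ⟨hpos, hprim, hclo, hF, hsep⟩ := hv
  have h1 : ∀ g ∈ S, pair (w g) v = mn w v := fun g hg => mem_Fc_iff.1 (hF ▸ hg)
  refine ⟨h1, Nat.pos_of_ne_zero fun h0 => ?_⟩
  have hne : Nonempty I := by
    by_contra hcon
    rw [not_nonempty_iff] at hcon
    have := hprim 2 fun i => (hcon.false i).elim
    omega
  obtain ⟨i⟩ := hne
  obtain ⟨j, hj, hj'⟩ := exists_clo_value (D := D) (x := v) (ha i) (by rw [hclo i]; exact hpos i)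
  have h2 : (fun i => if i ∈ D then (v i : ℚ) else 0) = 0 := by
    refine hsep _ (self_mem_LinM a D v) fun g hg => ?_
    rw [pq_congr (z := fun i => (v i : ℚ)) fun i hi =>
      if_pos ((hD i).2 ⟨g, hR hg, hi⟩), pq_natCast, h1 g (hR hg), h0, Nat.cast_zero]
  have h3 := congrFun h2 j
  simp only [if_pos hj, Pi.zero_apply, Nat.cast_eq_zero] at h3
  have := hpos j
  omega

omit [Nonempty Γ] in
private theorem g1_VV_inj {a : I → Fin N → ℂ} (ha : ∀ i, a i ≠ 0) {w : Γ → I → ℕ}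
    {S R₀ : Finset Γ} {D : Finset I} (hD : ∀ i, i ∈ D ↔ ∃ g ∈ S, w g i ≠ 0) (hR : R₀ ⊆ S)
    {v v' : I → ℕ} (hv : v ∈ VV a w S R₀ D) (hv' : v' ∈ VV a w S R₀ D)
    (h : ∀ B, MaxB a D v B ↔ MaxB a D v' B) : v = v' := by
  classical
  obtain ⟨hp1, hk⟩ := g1_VV_pos ha hD hR hv
  obtain ⟨hp1', hk'⟩ := g1_VV_pos ha hD hR hv'
  have hpq : ∀ x : I → ℕ, ∀ g ∈ R₀,
      pq (w g) (fun i => if i ∈ D then (x i : ℚ) else 0) = (pair (w g) x : ℚ) :=
    fun x g hg => by
      rw [pq_congr (z := fun i => (x i : ℚ)) fun i hi =>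
        if_pos ((hD i).2 ⟨g, hR hg, hi⟩), pq_natCast]
  have h1 : (mn w v' : ℚ) • (fun i => if i ∈ D then (v i : ℚ) else 0) -
      (mn w v : ℚ) • (fun i => if i ∈ D then (v' i : ℚ) else 0) = 0 := by
    refine hv.2.2.2.2 _ ?_ fun g hg => ?_
    · refine Submodule.sub_mem _ (Submodule.smul_mem _ _ (self_mem_LinM a D v))
        (Submodule.smul_mem _ _ ?_)
      rw [linM_congr h]
      exact self_mem_LinM a D v'
    · rw [g1_pq_lin, hpq v g hg, hpq v' g hg, hp1 g (hR hg), hp1' g (hR hg)]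
      ring
  have h2 : ∀ j ∈ D, mn w v' * v j = mn w v * v' j := fun j hj => by
    have h3 := congrFun h1 j
    simp only [Pi.sub_apply, Pi.smul_apply, if_pos hj, smul_eq_mul, Pi.zero_apply] at h3
    have h4 : (mn w v' : ℚ) * v j = mn w v * v' j := sub_eq_zero.1 h3
    exact_mod_cast h4
  refine g1_prim (k' := mn w v') hk hv.2.1 hv'.2.1 fun i => ?_
  have h3 : clo a D (fun j => mn w v' * v j) i = mn w v' * v i := by
    rw [clo_smul (ha i) hk', hv.2.2.1 i]
  have h4 : clo a D (fun j => mn w v * v' j) i = mn w v * v' i := by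
    rw [clo_smul (ha i) hk, hv'.2.2.1 i]
  rw [← h3, ← h4]
  exact clo_congr h2

theorem finite_VV (a : I → Fin N → ℂ) (ha : ∀ i, a i ≠ 0) (w : Γ → I → ℕ) (S R₀ : Finset Γ)
    (D : Finset I) (hD : ∀ i, i ∈ D ↔ ∃ g ∈ S, w g i ≠ 0) (hR : R₀ ⊆ S) :
    (VV a w S R₀ D).Finite := by
  refine Set.Finite.of_finite_image (f := fun v => {B | MaxB a D v B}) (Set.toFinite _) ?_
  intro v hv v' hv' h
  exact g1_VV_inj ha hD hR hv hv' fun B => Set.ext_iff.1 h B

open Classical in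
/-- the part without small generators -/
noncomputable def F2 (χ : K0 →+* ℤ) (L : Loc I Γ N) (S R₀ : Finset Γ) (D : Finset I) (n : ℕ) :
    ℤ :=
  ∑ mh ∈ Fintype.piFinset (fun _ : I => Finset.range (n + 1)),
    if (∀ i, clo L.a Finset.univ mh i = mh i) ∧ Sx L.w S (n + 1) mh ∧
        TT L.w Sᶜ (n + 1) mh = ∅ then
      al L.a D (ucf L.w Sᶜ (n + 1)) mh *
        χ (cls (YS L n Finset.univ D mh (Th L.w R₀ fun _ => 1)))
    else 0

omit [Fintype I] [Nonempty Γ] in
private theorem g1_clo {a : I → Fin N → ℂ} (ha : ∀ i, a i ≠ 0) {D : Finset I}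
    (hspan : ∀ i, a i ∈ sp a (D : Set I)) {α : ℕ} (hα : 0 < α)
    {m u : I → ℕ} (h : ∀ i, m i + 1 = α * u i) (i : I) :
    clo a D m i + 1 = α * clo a D u i := by
  have h1 : clo a D (fun j => m j + 1) i = clo a D m i + 1 := clo_shift (ha i) (hspan i) 1
  have h2 : clo a D (fun j => m j + 1) i = clo a D (fun j => α * u j) i :=
    clo_congr fun j _ => h j
  rw [← h1, h2, clo_smul (ha i) hα]

omit [Nonempty Γ] in
private theorem g1_TT {w : Γ → I → ℕ} {S : Finset Γ} {K : ℕ} {m : I → ℕ} [DecidableEq Γ] :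
    TT w Sᶜ K m = ∅ ↔ ∀ g, g ∉ S → K + Hb w ≤ pair (w g) (fun i => m i + 1) := by
  classical
  unfold TT
  rw [Finset.filter_eq_empty_iff]
  constructor
  · intro h g hg
    exact not_lt.1 (h (Finset.mem_compl.2 hg))
  · intro h g hg
    exact not_lt.2 (h g (Finset.mem_compl.1 hg))

open Classical in
theorem f2_formula {χ : K0 →+* ℤ} (hχ : IsEulerCharF χ) (L : Loc I Γ N) (S R₀ : Finset Γ)
    (D : Finset I) (hD : ∀ i, i ∈ D ↔ ∃ g ∈ S, L.w g i ≠ 0) (hS : S.Nonempty) (hR : R₀ ⊆ S)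
    (hspan : ∀ i, L.a i ∈ sp L.a (D : Set I)) :
    ∃ n₀, ∀ n, n₀ ≤ n → F2 χ L S R₀ D n =
      ∑ v ∈ (finite_VV L.a L.ha L.w S R₀ D hD hR).toFinset,
        if mn L.w v ∣ n then χ (cls (XM L.a (Bc L.a D v) v D (Th L.w R₀ fun _ => 1))) else 0 := by
  obtain ⟨g₀, hg₀⟩ := hS
  refine ⟨1 + ∑ v ∈ (finite_VV L.a L.ha L.w S R₀ D hD hR).toFinset, (Hb L.w + 1) * mn L.w v,
    fun n hn => ?_⟩
  have hn1 : 1 ≤ n := le_trans (Nat.le_add_right _ _) hn
  have hnv : ∀ v ∈ VV L.a L.w S R₀ D, (Hb L.w + 1) * mn L.w v ≤ n := fun v hv => by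
    have h1 := Finset.single_le_sum (f := fun v => (Hb L.w + 1) * mn L.w v)
      (fun _ _ => Nat.zero_le _)
      ((Set.Finite.mem_toFinset (finite_VV L.a L.ha L.w S R₀ D hD hR)).2 hv)
    exact (h1.trans (Nat.le_add_left _ _)).trans hn
  have hsup : ∀ g ∈ R₀, ∀ i, L.w g i ≠ 0 → i ∈ D := fun g hg i hi => (hD i).2 ⟨g, hR hg, hi⟩
  have hdep : ∀ c c' : I → ℂ, (∀ i ∈ D, c i = c' i) → c ∈ Th L.w R₀ (fun _ => 1) →
      c' ∈ Th L.w R₀ (fun _ => 1) := fun c c' h hc => Th_dep hsup c c' h hc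
  have hterm : ∀ mh ∈ Fintype.piFinset (fun _ : I => Finset.range (n + 1)),
      (if (∀ i, clo L.a Finset.univ mh i = mh i) ∧ Sx L.w S (n + 1) mh ∧
        TT L.w Sᶜ (n + 1) mh = ∅ then
      al L.a D (ucf L.w Sᶜ (n + 1)) mh *
        χ (cls (YS L n Finset.univ D mh (Th L.w R₀ fun _ => 1)))
      else 0) =
      if Sx L.w S (n + 1) mh ∧ TT L.w Sᶜ (n + 1) mh = ∅ ∧ (∀ i, clo L.a D mh i = mh i) ∧
        Sep L.w R₀ (LinM L.a D mh) then
        χ (cls (XM L.a (Bc L.a D mh) mh D (Th L.w R₀ fun _ => 1))) else 0 := by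
    intro mh hmh
    rw [Fintype.mem_piFinset] at hmh
    by_cases hA : (∀ i, clo L.a Finset.univ mh i = mh i) ∧ Sx L.w S (n + 1) mh ∧
        TT L.w Sᶜ (n + 1) mh = ∅
    · rw [if_pos hA]
      obtain ⟨hA1, hA2, hA3⟩ := hA
      rw [al_one L.ha (funext hA1) (g1_TT.1 hA3)]
      by_cases hC : clo L.a D mh = mh
      · have hC' : ∀ i, clo L.a D mh i = mh i := fun i => congrFun hC i
        rw [if_pos hC, one_mul,
          chi_YS hχ.line L (Finset.subset_univ D)
            (fun i _ => Nat.lt_succ_iff.1 (Finset.mem_range.1 (hmh i)))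
            (fun i hi => ?_)
            (MaxB.enlarge L.ha (Finset.subset_univ D) hC' (fun i _ => hspan i)
              (Bc_spec L.a D mh)) (constr_Th L.w R₀ _) hdep]
        · split_ifs with hG
          · rfl
          · exact chi_XM_eq_zero (isEulerChar_of_F hχ) hsup (Bc_spec L.a D mh)
              fun hs => hG ⟨hA2, hA3, hC', hs⟩
        · obtain ⟨g, hg, hgi⟩ := (hD i).1 hi
          have h1 := hA2 g hg
          have h2 : mh i + 1 ≤ pair (L.w g) (fun i => mh i + 1) :=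
            g1_term_le (u := fun i => mh i + 1) hgi
          omega
      · rw [if_neg hC, zero_mul, if_neg]
        rintro ⟨-, -, h3, -⟩
        exact hC (funext h3)
    · rw [if_neg hA, if_neg]
      rintro ⟨h1, h2, h3, -⟩
      exact hA ⟨fun i => clo_of_clo L.ha (Finset.subset_univ D) h3 i, h1, h2⟩
  unfold F2
  rw [Finset.sum_congr rfl hterm, ← Finset.sum_filter, ← Finset.sum_filter]
  symm
  have hkey : ∀ v, v ∈ VV L.a L.w S R₀ D → mn L.w v ∣ n →
      0 < n / mn L.w v ∧ n / mn L.w v * mn L.w v = n ∧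
      ∀ i, (n / mn L.w v * v i - 1) + 1 = n / mn L.w v * v i := by
    intro v hv hd
    have hk := (g1_VV_pos L.ha hD hR hv).2
    have hα : 0 < n / mn L.w v := Nat.div_pos (Nat.le_of_dvd hn1 hd) hk
    refine ⟨hα, Nat.div_mul_cancel hd, fun i => ?_⟩
    have h1 : 0 < n / mn L.w v * v i := Nat.mul_pos hα (hv.1 i)
    omega
  refine Finset.sum_bij (fun v _ i => n / mn L.w v * v i - 1) ?_ ?_ ?_ ?_
  · intro v hv
    rw [Finset.mem_filter, Set.Finite.mem_toFinset] at hv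
    obtain ⟨hv, hd⟩ := hv
    obtain ⟨hα, hmul, hadd⟩ := hkey v hv hd
    obtain ⟨hpS, hk⟩ := g1_VV_pos L.ha hD hR hv
    have hpair : ∀ g, pair (L.w g) (fun i => (n / mn L.w v * v i - 1) + 1) =
        n / mn L.w v * pair (L.w g) v := fun g => g1_pair hadd
    have hDle : ∀ i ∈ D, n / mn L.w v * v i ≤ n := fun i hi => by
      obtain ⟨g, hg, hgi⟩ := (hD i).1 hi
      calc n / mn L.w v * v i ≤ n / mn L.w v * pair (L.w g) v :=
            Nat.mul_le_mul_left _ (g1_term_le hgi)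
        _ = n := by rw [hpS g hg, hmul]
    rw [Finset.mem_filter, Fintype.mem_piFinset]
    refine ⟨fun i => ?_, fun g hg => ?_, g1_TT.2 fun g hg => ?_, fun i => ?_, ?_⟩
    · obtain ⟨j, hj, hj'⟩ := exists_clo_value (D := D) (x := v) (L.ha i)
        (by rw [hv.2.2.1 i]; exact hv.1 i)
      rw [hv.2.2.1 i] at hj'
      have h1 := hDle j hj
      rw [hj'] at h1
      rw [Finset.mem_range]
      omega
    · rw [hpair g, hpS g hg, hmul]
    · rw [hpair g]
      have h1 : mn L.w v + 1 ≤ pair (L.w g) v := by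
        have h2 := mn_le L.w v g
        have h3 : pair (L.w g) v ≠ mn L.w v := fun h => hg (by
          rw [← hv.2.2.2.1]; exact mem_Fc_iff.2 h)
        omega
      have h4 : Hb L.w + 1 ≤ n / mn L.w v := (Nat.le_div_iff_mul_le hk).2 (hnv v hv)
      calc n + 1 + Hb L.w ≤ n + n / mn L.w v := by omega
        _ = n / mn L.w v * (mn L.w v + 1) := by rw [mul_add, hmul, mul_one]
        _ ≤ _ := Nat.mul_le_mul_left _ h1
    · have h1 := g1_clo L.ha hspan hα hadd i
      rw [hv.2.2.1 i] at h1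
      have h2 := hadd i
      show _ = n / mn L.w v * v i - 1
      omega
    · rw [linM_congr fun B => maxB_dir hα fun i _ => hadd i]
      exact hv.2.2.2.2
  · intro v hv v' hv' heq
    rw [Finset.mem_filter, Set.Finite.mem_toFinset] at hv hv'
    obtain ⟨hα, hmul, hadd⟩ := hkey v hv.1 hv.2
    obtain ⟨hα', hmul', hadd'⟩ := hkey v' hv'.1 hv'.2
    refine g1_VV_inj L.ha hD hR hv.1 hv'.1 fun B => ?_
    rw [← maxB_dir hα fun i _ => hadd i, ← maxB_dir hα' fun i _ => hadd' i, heq]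
  · intro mh hmh
    rw [Finset.mem_filter, Fintype.mem_piFinset] at hmh
    obtain ⟨hmn, hSx, hTT, hcl, hsep⟩ := hmh
    rw [g1_TT] at hTT
    have hI : Nonempty I := by
      by_contra hcon
      rw [not_nonempty_iff] at hcon
      have h1 := hSx g₀ hg₀
      simp only [pair, Finset.univ_eq_empty, Finset.sum_empty] at h1
      omega
    obtain ⟨i₀⟩ := hI
    set α := Finset.univ.gcd (fun i => mh i + 1) with hαdef
    have hdvd : ∀ i, α ∣ mh i + 1 := fun i => Finset.gcd_dvd (Finset.mem_univ i)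
    have hα : 0 < α := Nat.pos_of_dvd_of_pos (hdvd i₀) (Nat.succ_pos _)
    have hmv : ∀ i, mh i + 1 = α * ((mh i + 1) / α) := fun i =>
      (Nat.mul_div_cancel' (hdvd i)).symm
    have hpair : ∀ g, pair (L.w g) (fun i => mh i + 1) =
        α * pair (L.w g) (fun i => (mh i + 1) / α) := fun g => g1_pair hmv
    have hpS : ∀ g ∈ S, α * pair (L.w g) (fun i => (mh i + 1) / α) = n := fun g hg => by
      have h1 := hSx g hg
      rw [hpair g] at h1
      omega
    have hpT : ∀ g, g ∉ S → n < α * pair (L.w g) (fun i => (mh i + 1) / α) := fun g hg => by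
      have h1 := hTT g hg
      rw [hpair g] at h1
      omega
    have hF : Fc L.w (fun i => (mh i + 1) / α) = S := by
      ext g
      unfold Fc
      rw [Finset.mem_filter]
      constructor
      · rintro ⟨-, h⟩
        by_contra hg
        have h1 := Nat.mul_le_mul_left α (h g₀)
        rw [hpS g₀ hg₀] at h1
        exact absurd (hpT g hg) (not_lt.2 h1)
      · intro hg
        refine ⟨Finset.mem_univ g, fun g' => ?_⟩
        refine Nat.le_of_mul_le_mul_left ?_ hα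
        rw [hpS g hg]
        by_cases hg' : g' ∈ S
        · rw [hpS g' hg']
        · exact (hpT g' hg').le
    have hmn' : mn L.w (fun i => (mh i + 1) / α) =
        pair (L.w g₀) (fun i => (mh i + 1) / α) := mn_eq (hF ▸ hg₀)
    have hVV : (fun i => (mh i + 1) / α) ∈ VV L.a L.w S R₀ D := by
      refine ⟨fun i => ?_, fun d hd => ?_, fun i => ?_, hF, ?_⟩
      · have h1 := hmv i
        refine Nat.pos_of_ne_zero fun h0 => ?_
        simp only at h0
        rw [h0, mul_zero] at h1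
        omega
      · have h1 : α * d ∣ α := by
          conv_rhs => rw [hαdef]
          refine Finset.dvd_gcd fun i _ => ?_
          rw [hmv i]
          exact Nat.mul_dvd_mul_left α (hd i)
        have h2 : α * d ∣ α * 1 := by rwa [mul_one]
        exact Nat.dvd_one.1 (Nat.dvd_of_mul_dvd_mul_left hα h2)
      · have h1 := g1_clo L.ha hspan hα hmv i
        rw [hcl i, hmv i] at h1
        exact (Nat.eq_of_mul_eq_mul_left hα h1).symm
      · rw [← linM_congr fun B => maxB_dir hα fun i _ => hmv i]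
        exact hsep
    have hk := (g1_VV_pos L.ha hD hR hVV).2
    have hn' : α * mn L.w (fun i => (mh i + 1) / α) = n := by rw [hmn', hpS g₀ hg₀]
    have hα' : n / mn L.w (fun i => (mh i + 1) / α) = α := by
      conv_lhs => rw [← hn']
      exact Nat.mul_div_cancel _ hk
    refine ⟨fun i => (mh i + 1) / α, ?_, ?_⟩
    · rw [Finset.mem_filter, Set.Finite.mem_toFinset]
      exact ⟨hVV, ⟨α, by rw [mul_comm]; exact hn'.symm⟩⟩
    · simp only [hα']
      funext i
      rw [← hmv i, Nat.add_sub_cancel]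
  · intro v hv
    rw [Finset.mem_filter, Set.Finite.mem_toFinset] at hv
    obtain ⟨hα, hmul, hadd⟩ := hkey v hv.1 hv.2
    have hB : ∀ B, MaxB L.a D v B ↔ MaxB L.a D (fun i => n / mn L.w v * v i - 1) B :=
      fun B => (maxB_dir hα fun i _ => hadd i).symm
    rw [← Bc_congr hB, XM_congr (subset_refl _) (Bc_spec L.a D v) hB hdep]

end LF
end MotMono
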