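import Pool.Agent.Lib.MP_4e5fcd_ag.LF.J3
import Pool.Agent.Lib.MP_4e5fcd_ag.LF.F3
import Pool.Agent.Lib.MP_4e5fcd_ag.K1

/-!
# LF-J4: decomposition of the jets by Moebius inversion

Put `St v = {γ | (∀ j, γ (j, 0) = L.p j) ∧ vv L.a γ = v ∧ lc L.a γ ∈ Θ}` (constructible, pairwise
disjoint). `vv` is closed (`vv_closed`) with values `≤ n`. Let
`V = (piFinset (range (n + 1))).filter (clo univ v = v)`.
`cls (XX L n S Θ) = ∑_{v ∈ V, Sx w S (n+1) v} ucf w Sᶜ (n + 1) v * cls (St v)` (`cls_biUnion`; the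
condition `∀ g ∉ S, n + 1 ≤ pair ..` is `UC w Sᶜ (n + 1)`).
By `f0`: `ucf .. v = ∑_{mh ∈ Bd D v, closed} al .. mh`. Exchange the sums: for closed `mh ∈ Bd D v`:
`mh = v` on `D`, `mh ≤ v`, so `Sx w S (n+1) mh ↔ Sx w S (n+1) v` (the `w g`, `g ∈ S`, are supported in `D`
by `hD`). And for closed `mh` with `Sx`:
`∑_{v ∈ V, mh ∈ Bd D v} cls (St v) = cls (YS L n univ D mh Θ)`: `γ ∈ YS` iff its `v = vv γ`
satisfies `mh ≤ v`, `v = mh` on `D` and `mh i < n` for `i ∈ D` — the last condition is automatic: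
for `i ∈ D` there is `g ∈ S` with `w g i ≠ 0`, so `mh i + 1 ≤ pair (w g) (mh + 1) = n` by `Sx`.
-/

open MvPolynomial

namespace MotMono
namespace LF

variable {I Γ : Type} [Fintype I] [Fintype Γ] {N : ℕ}

/-- the stratum of jets with `vv = v` -/
private def j4St (L : Loc I Γ N) (n : ℕ) (Θ : Set (I → ℂ)) (v : I → ℕ) :
    Set (Fin N × Fin (n + 1) → ℂ) :=
  {γ | (∀ j, γ (j, 0) = L.p j) ∧ vv L.a γ = v ∧ lc L.a γ ∈ Θ}

omit [Fintype Γ] in
private theorem j4_constr (L : Loc I Γ N) (n : ℕ) {Θ : Set (I → ℂ)} (hΘ : Constr Θ)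
    (v : I → ℕ) : Constr (j4St L n Θ v) := by
  have h1 : Constr {γ : Fin N × Fin (n + 1) → ℂ | ∀ j, γ (j, 0) = L.p j} := by
    have : {γ : Fin N × Fin (n + 1) → ℂ | ∀ j, γ (j, 0) = L.p j} =
        ⋂ j, {γ | eval γ (X (j, 0)) = eval γ (C (L.p j))} := by
      ext γ
      simp
    rw [this]
    exact constr_iInter fun j => constr_eq _ _
  have h2 := constr_vv_lc (n := n) L.a v hΘ
  have h3 : j4St L n Θ v = {γ : Fin N × Fin (n + 1) → ℂ | ∀ j, γ (j, 0) = L.p j} ∩
      {γ | vv L.a γ = v ∧ lc L.a γ ∈ Θ} := by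
    ext γ
    simp [j4St]
  rw [h3]
  exact h1.inter h2

omit [Fintype I] [Fintype Γ] in
private theorem j4_disj (L : Loc I Γ N) (n : ℕ) (Θ : Set (I → ℂ)) {v v' : I → ℕ}
    (h : v ≠ v') : Disjoint (j4St L n Θ v) (j4St L n Θ v') := by
  rw [Set.disjoint_left]
  rintro γ ⟨_, h1, _⟩ ⟨_, h2, _⟩
  exact h (h1.symm.trans h2)

open Classical in
private theorem j4_mem_Bd (D : Finset I) (v m : I → ℕ) :
    m ∈ Bd D v ↔ (∀ i ∈ D, m i = v i) ∧ ∀ i, m i ≤ v i := by
  simp only [Bd, Fintype.mem_piFinset]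
  constructor
  · intro h
    refine ⟨fun i hi => ?_, fun i => ?_⟩
    · have := h i
      rw [if_pos hi] at this
      simpa using this
    · have := h i
      by_cases hi : i ∈ D
      · rw [if_pos hi] at this
        simp at this
        exact this.le
      · rw [if_neg hi] at this
        simp at this
        omega
  · rintro ⟨h1, h2⟩ i
    by_cases hi : i ∈ D
    · rw [if_pos hi]
      simp [h1 i hi]
    · rw [if_neg hi]
      simp
      have := h2 i
      omega

omit [Fintype Γ] in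
open Classical in
private theorem j4_cls_union (L : Loc I Γ N) (n : ℕ) {Θ : Set (I → ℂ)} (hΘ : Constr Θ)
    (A : Set (Fin N × Fin (n + 1) → ℂ)) (P : (I → ℕ) → Prop) [DecidablePred P]
    (hA : ∀ γ, γ ∈ A ↔ (∀ j, γ (j, 0) = L.p j) ∧ P (vv L.a γ) ∧ lc L.a γ ∈ Θ) :
    cls A = ∑ v ∈ (Fintype.piFinset (fun _ : I => Finset.range (n + 1))).filter
      (fun v => clo L.a Finset.univ v = v), if P v then cls (j4St L n Θ v) else 0 := by
  rw [← Finset.sum_filter]
  rw [← cls_biUnion _ (fun v _ => j4_constr L n hΘ v) (fun v _ v' _ h => j4_disj L n Θ h)]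
  congr 1
  ext γ
  simp only [Set.mem_iUnion, Finset.mem_filter, Fintype.mem_piFinset, Finset.mem_range,
    exists_prop]
  rw [hA]
  constructor
  · rintro ⟨h1, h2, h3⟩
    refine ⟨vv L.a γ, ⟨⟨fun i => ?_, ?_⟩, h2⟩, h1, rfl, h3⟩
    · have := vv_le L.a γ i
      omega
    · funext i
      exact vv_closed L.ha γ i
  · rintro ⟨v, ⟨_, h2⟩, h3, rfl, h4⟩
    exact ⟨h3, h2, h4⟩

open Classical in
theorem dec (L : Loc I Γ N) (n : ℕ) (S : Finset Γ) (D : Finset I)
    (hD : ∀ i, i ∈ D ↔ ∃ g ∈ S, L.w g i ≠ 0) {Θ : Set (I → ℂ)} (hΘ : Constr Θ) :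
    cls (XX L n S Θ) = ∑ mh ∈ Fintype.piFinset (fun _ : I => Finset.range (n + 1)),
      if (∀ i, clo L.a Finset.univ mh i = mh i) ∧ Sx L.w S (n + 1) mh then
        ((al L.a D (ucf L.w Sᶜ (n + 1)) mh : ℤ) : K0) * cls (YS L n Finset.univ D mh Θ)
      else 0 := by
  set R := Fintype.piFinset (fun _ : I => Finset.range (n + 1)) with hR
  set V := R.filter (fun v => clo L.a Finset.univ v = v) with hV
  have hSx : ∀ v mh : I → ℕ, mh ∈ Bd D v → (Sx L.w S (n + 1) mh ↔ Sx L.w S (n + 1) v) := by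
    intro v mh h
    rw [j4_mem_Bd] at h
    refine forall₂_congr fun g hg => ?_
    have : pair (L.w g) (fun i => mh i + 1) = pair (L.w g) (fun i => v i + 1) := by
      unfold pair
      refine Finset.sum_congr rfl fun i _ => ?_
      by_cases hi : L.w g i = 0
      · rw [hi]; simp
      · dsimp only
        rw [h.1 i ((hD i).2 ⟨g, hg, hi⟩)]
    rw [this]
  have h1 : cls (XX L n S Θ) = ∑ v ∈ V, if Sx L.w S (n + 1) v ∧ UC L.w Sᶜ (n + 1) v then
      cls (j4St L n Θ v) else 0 := by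
    refine j4_cls_union L n hΘ _ (fun v => Sx L.w S (n + 1) v ∧ UC L.w Sᶜ (n + 1) v) ?_
    intro γ
    simp only [XX, UC, Set.mem_ofPred_eq, Finset.mem_compl, and_assoc]
  have h2 : ∀ mh ∈ R, Sx L.w S (n + 1) mh → cls (YS L n Finset.univ D mh Θ) =
      ∑ v ∈ V, if mh ∈ Bd D v then cls (j4St L n Θ v) else 0 := by
    intro mh _ hs
    refine j4_cls_union L n hΘ _ (fun v => mh ∈ Bd D v) ?_
    intro γ
    simp only [YS, Set.mem_ofPred_eq, Finset.mem_univ, true_imp_iff, j4_mem_Bd]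
    constructor
    · rintro ⟨h1, h2, h3, h4⟩
      exact ⟨h1, ⟨fun i hi => (h3 i hi).1.symm, h2⟩, h4⟩
    · rintro ⟨h1, ⟨h2, h3⟩, h4⟩
      refine ⟨h1, h3, fun i hi => ⟨(h2 i hi).symm, ?_⟩, h4⟩
      obtain ⟨g, hg, hgi⟩ := (hD i).1 hi
      have h5 := hs g hg
      have h6 : L.w g i * (mh i + 1) ≤ pair (L.w g) (fun i => mh i + 1) :=
        Finset.single_le_sum (f := fun i => L.w g i * (mh i + 1)) (fun _ _ => Nat.zero_le _)
          (Finset.mem_univ i)
      have h7 : 1 * (mh i + 1) ≤ L.w g i * (mh i + 1) :=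
        Nat.mul_le_mul_right _ (Nat.one_le_iff_ne_zero.2 hgi)
      omega
  have h3 : ∀ v ∈ V, (ucf L.w Sᶜ (n + 1) v : ℤ) =
      ∑ mh ∈ R, if mh ∈ Bd D v ∧ clo L.a Finset.univ mh = mh then
        al L.a D (ucf L.w Sᶜ (n + 1)) mh else 0 := by
    intro v hv
    rw [hV, Finset.mem_filter] at hv
    have := f0 L.ha D (ucf L.w Sᶜ (n + 1)) v hv.2
    rw [← Finset.sum_filter]
    refine this.trans (Finset.sum_congr ?_ fun _ _ => rfl)
    ext mh
    simp only [Finset.mem_filter]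
    refine ⟨fun h => ⟨?_, h⟩, fun h => h.2⟩
    have h4 := (j4_mem_Bd D v mh).1 h.1
    have h5 := hv.1
    rw [hR, Fintype.mem_piFinset] at h5 ⊢
    intro i
    have h6 := h5 i
    have h7 := h4.2 i
    rw [Finset.mem_range] at h6 ⊢
    omega
  rw [h1]
  calc ∑ v ∈ V, (if Sx L.w S (n + 1) v ∧ UC L.w Sᶜ (n + 1) v then cls (j4St L n Θ v) else 0)
      = ∑ v ∈ V, ∑ mh ∈ R, if (∀ i, clo L.a Finset.univ mh i = mh i) ∧ Sx L.w S (n + 1) mh then
          (if mh ∈ Bd D v then
            ((al L.a D (ucf L.w Sᶜ (n + 1)) mh : ℤ) : K0) * cls (j4St L n Θ v) else 0) else 0 := by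
        refine Finset.sum_congr rfl fun v hv => ?_
        have h4 : (if Sx L.w S (n + 1) v ∧ UC L.w Sᶜ (n + 1) v then cls (j4St L n Θ v) else 0) =
            if Sx L.w S (n + 1) v then ((ucf L.w Sᶜ (n + 1) v : ℤ) : K0) * cls (j4St L n Θ v)
              else 0 := by
          by_cases hs : Sx L.w S (n + 1) v
          · by_cases hu : UC L.w Sᶜ (n + 1) v
            · simp [hs, hu, ucf]
            · simp [hs, hu, ucf]
          · simp [hs]
        rw [h4, h3 v hv]
        by_cases hs : Sx L.w S (n + 1) v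
        · rw [if_pos hs]
          push_cast
          rw [Finset.sum_mul]
          refine Finset.sum_congr rfl fun mh _ => ?_
          by_cases hb : mh ∈ Bd D v
          · have hs' := (hSx v mh hb).2 hs
            by_cases hc : clo L.a Finset.univ mh = mh
            · have hc' : ∀ i, clo L.a Finset.univ mh i = mh i := fun i => congrFun hc i
              rw [if_pos ⟨hb, hc⟩, if_pos ⟨hc', hs'⟩, if_pos hb]
            · have hc' : ¬ ∀ i, clo L.a Finset.univ mh i = mh i := fun h => hc (funext h)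
              rw [if_neg (fun h => hc h.2), if_neg (fun h => hc' h.1)]
              simp
          · rw [if_neg (fun h => hb h.1), if_neg hb]
            simp
        · rw [if_neg hs]
          symm
          refine Finset.sum_eq_zero fun mh _ => ?_
          by_cases hb : mh ∈ Bd D v
          · have hs' : ¬ Sx L.w S (n + 1) mh := fun h => hs ((hSx v mh hb).1 h)
            rw [if_neg (fun h => hs' h.2)]
          · rw [if_neg hb]
            simp
    _ = ∑ mh ∈ R, ∑ v ∈ V, if (∀ i, clo L.a Finset.univ mh i = mh i) ∧ Sx L.w S (n + 1) mh then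
          (if mh ∈ Bd D v then
            ((al L.a D (ucf L.w Sᶜ (n + 1)) mh : ℤ) : K0) * cls (j4St L n Θ v) else 0) else 0 :=
        Finset.sum_comm
    _ = _ := by
        refine Finset.sum_congr rfl fun mh hmh => ?_
        by_cases hc : (∀ i, clo L.a Finset.univ mh i = mh i) ∧ Sx L.w S (n + 1) mh
        · simp only [if_pos hc]
          rw [h2 mh hmh hc.2, Finset.mul_sum]
          refine Finset.sum_congr rfl fun v _ => ?_
          by_cases hb : mh ∈ Bd D v
          · rw [if_pos hb, if_pos hb]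
          · rw [if_neg hb, if_neg hb, mul_zero]
        · simp only [if_neg hc]
          exact Finset.sum_const_zero

end LF
end MotMono
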