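import Pool.Agent.Lib.MP_4e5fcd_ag.LF.G1
import Pool.Agent.Lib.MP_4e5fcd_ag.LF.J4
import Pool.Agent.Lib.MP_4e5fcd_ag.LF.A6

/-!
# LF-G2: the two parts

`dec` with `Θ = Th w R₀ 1`, apply `χ` and split the summands according to `TT w Sᶜ (n + 1) mh = ∅` or not.
The first part is `F2`. For `T = TT .. ≠ ∅` let `D' = DT w D T`. If `al = 0` both sides vanish.
Otherwise `clo a D' mh = mh` (`al_closed`), `B = Bc a D' mh` is a `MaxB a D' mh`, hence a
`MaxB a univ mh` (`MaxB.enlarge`: `a i ∈ sp D ⊆ sp D'`), so `chi_YS` (`E = univ`; `mh i ≤ n`; `mh i < n` for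
`i ∈ D` by `Sx`: `mh i + 1 ≤ pair (w g) (mh + 1) = n`; `Th_dep`) gives
`χ (YS L n univ D mh Θ) = χ (XM a B mh D Θ) = φ D' mh`. `1 ^ nu = 1`.
`phi_congr`: `Bc_congr` and `XM_congr` (`D ⊆ D'`, `Bc_spec`, `Th_dep`).
-/

open MvPolynomial

namespace MotMono
namespace LF

variable {I Γ : Type} [Fintype I] [Fintype Γ] [Nonempty Γ] {N : ℕ}

/-- the Euler characteristics of the strata -/
noncomputable def phi (χ : K0 →+* ℤ) (L : Loc I Γ N) (R₀ : Finset Γ) (D D' : Finset I)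
    (x : I → ℕ) : ℂ :=
  ((χ (cls (XM L.a (Bc L.a D' x) x D (Th L.w R₀ fun _ => 1))) : ℤ) : ℂ)

private lemma phi_aux (χ : K0 →+* ℤ) (L : Loc I Γ N) (S R₀ : Finset Γ) (D : Finset I)
    (hD : ∀ i, i ∈ D ↔ ∃ g ∈ S, L.w g i ≠ 0) (hR : R₀ ⊆ S) (D' : Finset I) (x x' : I → ℕ)
    (hDD : D ⊆ D') (h : ∀ B, MaxB L.a D' x B ↔ MaxB L.a D' x' B) (B1 B2 : Finset I)
    (hb : B1 = B2) (hB : MaxB L.a D' x B1) :
    ((χ (cls (XM L.a B1 x D (Th L.w R₀ fun _ => 1))) : ℤ) : ℂ) =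
      ((χ (cls (XM L.a B2 x' D (Th L.w R₀ fun _ => 1))) : ℤ) : ℂ) := by
  subst hb
  have h1 := XM_congr hDD hB h (Θ := Th L.w R₀ fun _ => 1) fun c c' hc hc' =>
    Th_dep (fun g hg i hi => (hD i).2 ⟨g, hR hg, hi⟩) c c' hc hc'
  rw [h1]

theorem phi_congr (χ : K0 →+* ℤ) (L : Loc I Γ N) (S R₀ : Finset Γ) (D : Finset I)
    (hD : ∀ i, i ∈ D ↔ ∃ g ∈ S, L.w g i ≠ 0) (hR : R₀ ⊆ S) (D' : Finset I) (x x' : I → ℕ)
    (hDD : D ⊆ D') (h : ∀ B, MaxB L.a D' x B ↔ MaxB L.a D' x' B) :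
    phi χ L R₀ D D' x = phi χ L R₀ D D' x' := by
  exact phi_aux χ L S R₀ D hD hR D' x x' hDD h _ _ (Bc_congr h) (Bc_spec L.a D' x)

theorem chi_split {χ : K0 →+* ℤ} (hχ : IsEulerCharF χ) (L : Loc I Γ N) (S R₀ : Finset Γ)
    (D : Finset I) (hD : ∀ i, i ∈ D ↔ ∃ g ∈ S, L.w g i ≠ 0) (hR : R₀ ⊆ S)
    (hspan : ∀ i, L.a i ∈ sp L.a (D : Set I)) (n : ℕ) :
    ((χ (cls (XX L n S (Th L.w R₀ fun _ => 1))) : ℤ) : ℂ) =
      Gc L.a L.w S D {T | T.Nonempty} (phi χ L R₀ D) (1 : ℂ) (n + 1) +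
        ((F2 χ L S R₀ D n : ℤ) : ℂ) := by
  classical
  have hdep : ∀ g ∈ R₀, ∀ i, L.w g i ≠ 0 → i ∈ D := fun g hg i hi => (hD i).2 ⟨g, hR hg, hi⟩
  rw [dec L n S D hD (constr_Th L.w R₀ fun _ => 1), map_sum, Int.cast_sum]
  unfold Gc F2
  rw [Int.cast_sum, ← Finset.sum_add_distrib]
  refine Finset.sum_congr rfl fun mh hmh => ?_
  have hmn : ∀ i, mh i ≤ n := fun i => by
    have := Finset.mem_range.1 ((Fintype.mem_piFinset.1 hmh) i)
    omega
  by_cases hc : (∀ i, clo L.a Finset.univ mh i = mh i) ∧ Sx L.w S (n + 1) mh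
  · rw [if_pos hc, map_mul, map_intCast]
    by_cases hT : TT L.w Sᶜ (n + 1) mh = ∅
    · rw [if_neg, if_pos ⟨hc.1, hc.2, hT⟩, zero_add, Int.cast_id]
      rintro ⟨-, -, h3⟩
      rw [hT] at h3
      exact Finset.not_nonempty_empty h3
    · have h3 : TT L.w Sᶜ (n + 1) mh ∈ {T : Finset Γ | T.Nonempty} :=
        Finset.nonempty_iff_ne_empty.2 hT
      rw [if_pos ⟨hc.1, hc.2, h3⟩, if_neg (fun h => hT h.2.2), Int.cast_zero, add_zero, one_pow,
        mul_one, Int.cast_mul, Int.cast_id]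
      by_cases hal : al L.a D (ucf L.w Sᶜ (n + 1)) mh = 0
      · rw [hal]
        simp
      · congr 1
        unfold phi
        congr 1
        have hcl : clo L.a Finset.univ mh = mh := funext hc.1
        have hcl2 := al_closed L.ha hcl hal
        set D' := DT L.w D (TT L.w Sᶜ (n + 1) mh) with hD'
        have hDD' : D ⊆ D' := by
          intro i hi
          rw [hD']
          simp only [DT, Finset.mem_filter, Finset.mem_univ, true_and]
          exact Or.inl hi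
        have hB : MaxB L.a Finset.univ mh (Bc L.a D' mh) := by
          refine MaxB.enlarge L.ha (Finset.subset_univ D') (fun i => congrFun hcl2 i)
            (fun i _ => sp_mono (Finset.coe_subset.2 hDD') (hspan i)) (Bc_spec L.a D' mh)
        refine chi_YS hχ.line L (Finset.subset_univ D) (fun i _ => hmn i) ?_ hB
          (constr_Th L.w R₀ fun _ => 1) fun c c' h1 h2 => Th_dep hdep c c' h1 h2
        intro i hi
        obtain ⟨g, hg, hgi⟩ := (hD i).1 hi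
        have h5 := hc.2 g hg
        have h6 : mh i + 1 ≤ pair (L.w g) (fun i => mh i + 1) := by
          unfold pair
          calc mh i + 1 ≤ L.w g i * (mh i + 1) := Nat.le_mul_of_pos_left _ (Nat.pos_of_ne_zero hgi)
            _ ≤ ∑ i, L.w g i * (mh i + 1) :=
              Finset.single_le_sum (f := fun i => L.w g i * (mh i + 1))
                (fun _ _ => Nat.zero_le _) (Finset.mem_univ i)
        omega
  · rw [if_neg hc, if_neg (fun h => hc ⟨h.1, h.2.1⟩), if_neg (fun h => hc ⟨h.1, h.2.1⟩), map_zero]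
    simp

end LF
end MotMono
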