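import Pool.Agent.Lib.MP_4e5fcd_ag.LF.A4

/-!
# LF-J1: the order vector of a jet
-/

open MvPolynomial

namespace MotMono
namespace LF

variable {I : Type} {N n : ℕ} {a : I → Fin N → ℂ} {γ : Fin N × Fin (n + 1) → ℂ} {i : I}

theorem vv_le (a : I → Fin N → ℂ) (γ : Fin N × Fin (n + 1) → ℂ) (i : I) : vv a γ i ≤ n := by
  unfold vv
  exact Nat.sInf_le fun h => absurd h (lt_irrefl n)

private theorem j1_ne (a : I → Fin N → ℂ) (γ : Fin N × Fin (n + 1) → ℂ) (i : I) :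
    {l : ℕ | ∀ h : l < n, a i ⬝ᵥ lev γ (Fin.succ ⟨l, h⟩) ≠ 0}.Nonempty :=
  ⟨n, fun h => absurd h (lt_irrefl n)⟩

private theorem j1_mem (a : I → Fin N → ℂ) (γ : Fin N × Fin (n + 1) → ℂ) (i : I)
    (h : vv a γ i < n) : a i ⬝ᵥ lev γ (Fin.succ ⟨vv a γ i, h⟩) ≠ 0 :=
  (Nat.sInf_mem (j1_ne a γ i)) h

theorem le_vv_iff {m : ℕ} (hm : m ≤ n) :
    m ≤ vv a γ i ↔ ∀ l : Fin n, (l : ℕ) < m → a i ⬝ᵥ lev γ l.succ = 0 := by
  constructor
  · intro h l hl
    have h1 : (l : ℕ) < sInf {l : ℕ | ∀ h : l < n, a i ⬝ᵥ lev γ (Fin.succ ⟨l, h⟩) ≠ 0} :=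
      lt_of_lt_of_le hl h
    have h2 := Nat.notMem_of_lt_sInf h1
    rw [Set.mem_ofPred_eq] at h2
    by_contra h3
    exact h2 fun _ => h3
  · intro h
    by_contra h1
    have h2 : vv a γ i < m := not_le.mp h1
    have h3 : vv a γ i < n := lt_of_lt_of_le h2 hm
    exact j1_mem a γ i h3 (h ⟨vv a γ i, h3⟩ h2)

theorem lc_eq (h : vv a γ i < n) : lc a γ i = a i ⬝ᵥ lev γ (Fin.succ ⟨vv a γ i, h⟩) := by
  unfold lc
  rw [dif_pos h]

theorem lc_ne_zero (a : I → Fin N → ℂ) (γ : Fin N × Fin (n + 1) → ℂ) (i : I) :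
    lc a γ i ≠ 0 := by
  by_cases h : vv a γ i < n
  · rw [lc_eq h]
    exact j1_mem a γ i h
  · unfold lc
    rw [dif_neg h]
    exact one_ne_zero

/-- if all levels below `m` vanish and the level `m` does not, then `vv = m` -/
theorem vv_eq {m : ℕ} (hm : m < n) (h : ∀ l : Fin n, (l : ℕ) < m → a i ⬝ᵥ lev γ l.succ = 0)
    (h' : a i ⬝ᵥ lev γ (Fin.succ ⟨m, hm⟩) ≠ 0) : vv a γ i = m := by
  refine le_antisymm ?_ ((le_vv_iff hm.le).mpr h)
  unfold vv
  exact Nat.sInf_le fun _ => h'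

/-- a vector annihilated by all `a j`, `j ∈ D`, is annihilated by the span -/
private theorem j1_dot {D : Set I} {x : Fin N → ℂ} (h : ∀ j ∈ D, a j ⬝ᵥ x = 0)
    {v : Fin N → ℂ} (hv : v ∈ sp a D) : v ⬝ᵥ x = 0 := by
  unfold sp at hv
  induction hv using Submodule.span_induction with
  | mem y hy =>
    obtain ⟨j, hj, rfl⟩ := hy
    exact h j hj
  | zero => exact zero_dotProduct x
  | add y z _ _ hy hz => rw [add_dotProduct, hy, hz, add_zero]
  | smul c y _ hy => rw [smul_dotProduct, hy, smul_zero]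

theorem vv_closed [Fintype I] (ha : ∀ i, a i ≠ 0) (γ : Fin N × Fin (n + 1) → ℂ) (i : I) :
    clo a Finset.univ (vv a γ) i = vv a γ i := by
  refine le_antisymm ?_ (le_clo (ha i) (Finset.mem_univ i))
  rcases Nat.eq_zero_or_pos (clo a Finset.univ (vv a γ) i) with h0 | h0
  · rw [h0]
    exact Nat.zero_le _
  · have h1 := (le_clo_iff (ha i) h0).mp le_rfl
    set c := clo a Finset.univ (vv a γ) i with hc
    have h2 : c ≤ n := by
      by_contra h3
      have h4 : {j : I | j ∈ (Finset.univ : Finset I) ∧ c ≤ vv a γ j} = ∅ := by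
        ext j
        simp only [Set.mem_ofPred_eq, Set.mem_empty_iff_false, iff_false, not_and]
        intro _ h5
        exact h3 (h5.trans (vv_le a γ j))
      rw [h4] at h1
      unfold sp at h1
      rw [Set.image_empty, Submodule.span_empty, Submodule.mem_bot] at h1
      exact ha i h1
    rw [le_vv_iff h2]
    intro l hl
    refine j1_dot (fun j hj => ?_) h1
    exact (le_vv_iff h2).mp hj.2 l hl

/-- a vector annihilated by all `a j`, `j ∈ D`, is annihilated by the span -/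
theorem dot_eq_zero_of_mem_sp {D : Set I} {x : Fin N → ℂ} (h : ∀ j ∈ D, a j ⬝ᵥ x = 0)
    {v : Fin N → ℂ} (hv : v ∈ sp a D) : v ⬝ᵥ x = 0 :=
  j1_dot h hv

end LF
end MotMono
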