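import Pool.Agent.Lib.MP_4e5fcd_ag.LF.J3
import Pool.Agent.Lib.MP_4e5fcd_ag.K1
import Pool.Agent.Lib.MP_4e5fcd_ag.K2

/-!
# LF-J5: classes of the sets `{vv ≥ mh}`

By `le_vv_iff` the set `YS L n univ ∅ mh univ` consists of the jets with level `0` equal to `p` and
level `l + 1` (`l < n`) in the submodule `W l = {x | ∀ i, l + 1 ≤ mh i → a i ⬝ᵥ x = 0}`. By `cls_levels`
and `cls_submodule`, `cls_singleton`: its class is `∏_{l < n} LL ^ finrank (W l)`, and
`finrank (W l) + rkS a {i | l + 1 ≤ mh i} = N` (`finrank_ann`: annihilator of a subspace for the dot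
product; e.g. `W l` is the kernel of the linear map `x ↦ (a i ⬝ᵥ x)_{i}` whose rank is the rank
of the matrix with rows `a i`: `Matrix.rank_eq_finrank_span_row`, `LinearMap.finrank_range_add_finrank_ker`;
or `Subspace.finrank_add_finrank_dualAnnihilator_eq`).
`nu a mh = ∑_{c < ∑ mh} rkS {c + 1 ≤ mh} = ∑_{l < n} rkS {l + 1 ≤ mh}`, since both sums may be extended
to any bound of the values `mh i` (`rkS a ∅ = 0`); so the class is `LL ^ (N * n - nu a mh)` with
`nu a mh ≤ N * n`; in `MC` multiply with `Lu ^ (-(N (n + 1)))`.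
-/

open MvPolynomial

namespace MotMono
namespace LF

variable {I Γ : Type} [Fintype I] {N : ℕ}

theorem finrank_ann (a : I → Fin N → ℂ) (D : Set I) (W : Submodule ℂ (Fin N → ℂ))
    (hW : ∀ x, x ∈ W ↔ ∀ i ∈ D, a i ⬝ᵥ x = 0) : Module.finrank ℂ W + rkS a D = N := by
  have h1 := Subspace.finrank_add_finrank_dualAnnihilator_eq (sp a D)
  have h2 : W.map (dotProductEquiv ℂ (Fin N) : (Fin N → ℂ) →ₗ[ℂ] Module.Dual ℂ (Fin N → ℂ)) =
      (sp a D).dualAnnihilator := by
    ext φ
    rw [Submodule.mem_map, Submodule.mem_dualAnnihilator]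
    constructor
    · rintro ⟨x, hx, rfl⟩ v hv
      have h3 : v ⬝ᵥ x = 0 := dot_eq_zero_of_mem_sp ((hW x).1 hx) hv
      simpa [dotProduct_comm] using h3
    · intro h
      refine ⟨(dotProductEquiv ℂ (Fin N)).symm φ, ?_, by simp⟩
      rw [hW]
      intro i hi
      have h3 := h (a i) (Submodule.subset_span ⟨i, hi, rfl⟩)
      have h4 : φ = dotProductEquiv ℂ (Fin N) ((dotProductEquiv ℂ (Fin N)).symm φ) := by simp
      rw [h4, dotProductEquiv_apply_apply] at h3
      rw [dotProduct_comm]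
      exact h3
  have h3 : Module.finrank ℂ W = Module.finrank ℂ (sp a D).dualAnnihilator := by
    rw [← h2]
    exact (LinearEquiv.finrank_map_eq (dotProductEquiv ℂ (Fin N)) W).symm
  rw [Module.finrank_fin_fun] at h1
  unfold rkS
  rw [h3]
  omega

private theorem j5_rkS_empty (a : I → Fin N → ℂ) (D : Set I) (hD : ∀ i, i ∉ D) : rkS a D = 0 := by
  have : D = ∅ := Set.eq_empty_of_forall_notMem hD
  subst this
  rw [rkS, sp, Set.image_empty, Submodule.span_empty, finrank_bot]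

theorem nu_eq_sum (a : I → Fin N → ℂ) (mh : I → ℕ) (n : ℕ) (h : ∀ i, mh i ≤ n) :
    nu a mh = ∑ l ∈ Finset.range n, rkS a {i | l + 1 ≤ mh i} := by
  have hs : ∀ i, mh i ≤ ∑ j, mh j := fun i =>
    Finset.single_le_sum (f := mh) (fun _ _ => Nat.zero_le _) (Finset.mem_univ i)
  have key2 : ∀ K K' : ℕ, K ≤ K' → (∀ i, mh i ≤ K) →
      ∑ l ∈ Finset.range K, rkS a {i | l + 1 ≤ mh i} =
        ∑ l ∈ Finset.range K', rkS a {i | l + 1 ≤ mh i} := by
    intro K K' hKK hK
    refine Finset.sum_subset (Finset.range_mono hKK) ?_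
    intro l _ hl
    rw [Finset.mem_range, not_lt] at hl
    refine j5_rkS_empty a _ fun i hi => ?_
    have h1 : l + 1 ≤ mh i := hi
    have h2 := hK i
    omega
  unfold nu
  rw [key2 _ (max n (∑ j, mh j)) (le_max_right _ _) hs, key2 n (max n (∑ j, mh j)) (le_max_left _ _) h]

/-- the conditions on the level `l + 1` -/
private def j5W (a : I → Fin N → ℂ) (mh : I → ℕ) (l : ℕ) : Submodule ℂ (Fin N → ℂ) where
  carrier := {x | ∀ i, l + 1 ≤ mh i → a i ⬝ᵥ x = 0}
  zero_mem' := by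
    intro i _
    simp
  add_mem' := by
    intro x y hx hy i hi
    rw [dotProduct_add, hx i hi, hy i hi, add_zero]
  smul_mem' := by
    intro c x hx i hi
    rw [dotProduct_smul, hx i hi, smul_zero]

theorem cls_YS_pole (L : Loc I Γ N) (n : ℕ) (mh : I → ℕ) (h : ∀ i, mh i ≤ n) :
    algebraMap K0 MC (cls (YS L n Finset.univ ∅ mh Set.univ)) *
        ((Lu ^ (-(N * (n + 1) : ℤ)) : MCˣ) : MC) =
      ((Lu ^ (-(N : ℤ)) : MCˣ) : MC) * ((Lu⁻¹ : MCˣ) : MC) ^ nu L.a mh := by
  obtain ⟨G, hG0, hGs⟩ : ∃ G : Fin (n + 1) → Set (Fin N → ℂ), G 0 = {L.p} ∧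
      ∀ l : Fin n, G l.succ = (j5W L.a mh l : Set (Fin N → ℂ)) :=
    ⟨Fin.cases {L.p} (fun l : Fin n => (j5W L.a mh l : Set (Fin N → ℂ))), rfl, fun _ => rfl⟩
  have hset : YS L n Finset.univ ∅ mh Set.univ = {γ | ∀ l, (fun j => γ (j, l)) ∈ G l} := by
    ext γ
    simp only [YS, Set.mem_ofPred_eq]
    constructor
    · rintro ⟨h0, h1, -, -⟩ l
      refine Fin.cases ?_ (fun l => ?_) l
      · rw [hG0, Set.mem_singleton_iff]
        funext j
        exact h0 j
      · rw [hGs]
        intro i hi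
        exact (le_vv_iff (h i)).1 (h1 i (Finset.mem_univ i)) l hi
    · intro hl
      refine ⟨fun j => ?_, fun i _ => ?_, fun i hi => absurd hi (Finset.notMem_empty i),
        Set.mem_univ _⟩
      · have h0 := hl 0
        rw [hG0, Set.mem_singleton_iff] at h0
        exact congrFun h0 j
      · rw [le_vv_iff (h i)]
        intro l hlm
        have h1 := hl l.succ
        rw [hGs] at h1
        exact h1 i hlm
  have hGc : ∀ l, Constr (G l) := by
    intro l
    refine Fin.cases ?_ (fun l => ?_) l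
    · rw [hG0]
      exact constr_singleton L.p
    · rw [hGs]
      exact constr_submodule _
  have hcls : cls (YS L n Finset.univ ∅ mh Set.univ) =
      LL ^ ∑ l : Fin n, Module.finrank ℂ (j5W L.a mh l) := by
    rw [hset, cls_levels hGc, Fin.prod_univ_succ, hG0, cls_singleton, one_mul,
      ← Finset.prod_pow_eq_pow_sum]
    exact Finset.prod_congr rfl fun l _ => by rw [hGs, cls_submodule]
  have hsum : ∑ l : Fin n, Module.finrank ℂ (j5W L.a mh l) + nu L.a mh = N * n := by
    rw [nu_eq_sum L.a mh n h, ← Fin.sum_univ_eq_sum_range (fun l => rkS L.a {i | l + 1 ≤ mh i}) n,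
      ← Finset.sum_add_distrib]
    have h1 : ∀ l : Fin n, Module.finrank ℂ (j5W L.a mh (l : ℕ)) +
        rkS L.a {i | (l : ℕ) + 1 ≤ mh i} = N := fun l =>
      finrank_ann L.a {i | (l : ℕ) + 1 ≤ mh i} (j5W L.a mh (l : ℕ)) (fun x => Iff.rfl)
    simp only [h1]
    simp [mul_comm]
  have hLu : algebraMap K0 MC LL = (Lu : MC) := by
    unfold Lu
    rw [IsUnit.unit_spec]
  rw [hcls, map_pow, hLu, ← Units.val_pow_eq_pow_val, ← Units.val_mul, ← Units.val_pow_eq_pow_val,
    ← Units.val_mul]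
  congr 1
  rw [← zpow_natCast, ← zpow_add, inv_pow, ← zpow_natCast, ← zpow_neg, ← zpow_add]
  congr 1
  have h3 : ((∑ l : Fin n, Module.finrank ℂ (j5W L.a mh l) : ℕ) : ℤ) + (nu L.a mh : ℤ) = N * n := by
    exact_mod_cast hsum
  linarith

end LF
end MotMono
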