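import Pool.Agent.Lib.MP_4e5fcd_ag.LF.N3
import Pool.Agent.Lib.MP_4e5fcd_ag.H2
import Pool.Agent.Lib.MP_4e5fcd_ag.H3

/-!
# LF-N4: positivity of the beta invariants of the components

`V = av a B x : I → Fin r → ℂ`, `rr R = rk ⊤ V R = r - finrank (KK V R)` (Basic.lean; it is the dimension of
the span of the `V i`, `i ∈ R`). `H2Rk rr`: `h3_rk_empty`, `h3_rk_mono`, `h3_rk_step`, `h3_rk_sub`.
`rr {i} = 1` for `V i ≠ 0`.
`rr_eq`: if `R ⊆ D` is such that `av i`, `i ∈ R`, are supported on `B ∩ R` (i.e. `Adj i j`, `i ∈ R` implies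
`j ∈ R`), then `KK V R = {c | c b = 0 for b ∈ B ∩ R}` (⊆: `V b = e_b` for `b ∈ B ∩ R`, `av_self`; ⊇:
supports), so `rr R = |B ∩ R|`. In general `rr R ≥ |B ∩ R|` (`V b = e_b`).
`h2t_pos`: `rr C = |B ∩ C|` by stability of `C`. Let `A, A'` be nonempty, disjoint, `A ∪ A' = C`, and
suppose `rr A + rr A' ≤ rr C = |B ∩ A| + |B ∩ A'|`; as `rr A ≥ |B ∩ A|`, `rr A' ≥ |B ∩ A'|` we get
`rr A = |B ∩ A|`: so `KK V A = {c | c b = 0, b ∈ B ∩ A}` (equal dimension, `⊆`), and every `V i`, `i ∈ A`, is
supported on `B ∩ A`: `Adj i j`, `i ∈ A` implies `j ∈ A`. Similarly for `A'`. If `Adj i j`, `j ∈ A`, then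
`i ∈ C` (stability), and `i ∈ A'` would give `j ∈ A'`, contradiction; so `A` is stable and by `hmin`
`A = ∅` or `A = C`, contradiction (`A'` nonempty). So `rr C < rr A + rr A'`, and `h2_main` (second part)
gives the claim.
-/

open MvPolynomial

namespace MotMono
namespace LF

section aux

variable {I : Type} [Fintype I] {N : ℕ} {a : I → Fin N → ℂ} {D B : Finset I} {x : I → ℕ}

open Classical in
/-- the coordinates with index in `R` -/
noncomputable def n4T (B R : Finset I) : Finset (Fin B.card) :=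
  Finset.univ.filter fun b => (B.equivFin.symm b : I) ∈ R

omit [Fintype I] in
theorem n4_mem_T {R : Finset I} {b : Fin B.card} : b ∈ n4T B R ↔ (B.equivFin.symm b : I) ∈ R := by
  classical
  unfold n4T
  rw [Finset.mem_filter]
  exact ⟨fun h => h.2, fun h => ⟨Finset.mem_univ _, h⟩⟩

omit [Fintype I] in
theorem n4_card_T [DecidableEq I] (B R : Finset I) : (n4T B R).card = (B ∩ R).card := by
  refine Finset.card_bij' (fun b _ => (B.equivFin.symm b : I))
    (fun i hi => B.equivFin ⟨i, (Finset.mem_inter.1 hi).1⟩) ?_ ?_ ?_ ?_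
  · intro b hb
    exact Finset.mem_inter.2 ⟨(B.equivFin.symm b).2, n4_mem_T.1 hb⟩
  · intro i hi
    rw [n4_mem_T, Equiv.symm_apply_apply]
    exact (Finset.mem_inter.1 hi).2
  · intro b hb
    simp
  · intro i hi
    simp

/-- the vectors which vanish on the coordinates in `T` -/
def n4Co {r : ℕ} (T : Finset (Fin r)) : Submodule ℂ (Fin r → ℂ) :=
  LinearMap.ker (LinearMap.funLeft ℂ ℂ (Subtype.val : {b // b ∈ T} → Fin r))

theorem n4_mem_Co {r : ℕ} {T : Finset (Fin r)} {c : Fin r → ℂ} :
    c ∈ n4Co T ↔ ∀ b ∈ T, c b = 0 := by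
  unfold n4Co
  rw [LinearMap.mem_ker]
  constructor
  · intro h b hb
    exact congrFun h ⟨b, hb⟩
  · intro h
    funext b
    exact h b.1 b.2

theorem n4_finrank_Co {r : ℕ} (T : Finset (Fin r)) :
    Module.finrank ℂ (n4Co T) + T.card = r := by
  have h1 := LinearMap.finrank_range_add_finrank_ker
    (LinearMap.funLeft ℂ ℂ (Subtype.val : {b // b ∈ T} → Fin r))
  have h2 : Function.Surjective (LinearMap.funLeft ℂ ℂ (Subtype.val : {b // b ∈ T} → Fin r)) :=
    LinearMap.funLeft_surjective_of_injective _ _ _ Subtype.val_injective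
  rw [LinearMap.range_eq_top.2 h2, finrank_top, Module.finrank_fintype_fun_eq_card,
    Module.finrank_fin_fun, Fintype.card_coe] at h1
  unfold n4Co
  omega

theorem n4_KK_le (hB : LinearIndepOn ℂ a (B : Set I)) (R : Finset I) :
    KK (av a B x) R ≤ n4Co (n4T B R) := by
  intro c hc
  rw [n4_mem_Co]
  intro b hb
  have h1 : av a B x (B.equivFin.symm b) ⬝ᵥ c = 0 := hc _ (n4_mem_T.1 hb)
  rw [av_self hB, single_dotProduct, one_mul] at h1
  exact h1

omit [Fintype I] in
theorem n4_rk (R : Finset I) {r : ℕ} (V : I → Fin r → ℂ) :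
    rk ⊤ V R + Module.finrank ℂ (KK V R) = r := by
  unfold rk
  rw [top_inf_eq, finrank_top, Module.finrank_fin_fun]
  have := Submodule.finrank_le (KK V R)
  rw [Module.finrank_fin_fun] at this
  omega

theorem n4_card_le [DecidableEq I] (hB : LinearIndepOn ℂ a (B : Set I)) (R : Finset I) :
    (B ∩ R).card ≤ rk ⊤ (av a B x) R := by
  have h1 := n4_rk R (av a B x)
  have h2 := n4_finrank_Co (n4T B R)
  rw [n4_card_T] at h2
  have h3 := Submodule.finrank_mono (n4_KK_le (x := x) hB R)
  omega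

/-- equality in `n4_card_le` implies stability -/
theorem n4_stable [DecidableEq I] (hB : LinearIndepOn ℂ a (B : Set I)) {R : Finset I}
    (h : rk ⊤ (av a B x) R = (B ∩ R).card) {i j : I} (hij : Adj a B D x i j) (hi : i ∈ R) :
    j ∈ R := by
  have h1 := n4_rk R (av a B x)
  have h2 := n4_finrank_Co (n4T B R)
  rw [n4_card_T] at h2
  have h3 : KK (av a B x) R = n4Co (n4T B R) :=
    Submodule.eq_of_le_of_finrank_eq (n4_KK_le hB R) (by omega)
  by_contra hj
  set b : Fin B.card := B.equivFin ⟨j, hij.2.1⟩ with hb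
  have hbj : (B.equivFin.symm b : I) = j := by rw [hb, Equiv.symm_apply_apply]
  have h4 : (Pi.single b 1 : Fin B.card → ℂ) ∈ n4Co (n4T B R) := by
    rw [n4_mem_Co]
    intro b' hb'
    rw [Pi.single_apply, if_neg]
    rintro rfl
    rw [n4_mem_T, hbj] at hb'
    exact hj hb'
  rw [← h3] at h4
  have h5 : av a B x i ⬝ᵥ Pi.single b 1 = 0 := h4 i hi
  rw [dotProduct_single, mul_one] at h5
  unfold av at h5
  rw [hbj, if_pos hij.2.2.1] at h5
  exact hij.2.2.2 h5

/-- stability implies equality in `n4_card_le` -/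
theorem n4_rk_eq [DecidableEq I] (hB : LinearIndepOn ℂ a (B : Set I)) {R : Finset I} (hR : R ⊆ D)
    (h : ∀ i j, Adj a B D x i j → i ∈ R → j ∈ R) :
    rk ⊤ (av a B x) R = (B ∩ R).card := by
  have h1 := n4_rk R (av a B x)
  have h2 := n4_finrank_Co (n4T B R)
  rw [n4_card_T] at h2
  have h3 : KK (av a B x) R = n4Co (n4T B R) := by
    refine le_antisymm (n4_KK_le hB R) ?_
    intro c hc
    rw [n4_mem_Co] at hc
    show ∀ i ∈ R, av a B x i ⬝ᵥ c = 0
    intro i hi
    unfold dotProduct
    refine Finset.sum_eq_zero fun b _ => ?_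
    by_cases hx : x (B.equivFin.symm b) = x i
    · by_cases hcf : cf a B i (B.equivFin.symm b) = 0
      · have : av a B x i b = 0 := by
          unfold av
          rw [if_pos hx, hcf]
        rw [this, zero_mul]
      · have hadj : Adj a B D x i (B.equivFin.symm b) :=
          ⟨hR hi, (B.equivFin.symm b).2, hx, hcf⟩
        rw [hc b (n4_mem_T.2 (h _ _ hadj hi)), mul_zero]
    · have : av a B x i b = 0 := by
        unfold av
        rw [if_neg hx]
      rw [this, zero_mul]
  rw [h3] at h1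
  omega

end aux

variable {I : Type} [Fintype I] [DecidableEq I] {N : ℕ} {a : I → Fin N → ℂ} {D B : Finset I}
  {x : I → ℕ}

theorem h2t_pos (ha : ∀ i, a i ≠ 0) (hB : MaxB a D x B) (hcl : ∀ i ∈ D, clo a D x i = x i)
    (C : Finset I) (hCD : C ⊆ D) (hC : C.Nonempty)
    (hstab : ∀ i j, Adj a B D x i j → (i ∈ C ↔ j ∈ C))
    (hmin : ∀ A : Finset I, A ⊆ C → (∀ i j, Adj a B D x i j → (i ∈ A ↔ j ∈ A)) →
      A = ∅ ∨ A = C) :
    rk ⊤ (av a B x) C = (B ∩ C).card ∧
      0 < (-1 : ℤ) ^ (rk ⊤ (av a B x) C) * h2t (rk ⊤ (av a B x)) C := by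
  have hBi : LinearIndepOn ℂ a (B : Set I) := hB.1.2.1
  have hrC : rk ⊤ (av a B x) C = (B ∩ C).card :=
    n4_rk_eq hBi hCD fun i j hij hi => (hstab i j hij).1 hi
  refine ⟨hrC, ?_⟩
  have hRk : H2Rk (rk ⊤ (av a B x)) :=
    ⟨h3_rk_empty _ _, h3_rk_mono _ _, h3_rk_step _ _, h3_rk_sub _ _⟩
  refine (h2_main C.card C rfl _ hRk).2 hC ?_ ?_
  · intro j hj
    have h1 : rk ⊤ (av a B x) {j} ≤ 1 := by
      have := h3_rk_step ⊤ (av a B x) ∅ j
      rw [h3_rk_empty] at this
      simpa using this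
    have h2 : rk ⊤ (av a B x) {j} ≠ 0 := by
      intro h0
      have h3 := n4_rk {j} (av a B x)
      rw [h0, zero_add] at h3
      have h4 : KK (av a B x) {j} = ⊤ := by
        apply Submodule.eq_top_of_finrank_eq
        rw [h3, Module.finrank_fin_fun]
      apply av_ne_zero ha hB (hCD hj) (hcl j (hCD hj))
      funext b
      have h5 : (Pi.single b 1 : Fin B.card → ℂ) ∈ KK (av a B x) {j} := by
        rw [h4]
        exact Submodule.mem_top
      have h6 : av a B x j ⬝ᵥ Pi.single b 1 = 0 := h5 j (Finset.mem_singleton_self j)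
      rwa [dotProduct_single, mul_one] at h6
    omega
  · intro A A' hA hA' hdis hAA'
    by_contra hlt
    push Not at hlt
    have c1 := n4_card_le (x := x) hBi A
    have c2 := n4_card_le (x := x) hBi A'
    have hcard : (B ∩ C).card = (B ∩ A).card + (B ∩ A').card := by
      rw [← hAA', Finset.inter_union_distrib_left, Finset.card_union_of_disjoint]
      exact Finset.disjoint_of_subset_left Finset.inter_subset_right
        (Finset.disjoint_of_subset_right Finset.inter_subset_right hdis)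
    have e1 : rk ⊤ (av a B x) A = (B ∩ A).card := by omega
    have e2 : rk ⊤ (av a B x) A' = (B ∩ A').card := by omega
    have hAC : A ⊆ C := by rw [← hAA']; exact Finset.subset_union_left
    have hst : ∀ i j, Adj a B D x i j → (i ∈ A ↔ j ∈ A) := by
      intro i j hij
      constructor
      · exact fun hi => n4_stable hBi e1 hij hi
      · intro hj
        have hiC : i ∈ C := (hstab i j hij).2 (hAC hj)
        rw [← hAA', Finset.mem_union] at hiC
        rcases hiC with hi | hi
        · exact hi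
        · exact absurd (n4_stable hBi e2 hij hi) (Finset.disjoint_left.1 hdis hj)
    rcases hmin A hAC hst with h | h
    · exact hA.ne_empty h
    · obtain ⟨j, hj⟩ := hA'
      have hjC : j ∈ C := by
        rw [← hAA']
        exact Finset.mem_union_right _ hj
      rw [← h] at hjC
      exact Finset.disjoint_left.1 hdis hjC hj

end LF
end MotMono
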