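import Pool.Agent.Lib.MP_4e5fcd_ag.LF.Base
import Pool.Agent.Lib.MP_4e5fcd_ag.H1
import Pool.Agent.Lib.MP_4e5fcd_ag.H2
import Pool.Agent.Lib.MP_4e5fcd_ag.H3

/-!
# LF-N5: slices of a block arrangement

`V i ∈ ℂ^r` (`i ∈ D`) are block vectors: `V i b ≠ 0` implies `beta b = comp i`, `comp i < k`. `i₁ j ∈ D`
has `comp (i₁ j) = j`. For a finset `R ⊆ D` let `Y R = {c | V i ⬝ᵥ c = 0 (i ∈ R), V (i₁ j) ⬝ᵥ c = 1 (j)}`.

(1) Inclusion-exclusion (as `h1_insert`, `h1_expand` in H1.lean, with the fixed condition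
`lam j₁ ⬝ᵥ v = 1` replaced by all the conditions `V (i₁ j) ⬝ᵥ c = 1`):
`χ (cls {c | ∀ i ∈ D, V i ⬝ᵥ c ≠ 0, slices}) = ∑_{R ⊆ D} (-1)^|R| χ (cls (Y R))`.
(2) `χ (cls (Y R)) = 1` if for all `j`, `V (i₁ j) ∉ span {V i | i ∈ R, comp i = j}` (write `[R, j]` for
this condition), and `0` otherwise. If `[R, j]` fails, `V (i₁ j)` is a combination of `V i`, `i ∈ R`, so
`Y R = ∅`. If all hold, choose `c^j` with `V (i₁ j) ⬝ᵥ c^j = 1`, `V i ⬝ᵥ c^j = 0` for `i ∈ R`,
`comp i = j` (`exists_form`-like duality), restrict it to the block `{b | beta b = j}` (set the other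
coordinates to `0`), and let `c = ∑_j c^j` (`j : Fin k`): `c ∈ Y R`, because `V i` sees only its own block.
`Y R` is then a translate of a submodule, class `LL ^ m`, Euler characteristic `1` (as in `h1_base`).
(3) So `χ = ∑_{R ⊆ D} ∏_j (-1)^|R_j| [R, j]`, `R_j = {i ∈ R | comp i = j}`,
`= ∏_j ∑_{R ⊆ D_j} (-1)^|R| [R, j]`, `D_j = {i ∈ D | comp i = j}` (`D` is the disjoint union of the `D_j`,
`j < k`; induction on `k` or `Finset.prod_univ_sum`).
(4) `[R, j] = rk ⊤ V (insert (i₁ j) R) - rk ⊤ V R` for `R ⊆ D_j` (as integers `1` or `0`), and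
`∑_{R ⊆ D_j} (-1)^|R| rk (insert (i₁ j) R) = 0` (pair `R` with and without `i₁ j ∈ D_j`), so the
sum is `- h2t (rk ⊤ V) D_j` (see `chi_Bset` in H1.lean).
-/

open MvPolynomial

namespace MotMono
namespace LF

section aux

variable {I : Type} {r : ℕ}

theorem n5_mem_KK {V : I → Fin r → ℂ} {R : Finset I} {v : Fin r → ℂ} :
    v ∈ KK V R ↔ ∀ j ∈ R, V j ⬝ᵥ v = 0 := Iff.rfl

open Classical in
/-- the increment of the rank -/
theorem n5_rk_diff (V : I → Fin r → ℂ) (e : I) (R : Finset I) :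
    (rk ⊤ V (insert e R) : ℤ) - rk ⊤ V R =
      if ∃ v, V e ⬝ᵥ v = 1 ∧ ∀ i ∈ R, V i ⬝ᵥ v = 0 then 1 else 0 := by
  have hK' : ∀ v, v ∈ KK V (insert e R) ↔ V e ⬝ᵥ v = 0 ∧ ∀ j ∈ R, V j ⬝ᵥ v = 0 := by
    intro v
    rw [n5_mem_KK, Finset.forall_mem_insert]
  have hle : ∀ S : Finset I, Module.finrank ℂ (KK V S) ≤ Module.finrank ℂ
      (⊤ : Submodule ℂ (Fin r → ℂ)) := fun S => Submodule.finrank_mono le_top
  split_ifs with hne
  · obtain ⟨v0, hv01, hv0R⟩ := hne
    have hv0K : v0 ∈ KK V R := hv0R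
    have hv0 : v0 ≠ 0 := by
      rintro rfl
      rw [dotProduct_zero] at hv01
      exact zero_ne_one hv01
    have hsup : KK V R = (KK V (insert e R)) ⊔ Submodule.span ℂ {v0} := by
      apply le_antisymm
      · intro v hv
        have hv' := n5_mem_KK.1 hv
        have h2 : v = (v - (V e ⬝ᵥ v) • v0) + (V e ⬝ᵥ v) • v0 := by simp
        rw [h2]
        apply Submodule.add_mem_sup
        · rw [hK']
          refine ⟨?_, fun j hj => ?_⟩
          · rw [dotProduct_sub, dotProduct_smul, hv01, smul_eq_mul, mul_one, sub_self]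
          · rw [dotProduct_sub, dotProduct_smul, hv' j hj, hv0R j hj, smul_zero, sub_zero]
        · exact Submodule.smul_mem _ _ (Submodule.mem_span_singleton_self v0)
      · apply sup_le
        · intro v hv
          rw [hK'] at hv
          exact hv.2
        · rw [Submodule.span_singleton_le_iff_mem]
          exact hv0K
    have hinf : (KK V (insert e R)) ⊓ Submodule.span ℂ {v0} = ⊥ := by
      rw [eq_bot_iff]
      rintro v ⟨hv1, hv2⟩
      obtain ⟨c, rfl⟩ := Submodule.mem_span_singleton.1 hv2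
      have h3 := ((hK' (c • v0)).1 hv1).1
      rw [dotProduct_smul, hv01, smul_eq_mul, mul_one] at h3
      rw [h3, zero_smul]
      exact Submodule.zero_mem _
    have hdim := Submodule.finrank_sup_add_finrank_inf_eq (KK V (insert e R))
      (Submodule.span ℂ {v0})
    rw [← hsup, hinf, finrank_bot, add_zero, finrank_span_singleton hv0] at hdim
    have h1 := hle R
    unfold rk
    rw [top_inf_eq, top_inf_eq]
    omega
  · have h1 : KK V (insert e R) = KK V R := by
      ext v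
      rw [hK', n5_mem_KK]
      constructor
      · rintro ⟨-, h3⟩
        exact h3
      · intro h3
        refine ⟨?_, h3⟩
        by_contra hc
        apply hne
        refine ⟨(V e ⬝ᵥ v)⁻¹ • v, ?_, fun j hj => ?_⟩
        · rw [dotProduct_smul, smul_eq_mul, inv_mul_cancel₀ hc]
        · rw [dotProduct_smul, h3 j hj, smul_zero]
    unfold rk
    rw [h1, sub_self]

/-- the elementary pieces -/
def n5_set {k : ℕ} (V : I → Fin r → ℂ) (i₁ : Fin k → I) (Z T : Finset I) : Set (Fin r → ℂ) :=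
  {v | (∀ j, V (i₁ j) ⬝ᵥ v = 1) ∧ (∀ i ∈ Z, V i ⬝ᵥ v = 0) ∧ ∀ i ∈ T, V i ⬝ᵥ v ≠ 0}

theorem n5_constr {k : ℕ} (V : I → Fin r → ℂ) (i₁ : Fin k → I) (Z T : Finset I) :
    Constr (n5_set V i₁ Z T) := by
  have h : n5_set V i₁ Z T = (⋂ j : Fin k,
      {x | eval x (linForm (V (i₁ j))) = eval x (C 1 : MvPolynomial (Fin r) ℂ)}) ∩
      ((⋂ j : {j // j ∈ Z}, {x | eval x (linForm (V j.1)) = 0}) ∩
        ⋂ j : {j // j ∈ T}, {x | eval x (linForm (V j.1)) ≠ 0}) := by
    ext v
    simp only [n5_set, Set.mem_ofPred_eq, Set.mem_inter_iff, Set.mem_iInter, Subtype.forall,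
      h1_eval_linForm, eval_C]
  rw [h]
  exact (constr_iInter fun j => constr_eq _ _).inter
    ((constr_iInter fun j => Constr.zeroSet _).inter (constr_iInter fun j => constr_ne _))

theorem n5_insert [DecidableEq I] {k : ℕ} (V : I → Fin r → ℂ) (i₁ : Fin k → I) (Z T : Finset I)
    (e : I) : cls (n5_set V i₁ Z (insert e T)) =
      cls (n5_set V i₁ Z T) - cls (n5_set V i₁ (insert e Z) T) := by
  rw [← cls_diff (n5_constr V i₁ Z T) (n5_constr V i₁ (insert e Z) T)]
  · congr 1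
    ext v
    simp only [n5_set, Set.mem_ofPred_eq, Set.mem_sdiff, Finset.mem_insert, forall_eq_or_imp]
    constructor
    · rintro ⟨h1, h2, h3, h4⟩
      exact ⟨⟨h1, h2, h4⟩, fun h => h3 h.2.1.1⟩
    · rintro ⟨⟨h1, h2, h4⟩, h5⟩
      refine ⟨h1, h2, fun h3 => h5 ⟨h1, ⟨h3, h2⟩, h4⟩, h4⟩
  · rintro v ⟨h1, h2, h3⟩
    exact ⟨h1, fun j hj => h2 j (Finset.mem_insert_of_mem hj), h3⟩

theorem n5_expand [DecidableEq I] {k : ℕ} (χ : K0 →+* ℤ) (V : I → Fin r → ℂ) (i₁ : Fin k → I)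
    (T : Finset I) : ∀ Z : Finset I, χ (cls (n5_set V i₁ Z T)) =
      ∑ R ∈ T.powerset, (-1) ^ R.card * χ (cls (n5_set V i₁ (Z ∪ R) ∅)) := by
  induction T using Finset.induction_on with
  | empty =>
    intro Z
    simp
  | insert e T he IH =>
    intro Z
    rw [n5_insert, map_sub, IH Z, IH (insert e Z), Finset.sum_powerset_insert he, sub_eq_add_neg]
    congr 1
    rw [← Finset.sum_neg_distrib]
    refine Finset.sum_congr rfl fun R hR => ?_
    have h1 : e ∉ R := fun h => he (Finset.mem_powerset.1 hR h)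
    rw [Finset.card_insert_of_notMem h1]
    have h2 : insert e Z ∪ R = Z ∪ insert e R := by
      ext j
      simp only [Finset.mem_union, Finset.mem_insert]
      tauto
    rw [h2]
    ring

open Classical in
theorem n5_base {k : ℕ} {χ : K0 →+* ℤ} (hχ : χ LL = 1) (V : I → Fin r → ℂ) (i₁ : Fin k → I)
    (R : Finset I) :
    χ (cls (n5_set V i₁ R ∅)) = if (n5_set V i₁ R ∅).Nonempty then 1 else 0 := by
  split_ifs with hne
  · obtain ⟨v0, hv01, hv0R, -⟩ := hne
    let W : Submodule ℂ (Fin r → ℂ) := KK V (R ∪ Finset.univ.image i₁)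
    have hW : ∀ v, v ∈ W ↔ (∀ j, V (i₁ j) ⬝ᵥ v = 0) ∧ ∀ i ∈ R, V i ⬝ᵥ v = 0 := by
      intro v
      show (∀ i ∈ R ∪ Finset.univ.image i₁, V i ⬝ᵥ v = 0) ↔ _
      constructor
      · intro h
        exact ⟨fun j => h _ (Finset.mem_union_right _ (Finset.mem_image_of_mem _ (Finset.mem_univ j))),
          fun i hi => h i (Finset.mem_union_left _ hi)⟩
      · rintro ⟨h1, h2⟩ i hi
        rw [Finset.mem_union, Finset.mem_image] at hi
        rcases hi with hi | ⟨j, _, rfl⟩
        · exact h2 i hi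
        · exact h1 j
    have h1 : cls (n5_set V i₁ R ∅) = cls (W : Set (Fin r → ℂ)) := by
      apply cls_iso (n5_constr V i₁ R ∅) (constr_submodule _)
      refine RegIso.linear (LinearMap.id) (LinearMap.id) (-v0) v0 ?_ ?_ ?_ ?_
      · rintro x ⟨hx1, hxR, -⟩
        rw [SetLike.mem_coe, hW]
        simp only [LinearMap.id_apply]
        refine ⟨fun j => ?_, fun i hi => ?_⟩
        · rw [dotProduct_add, dotProduct_neg, hx1, hv01]
          ring
        · rw [dotProduct_add, dotProduct_neg, hxR i hi, hv0R i hi]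
          ring
      · intro y hy
        rw [SetLike.mem_coe, hW] at hy
        simp only [LinearMap.id_apply]
        refine ⟨fun j => ?_, fun i hi => ?_, fun i hi => absurd hi (by simp)⟩
        · rw [dotProduct_add, hy.1, hv01]
          ring
        · rw [dotProduct_add, hy.2 i hi, hv0R i hi]
          ring
      · intro x _
        simp
      · intro x _
        simp
    rw [h1, cls_submodule, map_pow, hχ, one_pow]
  · rw [Set.not_nonempty_iff_eq_empty] at hne
    rw [hne, cls_empty, map_zero]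

open Classical in
theorem n5_block {k : ℕ} (V : I → Fin r → ℂ) (D : Finset I)
    (comp : I → ℕ) (hlt : ∀ i ∈ D, comp i < k) (beta : Fin r → ℕ)
    (hblk : ∀ i ∈ D, ∀ b, V i b ≠ 0 → beta b = comp i) (i₁ : Fin k → I)
    (hi₁ : ∀ j, i₁ j ∈ D ∧ comp (i₁ j) = j) (R : Finset I) (hR : R ⊆ D) :
    (n5_set V i₁ R ∅).Nonempty ↔ ∀ j : Fin k, ∃ v, V (i₁ j) ⬝ᵥ v = 1 ∧
      ∀ i ∈ R.filter (fun i => comp i = (j : ℕ)), V i ⬝ᵥ v = 0 := by
  constructor
  · rintro ⟨v, hv1, hv2, -⟩ j
    exact ⟨v, hv1 j, fun i hi => hv2 i (Finset.mem_filter.1 hi).1⟩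
  · intro h
    choose v hv1 hv2 using h
    let c : Fin r → ℂ := fun b => if hb : beta b < k then v ⟨beta b, hb⟩ b else 0
    have hc : ∀ i ∈ D, ∀ hi : comp i < k, V i ⬝ᵥ c = V i ⬝ᵥ v ⟨comp i, hi⟩ := by
      intro i hiD hi
      unfold dotProduct
      refine Finset.sum_congr rfl fun b _ => ?_
      by_cases hb : V i b = 0
      · rw [hb, zero_mul, zero_mul]
      · have h1 := hblk i hiD b hb
        have h2 : c b = v ⟨comp i, hi⟩ b := by
          show (if hb : beta b < k then v ⟨beta b, hb⟩ b else 0) = _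
          have h3 : beta b < k := by rw [h1]; exact hi
          rw [dif_pos h3]
          have h4 : (⟨beta b, h3⟩ : Fin k) = ⟨comp i, hi⟩ := Fin.ext h1
          rw [h4]
        rw [h2]
    refine ⟨c, fun j => ?_, fun i hi => ?_, fun i hi => absurd hi (Finset.notMem_empty i)⟩
    · have h1 : comp (i₁ j) < k := by rw [(hi₁ j).2]; exact j.2
      rw [hc _ (hi₁ j).1 h1]
      have h2 : (⟨comp (i₁ j), h1⟩ : Fin k) = j := Fin.ext (hi₁ j).2
      rw [h2]
      exact hv1 j
    · have h1 := hlt i (hR hi)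
      rw [hc i (hR hi) h1]
      exact hv2 _ i (Finset.mem_filter.2 ⟨hi, rfl⟩)

open Classical in
/-- a sum over the subsets of a disjoint union -/
theorem n5_prod {k : ℕ} (D : Finset I) (comp : I → ℕ) (hlt : ∀ i ∈ D, comp i < k)
    (F : Fin k → Finset I → ℤ) :
    ∑ R ∈ D.powerset, ∏ j : Fin k, F j (R.filter fun i => comp i = (j : ℕ)) =
      ∏ j : Fin k, ∑ R ∈ (D.filter fun i => comp i = (j : ℕ)).powerset, F j R := by
  rw [Finset.prod_univ_sum]
  refine Finset.sum_nbij' (fun R j => R.filter fun i => comp i = ((j : Fin k) : ℕ))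
    (fun x => Finset.univ.biUnion x) ?_ ?_ ?_ ?_ ?_
  · intro R hR
    rw [Finset.mem_powerset] at hR
    rw [Fintype.mem_piFinset]
    intro j
    rw [Finset.mem_powerset]
    exact Finset.filter_subset_filter _ hR
  · intro x hx
    rw [Fintype.mem_piFinset] at hx
    rw [Finset.mem_powerset]
    intro i hi
    rw [Finset.mem_biUnion] at hi
    obtain ⟨j, _, hj⟩ := hi
    exact (Finset.mem_filter.1 (Finset.mem_powerset.1 (hx j) hj)).1
  · intro R hR
    rw [Finset.mem_powerset] at hR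
    ext i
    simp only [Finset.mem_biUnion, Finset.mem_univ, true_and, Finset.mem_filter]
    constructor
    · rintro ⟨j, h, _⟩
      exact h
    · intro h
      exact ⟨⟨comp i, hlt i (hR h)⟩, h, rfl⟩
  · intro x hx
    rw [Fintype.mem_piFinset] at hx
    funext j
    ext i
    simp only [Finset.mem_biUnion, Finset.mem_univ, true_and, Finset.mem_filter]
    constructor
    · rintro ⟨⟨j', hj'⟩, h⟩
      have h1 := (Finset.mem_filter.1 (Finset.mem_powerset.1 (hx j') hj')).2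
      have h2 : j' = j := Fin.ext (by rw [← h1, ← h])
      rwa [h2] at hj'
    · intro h
      exact ⟨⟨j, h⟩, (Finset.mem_filter.1 (Finset.mem_powerset.1 (hx j) h)).2⟩
  · intro R _
    rfl

end aux

variable {I : Type} [Fintype I]

open Classical in
theorem chi_slices {χ : K0 →+* ℤ} (hχ : χ LL = 1) {r k : ℕ} (V : I → Fin r → ℂ) (D : Finset I)
    (comp : I → ℕ) (hlt : ∀ i ∈ D, comp i < k) (beta : Fin r → ℕ)
    (hblk : ∀ i ∈ D, ∀ b, V i b ≠ 0 → beta b = comp i) (i₁ : Fin k → I)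
    (hi₁ : ∀ j, i₁ j ∈ D ∧ comp (i₁ j) = j) :
    χ (cls {c : Fin r → ℂ | (∀ i ∈ D, V i ⬝ᵥ c ≠ 0) ∧ ∀ j, V (i₁ j) ⬝ᵥ c = 1}) =
      ∏ j : Fin k, -(h2t (rk ⊤ V) (D.filter fun i => comp i = (j : ℕ))) := by
  have h0 : {c : Fin r → ℂ | (∀ i ∈ D, V i ⬝ᵥ c ≠ 0) ∧ ∀ j, V (i₁ j) ⬝ᵥ c = 1}
      = n5_set V i₁ ∅ D := by
    ext v
    simp only [n5_set, Set.mem_ofPred_eq, Finset.notMem_empty, false_imp_iff, imp_true_iff,
      true_and]
    exact and_comm
  rw [h0, n5_expand]
  have h1 : ∀ R ∈ D.powerset, (-1 : ℤ) ^ R.card * χ (cls (n5_set V i₁ (∅ ∪ R) ∅)) =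
      ∏ j : Fin k, (fun (j : Fin k) (R : Finset I) => (-1 : ℤ) ^ R.card *
        ((rk ⊤ V (insert (i₁ j) R) : ℤ) - rk ⊤ V R)) j (R.filter fun i => comp i = (j : ℕ)) := by
    intro R hR
    rw [Finset.mem_powerset] at hR
    rw [Finset.empty_union, n5_base hχ, n5_block V D comp hlt beta hblk i₁ hi₁ R hR]
    simp only
    rw [Finset.prod_mul_distrib]
    congr 1
    · rw [Finset.prod_pow_eq_pow_sum]
      congr 1
      have h2 : ∀ i ∈ R, comp i ∈ Finset.range k := fun i hi =>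
        Finset.mem_range.2 (hlt i (hR hi))
      rw [Finset.card_eq_sum_card_fiberwise h2, Finset.sum_range]
    · simp only [n5_rk_diff]
      rw [Finset.prod_ite_zero]
      simp
  refine (Finset.sum_congr rfl h1).trans ((n5_prod D comp hlt (fun (j : Fin k) (R : Finset I) =>
    (-1 : ℤ) ^ R.card * ((rk ⊤ V (insert (i₁ j) R) : ℤ) - rk ⊤ V R))).trans ?_)
  refine Finset.prod_congr rfl fun j _ => ?_
  set T : Finset I := D.filter fun i => comp i = (j : ℕ) with hT
  have hj₁ : i₁ j ∈ T := Finset.mem_filter.2 (hi₁ j)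
  have h2 : ∑ R ∈ T.powerset, (-1 : ℤ) ^ R.card * (rk ⊤ V (insert (i₁ j) R) : ℤ) = 0 := by
    obtain ⟨T', hT', hTT⟩ : ∃ T', i₁ j ∉ T' ∧ T = insert (i₁ j) T' :=
      ⟨T.erase (i₁ j), Finset.notMem_erase _ _, (Finset.insert_erase hj₁).symm⟩
    rw [hTT, Finset.sum_powerset_insert hT', ← Finset.sum_add_distrib]
    refine Finset.sum_eq_zero fun R hR => ?_
    have h3 : i₁ j ∉ R := fun h => hT' (Finset.mem_powerset.1 hR h)
    rw [Finset.card_insert_of_notMem h3, Finset.insert_idem]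
    ring
  simp only [mul_sub, Finset.sum_sub_distrib]
  rw [h2, h2t]
  ring

end LF
end MotMono
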