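import Pool.Agent.Lib.MP_4e5fcd_ag.LF.N6
import Pool.Agent.Lib.MP_4e5fcd_ag.LF.X4
import Pool.Agent.Lib.MP_4e5fcd_ag.H1

/-!
# LF-N7: the fibration over the slices

Block arrangement as in N5, moreover `beta b < k` for all `b`. Let
`X = {c | V i ⬝ᵥ c ≠ 0 (i ∈ D), ∏_i (V i ⬝ᵥ c) ^ w g i = 1 (g ∈ R₀)}`,
`X1 = {c | V i ⬝ᵥ c ≠ 0 (i ∈ D), V (i₁ j) ⬝ᵥ c = 1 (j)}`, `A g j = ∑_{i ∈ D, comp i = j} w g i`.
For `τ : Fin k → ℂ`, all `τ j ≠ 0`, let `(τ • c) b = τ (beta b) * c b`; then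
`V i ⬝ᵥ (τ • c) = τ (comp i) * (V i ⬝ᵥ c)` for `i ∈ D`, and (as `w g` is supported in `D`)
`∏_i (V i ⬝ᵥ (τ • c)) ^ w g i = (∏_j τ j ^ A g j) * ∏_i (V i ⬝ᵥ c) ^ w g i`.
Let `E = {z : Fin k ⊕ Fin r → ℂ | z ∘ inr ∈ X1, τ = z ∘ inl, τ j ≠ 0,
(∏_j τ j ^ A g j) * ∏_i (V i ⬝ᵥ (z ∘ inr)) ^ w g i = 1 (g ∈ R₀)}`. `E ≅ X` by `(τ, c) ↦ τ • c`, inverse
`c ↦ (τ, τ⁻¹ • c)`, `τ j = V (i₁ j) ⬝ᵥ c`. For `c ∈ X1` the fibre of `E` is the solution set of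
`∏_j τ j ^ A g j = θ g`, `θ g = (∏_i (V i ⬝ᵥ c) ^ w g i)⁻¹ ≠ 0`, finite with `n₀` elements
(`exists_card_torus`), so `chi_finset` (`Set.Finite.coe_toFinset`, `Set.ncard_eq_toFinset_card`)
and `chi_fib_const` give `χ (cls X) = n₀ * χ (cls X1)`.
(The index type `R` of `exists_card_torus` is the subtype `R₀`.)
-/

open MvPolynomial

namespace MotMono
namespace LF

variable {I Γ : Type} [Fintype I]

/-- the action of the torus -/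
def n7_act {r k : ℕ} (beta : Fin r → ℕ) (hbeta : ∀ b, beta b < k) (τ : Fin k → ℂ)
    (c : Fin r → ℂ) : Fin r → ℂ := fun b => τ ⟨beta b, hbeta b⟩ * c b

omit [Fintype I] in
theorem n7_dot {r k : ℕ} (V : I → Fin r → ℂ) (D : Finset I) (comp : I → ℕ)
    (hlt : ∀ i ∈ D, comp i < k) (beta : Fin r → ℕ) (hbeta : ∀ b, beta b < k)
    (hblk : ∀ i ∈ D, ∀ b, V i b ≠ 0 → beta b = comp i) (τ : Fin k → ℂ) (c : Fin r → ℂ)
    (i : I) (hi : i ∈ D) :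
    V i ⬝ᵥ n7_act beta hbeta τ c = τ ⟨comp i, hlt i hi⟩ * (V i ⬝ᵥ c) := by
  unfold dotProduct n7_act
  rw [Finset.mul_sum]
  refine Finset.sum_congr rfl fun b _ => ?_
  by_cases h : V i b = 0
  · rw [h]; ring
  · have h1 : (⟨beta b, hbeta b⟩ : Fin k) = ⟨comp i, hlt i hi⟩ := by
      ext
      exact hblk i hi b h
    rw [h1]
    ring

open Classical in
theorem n7_prod {r k : ℕ} (V : I → Fin r → ℂ) (D : Finset I) (comp : I → ℕ)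
    (hlt : ∀ i ∈ D, comp i < k) (beta : Fin r → ℕ) (hbeta : ∀ b, beta b < k)
    (hblk : ∀ i ∈ D, ∀ b, V i b ≠ 0 → beta b = comp i) (v : I → ℕ)
    (hv : ∀ i, v i ≠ 0 → i ∈ D) (τ : Fin k → ℂ) (c : Fin r → ℂ) :
    ∏ i, (V i ⬝ᵥ n7_act beta hbeta τ c) ^ v i =
      (∏ j : Fin k, τ j ^ (∑ i ∈ D.filter (fun i => comp i = (j : ℕ)), v i)) *
        ∏ i, (V i ⬝ᵥ c) ^ v i := by
  have h1 : ∀ f : I → ℂ, ∏ i, f i ^ v i = ∏ i ∈ D, f i ^ v i := by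
    intro f
    refine (Finset.prod_subset (Finset.subset_univ D) fun i _ hi => ?_).symm
    have : v i = 0 := by
      by_contra h
      exact hi (hv i h)
    rw [this, pow_zero]
  have h2 : (∏ j : Fin k, τ j ^ (∑ i ∈ D.filter (fun i => comp i = (j : ℕ)), v i)) =
      ∏ i : {i // i ∈ D}, τ ⟨comp i, hlt i i.2⟩ ^ v i := by
    have h3 : ∀ j : Fin k, τ j ^ (∑ i ∈ D.filter (fun i => comp i = (j : ℕ)), v i) =
        ∏ i : {i // i ∈ D}, if comp i = (j : ℕ) then τ j ^ v i else 1 := by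
      intro j
      rw [← Finset.prod_pow_eq_pow_sum, Finset.prod_filter]
      exact (Finset.prod_coe_sort D fun i => if comp i = (j : ℕ) then τ j ^ v i else 1).symm
    rw [Finset.prod_congr rfl fun j _ => h3 j, Finset.prod_comm]
    refine Finset.prod_congr rfl fun i _ => ?_
    rw [Finset.prod_eq_single (⟨comp i, hlt i i.2⟩ : Fin k)]
    · rw [if_pos rfl]
    · intro j _ hj
      rw [if_neg]
      intro h
      exact hj (Fin.ext h.symm)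
    · intro h
      exact absurd (Finset.mem_univ _) h
  rw [h2, h1 (fun i => V i ⬝ᵥ n7_act beta hbeta τ c), h1 (fun i => V i ⬝ᵥ c),
    ← Finset.prod_coe_sort D, ← Finset.prod_coe_sort D, ← Finset.prod_mul_distrib]
  refine Finset.prod_congr rfl fun i _ => ?_
  rw [n7_dot V D comp hlt beta hbeta hblk τ c i i.2, mul_pow]

theorem n7_act_act {r k : ℕ} (beta : Fin r → ℕ) (hbeta : ∀ b, beta b < k) (τ τ' : Fin k → ℂ)
    (h : ∀ j, τ j * τ' j = 1) (c : Fin r → ℂ) :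
    n7_act beta hbeta τ (n7_act beta hbeta τ' c) = c := by
  funext b
  unfold n7_act
  rw [← mul_assoc, h, one_mul]

theorem n7_X {r : ℕ} (V : I → Fin r → ℂ) (D : Finset I) (w : Γ → I → ℕ) (R₀ : Finset Γ) :
    Constr {c : Fin r → ℂ | (∀ i ∈ D, V i ⬝ᵥ c ≠ 0) ∧
        ∀ g ∈ R₀, ∏ i, (V i ⬝ᵥ c) ^ w g i = 1} := by
  have h : {c : Fin r → ℂ | (∀ i ∈ D, V i ⬝ᵥ c ≠ 0) ∧
        ∀ g ∈ R₀, ∏ i, (V i ⬝ᵥ c) ^ w g i = 1} =
      (⋂ i ∈ D, {x | eval x (linForm (V i)) ≠ 0}) ∩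
      ⋂ g ∈ R₀, {x | eval x (∏ i, linForm (V i) ^ w g i) =
        eval x (C 1 : MvPolynomial (Fin r) ℂ)} := by
    ext c
    simp only [Set.mem_ofPred_eq, Set.mem_inter_iff, Set.mem_iInter, h1_eval_linForm, map_prod,
      map_pow, eval_C]
  rw [h]
  exact (constr_biInter_finset D fun i _ => constr_ne _).inter
    (constr_biInter_finset R₀ fun g _ => constr_eq _ _)

omit [Fintype I] in
theorem n7_X1 {r k : ℕ} (V : I → Fin r → ℂ) (D : Finset I) (i₁ : Fin k → I) :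
    Constr {c : Fin r → ℂ | (∀ i ∈ D, V i ⬝ᵥ c ≠ 0) ∧ ∀ j, V (i₁ j) ⬝ᵥ c = 1} := by
  have h : {c : Fin r → ℂ | (∀ i ∈ D, V i ⬝ᵥ c ≠ 0) ∧ ∀ j, V (i₁ j) ⬝ᵥ c = 1} =
      (⋂ i ∈ D, {x | eval x (linForm (V i)) ≠ 0}) ∩
      ⋂ j : Fin k, {x | eval x (linForm (V (i₁ j))) =
        eval x (C 1 : MvPolynomial (Fin r) ℂ)} := by
    ext c
    simp only [Set.mem_ofPred_eq, Set.mem_inter_iff, Set.mem_iInter, h1_eval_linForm, eval_C]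
  rw [h]
  exact (constr_biInter_finset D fun i _ => constr_ne _).inter
    (constr_iInter fun j => constr_eq _ _)

/-- the total space -/
def n7_E {r k : ℕ} (V : I → Fin r → ℂ) (D : Finset I) (i₁ : Fin k → I) (w : Γ → I → ℕ)
    (R₀ : Finset Γ) (A : Γ → Fin k → ℕ) : Set (Fin k ⊕ Fin r → ℂ) :=
  {z | ((∀ i ∈ D, V i ⬝ᵥ (fun b => z (Sum.inr b)) ≠ 0) ∧
      ∀ j, V (i₁ j) ⬝ᵥ (fun b => z (Sum.inr b)) = 1) ∧ (∀ j, z (Sum.inl j) ≠ 0) ∧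
      ∀ g ∈ R₀, (∏ j, z (Sum.inl j) ^ A g j) *
        ∏ i, (V i ⬝ᵥ (fun b => z (Sum.inr b))) ^ w g i = 1}

theorem n7_E_constr {r k : ℕ} (V : I → Fin r → ℂ) (D : Finset I) (i₁ : Fin k → I)
    (w : Γ → I → ℕ) (R₀ : Finset Γ) (A : Γ → Fin k → ℕ) : Constr (n7_E V D i₁ w R₀ A) := by
  have hlin : ∀ (z : Fin k ⊕ Fin r → ℂ) (a : Fin r → ℂ),
      eval z (∑ b, C (a b) * X (Sum.inr b) : MvPolynomial (Fin k ⊕ Fin r) ℂ) =
        a ⬝ᵥ (fun b => z (Sum.inr b)) := by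
    intro z a
    simp [dotProduct]
  have h : n7_E V D i₁ w R₀ A =
      {z | (fun b => z (Sum.inr b)) ∈ {c : Fin r → ℂ | (∀ i ∈ D, V i ⬝ᵥ c ≠ 0) ∧
        ∀ j, V (i₁ j) ⬝ᵥ c = 1}} ∩
      ((⋂ j : Fin k, {z | eval z (X (Sum.inl j)) ≠ 0}) ∩
      ⋂ g ∈ R₀, {z | eval z ((∏ j, X (Sum.inl j) ^ A g j) *
        ∏ i, (∑ b, C (V i b) * X (Sum.inr b) : MvPolynomial (Fin k ⊕ Fin r) ℂ) ^ w g i) =
        eval z (C 1 : MvPolynomial (Fin k ⊕ Fin r) ℂ)}) := by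
    ext z
    simp only [n7_E, Set.mem_ofPred_eq, Set.mem_inter_iff, Set.mem_iInter, map_mul, map_prod,
      map_pow, eval_C, eval_X, hlin]
  rw [h]
  exact ((n7_X1 V D i₁).comp Sum.inr).inter ((constr_iInter fun j => constr_ne _).inter
    (constr_biInter_finset R₀ fun g _ => constr_eq _ _))

open Classical in
theorem n7_iso {r k : ℕ} (V : I → Fin r → ℂ) (D : Finset I) (comp : I → ℕ)
    (hlt : ∀ i ∈ D, comp i < k) (beta : Fin r → ℕ) (hbeta : ∀ b, beta b < k)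
    (hblk : ∀ i ∈ D, ∀ b, V i b ≠ 0 → beta b = comp i) (i₁ : Fin k → I)
    (hi₁ : ∀ j, i₁ j ∈ D ∧ comp (i₁ j) = j) (w : Γ → I → ℕ) (R₀ : Finset Γ)
    (hw : ∀ g ∈ R₀, ∀ i, w g i ≠ 0 → i ∈ D) :
    RegIso (n7_E V D i₁ w R₀ (fun g j => ∑ i ∈ D.filter (fun i => comp i = (j : ℕ)), w g i))
      {c : Fin r → ℂ | (∀ i ∈ D, V i ⬝ᵥ c ≠ 0) ∧ ∀ g ∈ R₀, ∏ i, (V i ⬝ᵥ c) ^ w g i = 1} := by
  have hdot := n7_dot V D comp hlt beta hbeta hblk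
  have hdot1 : ∀ (τ : Fin k → ℂ) (c : Fin r → ℂ) (j : Fin k),
      V (i₁ j) ⬝ᵥ n7_act beta hbeta τ c = τ j * (V (i₁ j) ⬝ᵥ c) := by
    intro τ c j
    rw [hdot τ c (i₁ j) (hi₁ j).1]
    congr 2
    ext
    exact (hi₁ j).2
  have hprod : ∀ g ∈ R₀, ∀ (τ : Fin k → ℂ) (c : Fin r → ℂ), _ := fun g hg =>
    n7_prod V D comp hlt beta hbeta hblk (w g) (hw g hg)
  refine ⟨fun z => n7_act beta hbeta (fun j => z (Sum.inl j)) (fun b => z (Sum.inr b)),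
    fun c => Sum.elim (fun j => V (i₁ j) ⬝ᵥ c)
      (n7_act beta hbeta (fun j => (V (i₁ j) ⬝ᵥ c)⁻¹) c), ?_, ?_, ?_, ?_, ?_, ?_⟩
  · intro b
    exact (regFun_coord _ _).mul (regFun_coord _ _)
  · have hl : ∀ j, RegFun {c : Fin r → ℂ | (∀ i ∈ D, V i ⬝ᵥ c ≠ 0) ∧
        ∀ g ∈ R₀, ∏ i, (V i ⬝ᵥ c) ^ w g i = 1} (fun c => V (i₁ j) ⬝ᵥ c) := by
      intro j
      refine (regFun_poly _ (linForm (V (i₁ j)))).congr fun c _ => ?_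
      exact h1_eval_linForm _ _
    rintro (j | b)
    · exact hl j
    · exact ((hl _).inv fun c hc => hc.1 _ (hi₁ _).1).mul (regFun_coord _ b)
  · rintro z ⟨⟨h1, h2⟩, h3, h4⟩
    refine ⟨fun i hi => ?_, fun g hg => ?_⟩
    · rw [hdot _ _ i hi]
      exact mul_ne_zero (h3 _) (h1 i hi)
    · rw [hprod g hg]
      exact h4 g hg
  · rintro c ⟨h1, h2⟩
    have hne : ∀ j, V (i₁ j) ⬝ᵥ c ≠ 0 := fun j => h1 _ (hi₁ j).1
    have hback : n7_act beta hbeta (fun j => V (i₁ j) ⬝ᵥ c)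
        (n7_act beta hbeta (fun j => (V (i₁ j) ⬝ᵥ c)⁻¹) c) = c :=
      n7_act_act beta hbeta _ _ (fun j => mul_inv_cancel₀ (hne j)) c
    refine ⟨⟨fun i hi => ?_, fun j => ?_⟩, fun j => hne j, fun g hg => ?_⟩
    · change V i ⬝ᵥ n7_act beta hbeta (fun j => (V (i₁ j) ⬝ᵥ c)⁻¹) c ≠ 0
      rw [hdot _ _ i hi]
      exact mul_ne_zero (inv_ne_zero (hne _)) (h1 i hi)
    · change V (i₁ j) ⬝ᵥ n7_act beta hbeta (fun j => (V (i₁ j) ⬝ᵥ c)⁻¹) c = 1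
      rw [hdot1]
      exact inv_mul_cancel₀ (hne j)
    · have h3 := hprod g hg (fun j => V (i₁ j) ⬝ᵥ c)
        (n7_act beta hbeta (fun j => (V (i₁ j) ⬝ᵥ c)⁻¹) c)
      rw [hback, h2 g hg] at h3
      exact h3.symm
  · rintro z ⟨⟨h1, h2⟩, h3, h4⟩
    have hτ : ∀ j, V (i₁ j) ⬝ᵥ n7_act beta hbeta (fun j => z (Sum.inl j))
        (fun b => z (Sum.inr b)) = z (Sum.inl j) := by
      intro j
      rw [hdot1, h2 j, mul_one]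
    funext x
    rcases x with j | b
    · exact hτ j
    · change n7_act beta hbeta (fun j => (V (i₁ j) ⬝ᵥ n7_act beta hbeta (fun j => z (Sum.inl j))
        (fun b => z (Sum.inr b)))⁻¹) (n7_act beta hbeta (fun j => z (Sum.inl j))
        (fun b => z (Sum.inr b))) b = z (Sum.inr b)
      rw [n7_act_act beta hbeta _ _ (fun j => by rw [hτ j]; exact inv_mul_cancel₀ (h3 j))]
  · rintro c ⟨h1, h2⟩
    have hne : ∀ j, V (i₁ j) ⬝ᵥ c ≠ 0 := fun j => h1 _ (hi₁ j).1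
    exact n7_act_act beta hbeta _ _ (fun j => mul_inv_cancel₀ (hne j)) c

open Classical in
theorem chi_torus_fib {χ : K0 →+* ℤ} (hχ : IsEulerCharF χ) {r k : ℕ} (V : I → Fin r → ℂ)
    (D : Finset I) (comp : I → ℕ) (hlt : ∀ i ∈ D, comp i < k) (beta : Fin r → ℕ)
    (hbeta : ∀ b, beta b < k)
    (hblk : ∀ i ∈ D, ∀ b, V i b ≠ 0 → beta b = comp i) (i₁ : Fin k → I)
    (hi₁ : ∀ j, i₁ j ∈ D ∧ comp (i₁ j) = j) (w : Γ → I → ℕ) (R₀ : Finset Γ)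
    (hR : R₀.card = k) (hw : ∀ g ∈ R₀, ∀ i, w g i ≠ 0 → i ∈ D)
    (hsep : ∀ y : Fin k → ℚ,
      (∀ g ∈ R₀, ∑ j : Fin k, ((∑ i ∈ D.filter (fun i => comp i = (j : ℕ)), w g i : ℕ) : ℚ) * y j =
        0) → y = 0) :
    ∃ n₀ : ℕ, 0 < n₀ ∧
      χ (cls {c : Fin r → ℂ | (∀ i ∈ D, V i ⬝ᵥ c ≠ 0) ∧
        ∀ g ∈ R₀, ∏ i, (V i ⬝ᵥ c) ^ w g i = 1}) =
      n₀ * χ (cls {c : Fin r → ℂ | (∀ i ∈ D, V i ⬝ᵥ c ≠ 0) ∧ ∀ j, V (i₁ j) ⬝ᵥ c = 1}) := by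
  set A : Γ → Fin k → ℕ := fun g j => ∑ i ∈ D.filter (fun i => comp i = (j : ℕ)), w g i with hA
  obtain ⟨n₀, hn₀, hcard⟩ := exists_card_torus (R := {g // g ∈ R₀}) (k := k)
    (by rw [Fintype.card_coe]; exact hR) (fun g j => A g j)
    (fun y hy => hsep y fun g hg => hy ⟨g, hg⟩)
  refine ⟨n₀, hn₀, ?_⟩
  rw [← cls_iso (n7_E_constr V D i₁ w R₀ A) (n7_X V D w R₀)
    (n7_iso V D comp hlt beta hbeta hblk i₁ hi₁ w R₀ hw)]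
  refine chi_fib_const hχ (n7_E_constr V D i₁ w R₀ A) (n7_X1 V D i₁) n₀ ?_ ?_
  · rintro y ⟨hy1, hy2⟩
    have hθ : ∀ g : {g // g ∈ R₀}, (∏ i, (V i ⬝ᵥ y) ^ w g i)⁻¹ ≠ 0 := by
      intro g
      refine inv_ne_zero (Finset.prod_ne_zero_iff.2 fun i _ => ?_)
      by_cases h : w g i = 0
      · rw [h, pow_zero]; exact one_ne_zero
      · exact pow_ne_zero _ (hy1 i (hw g g.2 i h))
    obtain ⟨hfin, hnc⟩ := hcard (fun g => (∏ i, (V i ⬝ᵥ y) ^ w g i)⁻¹) hθ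
    have hset : {x : Fin k → ℂ | Sum.elim x y ∈ n7_E V D i₁ w R₀ A} =
        {τ : Fin k → ℂ | (∀ j, τ j ≠ 0) ∧ ∀ g : {g // g ∈ R₀}, ∏ j, τ j ^ A g j =
          (∏ i, (V i ⬝ᵥ y) ^ w g i)⁻¹} := by
      ext τ
      constructor
      · rintro ⟨-, h2, h3⟩
        refine ⟨h2, fun g => ?_⟩
        exact eq_inv_of_mul_eq_one_left (h3 g g.2)
      · rintro ⟨h2, h3⟩
        refine ⟨⟨hy1, hy2⟩, h2, fun g hg => ?_⟩
        have h4 := h3 ⟨g, hg⟩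
        change (∏ j, τ j ^ A g j) * ∏ i, (V i ⬝ᵥ y) ^ w g i = 1
        rw [h4]
        exact inv_mul_cancel₀ (fun h5 => hθ ⟨g, hg⟩ (by rw [h5, inv_zero]))
    rw [hset, ← hfin.coe_toFinset, chi_finset, ← Set.ncard_eq_toFinset_card _ hfin, hnc]
  · intro y hy x hx
    exact hy hx.1

end LF
end MotMono
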