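import Pool.Agent.Lib.MP_4e5fcd_ag.LF.N2
import Pool.Agent.Lib.MP_4e5fcd_ag.LF.N4
import Pool.Agent.Lib.MP_4e5fcd_ag.LF.N5
import Pool.Agent.Lib.MP_4e5fcd_ag.LF.N7

/-!
# LF-N8: the sign

`exists_comp` with `A = Adj a B D x` (`B ⊆ D`) gives `k`, `comp`; `finrank_LinM`: `k = |R₀|`.
`V = av a B x`, `r = |B|`, `beta b = comp (B.equivFin.symm b) < k`; `V i b ≠ 0` means
`Adj i (B.equivFin.symm b)`, so `beta b = comp i`. Choose `i₁ j ∈ D` with `comp (i₁ j) = j`.
`hsep`: for `y : Fin k → ℚ` let `z i = y (comp i)` for `i ∈ D`, `0` otherwise; `z ∈ LinM` (`mem_LinM_iff`)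
and `pq (w g) z = ∑_j A g j y j`; if this is `0` for `g ∈ R₀` then `z = 0` by `Sep`, so `y = 0` (every
class is nonempty).
`chi_XM_av` (`constr_Th`), `chi_torus_fib`, `chi_slices`:
`χ (cls (XM ..)) = n₀ * ∏_j (-(h2t rr C_j))`, `C_j = D.filter (comp · = j)`. By `h2t_pos` for `C_j`
(nonempty; `hstab`: `h3` and `Adj i j → i, j ∈ D`; `hmin`: apply `h4` to `f i := i ∈ A`: `A` contains with one
element of `C_j` all of them): `rr C_j = |B ∩ C_j|` and `0 < (-1)^(rr C_j) * h2t rr C_j`, so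
`0 < (-1)^(rr C_j + 1) * (-(h2t rr C_j))`. Multiply over `j`: `∑_j (rr C_j + 1) = |B| + k`
(`B ⊆ D` is the disjoint union of the `B ∩ C_j`). In `XM` the set is
`{c | ..., (fun i => V i ⬝ᵥ c) ∈ Th w R₀ 1} = {c | ..., ∀ g ∈ R₀, ∏_i (V i ⬝ᵥ c) ^ w g i = 1}`.
-/

open MvPolynomial

namespace MotMono
namespace LF

variable {I Γ : Type} [Fintype I] {N : ℕ} {a : I → Fin N → ℂ} {D B : Finset I} {v : I → ℕ}

theorem sign {χ : K0 →+* ℤ} (hχ : IsEulerCharF χ) (ha : ∀ i, a i ≠ 0) {w : Γ → I → ℕ}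
    {R₀ : Finset Γ} (hw : ∀ g ∈ R₀, ∀ i, w g i ≠ 0 → i ∈ D)
    (hv : ∀ i ∈ D, clo a D v i = v i) (hB : MaxB a D v B) (hsep : Sep w R₀ (LinM a D v))
    (hcard : Module.finrank ℚ (LinM a D v) = R₀.card) :
    0 < (-1 : ℤ) ^ (B.card + R₀.card) * χ (cls (XM a B v D (Th w R₀ fun _ => 1))) := by
  classical
  have hBD : B ⊆ D := hB.1.1
  obtain ⟨k, comp, h1, h2, h3, h4⟩ := exists_comp D (Adj a B D v)
    (fun i j h => ⟨h.1, hBD h.2.1⟩)
  have hk := finrank_LinM hB h1 h2 h3 h4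
  have hR : R₀.card = k := by rw [← hcard, hk]
  choose i₁ hi₁ using fun j : Fin k => h2 j j.2
  obtain ⟨beta, hbetadef⟩ : ∃ beta : Fin B.card → ℕ,
      beta = fun b => comp (B.equivFin.symm b : I) := ⟨_, rfl⟩
  have hbeta : ∀ b, beta b < k := by
    intro b
    rw [hbetadef]
    exact h1 _ (hBD (B.equivFin.symm b).2)
  have hblk : ∀ i ∈ D, ∀ b, av a B v i b ≠ 0 → beta b = comp i := by
    intro i hi b hb
    unfold av at hb
    split_ifs at hb with hx
    · rw [hbetadef]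
      exact (h3 i _ ⟨hi, (B.equivFin.symm b).2, hx, hb⟩).symm
    · exact absurd rfl hb
  have hsep' : ∀ y : Fin k → ℚ,
      (∀ g ∈ R₀, ∑ j : Fin k, ((∑ i ∈ D.filter (fun i => comp i = (j : ℕ)), w g i : ℕ) : ℚ) * y j =
        0) → y = 0 := by
    intro y hy
    obtain ⟨z, hz⟩ : ∃ z : I → ℚ, z = fun i => if h : i ∈ D then y ⟨comp i, h1 i h⟩ else 0 :=
      ⟨_, rfl⟩
    have hzD : ∀ i (h : i ∈ D), z i = y ⟨comp i, h1 i h⟩ := by
      intro i h; rw [hz]; simp only [dif_pos h]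
    have hzN : ∀ i, i ∉ D → z i = 0 := by
      intro i h; rw [hz]; simp only [dif_neg h]
    have hzL : z ∈ LinM a D v := by
      rw [mem_LinM_iff hB]
      refine ⟨hzN, fun i j hij => ?_⟩
      rw [hzD i hij.1, hzD j (hBD hij.2.1)]
      congr 1
      exact Fin.ext (h3 i j hij)
    have hz0 : z = 0 := by
      refine hsep z hzL fun g hg => ?_
      rw [← hy g hg]
      unfold pq
      have e1 : ∑ i, (w g i : ℚ) * z i = ∑ i ∈ D, (w g i : ℚ) * z i := by
        symm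
        refine Finset.sum_subset (Finset.subset_univ D) fun i _ hi => ?_
        rw [hzN i hi, mul_zero]
      rw [e1]
      have e2 : ∀ j : Fin k, ((∑ i ∈ D.filter (fun i => comp i = (j : ℕ)), w g i : ℕ) : ℚ) * y j =
          ∑ i ∈ D, if comp i = (j : ℕ) then (w g i : ℚ) * z i else 0 := by
        intro j
        rw [← Finset.sum_filter]
        push_cast
        rw [Finset.sum_mul]
        refine Finset.sum_congr rfl fun i hi => ?_
        rw [Finset.mem_filter] at hi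
        rw [hzD i hi.1]
        congr 2
        exact Fin.ext hi.2.symm
      rw [Finset.sum_congr rfl fun j _ => e2 j, Finset.sum_comm]
      refine Finset.sum_congr rfl fun i hi => ?_
      rw [Finset.sum_eq_single (⟨comp i, h1 i hi⟩ : Fin k)]
      · simp
      · intro j _ hj
        rw [if_neg]
        intro hc
        exact hj (Fin.ext hc.symm)
      · intro h; exact absurd (Finset.mem_univ _) h
    funext j
    have h5 := congrFun hz0 (i₁ j)
    rw [hzD _ (hi₁ j).1] at h5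
    have h6 : (⟨comp (i₁ j), h1 _ (hi₁ j).1⟩ : Fin k) = j := Fin.ext (hi₁ j).2
    rw [h6] at h5
    exact h5
  obtain ⟨n₀, hn₀, hχ1⟩ := chi_torus_fib hχ (av a B v) D comp h1 beta hbeta hblk i₁ hi₁ w R₀ hR hw
    hsep'
  have hχ2 := chi_slices hχ.line (av a B v) D comp h1 beta hblk i₁ hi₁
  have hχ3 := chi_XM_av χ a B v D (constr_Th w R₀ fun _ => (1 : ℂ))
  have hset : {c : Fin B.card → ℂ | (∀ i ∈ D, av a B v i ⬝ᵥ c ≠ 0) ∧
      (fun i => av a B v i ⬝ᵥ c) ∈ Th w R₀ fun _ => (1 : ℂ)} =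
      {c : Fin B.card → ℂ | (∀ i ∈ D, av a B v i ⬝ᵥ c ≠ 0) ∧
        ∀ g ∈ R₀, ∏ i, (av a B v i ⬝ᵥ c) ^ w g i = 1} := rfl
  rw [hset, hχ1, hχ2] at hχ3
  rw [hχ3]
  obtain ⟨CC, hCC⟩ : ∃ CC : ℕ → Finset I, CC = fun j => D.filter fun i => comp i = j := ⟨_, rfl⟩
  have hCCmem : ∀ j i, i ∈ CC j ↔ i ∈ D ∧ comp i = j := by
    intro j i; rw [hCC]; simp only [Finset.mem_filter]
  have hpos : ∀ j : Fin k, rk ⊤ (av a B v) (CC j) = (B ∩ CC j).card ∧
      0 < (-1 : ℤ) ^ (rk ⊤ (av a B v) (CC j)) * h2t (rk ⊤ (av a B v)) (CC j) := by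
    intro j
    refine h2t_pos ha hB hv (CC j) (fun i hi => ((hCCmem j i).1 hi).1)
      ⟨i₁ j, (hCCmem j _).2 (hi₁ j)⟩ ?_ ?_
    · intro i i' hii
      rw [hCCmem, hCCmem, h3 i i' hii]
      exact and_congr_left fun _ => ⟨fun _ => hBD hii.2.1, fun _ => hii.1⟩
    · intro A hA hAst
      by_cases hAe : A = ∅
      · exact Or.inl hAe
      · right
        obtain ⟨i, hi⟩ := Finset.nonempty_iff_ne_empty.2 hAe
        refine Finset.Subset.antisymm hA fun i' hi' => ?_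
        have hiC := (hCCmem j i).1 (hA hi)
        have hiC' := (hCCmem j i').1 hi'
        exact (h4 (fun l => l ∈ A) hAst i hiC.1 i' hiC'.1 (hiC.2.trans hiC'.2.symm)).1 hi
  have hsum : ∑ j : Fin k, (rk ⊤ (av a B v) (CC j) + 1) = B.card + R₀.card := by
    rw [Finset.sum_add_distrib, hR]
    congr 1
    · have e1 : B.card = ∑ j ∈ Finset.range k, (B.filter fun i => comp i = j).card :=
        Finset.card_eq_sum_card_fiberwise (f := comp) (t := Finset.range k)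
          (fun i hi => Finset.mem_coe.2 (Finset.mem_range.2 (h1 i (hBD hi))))
      refine Eq.trans ?_ e1.symm
      rw [Finset.sum_range]
      refine Finset.sum_congr rfl fun j _ => ?_
      rw [(hpos j).1]
      congr 1
      ext i
      rw [Finset.mem_inter, hCCmem, Finset.mem_filter]
      exact ⟨fun h => ⟨h.1, h.2.2⟩, fun h => ⟨h.1, hBD h.1, h.2⟩⟩
    · simp
  have hprod : (-1 : ℤ) ^ (B.card + R₀.card) *
      ((n₀ : ℤ) * ∏ j : Fin k, -(h2t (rk ⊤ (av a B v)) (CC j))) =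
      n₀ * ∏ j : Fin k, ((-1 : ℤ) ^ (rk ⊤ (av a B v) (CC j)) * h2t (rk ⊤ (av a B v)) (CC j)) := by
    rw [← hsum, ← Finset.prod_pow_eq_pow_sum, ← mul_assoc, mul_comm _ (n₀ : ℤ), mul_assoc,
      ← Finset.prod_mul_distrib]
    congr 1
    refine Finset.prod_congr rfl fun j _ => ?_
    rw [pow_succ]
    ring
  have hgoal : ∏ j : Fin k, -(h2t (rk ⊤ (av a B v)) (D.filter fun i => comp i = (j : ℕ))) =
      ∏ j : Fin k, -(h2t (rk ⊤ (av a B v)) (CC j)) := by
    refine Finset.prod_congr rfl fun j _ => ?_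
    rw [hCC]
  rw [hgoal, hprod]
  refine mul_pos (by exact_mod_cast hn₀) (Finset.prod_pos fun j _ => (hpos j).2)

end LF
end MotMono
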