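import Pool.Agent.Lib.MP_4e5fcd_ag.LF.A5
import Pool.Agent.Lib.MP_4e5fcd_ag.LF.A6

/-!
# LF-T4: separation and essential vectors

`finrank_le`: the linear map `L → (R₀ → ℚ)`, `z ↦ (pq (w g) z)_g` is injective.
`exists_R0`: the functionals `pq (w g)|L`, `g ∈ S`, have trivial common kernel, so they span the dual of
`L`; choose a basis of the dual among them (`exists_linearIndependent` / `Basis.extend` /
`exists_finset_linearIndepOn...`): a subset `R₀ ⊆ S` of `finrank L` elements with trivial common kernel.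
(Alternative: choose `R₀ ⊆ S` of minimal cardinality with `Sep w R₀ L`; `finrank L ≤ |R₀|`
by `finrank_le`; if `<`, the functionals are linearly dependent on `L`, one of them is a combination of the
others and can be omitted.)
Let `D = sup S` (`hD`), `v` positive, `Fc w v = S`: `Du w v = D` (`du_eq`).
`span_of_pos`: `0 < v i = clo a D v i`, `le_clo_iff` with `c = v i`, `sp_mono`.
`sep_of_ess`: let `z ∈ LinM a D v`, `pq (w g) z = 0` for `g ∈ S = Fc w v`; `ext` gives `z = c v` on `D`, so for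
`g ∈ S` (nonempty: `Fc_nonempty`): `0 = pq (w g) z = c * pair (w g) v = c * mn w v` (`w g` supported in `D`),
`c = 0`, `z = 0` on `D`, and off `D`.
`ess_of_VV`: `v ∈ VV a w S R₀ D`, `R₀ ⊆ S`. `Du w v = D`. `closed`: from `VV`. `mn w v > 0`: let `v' = v` on
`D`, `0` off `D`; `v' ∈ LinM a D v` (`self_mem_LinM`), `pq (w g) v' = pair (w g) v = mn w v` for
`g ∈ S ⊇ R₀`; if it is `0`, `Sep` gives `v' = 0`, so `D = ∅` (`v > 0`), so `v i = clo a ∅ v i = 0` for all
`i`: `I` is empty; but `Prim v` is false for empty `I`. `ext`: let `z ∈ LinM a D v`,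
`pq (w g) z = s` for all `g ∈ S` (`S ≠ ∅`); `z - (s / mn w v) v' ∈ LinM` is killed by `R₀`, so it is `0`.
-/

open MvPolynomial

namespace MotMono
namespace LF

variable {I Γ : Type} [Fintype I] [Fintype Γ] {N : ℕ} {a : I → Fin N → ℂ} {w : Γ → I → ℕ}
  {S R₀ : Finset Γ} {D : Finset I} {v : I → ℕ}

/-- `pq v` as a linear form -/
private noncomputable def t4pq (v : I → ℕ) : (I → ℚ) →ₗ[ℚ] ℚ where
  toFun z := pq v z
  map_add' x y := by simp [pq, mul_add, Finset.sum_add_distrib]
  map_smul' c x := by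
    simp only [pq, Pi.smul_apply, smul_eq_mul, RingHom.id_apply, Finset.mul_sum]
    exact Finset.sum_congr rfl fun i _ => by ring

omit [Fintype Γ] in
private theorem t4pq_apply (v : I → ℕ) (z : I → ℚ) : t4pq v z = pq v z := rfl

theorem finrank_le_of_sep {L : Submodule ℚ (I → ℚ)} (h : Sep w R₀ L) :
    Module.finrank ℚ L ≤ R₀.card := by
  classical
  let f : L →ₗ[ℚ] (R₀ → ℚ) := LinearMap.pi fun g => (t4pq (w g)).domRestrict L
  have hf : Function.Injective f := by
    rw [← LinearMap.ker_eq_bot, LinearMap.ker_eq_bot']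
    intro z hz
    apply Subtype.ext
    apply h z z.2
    intro g hg
    exact congrFun hz ⟨g, hg⟩
  have h1 := LinearMap.finrank_le_finrank_of_injective hf
  rw [Module.finrank_fintype_fun_eq_card, Fintype.card_coe] at h1
  exact h1

theorem exists_R0 {L : Submodule ℚ (I → ℚ)} (h : Sep w S L) :
    ∃ R₀, R₀ ⊆ S ∧ R₀.card = Module.finrank ℚ L ∧ Sep w R₀ L := by
  classical
  let f : Γ → Module.Dual ℚ L := fun g => (t4pq (w g)).domRestrict L
  obtain ⟨b, hbS, -, hspan, hind⟩ := exists_linearIndepOn_extension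
    (linearIndepOn_empty ℚ f) (Set.empty_subset (S : Set Γ))
  have hsep : Sep w b.toFinset L := by
    intro z hz hz0
    apply h z hz
    intro g hg
    have hle : Submodule.span ℚ (f '' b) ≤
        LinearMap.ker (Module.Dual.eval ℚ L ⟨z, hz⟩) := by
      rw [Submodule.span_le]
      rintro _ ⟨g', hg', rfl⟩
      exact hz0 g' (Set.mem_toFinset.mpr hg')
    exact hle (hspan ⟨g, hg, rfl⟩)
  refine ⟨b.toFinset, ?_, ?_, hsep⟩
  · intro g hg
    exact hbS (Set.mem_toFinset.mp hg)
  · apply le_antisymm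
    · have h1 := LinearIndependent.fintype_card_le_finrank (R := ℚ) hind
      rw [Subspace.dual_finrank_eq] at h1
      rw [Set.toFinset_card]
      exact h1
    · exact finrank_le_of_sep hsep

theorem du_eq (hD : ∀ i, i ∈ D ↔ ∃ g ∈ S, w g i ≠ 0) (hv : ∀ i, 0 < v i) (hS : Fc w v = S) :
    Du w v = D := by
  ext i
  unfold Du
  rw [Finset.mem_filter, hS, hD]
  constructor
  · rintro ⟨-, -, h⟩
    exact h
  · intro h
    exact ⟨Finset.mem_univ i, (hv i).ne', h⟩

theorem span_of_pos (ha : ∀ i, a i ≠ 0) (hv : ∀ i, 0 < v i) (hcl : ∀ i, clo a D v i = v i)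
    (i : I) : a i ∈ sp a (D : Set I) := by
  have h := (le_clo_iff (a := a) (D := D) (x := v) (i := i) (ha i) (hv i)).mp (hcl i).ge
  exact sp_mono (fun j hj => hj.1) h

/-- on the face the pairing with a multiple of `v` -/
private theorem t4_pair (hD : ∀ i, i ∈ D ↔ ∃ g ∈ S, w g i ≠ 0) {z : I → ℚ} {c : ℚ}
    (hz : ∀ i ∈ D, z i = c * v i) {g : Γ} (hg : g ∈ S) : pq (w g) z = c * pair (w g) v := by
  rw [← pq_natCast, ← smul_eq_mul (a := c), ← t4pq_apply, ← t4pq_apply, ← map_smul, t4pq_apply,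
    t4pq_apply]
  apply pq_congr
  intro i hi
  rw [hz i ((hD i).mpr ⟨g, hg, hi⟩)]
  rfl

theorem sep_of_ess [Nonempty Γ] (hD : ∀ i, i ∈ D ↔ ∃ g ∈ S, w g i ≠ 0)
    (hv : ∀ i, 0 < v i) (hS : Fc w v = S) (he : Ess a w v) : Sep w S (LinM a D v) := by
  intro z hz hz0
  have hdu := du_eq hD hv hS
  obtain ⟨c, hc⟩ := he.ext z (by rw [hdu]; exact hz) (by
    rw [hS]
    intro g hg g' hg'
    rw [hz0 g hg, hz0 g' hg'])
  rw [hdu] at hc
  obtain ⟨g, hg⟩ := Fc_nonempty w v
  have hmn := mn_eq hg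
  rw [hS] at hg
  have h1 := t4_pair (v := v) hD hc hg
  rw [hz0 g hg, ← hmn] at h1
  have hpos : (mn w v : ℚ) ≠ 0 := by exact_mod_cast he.pos.ne'
  have hc0 : c = 0 := by
    rcases mul_eq_zero.mp h1.symm with h | h
    · exact h
    · exact absurd h hpos
  funext i
  by_cases hi : i ∈ D
  · rw [hc i hi, hc0, zero_mul]
    rfl
  · exact hz.1 i hi

theorem ess_of_VV [Nonempty Γ] (ha : ∀ i, a i ≠ 0) (hD : ∀ i, i ∈ D ↔ ∃ g ∈ S, w g i ≠ 0)
    (hR : R₀ ⊆ S) (hv : v ∈ VV a w S R₀ D) : Ess a w v := by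
  classical
  obtain ⟨hpos, hprim, hcl, hS, hsep⟩ := hv
  have hdu := du_eq hD hpos hS
  have hv' := self_mem_LinM a D v
  have hpv : ∀ g ∈ S, pq (w g) (fun i => if i ∈ D then (v i : ℚ) else 0) = mn w v := by
    intro g hg
    rw [t4_pair (v := v) (c := 1) hD (fun i hi => by rw [if_pos hi, one_mul]) hg, one_mul,
      mn_eq (hS ▸ hg)]
  have hmn : 0 < mn w v := by
    rw [Nat.pos_iff_ne_zero]
    intro h0
    have h1 := hsep _ hv' (fun g hg => by rw [hpv g (hR hg), h0]; rfl)
    have hDe : D = ∅ := by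
      rw [Finset.eq_empty_iff_forall_notMem]
      intro i hi
      have h2 := congrFun h1 i
      simp only [if_pos hi, Pi.zero_apply, Nat.cast_eq_zero] at h2
      exact (hpos i).ne' h2
    have hno : ∀ i : I, False := by
      intro i
      have h2 := span_of_pos ha hpos hcl i
      rw [hDe] at h2
      apply ha i
      simpa [sp] using h2
    have := hprim 0 (fun i => (hno i).elim)
    exact absurd this (by norm_num)
  refine ⟨hmn, ?_, ?_⟩
  · rw [hdu]
    exact hcl
  · rw [hdu, hS]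
    intro z hz hzz
    obtain ⟨g₀, hg₀⟩ := Fc_nonempty w v
    rw [hS] at hg₀
    have hmn' : (mn w v : ℚ) ≠ 0 := by exact_mod_cast hmn.ne'
    refine ⟨pq (w g₀) z / mn w v, ?_⟩
    have h1 := hsep (z - (pq (w g₀) z / mn w v) • (fun i => if i ∈ D then (v i : ℚ) else 0))
      (Submodule.sub_mem _ hz (Submodule.smul_mem _ _ hv')) (by
        intro g hg
        rw [← t4pq_apply, map_sub, map_smul, t4pq_apply, t4pq_apply, hpv g (hR hg),
          hzz g (hR hg) g₀ hg₀, smul_eq_mul, div_mul_cancel₀ _ hmn', sub_self])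
    intro i hi
    have h2 := congrFun h1 i
    simp only [Pi.sub_apply, Pi.smul_apply, if_pos hi, smul_eq_mul, Pi.zero_apply] at h2
    linarith

end LF
end MotMono
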