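import Pool.Agent.Lib.MP_4e5fcd_ag.LF.P8
import Pool.Agent.Lib.MP_4e5fcd_ag.LF.B1
import Pool.Agent.Lib.MP_4e5fcd_ag.LF.B2
import Pool.Agent.Lib.MP_4e5fcd_ag.LF.B3
import Pool.Agent.Lib.MP_4e5fcd_ag.LF.G2
import Pool.Agent.Lib.MP_4e5fcd_ag.LF.N8
import Pool.Agent.Lib.MP_4e5fcd_ag.LF.T4

/-!
# LF-M1: the local theorem
-/

open MvPolynomial

namespace MotMono
namespace LF

variable {I Γ : Type} [Fintype I] [Fintype Γ] [Nonempty Γ] {N : ℕ}

theorem loc_main (L : Loc I Γ N) {χ : K0 →+* ℤ} (hχ : IsEulerCharF χ) (lam : ℂ) (v₀ : I → ℕ)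
    (hv₀ : ∀ i, 0 < v₀ i) (hp : Prim v₀) (he : Ess L.a L.w v₀) (hl : lam ^ mn L.w v₀ = 1)
    (hmax : ∀ u, Prim u → Ess L.a L.w u → lam ^ mn L.w u = 1 →
      (Fc L.w u).card ≤ (Fc L.w v₀).card) :
    ∃ y : ConePoint L.J L.p, y.Nonzero ∧
      ∃ Z, IsZeta (fun d => χ (cls (contactArcs L.J L.p y d))) Z ∧ ZeroOrPole Z lam := by
  classical
  by_contra hcon
  have hno : ∀ y : ConePoint L.J L.p, y.Nonzero →
      ∀ Z, IsZeta (fun d => χ (cls (contactArcs L.J L.p y d))) Z → ¬ ZeroOrPole Z lam :=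
    fun y hy Z hZ hZP => hcon ⟨y, hy, Z, hZ, hZP⟩
  set S := Fc L.w v₀ with hSdef
  have hS : S.Nonempty := Fc_nonempty _ _
  set D : Finset I := Finset.univ.filter fun i => ∃ g ∈ S, L.w g i ≠ 0 with hDdef
  have hD : ∀ i, i ∈ D ↔ ∃ g ∈ S, L.w g i ≠ 0 := fun i => by simp [hDdef]
  -- a stratum of minimal dimension
  let good : (I → ℕ) → Prop := fun v => (∀ i, 0 < v i) ∧ Prim v ∧ Ess L.a L.w v ∧
    Fc L.w v = S ∧ lam ^ mn L.w v = 1
  have hgood₀ : good v₀ := ⟨hv₀, hp, he, rfl, hl⟩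
  have hex : ∃ k, ∃ v, good v ∧ Module.finrank ℚ (LinM L.a D v) = k := ⟨_, v₀, hgood₀, rfl⟩
  obtain ⟨v₁, hv₁, hk₁⟩ := Nat.find_spec hex
  have hmin : ∀ v, good v →
      Module.finrank ℚ (LinM L.a D v₁) ≤ Module.finrank ℚ (LinM L.a D v) := fun v hv => by
    rw [hk₁]
    exact Nat.find_min' hex ⟨v, hv, rfl⟩
  obtain ⟨hpos₁, hprim₁, hess₁, hfc₁, hlam₁⟩ := hv₁
  have hsepS : Sep L.w S (LinM L.a D v₁) := sep_of_ess hD hpos₁ hfc₁ hess₁
  obtain ⟨R₀, hR, hRc, hRsep⟩ := exists_R0 hsepS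
  have hdu₁ : Du L.w v₁ = D := du_eq hD hpos₁ hfc₁
  have hcl₁ : ∀ i, clo L.a D v₁ i = v₁ i := by
    have := hess₁.closed
    rwa [hdu₁] at this
  have hspan : ∀ i, L.a i ∈ sp L.a (D : Set I) := span_of_pos L.ha hpos₁ hcl₁
  have hw : ∀ g ∈ R₀, ∀ i, L.w g i ≠ 0 → i ∈ D := fun g hg i hi => (hD i).2 ⟨g, hR hg, hi⟩
  -- the Lefschetz numbers
  obtain ⟨M, hM, hlamM, hper⟩ := lambda_sum hχ L S D hD hS lam he.pos hl hno
  set G : ℕ → ℤ := fun n => χ (cls (XX L n S (Th L.w R₀ fun _ => 1))) with hG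
  have hGper : ∀ n, 1 ≤ n → G (n + M) = G n := by
    intro n hn
    have h1 := chi_transfer hχ L S R₀ hR (fun b : Bool => cond b (n + M) n)
      (fun b => cond b (1 : ℂ) (-1)) (fun t ht => by
        rw [Fintype.sum_bool]
        change (1 : ℂ) * ((χ (cls (XX L (n + M) S (Th L.w S t))) : ℤ) : ℂ) +
          (-1) * ((χ (cls (XX L n S (Th L.w S t))) : ℤ) : ℂ) = 0
        rw [(hper t ht).1 n hn]
        ring)
    rw [Fintype.sum_bool] at h1
    change (1 : ℂ) * ((χ (cls (XX L (n + M) S (Th L.w R₀ fun _ => 1))) : ℤ) : ℂ) +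
          (-1) * ((χ (cls (XX L n S (Th L.w R₀ fun _ => 1))) : ℤ) : ℂ) = 0 at h1
    have h2 : ((G (n + M) : ℤ) : ℂ) = ((G n : ℤ) : ℂ) := by
      simp only [hG]
      linear_combination h1
    exact_mod_cast h2
  have hGsum : ∑ n ∈ Finset.Icc 1 M, lam ^ n * (G n : ℂ) = 0 := by
    have h1 := chi_transfer hχ L S R₀ hR (fun n : Finset.Icc 1 M => (n : ℕ))
      (fun n => lam ^ (n : ℕ)) (fun t ht => by
        rw [Finset.sum_coe_sort (Finset.Icc 1 M)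
          (fun n => lam ^ n * ((χ (cls (XX L n S (Th L.w S t))) : ℤ) : ℂ))]
        exact (hper t ht).2)
    rw [Finset.sum_coe_sort (Finset.Icc 1 M)
      (fun n => lam ^ n * ((χ (cls (XX L n S (Th L.w R₀ fun _ => 1))) : ℤ) : ℂ))] at h1
    exact h1
  -- the generating functions
  obtain ⟨U, hU, Q, hQ⟩ := pat (R := ℂ) L.a L.w L.ha S D hD {T | T.Nonempty}
    (phi χ L R₀ D) (fun D' x x' hDD h => phi_congr χ L S R₀ D hD hR D' x x' hDD h) 1
  have hUlam : ∀ u ∈ U, lam ^ mn L.w u ≠ 1 := by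
    intro u hu h1
    obtain ⟨hu1, hu2, hu3, T, hT, hT1, hT2⟩ := hU u hu
    have h2 := hmax u hu1 hu2 h1
    have h3 : (T ∪ S).card ≤ (Fc L.w u).card :=
      Finset.card_le_card (Finset.union_subset hT1 hu3)
    rw [Finset.card_union_of_disjoint hT2] at h3
    have h4 : 0 < T.card := Finset.Nonempty.card_pos hT
    omega
  have hQ' : (∏ u ∈ U, (1 - (PowerSeries.X : PowerSeries ℂ) ^ mn L.w u)) *
      PowerSeries.mk (Gc L.a L.w S D {T | T.Nonempty} (phi χ L R₀ D) (1 : ℂ)) = Q := by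
    rw [← hQ]
    have h1 : ∀ u ∈ U, (1 - (PowerSeries.X : PowerSeries ℂ) ^ mn L.w u) =
        1 - PowerSeries.C ((1 : ℂ) ^ nu L.a u) * PowerSeries.X ^ mn L.w u := by
      intro u _
      rw [one_pow, map_one, one_mul]
    rw [Finset.prod_congr rfl h1]
  obtain ⟨n₀, hn₀⟩ := f2_formula hχ L S R₀ D hD hS hR hspan
  set V := (finite_VV L.a L.ha L.w S R₀ D hD hR).toFinset with hV
  set x : (I → ℕ) → ℤ := fun v => χ (cls (XM L.a (Bc L.a D v) v D (Th L.w R₀ fun _ => 1)))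
    with hx
  have hVess : ∀ v ∈ V, v ∈ VV L.a L.w S R₀ D ∧ Ess L.a L.w v := by
    intro v hv
    have h1 : v ∈ VV L.a L.w S R₀ D := by
      rw [hV, Set.Finite.mem_toFinset] at hv
      exact hv
    exact ⟨h1, ess_of_VV L.ha hD hR h1⟩
  have key := seq_fact lam hM hlamM G hGper hGsum V (mn L.w) (fun v hv => (hVess v hv).2.pos) x
    _ U (mn L.w) hUlam Q hQ' n₀ (fun n hn => by
      have h1 := chi_split hχ L S R₀ D hD hR hspan n
      have h2 := hn₀ n hn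
      simp only [hG]
      rw [h1, h2]
      push_cast
      congr 1)
  -- all terms have the same sign
  have hsgn : ∀ v ∈ V.filter (fun v => lam ^ mn L.w v = 1),
      0 < (-1 : ℤ) ^ (rkS L.a (D : Set I) + R₀.card) * x v := by
    intro v hv
    rw [Finset.mem_filter] at hv
    obtain ⟨hv1, hv2⟩ := hv
    obtain ⟨⟨hv3, hv4, hv5, hv6, hv7⟩, hv8⟩ := hVess v hv1
    have h1 := hmin v ⟨hv3, hv4, hv8, hv6, hv2⟩
    have h2 := finrank_le_of_sep hv7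
    have h3 : Module.finrank ℚ (LinM L.a D v) = R₀.card := by
      rw [← hRc] at h1
      omega
    have h4 := Bc_spec L.a D v
    have h5 := sign hχ L.ha hw (fun i _ => hv5 i) h4 hv7 h3
    rwa [isBas_card h4.1] at h5
  have hv₁V : v₁ ∈ V.filter (fun v => lam ^ mn L.w v = 1) := by
    rw [Finset.mem_filter, hV, Set.Finite.mem_toFinset]
    exact ⟨⟨hpos₁, hprim₁, hcl₁, hfc₁, hRsep⟩, hlam₁⟩
  have hpos : 0 < ∑ v ∈ V.filter (fun v => lam ^ mn L.w v = 1),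
      (((-1 : ℤ) ^ (rkS L.a (D : Set I) + R₀.card) * x v : ℤ) : ℝ) / (mn L.w v : ℝ) := by
    apply Finset.sum_pos _ ⟨v₁, hv₁V⟩
    intro v hv
    have h1 := hsgn v hv
    have h2 : 0 < mn L.w v := (hVess v (Finset.mem_filter.1 hv).1).2.pos
    have h3 : (0 : ℝ) < (((-1 : ℤ) ^ (rkS L.a (D : Set I) + R₀.card) * x v : ℤ) : ℝ) := by
      exact_mod_cast h1
    have h4 : (0 : ℝ) < (mn L.w v : ℝ) := by exact_mod_cast h2
    exact div_pos h3 h4
  have hzero : ((∑ v ∈ V.filter (fun v => lam ^ mn L.w v = 1),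
      (((-1 : ℤ) ^ (rkS L.a (D : Set I) + R₀.card) * x v : ℤ) : ℝ) / (mn L.w v : ℝ) : ℝ) : ℂ) =
      0 := by
    have h1 : ((∑ v ∈ V.filter (fun v => lam ^ mn L.w v = 1),
      (((-1 : ℤ) ^ (rkS L.a (D : Set I) + R₀.card) * x v : ℤ) : ℝ) / (mn L.w v : ℝ) : ℝ) : ℂ) =
      (-1 : ℂ) ^ (rkS L.a (D : Set I) + R₀.card) *
        ∑ v ∈ V.filter (fun v => lam ^ mn L.w v = 1), (x v : ℂ) / (mn L.w v : ℂ) := by
      rw [Finset.mul_sum]
      push_cast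
      refine Finset.sum_congr rfl fun v _ => ?_
      ring
    rw [h1, key, mul_zero]
  have hzero' := Complex.ofReal_eq_zero.1 hzero
  rw [hzero'] at hpos
  exact lt_irrefl _ hpos

end LF
end MotMono
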