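import Pool.Agent.Lib.MP_4e5fcd_ag.LF.T1

/-!
# LF-T2: restriction to a flat, essential vectors

`a i = lam i`, `w g i = W g i` for `i : {i // i ∈ F}`. `pair_ex`: `∑_{i ∈ J} W g i * ex u i = ∑_{i ∈ F}`.
So `Fc` and `mn` agree (`fc_ex`, `mn_ex`), and `Du W (ex u) = mp F (Du w u)` (`ex u i ≠ 0` only for `i ∈ F`).
`ess_ex`: `pos`: `mn_ex`. `closed`: `clo_ex`. `ext`: (→) let `z ∈ LinM lam (mp F E) (ex u)`, `E = Du w u`;
`z` vanishes off `mp F E ⊆ F`, so `z = ex F z'`, `z' i = z i`, `z' ∈ LinM a E u` (`maxB_mp`, sums over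
`mp F B`), `pq (W g) z = pq (w g) z'`; apply `ext` of `u`. (←) similarly with `z = ex F z'`, using
`exists_mp`. `prim_ex`: `d ∣ 0`.
-/

open MvPolynomial

namespace MotMono
namespace LF

variable {J Γ : Type} [Fintype J] [Fintype Γ] {N : ℕ} {lam : J → Fin N → ℂ} {F : Finset J}
  {W : Γ → J → ℕ}

omit [Fintype J] in
theorem t2_ex_coe {M : Type} [Zero M] (x : {i // i ∈ F} → M) (i : {i // i ∈ F}) :
    ex F x i = x i := by
  unfold ex
  rw [dif_pos i.2]

omit [Fintype J] in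
theorem t2_ex_of_mem {M : Type} [Zero M] (x : {i // i ∈ F} → M) {i : J} (h : i ∈ F) :
    ex F x i = x ⟨i, h⟩ := by
  unfold ex
  rw [dif_pos h]

omit [Fintype J] in
theorem t2_ex_of_notMem {M : Type} [Zero M] (x : {i // i ∈ F} → M) {i : J} (h : i ∉ F) :
    ex F x i = 0 := by
  unfold ex
  rw [dif_neg h]

omit [Fintype J] in
theorem t2_mem_mp {D : Finset {i // i ∈ F}} {i : {i // i ∈ F}} : (i : J) ∈ mp F D ↔ i ∈ D := by
  unfold mp
  simp

omit [Fintype J] in
theorem t2_mem_mp' {D : Finset {i // i ∈ F}} {i : J} :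
    i ∈ mp F D ↔ ∃ h : i ∈ F, (⟨i, h⟩ : {i // i ∈ F}) ∈ D := by
  unfold mp
  simp

theorem t2_sum_ex (f : J → ℚ) (hf : ∀ i, i ∉ F → f i = 0) :
    ∑ i, f i = ∑ i : {i // i ∈ F}, f i := by
  rw [← Finset.sum_subset (Finset.subset_univ F) (fun i _ hi => hf i hi)]
  exact (Finset.sum_coe_sort F f).symm

theorem t2_pq_ex (v : J → ℕ) (z : {i // i ∈ F} → ℚ) :
    pq v (ex F z) = pq (fun i : {i // i ∈ F} => v i) z := by
  unfold pq
  rw [t2_sum_ex (F := F) (fun i => (v i : ℚ) * ex F z i)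
    (fun i hi => by simp only [t2_ex_of_notMem z hi, mul_zero])]
  refine Finset.sum_congr rfl fun i _ => ?_
  rw [t2_ex_coe]

theorem t2_pair_ex (v : J → ℕ) (u : {i // i ∈ F} → ℕ) :
    pair v (ex F u) = pair (fun i : {i // i ∈ F} => v i) u := by
  unfold pair
  rw [← Finset.sum_subset (Finset.subset_univ F)
    (fun i _ hi => by rw [t2_ex_of_notMem u hi, mul_zero])]
  rw [← Finset.sum_coe_sort F]
  refine Finset.sum_congr rfl fun i _ => ?_
  rw [t2_ex_coe]

theorem fc_ex (u : {i // i ∈ F} → ℕ) :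
    Fc W (ex F u) = Fc (fun g (i : {i // i ∈ F}) => W g i) u := by
  unfold Fc
  simp only [t2_pair_ex]

theorem mn_ex (u : {i // i ∈ F} → ℕ) :
    mn W (ex F u) = mn (fun g (i : {i // i ∈ F}) => W g i) u := by
  unfold mn
  simp only [t2_pair_ex]

theorem prim_ex (u : {i // i ∈ F} → ℕ) : Prim (ex F u) ↔ Prim u := by
  unfold Prim
  refine forall_congr' fun d => ?_
  have h : (∀ i, d ∣ ex F u i) ↔ ∀ i, d ∣ u i := by
    constructor
    · intro h i
      have := h i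
      rwa [t2_ex_coe] at this
    · intro h i
      by_cases hi : i ∈ F
      · rw [t2_ex_of_mem u hi]
        exact h _
      · rw [t2_ex_of_notMem u hi]
        exact dvd_zero d
  rw [h]

theorem t2_du_ex (u : {i // i ∈ F} → ℕ) :
    Du W (ex F u) = mp F (Du (fun g (i : {i // i ∈ F}) => W g i) u) := by
  ext i
  rw [t2_mem_mp']
  unfold Du
  simp only [Finset.mem_filter, Finset.mem_univ, true_and, fc_ex]
  constructor
  · rintro ⟨h1, h2⟩
    have hi : i ∈ F := by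
      by_contra hi
      exact h1 (t2_ex_of_notMem u hi)
    refine ⟨hi, ?_, h2⟩
    rwa [t2_ex_of_mem u hi] at h1
  · rintro ⟨hi, h1, h2⟩
    refine ⟨?_, h2⟩
    rwa [t2_ex_of_mem u hi]

omit [Fintype J] in
theorem t2_sum_mp (B : Finset {i // i ∈ F}) (z : {i // i ∈ F} → ℚ) :
    ∑ b ∈ mp F B, ex F z b = ∑ b ∈ B, z b := by
  unfold mp
  rw [Finset.sum_map]
  refine Finset.sum_congr rfl fun i _ => ?_
  exact t2_ex_coe z i

theorem t2_linM (E : Finset {i // i ∈ F}) (u : {i // i ∈ F} → ℕ) (z : {i // i ∈ F} → ℚ) :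
    ex F z ∈ LinM lam (mp F E) (ex F u) ↔ z ∈ LinM (fun i : {i // i ∈ F} => lam i) E u := by
  constructor
  · rintro ⟨h1, h2⟩
    refine ⟨fun i hi => ?_, fun B B' hB hB' => ?_⟩
    · have := h1 i (by rwa [t2_mem_mp])
      rwa [t2_ex_coe] at this
    · have := h2 (mp F B) (mp F B') ((maxB_mp E B u).2 hB) ((maxB_mp E B' u).2 hB')
      rwa [t2_sum_mp, t2_sum_mp] at this
  · rintro ⟨h1, h2⟩
    refine ⟨fun i hi => ?_, fun B B' hB hB' => ?_⟩
    · by_cases hF : i ∈ F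
      · rw [t2_ex_of_mem z hF]
        refine h1 _ fun hE => hi ?_
        rw [t2_mem_mp']
        exact ⟨hF, hE⟩
      · exact t2_ex_of_notMem z hF
    · obtain ⟨B0, rfl⟩ := exists_mp hB
      obtain ⟨B0', rfl⟩ := exists_mp hB'
      rw [t2_sum_mp, t2_sum_mp]
      exact h2 B0 B0' ((maxB_mp E B0 u).1 hB) ((maxB_mp E B0' u).1 hB')

theorem ess_ex (hF : ∀ i, lam i ∈ sp lam (F : Set J) → i ∈ F) (u : {i // i ∈ F} → ℕ) :
    Ess lam W (ex F u) ↔
      Ess (fun i : {i // i ∈ F} => lam i) (fun g (i : {i // i ∈ F}) => W g i) u := by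
  constructor
  · rintro ⟨h1, h2, h3⟩
    rw [t2_du_ex] at h2 h3
    refine ⟨by rwa [mn_ex] at h1, fun i => ?_, fun z hz hg => ?_⟩
    · have := h2 i
      rwa [clo_ex hF, t2_ex_coe, t2_ex_coe] at this
    · obtain ⟨c, hc⟩ := h3 (ex F z) ((t2_linM _ _ _).2 hz) (by
        intro g hg1 g' hg2
        rw [fc_ex] at hg1 hg2
        rw [t2_pq_ex, t2_pq_ex]
        exact hg g hg1 g' hg2)
      refine ⟨c, fun i hi => ?_⟩
      have := hc i (by rwa [t2_mem_mp])
      rwa [t2_ex_coe, t2_ex_coe] at this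
  · rintro ⟨h1, h2, h3⟩
    refine ⟨by rwa [mn_ex], fun i => ?_, fun z hz hg => ?_⟩
    · rw [t2_du_ex, clo_ex hF]
      congr 1
      exact funext h2
    · rw [t2_du_ex] at hz ⊢
      have hzz : z = ex F (fun i : {i // i ∈ F} => z i) := by
        funext i
        by_cases hi : i ∈ F
        · rw [t2_ex_of_mem _ hi]
        · rw [t2_ex_of_notMem _ hi]
          refine hz.1 i fun h => hi ?_
          rw [t2_mem_mp'] at h
          exact h.1
      rw [hzz] at hz
      obtain ⟨c, hc⟩ := h3 _ ((t2_linM _ _ _).1 hz) (by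
        intro g hg1 g' hg2
        have h4 := hg g (by rwa [fc_ex]) g' (by rwa [fc_ex])
        rw [hzz, t2_pq_ex, t2_pq_ex] at h4
        exact h4)
      refine ⟨c, fun i hi => ?_⟩
      rw [t2_mem_mp'] at hi
      obtain ⟨hiF, hi2⟩ := hi
      rw [t2_ex_of_mem _ hiF]
      exact hc _ hi2

/-- the support of a closed vector is a flat -/
theorem flat_spt (hlam : ∀ i, lam i ≠ 0) {u : J → ℕ} (hu : Ess lam W u) :
    ∀ i, lam i ∈ sp lam (spt u : Set J) → i ∈ spt u := by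
  intro i hi
  have h1 := clo_of_clo hlam (Finset.subset_univ (Du W u)) hu.closed i
  have h2 : (spt u : Set J) = {j | j ∈ (Finset.univ : Finset J) ∧ 1 ≤ u j} := by
    ext j
    unfold spt
    simp [Nat.one_le_iff_ne_zero]
  rw [h2, ← le_clo_iff (hlam i) one_pos, h1] at hi
  unfold spt
  simp only [Finset.mem_filter, Finset.mem_univ, true_and]
  omega

end LF
end MotMono
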