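import Pool.Agent.Lib.MP_4e5fcd_ag.LF.Base
import Pool.Agent.Lib.MP_4e5fcd_ag.Kum.E2

/-!
# LF-T3: a point near the origin on exactly the hyperplanes of a flat

Let `V = {v | ∀ i ∈ F, lam i ⬝ᵥ v = 0}` (a submodule). For `i ∉ F`, `V` is not contained in
`{v | lam i ⬝ᵥ v = 0}`: otherwise `lam i` is in the span of the `lam j`, `j ∈ F` (double annihilator for
the dot product; see `exists_form`, `mem_of_forms` in A1.lean applied to the submodule
`sp lam F`, or `Submodule.dualAnnihilator`), contradicting `hF`. `e2_avoid` gives `v ∈ V` with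
`lam i ⬝ᵥ v ≠ 0` for all `i ∉ F`. For `δ > 0` real small let `p = δ • v`: `‖p‖ = δ ‖v‖ < ε`;
`lam i ⬝ᵥ p = δ * (lam i ⬝ᵥ v)`; `δ ↦ eval (δ • v) (U g)` is continuous with nonzero value at `0`, so
nonzero for small `δ` (finitely many `g`; `Filter.Eventually`, `nhdsWithin`).
-/

open MvPolynomial

namespace MotMono
namespace LF

/-- the linear form `v ↦ l ⬝ᵥ v` -/
private def t3form {N : ℕ} (l : Fin N → ℂ) : (Fin N → ℂ) →ₗ[ℂ] ℂ where
  toFun v := l ⬝ᵥ v
  map_add' x y := dotProduct_add l x y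
  map_smul' c x := by simp [dotProduct_smul]

private theorem t3form_apply {N : ℕ} (l v : Fin N → ℂ) : t3form l v = l ⬝ᵥ v := rfl

/-- if all vectors killed by `lam j`, `j ∈ F`, are killed by `l`, then `l` is in the span -/
private theorem t3_mem {J : Type} {N : ℕ} (lam : J → Fin N → ℂ) (F : Set J) (l : Fin N → ℂ)
    (h : ∀ v : Fin N → ℂ, (∀ j ∈ F, lam j ⬝ᵥ v = 0) → l ⬝ᵥ v = 0) : l ∈ sp lam F := by
  classical
  by_contra hl
  obtain ⟨f, hf, hf'⟩ := Submodule.exists_le_ker_of_notMem hl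
  -- `f` is a dot product
  have hrep : ∀ x : Fin N → ℂ, f x = x ⬝ᵥ (fun i => f (Pi.single i 1)) := by
    intro x
    conv_lhs => rw [← Finset.univ_sum_single x]
    rw [map_sum]
    unfold dotProduct
    refine Finset.sum_congr rfl fun i _ => ?_
    have : Pi.single i (x i) = x i • (Pi.single i (1 : ℂ) : Fin N → ℂ) := by
      rw [← Pi.single_smul]; simp
    rw [this, map_smul, smul_eq_mul]
  apply hf
  rw [hrep]
  apply h
  intro j hj
  rw [← hrep]
  exact hf' (Submodule.subset_span ⟨j, hj, rfl⟩)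

theorem exists_base {J Γ : Type} [Fintype J] [Fintype Γ] {N : ℕ} (lam : J → Fin N → ℂ)
    (F : Finset J) (hF : ∀ i, lam i ∈ sp lam (F : Set J) → i ∈ F)
    (U : Γ → MvPolynomial (Fin N) ℂ) (hU : ∀ g, eval 0 (U g) ≠ 0) (ε : ℝ) (hε : 0 < ε) :
    ∃ p : Fin N → ℂ, ‖p‖ < ε ∧ (∀ i ∈ F, lam i ⬝ᵥ p = 0) ∧ (∀ i, i ∉ F → lam i ⬝ᵥ p ≠ 0) ∧
      ∀ g, eval p (U g) ≠ 0 := by
  classical
  obtain ⟨v, hv, hv'⟩ := Kum.e2_avoid (ι := {i : J // i ∉ F})
    (⨅ j : F, LinearMap.ker (t3form (lam j))) (fun i => LinearMap.ker (t3form (lam i))) (by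
      rintro ⟨i, hi⟩ hle
      refine hi (hF i (t3_mem lam F (lam i) fun v hv => ?_))
      have : v ∈ ⨅ j : F, LinearMap.ker (t3form (lam j)) := by
        rw [Submodule.mem_iInf]
        intro j
        rw [LinearMap.mem_ker, t3form_apply]
        exact hv j j.2
      exact hle this)
  have hv1 : ∀ i ∈ F, lam i ⬝ᵥ v = 0 := by
    intro i hi
    rw [Submodule.mem_iInf] at hv
    exact hv ⟨i, hi⟩
  have hv2 : ∀ i, i ∉ F → lam i ⬝ᵥ v ≠ 0 := fun i hi h => hv' ⟨i, hi⟩ h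
  -- small multiples of `v`
  have hcont : Continuous fun δ : ℝ => ((δ : ℂ) • v : Fin N → ℂ) := by fun_prop
  have h1 : ∀ᶠ δ : ℝ in nhdsWithin 0 {0}ᶜ, ‖((δ : ℂ) • v : Fin N → ℂ)‖ < ε := by
    apply Filter.Eventually.filter_mono nhdsWithin_le_nhds
    have : Filter.Tendsto (fun δ : ℝ => ‖((δ : ℂ) • v : Fin N → ℂ)‖) (nhds 0)
        (nhds ‖(((0 : ℝ) : ℂ) • v : Fin N → ℂ)‖) := (hcont.norm).tendsto 0
    rw [Complex.ofReal_zero, zero_smul, norm_zero] at this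
    exact this.eventually_lt_const hε
  have h2 : ∀ᶠ δ : ℝ in nhdsWithin 0 {0}ᶜ, ∀ g, eval ((δ : ℂ) • v : Fin N → ℂ) (U g) ≠ 0 := by
    apply Filter.Eventually.filter_mono nhdsWithin_le_nhds
    rw [Filter.eventually_all]
    intro g
    have hc : Continuous fun δ : ℝ => eval ((δ : ℂ) • v : Fin N → ℂ) (U g) :=
      (MvPolynomial.continuous_eval (U g)).comp hcont
    have : Filter.Tendsto (fun δ : ℝ => eval ((δ : ℂ) • v : Fin N → ℂ) (U g)) (nhds 0)
        (nhds (eval (((0 : ℝ) : ℂ) • v : Fin N → ℂ) (U g))) := hc.tendsto 0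
    rw [Complex.ofReal_zero, zero_smul] at this
    exact this.eventually_ne (hU g)
  have h3 : ∀ᶠ δ : ℝ in nhdsWithin (0 : ℝ) {0}ᶜ, δ ≠ 0 := by
    filter_upwards [self_mem_nhdsWithin] with δ hδ using hδ
  obtain ⟨δ, hδ1, hδ2, hδ3⟩ := (h1.and (h2.and h3)).exists
  refine ⟨(δ : ℂ) • v, hδ1, ?_, ?_, hδ2⟩
  · intro i hi
    rw [dotProduct_smul, hv1 i hi, smul_zero]
  · intro i hi
    rw [dotProduct_smul, smul_eq_mul]
    exact mul_ne_zero (Complex.ofReal_ne_zero.mpr hδ3) (hv2 i hi)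

end LF
end MotMono
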