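import Pool.Agent.Lib.MP_4e5fcd_ag.LF.P7
import Pool.Agent.Lib.MP_4e5fcd_ag.LF.F5

/-!
# LF-P8: the generating function of all patterns

Let `PATS` be the finite set of patterns `P` with `P.T ∈ 𝒯`, `P.off g < Hb w` for all `g`
(finite: `(T, off, BB, Z0)` ranges over a product of finite sets; e.g. take the image of
`univ ×ˢ Fintype.piFinset (fun _ => range (Hb w)) ×ˢ univ ×ˢ univ`), for which a witness
`(K₁, mh₁)` with `IsPat` exists. For `K ≥ 1`:
`Gc K = ∑_{P ∈ PATS} A P * φ₀ P * ∑ᶠ_{mh, IsPat K mh P} q ^ nu a mh`,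
where `A` is from `al_pattern` and `φ₀ P = φ (DT w D P.T) mh₁` for a chosen witness. Proof. A summand
`mh` of `Gc K` with `al ≠ 0` has exactly one pattern: `P.T = TT w Sᶜ K mh`,
`P.off g = pair (w g) (mh + 1) - K` for `g ∈ P.T` (`al_off`: the subtraction is exact) and `0` else,
`P.BB = {B | MaxB a (DT w D P.T) mh B}`, `P.Z0 = {i ∈ DT w D P.T | mh i = 0}`; `closed` is `al_closed`.
Conversely if `IsPat K mh P`, `P ∈ PATS`: `mh` is closed w.r.t. `univ` (`clo_of_clo`), `Sx`,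
`TT w Sᶜ K mh = P.T ∈ 𝒯`, and if `A P ≠ 0` then `al ≠ 0`, so `mh i < K` for all `i` by `al_box`
(`mh i < K` for `i ∈ D`: for `g ∈ S` with `w g i ≠ 0`, `mh i + 1 ≤ pair (w g) (mh + 1) < K`), so `mh`
occurs in `Gc K`. `φ (DT w D P.T) mh = φ₀ P` by `hφ`, since `MaxB a D' mh B ↔ B ∈ P.BB ↔ MaxB a D' mh₁ B`.
So (up to the constant term, a polynomial) `mk Gc` is a linear combination of the series of
`pat_one`, and `U` is the union of the sets `U_P`, `P ∈ PATS`: the product over `U` is a multiple of the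
product over `U_P`. For `u ∈ U_P`: `T = P.T`, `Disjoint P.T S` by `IsPat.T`.
-/

open MvPolynomial

namespace MotMono
namespace LF

variable {I Γ : Type} [Fintype I] [Fintype Γ] [Nonempty Γ] {N : ℕ}

theorem Pat.ext_p8 {P P' : Pat I Γ} (h1 : P.T = P'.T) (h2 : P.off = P'.off) (h3 : P.BB = P'.BB)
    (h4 : P.Z0 = P'.Z0) : P = P' := by
  cases P
  cases P'
  simp only at h1 h2 h3 h4
  subst h1 h2 h3 h4
  rfl

/-- the pattern of a pair is unique -/
theorem IsPat.unique_p8 {a : I → Fin N → ℂ} {w : Γ → I → ℕ} {S : Finset Γ} {D : Finset I} {K : ℕ}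
    {mh : I → ℕ} {P P' : Pat I Γ} (h : IsPat a w S D K mh P) (h' : IsPat a w S D K mh P') :
    P = P' := by
  have hT : P.T = P'.T := by
    ext g
    rw [h.T, h'.T]
  refine Pat.ext_p8 hT ?_ ?_ ?_
  · funext g
    by_cases hg : g ∈ P.T
    · have e1 := h.off g hg
      have e2 := h'.off g (hT ▸ hg)
      omega
    · rw [h.off0 g hg, h'.off0 g (fun h => hg (hT ▸ h))]
  · ext B
    rw [h.BB, h'.BB, hT]
  · ext i
    rw [h.Z0, h'.Z0, hT]

open Classical in
/-- the pattern of a pair -/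
noncomputable def mkPat_p8 (a : I → Fin N → ℂ) (w : Γ → I → ℕ) (S : Finset Γ) (D : Finset I) (K : ℕ)
    (mh : I → ℕ) : Pat I Γ where
  T := TT w Sᶜ K mh
  off := fun g => if g ∈ TT w Sᶜ K mh then pair (w g) (fun i => mh i + 1) - K else 0
  BB := Finset.univ.filter fun B => MaxB a (DT w D (TT w Sᶜ K mh)) mh B
  Z0 := Finset.univ.filter fun i => i ∈ DT w D (TT w Sᶜ K mh) ∧ mh i = 0

open Classical in
theorem mem_TT_p8 {w : Γ → I → ℕ} {S : Finset Γ} {K : ℕ} {mh : I → ℕ} {g : Γ} :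
    g ∈ TT w Sᶜ K mh ↔ g ∉ S ∧ pair (w g) (fun i => mh i + 1) < K + Hb w := by
  unfold TT
  rw [Finset.mem_filter, Finset.mem_compl]

open Classical in
theorem isPat_mkPat_p8 {a : I → Fin N → ℂ} {w : Γ → I → ℕ} (ha : ∀ i, a i ≠ 0) {S : Finset Γ}
    {D : Finset I} {K : ℕ} {mh : I → ℕ} (hmh : clo a Finset.univ mh = mh) (hsx : Sx w S K mh)
    (hal : al a D (ucf w Sᶜ K) mh ≠ 0) : IsPat a w S D K mh (mkPat_p8 a w S D K mh) where
  closed := fun i => congrFun (al_closed ha hmh hal) i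
  sx := hsx
  T := fun g => mem_TT_p8
  off := by
    intro g hg
    have h1 := al_off hal g (mem_TT_p8.mp hg).1
    have h2 : (mkPat_p8 a w S D K mh).off g = pair (w g) (fun i => mh i + 1) - K := if_pos hg
    rw [h2]
    omega
  off0 := fun g hg => if_neg hg
  BB := by
    intro B
    have h2 : (mkPat_p8 a w S D K mh).BB =
        Finset.univ.filter fun B => MaxB a (DT w D (TT w Sᶜ K mh)) mh B := rfl
    rw [h2, Finset.mem_filter]
    exact ⟨fun h => h.2, fun h => ⟨Finset.mem_univ _, h⟩⟩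
  Z0 := by
    intro i
    have h2 : (mkPat_p8 a w S D K mh).Z0 =
        Finset.univ.filter fun i => i ∈ DT w D (TT w Sᶜ K mh) ∧ mh i = 0 := rfl
    rw [h2, Finset.mem_filter]
    exact ⟨fun h => h.2, fun h => ⟨Finset.mem_univ _, h⟩⟩

open Classical in
/-- all patterns with small offsets -/
noncomputable def allPat_p8 (I : Type) [Fintype I] (w : Γ → I → ℕ) : Finset (Pat I Γ) :=
  ((Finset.univ : Finset (Finset Γ)) ×ˢ (Fintype.piFinset fun _ : Γ => Finset.range (Hb w)) ×ˢ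
    (Finset.univ : Finset (Finset (Finset I))) ×ˢ (Finset.univ : Finset (Finset I))).image
    fun x => ⟨x.1, x.2.1, x.2.2.1, x.2.2.2⟩

theorem mem_allPat_p8 {w : Γ → I → ℕ} {P : Pat I Γ} (h : ∀ g, P.off g < Hb w) :
    P ∈ allPat_p8 I w := by
  classical
  unfold allPat_p8
  rw [Finset.mem_image]
  refine ⟨(P.T, P.off, P.BB, P.Z0), ?_, rfl⟩
  simp only [Finset.mem_product, Finset.mem_univ, true_and, and_true, Fintype.mem_piFinset,
    Finset.mem_range]
  exact h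

theorem mkPat_off_lt_p8 {a : I → Fin N → ℂ} {w : Γ → I → ℕ} {S : Finset Γ} {D : Finset I} {K : ℕ}
    {mh : I → ℕ} (g : Γ) : (mkPat_p8 a w S D K mh).off g < Hb w := by
  classical
  have hH : 0 < Hb w := by
    unfold Hb
    omega
  by_cases hg : g ∈ TT w Sᶜ K mh
  · have h2 : (mkPat_p8 a w S D K mh).off g = pair (w g) (fun i => mh i + 1) - K := if_pos hg
    have h3 := (mem_TT_p8.mp hg).2
    rw [h2]
    omega
  · have h2 : (mkPat_p8 a w S D K mh).off g = 0 := if_neg hg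
    rw [h2]
    exact hH

/-- power series which are polynomials -/
noncomputable def PSub_p8 (R : Type*) [CommRing R] : Subring (PowerSeries R) :=
  (Polynomial.coeToPowerSeries.ringHom (R := R)).range

theorem mem_PSub_p8 {R : Type*} [CommRing R] {F : PowerSeries R} :
    F ∈ PSub_p8 R ↔ ∃ Q : Polynomial R, F = (Q : PowerSeries R) := by
  unfold PSub_p8
  rw [RingHom.mem_range]
  constructor
  · rintro ⟨Q, h⟩
    exact ⟨Q, h.symm⟩
  · rintro ⟨Q, h⟩
    exact ⟨Q, h.symm⟩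

theorem C_mem_PSub_p8 {R : Type*} [CommRing R] (r : R) : PowerSeries.C r ∈ PSub_p8 R :=
  mem_PSub_p8.mpr ⟨Polynomial.C r, (Polynomial.coe_C r).symm⟩

theorem X_mem_PSub_p8 {R : Type*} [CommRing R] : (PowerSeries.X : PowerSeries R) ∈ PSub_p8 R :=
  mem_PSub_p8.mpr ⟨Polynomial.X, Polynomial.coe_X.symm⟩

theorem fac_mem_PSub_p8 {R : Type*} [CommRing R] (r : R) (n : ℕ) :
    (1 - PowerSeries.C r * PowerSeries.X ^ n : PowerSeries R) ∈ PSub_p8 R :=
  (PSub_p8 R).sub_mem (PSub_p8 R).one_mem ((PSub_p8 R).mul_mem (C_mem_PSub_p8 r) ((PSub_p8 R).pow_mem X_mem_PSub_p8 n))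

theorem prodfac_mem_PSub_p8 {R ι : Type*} [CommRing R] (U : Finset ι) (r : ι → R) (n : ι → ℕ) :
    (∏ u ∈ U, (1 - PowerSeries.C (r u) * PowerSeries.X ^ n u) : PowerSeries R) ∈ PSub_p8 R :=
  Subring.prod_mem _ fun u _ => fac_mem_PSub_p8 (r u) (n u)

open Classical in
/-- the coefficient of the generating function as a sum over patterns -/
theorem Gc_eq_p8 {R : Type*} [CommRing R] (a : I → Fin N → ℂ) (w : Γ → I → ℕ) (ha : ∀ i, a i ≠ 0)
    (S : Finset Γ) (D : Finset I) (hD : ∀ i, i ∈ D ↔ ∃ g ∈ S, w g i ≠ 0) (𝒯 : Set (Finset Γ))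
    (φ : Finset I → (I → ℕ) → R)
    (hφ : ∀ (D' : Finset I) (x x' : I → ℕ), D ⊆ D' → (∀ B, MaxB a D' x B ↔ MaxB a D' x' B) →
      φ D' x = φ D' x') (q : R) (A : Pat I Γ → ℤ)
    (hA : ∀ (K : ℕ) (mh : I → ℕ) (P : Pat I Γ), IsPat a w S D K mh P →
      al a D (ucf w Sᶜ K) mh = A P) (PATS : Finset (Pat I Γ))
    (hPATS : ∀ P, P ∈ PATS ↔ P ∈ allPat_p8 I w ∧ P.T ∈ 𝒯 ∧ ∃ K mh, IsPat a w S D K mh P)
    (φ₀ : Pat I Γ → R)
    (hφ₀ : ∀ P ∈ PATS, ∃ K mh, IsPat a w S D K mh P ∧ φ₀ P = φ (DT w D P.T) mh)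
    (hfin : ∀ K P, 0 < K → {mh | IsPat a w S D K mh P}.Finite) (K : ℕ) (hK : 0 < K) :
    Gc a w S D 𝒯 φ q K = ∑ P ∈ PATS, (A P : R) * φ₀ P *
      ∑ᶠ (mh : I → ℕ) (_ : IsPat a w S D K mh P), q ^ nu a mh := by
  have h1 : ∀ P, ∑ᶠ (mh : I → ℕ) (_ : IsPat a w S D K mh P), q ^ nu a mh =
      ∑ mh ∈ (hfin K P hK).toFinset, q ^ nu a mh := by
    intro P
    exact finsum_mem_eq_finite_toFinset_sum (s := {mh | IsPat a w S D K mh P})
      (fun mh => q ^ nu a mh) (hfin K P hK)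
  have h2 : ∑ P ∈ PATS, (A P : R) * φ₀ P *
      ∑ᶠ (mh : I → ℕ) (_ : IsPat a w S D K mh P), q ^ nu a mh =
      ∑ x ∈ PATS.sigma (fun P => (hfin K P hK).toFinset),
        (A x.1 : R) * φ₀ x.1 * q ^ nu a x.2 := by
    rw [Finset.sum_sigma]
    refine Finset.sum_congr rfl fun P _ => ?_
    rw [h1 P, Finset.mul_sum]
  rw [h2]
  unfold Gc
  -- the facts about a pair with a pattern
  have hpat : ∀ P ∈ PATS, ∀ mh, IsPat a w S D K mh P →
      ((∀ i, clo a Finset.univ mh i = mh i) ∧ Sx w S K mh ∧ TT w Sᶜ K mh ∈ 𝒯) ∧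
      (A P : R) * φ₀ P * q ^ nu a mh =
        (al a D (ucf w Sᶜ K) mh : R) * φ (DT w D (TT w Sᶜ K mh)) mh * q ^ nu a mh := by
    intro P hP mh h
    have hTT : TT w Sᶜ K mh = P.T := by
      ext g
      rw [mem_TT_p8, h.T]
    have hcl : ∀ i, clo a Finset.univ mh i = mh i :=
      clo_of_clo ha (Finset.subset_univ _) h.closed
    obtain ⟨K₁, mh₁, hw1, hw2⟩ := hφ₀ P hP
    refine ⟨⟨hcl, h.sx, ?_⟩, ?_⟩
    · rw [hTT]
      exact ((hPATS P).mp hP).2.1
    · rw [hTT, hA K mh P h, hw2]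
      have h3 : φ (DT w D P.T) mh₁ = φ (DT w D P.T) mh := by
        refine hφ _ _ _ ?_ ?_
        · intro i hi
          unfold DT
          rw [Finset.mem_filter]
          exact ⟨Finset.mem_univ _, Or.inl hi⟩
        · intro B
          rw [← hw1.BB, ← h.BB]
      rw [h3]
  symm
  refine Finset.sum_bij_ne_zero (fun x _ _ => x.2) ?_ ?_ ?_ ?_
  · rintro ⟨P, mh⟩ hx hne
    rw [Finset.mem_sigma, Set.Finite.mem_toFinset] at hx
    obtain ⟨hP, h⟩ := hx
    dsimp only at hP h hne ⊢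
    have h : IsPat a w S D K mh P := h
    have hAP : A P ≠ 0 := by
      intro h0
      apply hne
      rw [h0]
      simp
    have hal : al a D (ucf w Sᶜ K) mh ≠ 0 := by
      rw [hA K mh P h]
      exact hAP
    have hcl : clo a Finset.univ mh = mh := funext (hpat P hP mh h).1.1
    rw [Fintype.mem_piFinset]
    intro i
    rw [Finset.mem_range]
    by_contra hcon
    refine hal (al_box ha hcl ?_ Sᶜ i (not_lt.mp hcon) hK)
    intro j hj
    obtain ⟨g, hg, hgj⟩ := (hD j).mp hj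
    have e1 := h.sx g hg
    have e2 : w g j * (mh j + 1) ≤ pair (w g) (fun i => mh i + 1) := by
      unfold pair
      exact Finset.single_le_sum (f := fun i => w g i * (mh i + 1)) (fun i _ => Nat.zero_le _)
        (Finset.mem_univ j)
    have e3 : 1 * (mh j + 1) ≤ w g j * (mh j + 1) :=
      Nat.mul_le_mul_right _ (Nat.one_le_iff_ne_zero.mpr hgj)
    omega
  · rintro ⟨P, mh⟩ hx _ ⟨P', mh'⟩ hx' _ heq
    rw [Finset.mem_sigma, Set.Finite.mem_toFinset] at hx hx'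
    dsimp only at heq hx hx'
    subst heq
    have h : IsPat a w S D K mh P := hx.2
    have h' : IsPat a w S D K mh P' := hx'.2
    rw [h.unique_p8 h']
  · intro mh hmh hne
    have hcond : (∀ i, clo a Finset.univ mh i = mh i) ∧ Sx w S K mh ∧ TT w Sᶜ K mh ∈ 𝒯 := by
      by_contra hcon
      exact hne (if_neg hcon)
    rw [if_pos hcond] at hne
    have hal : al a D (ucf w Sᶜ K) mh ≠ 0 := by
      intro h0
      apply hne
      rw [h0]
      simp
    have hP := isPat_mkPat_p8 ha (funext hcond.1) hcond.2.1 hal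
    have hmem : mkPat_p8 a w S D K mh ∈ PATS := by
      rw [hPATS]
      exact ⟨mem_allPat_p8 mkPat_off_lt_p8, hcond.2.2, K, mh, hP⟩
    refine ⟨⟨mkPat_p8 a w S D K mh, mh⟩, ?_, ?_, rfl⟩
    · rw [Finset.mem_sigma, Set.Finite.mem_toFinset]
      exact ⟨hmem, hP⟩
    · dsimp only
      rw [(hpat _ hmem mh hP).2]
      exact hne
  · rintro ⟨P, mh⟩ hx _
    rw [Finset.mem_sigma, Set.Finite.mem_toFinset] at hx
    dsimp only at hx ⊢
    have h : IsPat a w S D K mh P := hx.2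
    obtain ⟨hc, he⟩ := hpat P hx.1 mh h
    rw [if_pos hc]
    exact he

theorem pat {R : Type*} [CommRing R] (a : I → Fin N → ℂ) (w : Γ → I → ℕ) (ha : ∀ i, a i ≠ 0)
    (S : Finset Γ) (D : Finset I) (hD : ∀ i, i ∈ D ↔ ∃ g ∈ S, w g i ≠ 0) (𝒯 : Set (Finset Γ))
    (φ : Finset I → (I → ℕ) → R)
    (hφ : ∀ (D' : Finset I) (x x' : I → ℕ), D ⊆ D' → (∀ B, MaxB a D' x B ↔ MaxB a D' x' B) →
      φ D' x = φ D' x') (q : R) :
    ∃ U : Finset (I → ℕ), (∀ u ∈ U, Prim u ∧ Ess a w u ∧ S ⊆ Fc w u ∧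
        ∃ T ∈ 𝒯, T ⊆ Fc w u ∧ Disjoint T S) ∧
      ∃ Q : Polynomial R,
        (∏ u ∈ U, (1 - PowerSeries.C (q ^ nu a u) * PowerSeries.X ^ mn w u)) *
          PowerSeries.mk (Gc a w S D 𝒯 φ q) = (Q : PowerSeries R) := by
  classical
  obtain ⟨A, hA⟩ := al_pattern ha w S D
  obtain ⟨PATS, hPATS⟩ : ∃ PATS : Finset (Pat I Γ), ∀ P, P ∈ PATS ↔
      P ∈ allPat_p8 I w ∧ P.T ∈ 𝒯 ∧ ∃ K mh, IsPat a w S D K mh P := by
    refine ⟨(allPat_p8 I w).filter fun P => P.T ∈ 𝒯 ∧ ∃ K mh, IsPat a w S D K mh P, fun P => ?_⟩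
    rw [Finset.mem_filter]
  obtain ⟨φ₀, hφ₀⟩ : ∃ φ₀ : Pat I Γ → R, ∀ P ∈ PATS, ∃ K mh, IsPat a w S D K mh P ∧
      φ₀ P = φ (DT w D P.T) mh := by
    have h : ∀ P : Pat I Γ, ∃ r : R, P ∈ PATS → ∃ K mh, IsPat a w S D K mh P ∧
        r = φ (DT w D P.T) mh := by
      intro P
      by_cases hP : P ∈ PATS
      · obtain ⟨K, mh, h⟩ := ((hPATS P).mp hP).2.2
        exact ⟨φ (DT w D P.T) mh, fun _ => ⟨K, mh, h, rfl⟩⟩
      · exact ⟨0, fun h => absurd h hP⟩
    choose φ₀ h0 using h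
    exact ⟨φ₀, h0⟩
  have hfin : ∀ K P, 0 < K → {mh | IsPat a w S D K mh P}.Finite := by
    intro K P hK
    rcases Set.eq_empty_or_nonempty {mh | IsPat a w S D K mh P} with h | ⟨mh, h⟩
    · rw [h]
      exact Set.finite_empty
    · have h : IsPat a w S D K mh P := h
      exact (pat_one ha hD h q).1 K hK
  have hone : ∀ P : Pat I Γ, ∃ U : Finset (I → ℕ), P ∈ PATS →
      (∀ u ∈ U, Prim u ∧ Ess a w u ∧ S ⊆ Fc w u ∧ P.T ⊆ Fc w u) ∧
      ∃ Q : Polynomial R,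
        (∏ u ∈ U, (1 - PowerSeries.C (q ^ nu a u) * PowerSeries.X ^ mn w u)) *
          PowerSeries.mk (fun K => if K = 0 then 0 else
            ∑ᶠ (mh : I → ℕ) (_ : IsPat a w S D K mh P), q ^ nu a mh) =
        (Q : PowerSeries R) := by
    intro P
    by_cases hP : P ∈ PATS
    · obtain ⟨K, mh, h⟩ := ((hPATS P).mp hP).2.2
      obtain ⟨U, hU⟩ := (pat_one ha hD h q).2
      exact ⟨U, fun _ => hU⟩
    · exact ⟨∅, fun h => absurd h hP⟩
  choose UP hUP using hone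
  refine ⟨PATS.biUnion UP, ?_, ?_⟩
  · intro u hu
    rw [Finset.mem_biUnion] at hu
    obtain ⟨P, hP, hu⟩ := hu
    obtain ⟨h1, h2, h3, h4⟩ := (hUP P hP).1 u hu
    obtain ⟨K, mh, h⟩ := ((hPATS P).mp hP).2.2
    refine ⟨h1, h2, h3, P.T, ((hPATS P).mp hP).2.1, h4, ?_⟩
    rw [Finset.disjoint_left]
    intro g hg
    exact ((h.T g).mp hg).1
  · have hser : PowerSeries.mk (Gc a w S D 𝒯 φ q) =
        PowerSeries.C (Gc a w S D 𝒯 φ q 0) +
          ∑ P ∈ PATS, PowerSeries.C ((A P : R) * φ₀ P) *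
            PowerSeries.mk (fun K => if K = 0 then 0 else
              ∑ᶠ (mh : I → ℕ) (_ : IsPat a w S D K mh P), q ^ nu a mh) := by
      ext K
      rw [map_add, map_sum, PowerSeries.coeff_mk]
      rcases Nat.eq_zero_or_pos K with hK | hK
      · subst hK
        rw [PowerSeries.coeff_zero_C, Finset.sum_eq_zero, add_zero]
        intro P _
        rw [PowerSeries.coeff_C_mul, PowerSeries.coeff_mk, if_pos rfl, mul_zero]
      · rw [PowerSeries.coeff_C, if_neg hK.ne', zero_add,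
          Gc_eq_p8 a w ha S D hD 𝒯 φ hφ q A hA PATS hPATS φ₀ hφ₀ hfin K hK]
        refine Finset.sum_congr rfl fun P _ => ?_
        rw [PowerSeries.coeff_C_mul, PowerSeries.coeff_mk, if_neg hK.ne']
    have hmem : (∏ u ∈ PATS.biUnion UP,
        (1 - PowerSeries.C (q ^ nu a u) * PowerSeries.X ^ mn w u)) *
          PowerSeries.mk (Gc a w S D 𝒯 φ q) ∈ PSub_p8 R := by
      rw [hser, mul_add, Finset.mul_sum]
      refine (PSub_p8 R).add_mem ((PSub_p8 R).mul_mem (prodfac_mem_PSub_p8 _ _ _) (C_mem_PSub_p8 _))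
        (Subring.sum_mem _ fun P hP => ?_)
      obtain ⟨Q, hQ⟩ := (hUP P hP).2
      have hsub : UP P ⊆ PATS.biUnion UP := Finset.subset_biUnion_of_mem UP hP
      rw [← Finset.prod_sdiff hsub]
      have hre : ∀ x y c z : PowerSeries R, x * y * (c * z) = x * c * (y * z) := by
        intro x y c z
        ring
      rw [hre, hQ]
      exact (PSub_p8 R).mul_mem ((PSub_p8 R).mul_mem (prodfac_mem_PSub_p8 _ _ _) (C_mem_PSub_p8 _))
        (mem_PSub_p8.mpr ⟨Q, rfl⟩)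
    exact mem_PSub_p8.mp hmem

end LF
end MotMono
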