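import Pool.Agent.Lib.MP_4e5fcd_ag.LF.Z1
import Pool.Agent.Lib.MP_4e5fcd_ag.LF.P8

/-!
# LF-Z2: every pole comes from an essential vector

`pat` with `R = MC`, `S = D = ∅`, `𝒯 = univ`, `φ = 1`, `q = Lu⁻¹` gives `U`, `Q` with
`Δ * mk Gc = Q`, `Δ = ∏_{u ∈ U} (1 - C (q ^ nu u) X ^ mn u)`. By `zz_eq`, `zmot_coeff`:
`X * Zmot = X * C (coeff 0 Zmot) + X * ∑_{n ≥ 0} (zz n - zz (n+1)) X^(n+1)`, and with
`F = mk Gc`, `c = Lu ^ (-N)`: `∑_{n ≥ 0} zz n X^(n+1) = c (F - C (Gc 0))`,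
`X * ∑_{n ≥ 0} zz (n+1) X^(n+1) = c (F - C (Gc 0) - C (Gc 1) X)`. So `Δ * X * Zmot` is a polynomial, hence
`Δ * Zmot` is a polynomial (all coefficients of large index of `X * (Δ Zmot)` vanish).
If `s₀ ≠ -nu u / mn u` for all `u ∈ U`, then each factor of `Δ` has an inverse in `polarRing s₀`
(`0 < mn w u` by `Ess.pos`; `q ^ nu u = Lu ^ (-(nu u))`), so `Zmot ∈ polarRing s₀`: copy the end of the
proof of `exists_ray_of_pole` in `Det/ZF.lean`.
-/

open MvPolynomial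

namespace MotMono
namespace LF

variable {I Γ : Type} [Fintype I] [Fintype Γ] [Nonempty Γ] {N : ℕ}

private theorem z2_poly {R : Type*} [CommRing R] {F : PowerSeries R} (K : ℕ)
    (h : ∀ k, K ≤ k → PowerSeries.coeff k F = 0) :
    ∃ P : Polynomial R, F = (P : PowerSeries R) := by
  refine ⟨PowerSeries.trunc K F, ?_⟩
  ext k
  rw [Polynomial.coeff_coe, PowerSeries.coeff_trunc]
  split_ifs with h1
  · rfl
  · exact h k (not_lt.1 h1)

private theorem z2_pow (a : ℕ) :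
    (((Lu⁻¹ : MCˣ) : MC)) ^ a = ((Lu ^ (-(a : ℤ)) : MCˣ) : MC) := by
  rw [zpow_neg, zpow_natCast, ← inv_pow, Units.val_pow_eq_pow_val]

theorem exists_ess_of_pole (L : Loc I Γ N) (hp : L.p = 0) (s₀ : ℚ)
    (hs : IsPole (Zmot L.J) s₀) :
    ∃ u, Prim u ∧ Ess L.a L.w u ∧ s₀ = -(nu L.a u : ℚ) / (mn L.w u : ℚ) := by
  classical
  by_contra hcon
  push Not at hcon
  apply hs
  obtain ⟨U, hU, Q, hQ⟩ := pat (R := MC) L.a L.w L.ha ∅ ∅ (fun i => by simp) Set.univ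
    (fun _ _ => (1 : MC)) (fun _ _ _ _ _ => rfl) ((Lu⁻¹ : MCˣ) : MC)
  set G : ℕ → MC := Gc L.a L.w ∅ ∅ Set.univ (fun _ _ => (1 : MC)) ((Lu⁻¹ : MCˣ) : MC) with hG
  set c : MC := ((Lu ^ (-(N : ℤ)) : MCˣ) : MC) with hc
  set Δ : PowerSeries MC := ∏ u ∈ U, (1 - PowerSeries.C ((((Lu⁻¹ : MCˣ) : MC)) ^ nu L.a u) *
    PowerSeries.X ^ mn L.w u) with hΔ
  have hcoef : ∀ k, PowerSeries.coeff (k + 1) (Zmot L.J) = c * G (k + 1) - c * G (k + 2) := by
    intro k
    rw [zmot_coeff L hp k, zz_eq, zz_eq]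
  obtain ⟨P0, hP0⟩ := z2_poly (F := PowerSeries.X * Zmot L.J -
      PowerSeries.C c * (PowerSeries.X * PowerSeries.mk G - PowerSeries.mk G)) 2 (by
    intro k hk
    obtain ⟨k, rfl⟩ : ∃ j, k = j + 1 + 1 := ⟨k - 2, by omega⟩
    rw [map_sub, PowerSeries.coeff_succ_X_mul, hcoef, PowerSeries.coeff_C_mul, map_sub,
      PowerSeries.coeff_succ_X_mul, PowerSeries.coeff_mk, PowerSeries.coeff_mk]
    ring)
  have hΔpoly : ∃ D : Polynomial MC, Δ = (D : PowerSeries MC) := by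
    refine ⟨∏ u ∈ U, (1 - Polynomial.C ((((Lu⁻¹ : MCˣ) : MC)) ^ nu L.a u) *
      Polynomial.X ^ mn L.w u), ?_⟩
    rw [hΔ, ← Polynomial.coeToPowerSeries.ringHom_apply, map_prod]
    refine Finset.prod_congr rfl fun u _ => ?_
    rw [map_sub, map_one, map_mul, Polynomial.coeToPowerSeries.ringHom_apply,
      Polynomial.coeToPowerSeries.ringHom_apply, Polynomial.coe_C, Polynomial.coe_pow,
      Polynomial.coe_X]
  obtain ⟨D, hD⟩ := hΔpoly
  have hXZ : PowerSeries.X * (Δ * Zmot L.J) =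
      ((D * P0 + Polynomial.C c * ((Polynomial.X - 1) * Q) : Polynomial MC) : PowerSeries MC) := by
    rw [Polynomial.coe_add, Polynomial.coe_mul, Polynomial.coe_mul, Polynomial.coe_mul,
      Polynomial.coe_sub, Polynomial.coe_one, Polynomial.coe_X, Polynomial.coe_C, ← hP0, ← hD,
      ← hQ]
    ring
  obtain ⟨Q', hQ'⟩ := z2_poly (F := Δ * Zmot L.J)
    ((D * P0 + Polynomial.C c * ((Polynomial.X - 1) * Q)).natDegree) (by
    intro k hk
    rw [← PowerSeries.coeff_succ_X_mul, hXZ, Polynomial.coeff_coe]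
    exact Polynomial.coeff_eq_zero_of_natDegree_lt (by omega))
  have hinv : ∀ u ∈ U, ∃ g ∈ polarRing s₀,
      g * (1 - PowerSeries.C ((((Lu⁻¹ : MCˣ) : MC)) ^ nu L.a u) *
        PowerSeries.X ^ mn L.w u) = 1 := by
    intro u hu
    have hpos := (hU u hu).2.1.pos
    have h1 : IsUnit (1 - PowerSeries.C ((((Lu⁻¹ : MCˣ) : MC)) ^ nu L.a u) *
        PowerSeries.X ^ mn L.w u) := by
      rw [PowerSeries.isUnit_iff_constantCoeff]
      have h2 : PowerSeries.constantCoeff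
          (1 - PowerSeries.C ((((Lu⁻¹ : MCˣ) : MC)) ^ nu L.a u) *
            PowerSeries.X ^ mn L.w u) = 1 := by
        rw [map_sub, map_one, map_mul, map_pow PowerSeries.constantCoeff PowerSeries.X,
          PowerSeries.constantCoeff_X, zero_pow hpos.ne', mul_zero, sub_zero]
      rw [h2]
      exact isUnit_one
    obtain ⟨g, hg⟩ := h1.exists_left_inv
    have hg' := hg
    rw [z2_pow] at hg'
    refine ⟨g, Subring.subset_closure (Or.inr ⟨(nu L.a u : ℤ), mn L.w u, hpos, ?_, hg'⟩), hg⟩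
    intro h3
    exact hcon u (hU u hu).1 (hU u hu).2.1 (by rw [← h3]; push_cast; rfl)
  choose! g hg1 hg2 using hinv
  have hfin : Zmot L.J = (∏ u ∈ U, g u) * (Q' : PowerSeries MC) := by
    rw [← hQ', ← mul_assoc, hΔ, ← Finset.prod_mul_distrib, Finset.prod_congr rfl hg2,
      Finset.prod_const_one, one_mul]
  rw [hfin]
  exact (polarRing s₀).mul_mem (Subring.prod_mem _ hg1) (Subring.subset_closure (Or.inl ⟨Q', rfl⟩))

end LF
end MotMono
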