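import Pool.Agent.Lib.MP_4e5fcd_ag.LF.M1
import Pool.Agent.Lib.MP_4e5fcd_ag.LF.Z2
import Pool.Agent.Lib.MP_4e5fcd_ag.LF.T2
import Pool.Agent.Lib.MP_4e5fcd_ag.LF.T3

/-!
# LF-M2: the global theorem for finitely many generators
-/

open MvPolynomial

namespace MotMono
namespace LF

theorem glob_main {J Γ : Type} [Fintype J] [Fintype Γ] [Nonempty Γ] {N : ℕ}
    (lam : J → Fin N → ℂ) (hlam : ∀ i, lam i ≠ 0) (W : Γ → J → ℕ)
    (U : Γ → MvPolynomial (Fin N) ℂ) (hU : ∀ g, eval 0 (U g) ≠ 0)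
    (I : Ideal (MvPolynomial (Fin N) ℂ))
    (hI : I = Ideal.span (Set.range fun g => U g * ∏ i, linForm (lam i) ^ W g i)) (s₀ : ℚ)
    (hpole : IsPole (Zmot I) s₀) {χ : K0 →+* ℤ} (hχ : IsEulerCharF χ) (ε : ℝ) (hε : 0 < ε) :
    ∃ p : Fin N → ℂ, ‖p‖ < ε ∧ (∀ f ∈ I, eval p f = 0) ∧
      ∃ y : ConePoint I p, y.Nonzero ∧
        ∃ Z, IsZeta (fun d => χ (cls (contactArcs I p y d))) Z ∧
          ZeroOrPole Z (Complex.exp (2 * Real.pi * Complex.I * s₀)) := by
  classical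
  set L₀ : Loc J Γ N := ⟨lam, W, U, 0, hlam, fun i => by simp, hU⟩ with hL₀
  have hJ₀ : L₀.J = I := hI.symm
  rw [← hJ₀] at hpole
  obtain ⟨u, hu1, hu2, hu3⟩ := exists_ess_of_pole L₀ rfl s₀ hpole
  change Ess lam W u at hu2
  change s₀ = -(nu lam u : ℚ) / (mn W u : ℚ) at hu3
  set μ : ℂ := Complex.exp (2 * Real.pi * Complex.I * s₀) with hμ
  have hμu : μ ^ mn W u = 1 := by
    have h1 : 0 < mn W u := hu2.pos
    have h2 : (mn W u : ℚ) ≠ 0 := by exact_mod_cast h1.ne'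
    have h3 : s₀ * (mn W u : ℚ) = ((-(nu lam u : ℤ) : ℤ) : ℚ) := by
      rw [hu3]
      push_cast
      field_simp
    have h4 : (s₀ : ℂ) * (mn W u : ℂ) = ((-(nu lam u : ℤ) : ℤ) : ℂ) := by
      exact_mod_cast congrArg (fun q : ℚ => (q : ℂ)) h3
    rw [hμ, ← Complex.exp_nat_mul]
    have h5 : (mn W u : ℂ) * (2 * Real.pi * Complex.I * s₀) =
        ((-(nu lam u : ℤ) : ℤ) : ℂ) * (2 * Real.pi * Complex.I) := by
      rw [← h4]; ring
    rw [h5]
    exact Complex.exp_int_mul_two_pi_mul_I _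
  -- maximal face
  let good : (J → ℕ) → Prop := fun v => Prim v ∧ Ess lam W v ∧ μ ^ mn W v = 1
  have hex : ∃ k, ∃ v, good v ∧ Fintype.card Γ - (Fc W v).card = k := ⟨_, u, ⟨hu1, hu2, hμu⟩, rfl⟩
  obtain ⟨u₀, ⟨hp₀, he₀, hμ₀⟩, hk₀⟩ := Nat.find_spec hex
  have hmax : ∀ v, good v → (Fc W v).card ≤ (Fc W u₀).card := by
    intro v hv
    have h1 := Nat.find_min' hex ⟨v, hv, rfl⟩
    rw [← hk₀] at h1
    have h2 : (Fc W v).card ≤ Fintype.card Γ := Finset.card_le_univ _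
    have h3 : (Fc W u₀).card ≤ Fintype.card Γ := Finset.card_le_univ _
    omega
  set F : Finset J := spt u₀ with hFdef
  have hF : ∀ i, lam i ∈ sp lam (F : Set J) → i ∈ F := flat_spt hlam he₀
  set v₀ : {i // i ∈ F} → ℕ := fun i => u₀ i with hv₀
  have hF' : ∀ i, i ∈ F ↔ u₀ i ≠ 0 := fun i => by simp [hFdef, spt]
  have hex₀ : ex F v₀ = u₀ := by
    funext i
    unfold ex
    by_cases hi : i ∈ F
    · rw [dif_pos hi]
    · rw [dif_neg hi]
      have := (hF' i).not.1 hi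
      push Not at this
      exact this.symm
  obtain ⟨p, hp1, hp2, hp3, hp4⟩ := exists_base lam F hF U hU ε hε
  have hV : ∀ g, eval p (U g * ∏ i ∈ Finset.univ.filter (fun i => i ∉ F),
      linForm (lam i) ^ W g i) ≠ 0 := by
    intro g
    rw [map_mul, map_prod]
    refine mul_ne_zero (hp4 g) (Finset.prod_ne_zero_iff.2 fun i hi => ?_)
    rw [map_pow]
    apply pow_ne_zero
    have : eval p (linForm (lam i)) = lam i ⬝ᵥ p := by
      simp [linForm, dotProduct]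
    rw [this]
    exact hp3 i (Finset.mem_filter.1 hi).2
  set L : Loc {i // i ∈ F} Γ N :=
    ⟨fun i => lam i, fun g i => W g i, fun g => U g * ∏ i ∈ Finset.univ.filter (fun i => i ∉ F),
      linForm (lam i) ^ W g i, p, fun i => hlam i, fun i => hp2 i i.2, hV⟩ with hL
  have hgen : ∀ g, L.gen g = U g * ∏ i, linForm (lam i) ^ W g i := by
    intro g
    have h1 : L.gen g = (U g * ∏ i ∈ Finset.univ.filter (fun i => i ∉ F),
      linForm (lam i) ^ W g i) * ∏ i : {i // i ∈ F}, linForm (lam i) ^ W g i := rfl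
    have h2 : ∏ i : {i // i ∈ F}, linForm (lam i) ^ W g i =
        ∏ i ∈ Finset.univ.filter (fun i => i ∈ F), linForm (lam i) ^ W g i := by
      rw [Finset.prod_coe_sort F (fun i => linForm (lam i) ^ W g i)]
      congr 1
      ext i; simp
    rw [h1, h2, mul_assoc]
    congr 1
    rw [mul_comm, Finset.prod_filter_mul_prod_filter_not]
  have hJ : L.J = I := by
    rw [hI]
    unfold Loc.J
    congr 1
    congr 1
    funext g
    exact hgen g
  have hfc : ∀ v : {i // i ∈ F} → ℕ, Fc W (ex F v) = Fc L.w v := fun v => fc_ex v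
  have hmn : ∀ v : {i // i ∈ F} → ℕ, mn W (ex F v) = mn L.w v := fun v => mn_ex v
  have hess : ∀ v : {i // i ∈ F} → ℕ, Ess lam W (ex F v) ↔ Ess L.a L.w v := fun v => ess_ex hF v
  obtain ⟨y, hy1, Z, hZ1, hZ2⟩ := loc_main L hχ μ v₀
    (fun i => Nat.pos_of_ne_zero ((hF' i).1 i.2))
    ((prim_ex v₀).1 (by rw [hex₀]; exact hp₀)) ((hess v₀).1 (by rw [hex₀]; exact he₀))
    (by rw [← hmn v₀, hex₀]; exact hμ₀)
    (fun v hv1 hv2 hv3 => by
      have h1 := hmax (ex F v) ⟨(prim_ex v).2 hv1, (hess v).2 hv2, by rw [hmn v]; exact hv3⟩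
      rw [hfc v] at h1
      rwa [← hfc v₀, hex₀])
  have hvan : ∀ f ∈ I, eval p f = 0 := by
    intro f hf
    rw [hI] at hf
    refine Submodule.span_induction (p := fun f _ => eval p f = 0) ?_ (by simp) ?_ ?_ hf
    · rintro _ ⟨g, rfl⟩
      have h1 : 0 < pair (W g) u₀ := lt_of_lt_of_le he₀.pos (mn_le W u₀ g)
      have h2 : ∃ i, W g i * u₀ i ≠ 0 := by
        by_contra h
        push Not at h
        unfold pair at h1
        rw [Finset.sum_eq_zero (fun i _ => h i)] at h1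
        exact lt_irrefl _ h1
      obtain ⟨i, hi⟩ := h2
      have hi1 : W g i ≠ 0 := left_ne_zero_of_mul hi
      have hi2 : i ∈ F := (hF' i).2 (right_ne_zero_of_mul hi)
      have : eval p (linForm (lam i)) = lam i ⬝ᵥ p := by
        simp [linForm, dotProduct]
      simp only [map_mul, map_prod, map_pow]
      rw [Finset.prod_eq_zero (Finset.mem_univ i), mul_zero]
      rw [this, hp2 i hi2, zero_pow hi1]
    · intro f g _ _ hf hg
      rw [map_add, hf, hg, add_zero]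
    · intro r f _ hf
      rw [smul_eq_mul, map_mul, hf, mul_zero]
  subst hJ
  exact ⟨p, hp1, hvan, y, hy1, Z, hZ1, hZ2⟩

end LF
end MotMono
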