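import Pool.Agent.Lib.MP_4e5fcd_ag.LF.M2

/-!
# LF-M3: ideals generated by products of linear forms
-/

open MvPolynomial

namespace MotMono
namespace LF

theorem zmot_bot {N : ℕ} : Zmot (⊥ : Ideal (MvPolynomial (Fin N) ℂ)) = 0 := by
  ext k
  unfold Zmot
  rw [PowerSeries.coeff_mk]
  have : ordLocus (⊥ : Ideal (MvPolynomial (Fin N) ℂ)) k = ∅ := by
    ext γ
    simp only [ordLocus, Set.mem_ofPred_eq, Set.mem_empty_iff_false, iff_false]
    rintro ⟨_, _, f, hf, hf'⟩
    rw [Ideal.mem_bot] at hf
    subst hf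
    apply hf'
    simp [along]
  rw [this, cls_empty, map_zero, zero_mul, map_zero]

theorem set_main {N : ℕ} (P : Set (MvPolynomial (Fin N) ℂ)) (hP : ∀ f ∈ P, IsProdLin f)
    (s₀ : ℚ) (hpole : IsPole (Zmot (Ideal.span P)) s₀) {χ : K0 →+* ℤ} (hχ : IsEulerCharF χ)
    (ε : ℝ) (hε : 0 < ε) :
    ∃ p : Fin N → ℂ, ‖p‖ < ε ∧ (∀ f ∈ Ideal.span P, eval p f = 0) ∧
      ∃ y : ConePoint (Ideal.span P) p, y.Nonzero ∧
        ∃ Z, IsZeta (fun d => χ (cls (contactArcs (Ideal.span P) p y d))) Z ∧
          ZeroOrPole Z (Complex.exp (2 * Real.pi * Complex.I * s₀)) := by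
  classical
  obtain ⟨P', hP', hspan⟩ := (Submodule.fg_span_iff_fg_span_finset_subset P).1
    (IsNoetherian.noetherian (Submodule.span (MvPolynomial (Fin N) ℂ) P))
  set P'' : Finset (MvPolynomial (Fin N) ℂ) := P'.filter fun f => f ≠ 0 with hP''
  have hspan' : Ideal.span P = Ideal.span (P'' : Set (MvPolynomial (Fin N) ℂ)) := by
    have h1 : Ideal.span P = Ideal.span (P' : Set (MvPolynomial (Fin N) ℂ)) := hspan
    rw [h1]
    apply le_antisymm
    · rw [Ideal.span_le]
      intro f hf
      by_cases hf0 : f = 0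
      · rw [hf0]; exact Submodule.zero_mem _
      · exact Ideal.subset_span (by
          rw [Finset.mem_coe, hP'', Finset.mem_filter]
          exact ⟨hf, hf0⟩)
    · apply Ideal.span_mono
      intro f hf
      rw [Finset.mem_coe, hP'', Finset.mem_filter] at hf
      exact hf.1
  have hmem : ∀ f : P'', IsProdLin (f : MvPolynomial (Fin N) ℂ) ∧
      (f : MvPolynomial (Fin N) ℂ) ≠ 0 := by
    intro f
    have h1 := Finset.mem_filter.1 f.2
    exact ⟨hP _ (hP' h1.1), h1.2⟩
  choose U n a hU hf using fun f : P'' => (hmem f).1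
  by_cases hne : Nonempty P''
  · have hane : ∀ (f : P'') (j : Fin (n f)), a f j ≠ 0 := by
      intro f j h0
      apply (hmem f).2
      rw [hf f, Finset.prod_eq_zero (Finset.mem_univ j), mul_zero]
      rw [h0]
      simp
    refine glob_main (J := Σ f : P'', Fin (n f)) (Γ := P'') (fun i => a i.1 i.2)
      (fun i => hane i.1 i.2) (fun g i => if i.1 = g then 1 else 0) U hU (Ideal.span P) ?_ s₀ hpole
      hχ ε hε
    rw [hspan']
    congr 1
    ext f
    rw [Finset.mem_coe, Set.mem_range]
    have hprod : ∀ g : P'', U g * ∏ i : (Σ f : P'', Fin (n f)),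
        linForm (a i.1 i.2) ^ (if i.1 = g then 1 else 0) = (g : MvPolynomial (Fin N) ℂ) := by
      intro g
      rw [Fintype.prod_sigma, Finset.prod_eq_single g]
      · rw [hf g]
        congr 1
        refine Finset.prod_congr rfl fun j _ => ?_
        rw [if_pos rfl, pow_one]
        rfl
      · intro g' _ hg'
        refine Finset.prod_eq_one fun j _ => ?_
        rw [if_neg hg', pow_zero]
      · intro h
        exact absurd (Finset.mem_univ g) h
    constructor
    · intro hf1
      exact ⟨⟨f, hf1⟩, hprod ⟨f, hf1⟩⟩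
    · rintro ⟨g, hg⟩
      rw [← hg, hprod g]
      exact g.2
  · exfalso
    rw [not_nonempty_iff] at hne
    have h1 : P'' = ∅ := by
      by_contra h
      obtain ⟨f, hf1⟩ := Finset.nonempty_iff_ne_empty.2 h
      exact hne.false ⟨f, hf1⟩
    apply hpole
    rw [hspan', h1, Finset.coe_empty, Ideal.span_empty, zmot_bot]
    exact Subring.zero_mem _

end LF
end MotMono
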