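import Pool.Agent.Lib.MP_4e5fcd_ag.LF.A5
import Pool.Agent.Lib.MP_4e5fcd_ag.LF.A6
import Pool.Agent.Lib.MP_4e5fcd_ag.LF.J3
import Pool.Agent.Lib.MP_4e5fcd_ag.K1
import Pool.Agent.Lib.MP_4e5fcd_ag.C2

/-!
# LF-N1: the initial arrangement

`av a B x i ∈ ℂ^r`, `r = B.card`, are the coefficient vectors of the linear forms `ci`, with respect to the
numbering `B.equivFin` of `B`.
`av_dot`: `av a B x i ⬝ᵥ c = ci a B x (fun b => c (B.equivFin b)) i` (reindex the sum).
`av_self`: `cf_self`, `cf_self_ne`. `av_ne_zero`: `exists_clo_eq` gives `b ∈ B`, `cf ≠ 0`,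
`x b = clo a D x i = x i`.
`av_indep`: let `MaxB a D x B`, `MaxB a D x B'`. Suppose `∑_{i ∈ B'} s i • av i = 0`, not all
`s i = 0`. Since `av i b = 0` unless `x b = x i` (with `b` the element of `B` with number `b`), the relation
splits: for every level `c`, `∑_{i ∈ B', x i = c} s i • av i = 0`. Choose `c` with some `s i ≠ 0`,
`x i = c`. Then `∑_{i ∈ B', x i = c} s i • a i = ∑_{b ∈ B} (∑_i s i cf i b) • a b`, where the
coefficient is `0` for `x b = c` (that is the relation) and for `x b < c` (`MaxB.le`), so the sum is in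
`sp a {b ∈ B | c + 1 ≤ x b} = sp a {j ∈ D | c + 1 ≤ x j} = sp a {b ∈ B' | c + 1 ≤ x b}`
(`MaxB.level` twice): a nontrivial relation on `B'`, contradiction.
`chi_XM_av`: `RegIso.reindex` along `B.equivFin`.
-/

open MvPolynomial

namespace MotMono
namespace LF

variable {I : Type} [Fintype I] {N : ℕ} {a : I → Fin N → ℂ} {D B B' : Finset I} {x : I → ℕ}
  {i : I}

open Classical in
/-- the coefficient vectors of the initial forms -/
noncomputable def av (a : I → Fin N → ℂ) (B : Finset I) (x : I → ℕ) (i : I) :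
    Fin B.card → ℂ :=
  fun b => if x (B.equivFin.symm b) = x i then cf a B i (B.equivFin.symm b) else 0

theorem av_apply_n1 (a : I → Fin N → ℂ) (B : Finset I) (x : I → ℕ) (i : I) (b : Fin B.card) :
    av a B x i b = if x (B.equivFin.symm b) = x i then cf a B i (B.equivFin.symm b) else 0 := rfl

theorem av_apply_mem_n1 (a : I → Fin N → ℂ) (B : Finset I) (x : I → ℕ) (i : I) {b : I}
    (hb : b ∈ B) : av a B x i (B.equivFin ⟨b, hb⟩) = if x b = x i then cf a B i b else 0 := by
  rw [av_apply_n1, Equiv.symm_apply_apply]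

theorem av_dot (c : Fin B.card → ℂ) :
    av a B x i ⬝ᵥ c = ci a B x (fun b => c (B.equivFin b)) i := by
  classical
  unfold ci dotProduct
  rw [← Equiv.sum_comp B.equivFin]
  refine Finset.sum_congr rfl fun b _ => ?_
  rw [av_apply_n1, Equiv.symm_apply_apply]
  by_cases h : x b = x i
  · rw [if_pos h, if_pos h]
  · rw [if_neg h, if_neg h, zero_mul]

theorem av_self (hB : LinearIndepOn ℂ a (B : Set I)) (b : Fin B.card) :
    av a B x (B.equivFin.symm b) = Pi.single b 1 := by
  funext b'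
  rw [av_apply_n1]
  by_cases h : b' = b
  · subst h
    rw [if_pos rfl, Pi.single_eq_same]
    exact cf_self hB (B.equivFin.symm b').2
  · rw [Pi.single_eq_of_ne h]
    have hne : (B.equivFin.symm b' : I) ≠ (B.equivFin.symm b : I) := by
      intro h2
      exact h (B.equivFin.symm.injective (Subtype.ext h2))
    rw [cf_self_ne hB (B.equivFin.symm b).2 hne]
    split_ifs <;> rfl

theorem av_ne_zero (ha : ∀ i, a i ≠ 0) (hB : MaxB a D x B) (hi : i ∈ D)
    (hcl : clo a D x i = x i) : av a B x i ≠ 0 := by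
  obtain ⟨b, hb, hc, hx⟩ := exists_clo_eq (ha i) hB (mem_sp_of_mem (D := (D : Set I)) hi)
  intro h0
  have h1 := congrFun h0 (B.equivFin ⟨b, hb⟩)
  rw [av_apply_mem_n1, if_pos (by rw [← hx, hcl])] at h1
  exact hc h1

theorem av_indep (hB : MaxB a D x B) (hB' : MaxB a D x B') :
    LinearIndepOn ℂ (av a B x) (B' : Set I) := by
  classical
  rw [linearIndepOn_finset_iff]
  intro s hs i₀ hi₀
  by_contra hne
  obtain ⟨c, hc⟩ : ∃ c, c = x i₀ := ⟨_, rfl⟩
  -- the relation on the level `c`
  have hrel : ∀ b ∈ B, x b = c → ∑ i ∈ B'.filter (fun i => x i = c), s i * cf a B i b = 0 := by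
    intro b hb hxb
    have h1 := congrFun hs (B.equivFin ⟨b, hb⟩)
    rw [Finset.sum_apply] at h1
    rw [Finset.sum_filter]
    refine Eq.trans (Finset.sum_congr rfl fun i _ => ?_) h1
    rw [Pi.smul_apply, av_apply_mem_n1, smul_eq_mul]
    by_cases h : x i = c
    · rw [if_pos h, if_pos (by rw [hxb, h])]
    · rw [if_neg h, if_neg (by rw [hxb]; exact fun h' => h h'.symm), mul_zero]
  have hexp : ∑ i ∈ B'.filter (fun i => x i = c), s i • a i =
      ∑ b ∈ B, (∑ i ∈ B'.filter (fun i => x i = c), s i * cf a B i b) • a b := by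
    have h1 : ∀ i ∈ B'.filter (fun i => x i = c), s i • a i =
        ∑ b ∈ B, (s i * cf a B i b) • a b := by
      intro i hi
      have hiD : i ∈ D := hB'.1.1 (Finset.mem_filter.mp hi).1
      have h2 := cf_sum hB.1.2.1 (hB.1.2.2 i hiD)
      conv_lhs => rw [h2]
      rw [Finset.smul_sum]
      refine Finset.sum_congr rfl fun b _ => ?_
      rw [smul_smul]
    rw [Finset.sum_congr rfl h1, Finset.sum_comm]
    refine Finset.sum_congr rfl fun b _ => ?_
    rw [Finset.sum_smul]
  have hmem : ∑ i ∈ B'.filter (fun i => x i = c), s i • a i ∈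
      sp a {b | b ∈ B ∧ c + 1 ≤ x b} := by
    rw [hexp]
    refine Submodule.sum_mem _ fun b hb => ?_
    rcases lt_trichotomy (x b) c with h | h | h
    · have h0 : ∑ i ∈ B'.filter (fun i => x i = c), s i * cf a B i b = 0 := by
        refine Finset.sum_eq_zero fun i hi => ?_
        rw [Finset.mem_filter] at hi
        by_cases hcf : cf a B i b = 0
        · rw [hcf, mul_zero]
        · have := hB.le (hB'.1.1 hi.1) hcf
          omega
      rw [h0, zero_smul]
      exact Submodule.zero_mem _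
    · rw [hrel b hb h, zero_smul]
      exact Submodule.zero_mem _
    · exact Submodule.smul_mem _ _ (mem_sp_of_mem ⟨hb, h⟩)
  rw [hB.level, ← hB'.level] at hmem
  have hset : {b | b ∈ B' ∧ c + 1 ≤ x b} =
      ((B'.filter (fun i => c + 1 ≤ x i) : Finset I) : Set I) := by
    ext b
    simp
  rw [hset] at hmem
  unfold sp at hmem
  rw [Submodule.mem_span_image_finset_iff_exists_fun'] at hmem
  obtain ⟨t, ht⟩ := hmem
  have hind := linearIndepOn_finset_iff.mp hB'.1.2.1
    (fun i => (if x i = c then s i else 0) - (if c + 1 ≤ x i then t i else 0)) ?_ i₀ hi₀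
  · have hle : ¬ c + 1 ≤ x i₀ := by omega
    have hind' : (if x i₀ = c then s i₀ else 0) - (if c + 1 ≤ x i₀ then t i₀ else 0) = 0 := hind
    rw [if_pos hc.symm, if_neg hle, sub_zero] at hind'
    exact hne hind'
  · simp only [sub_smul, Finset.sum_sub_distrib]
    rw [sub_eq_zero]
    simp only [ite_smul, zero_smul]
    rw [← Finset.sum_filter, ← Finset.sum_filter]
    exact ht.symm

theorem chi_XM_av (χ : K0 →+* ℤ) (a : I → Fin N → ℂ) (B : Finset I) (x : I → ℕ) (D : Finset I)
    {Θ : Set (I → ℂ)} (hΘ : Constr Θ) :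
    χ (cls (XM a B x D Θ)) = χ (cls {c : Fin B.card → ℂ |
      (∀ i ∈ D, av a B x i ⬝ᵥ c ≠ 0) ∧ (fun i => av a B x i ⬝ᵥ c) ∈ Θ}) := by
  have h1 := constr_XM a B x D hΘ
  have h2 : {c : Fin B.card → ℂ |
      (∀ i ∈ D, av a B x i ⬝ᵥ c ≠ 0) ∧ (fun i => av a B x i ⬝ᵥ c) ∈ Θ} =
      {y : Fin B.card → ℂ | (fun b : B => y (B.equivFin b)) ∈ XM a B x D Θ} := by
    ext c
    have h3 : (fun i => av a B x i ⬝ᵥ c) = ci a B x (fun b => c (B.equivFin b)) := by
      funext i
      exact av_dot c
    have h4 : ∀ i, av a B x i ⬝ᵥ c = ci a B x (fun b => c (B.equivFin b)) i := fun i => av_dot c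
    constructor
    · rintro ⟨h5, h6⟩
      refine ⟨fun i hi => ?_, ?_⟩
      · rw [← h4]
        exact h5 i hi
      · rw [h3] at h6
        exact h6
    · rintro ⟨h5, h6⟩
      refine ⟨fun i hi => ?_, ?_⟩
      · rw [h4]
        exact h5 i hi
      · rw [h3]
        exact h6
  rw [h2, cls_iso h1 (h1.comp B.equivFin) (RegIso.reindex B.equivFin _)]

end LF
end MotMono
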