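import Pool.Agent.Lib.MP_4e5fcd_ag.LF.Base

/-!
# LF-N2: components of a finite relation

Let `E` be the equivalence relation on `I` generated by `A` (`Relation.EqvGen A`). Let
`Q = (D.image (Quotient.mk (setoid)))` (finite), `k = Q.card`, number its elements by `Q.equivFin`, and put
`comp i = number of the class of i` if the class is in `Q` and `k` otherwise. (Or use induction on `D`.)
(3): `A i j` implies equal classes. (4): a set `f` invariant under `A` is invariant under `E`
(`Relation.EqvGen` induction).
-/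

open MvPolynomial

namespace MotMono
namespace LF

theorem exists_comp {I : Type} [Fintype I] (D : Finset I) (A : I → I → Prop)
    (hA : ∀ i j, A i j → i ∈ D ∧ j ∈ D) :
    ∃ (k : ℕ) (comp : I → ℕ), (∀ i ∈ D, comp i < k) ∧ (∀ j < k, ∃ i ∈ D, comp i = j) ∧
      (∀ i j, A i j → comp i = comp j) ∧
      ∀ f : I → Prop, (∀ i j, A i j → (f i ↔ f j)) →
        ∀ i ∈ D, ∀ i' ∈ D, comp i = comp i' → (f i ↔ f i') := by
  classical
  let s : Setoid I := Relation.EqvGen.setoid A
  let Q : Finset (Quotient s) := D.image (Quotient.mk s)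
  let comp : I → ℕ := fun i => if h : Quotient.mk s i ∈ Q then (Q.equivFin ⟨Quotient.mk s i, h⟩ : ℕ)
    else Q.card
  have hmem : ∀ i ∈ D, Quotient.mk s i ∈ Q := fun i hi => Finset.mem_image_of_mem _ hi
  have hval : ∀ i (h : Quotient.mk s i ∈ Q), comp i = (Q.equivFin ⟨Quotient.mk s i, h⟩ : ℕ) := by
    intro i h
    simp only [comp, dif_pos h]
  refine ⟨Q.card, comp, ?_, ?_, ?_, ?_⟩
  · intro i hi
    rw [hval i (hmem i hi)]
    exact (Q.equivFin ⟨Quotient.mk s i, hmem i hi⟩).isLt
  · intro j hj
    obtain ⟨q, hq⟩ := Q.equivFin.surjective ⟨j, hj⟩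
    obtain ⟨q, hqQ⟩ := q
    obtain ⟨i, hi, rfl⟩ := Finset.mem_image.1 hqQ
    refine ⟨i, hi, ?_⟩
    rw [hval i hqQ, hq]
  · intro i j hij
    have h1 : Quotient.mk s i = Quotient.mk s j := Quotient.sound (Relation.EqvGen.rel i j hij)
    have hi := hmem i (hA i j hij).1
    have hj := hmem j (hA i j hij).2
    rw [hval i hi, hval j hj]
    congr 3
  · intro f hf i hi i' hi' hc
    rw [hval i (hmem i hi), hval i' (hmem i' hi')] at hc
    have h1 : Quotient.mk s i = Quotient.mk s i' := by
      have := Q.equivFin.injective (Fin.ext hc)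
      exact congrArg Subtype.val this
    have h2 : Relation.EqvGen A i i' := Quotient.exact h1
    clear hc h1 hi hi'
    induction h2 with
    | rel x y h => exact hf x y h
    | refl x => exact Iff.rfl
    | symm x y _ ih => exact ih.symm
    | trans x y z _ _ ih1 ih2 => exact ih1.trans ih2

end LF
end MotMono
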