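import Pool.Agent.Lib.MP_4e5fcd_ag.LF.N1

/-!
# LF-N3: `LinM` and the fundamental graph

`Adj a B D x i j`: `i ∈ D`, `j ∈ B`, `x j = x i`, `cf a B i j ≠ 0`.
`mem_LinM_iff`: (→) `LinM_exchange`. (←) let `z = 0` off `D`, `z i = z j` whenever `Adj i j`. It suffices:
`∑_{B'} z = ∑_B z` for every `MaxB` `B'`. For a value `s` let `C = {i ∈ D | z i = s}`. The vectors
`av i`, `i ∈ B' ∩ C`, are independent (`av_indep`) and supported on the coordinates of `B ∩ C` (if
`av i b ≠ 0` then `Adj i b`, so `z b = z i = s`), so `|B' ∩ C| ≤ |B ∩ C|`. Summing over the values `s`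
of `z` on `D` gives `|B'| ≤ |B|`, and `|B'| = |B|` (`isBas_card`), so equality everywhere, and
`∑_{B'} z = ∑_s s |B' ∩ C_s| = ∑_B z` (`Finset.sum_fiberwise`-type identities).
`finrank_LinM`: the linear map `(Fin k → ℚ) → (I → ℚ)`, `f ↦ (i ↦ if i ∈ D then f (comp i) else 0)` is
injective (every class `j < k` contains an `i ∈ D`) with range `LinM`: (⊆) `mem_LinM_iff`; (⊇) `z`
invariant along `Adj`, so for `i, i' ∈ D` with `comp i = comp i'`: `z i = z i'` (apply `h4` to
`f l := z l = z i`). `LinearMap.finrank_range_of_inj` / `LinearEquiv.ofInjective`, `finrank (Fin k → ℚ) = k`.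
-/

open MvPolynomial

namespace MotMono
namespace LF

variable {I : Type} [Fintype I] {N : ℕ} {a : I → Fin N → ℂ} {D B : Finset I} {x : I → ℕ}

/-- the fundamental graph -/
def Adj (a : I → Fin N → ℂ) (B D : Finset I) (x : I → ℕ) (i j : I) : Prop :=
  i ∈ D ∧ j ∈ B ∧ x j = x i ∧ cf a B i j ≠ 0

/-- the number of elements of a basis in a stable set of values is at most that of `B` -/
theorem n3_card_le (hB : MaxB a D x B) {B' : Finset I} (hB' : MaxB a D x B') (z : I → ℚ)
    (hz : ∀ i j, Adj a B D x i j → z i = z j) (s : ℚ) :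
    (B'.filter fun i => z i = s).card ≤ (B.filter fun i => z i = s).card := by
  classical
  -- the coordinates
  let T : Finset (Fin B.card) := Finset.univ.filter fun b => z (B.equivFin.symm b) = s
  have hT : T.card = (B.filter fun i => z i = s).card := by
    refine Finset.card_bij' (fun b _ => (B.equivFin.symm b : I))
      (fun i hi => B.equivFin ⟨i, (Finset.mem_filter.1 hi).1⟩) ?_ ?_ ?_ ?_
    · intro b hb
      rw [Finset.mem_filter]
      exact ⟨(B.equivFin.symm b).2, (Finset.mem_filter.1 hb).2⟩
    · intro i hi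
      rw [Finset.mem_filter] at hi
      simp only [T, Finset.mem_filter, Finset.mem_univ, true_and, Equiv.symm_apply_apply]
      exact hi.2
    · intro b hb
      simp
    · intro i hi
      simp
  rw [← hT]
  have hind := av_indep hB hB'
  -- the restricted family
  let F : {i // i ∈ B'.filter fun i => z i = s} → ({b // b ∈ T} → ℂ) :=
    fun i b => av a B x i.1 b.1
  have hF : LinearIndependent ℂ F := by
    rw [Fintype.linearIndependent_iff]
    intro c hc
    have h1 : ∑ i : {i // i ∈ B'.filter fun i => z i = s}, c i • av a B x i.1 = 0 := by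
      funext b
      rw [Finset.sum_apply]
      by_cases hb : b ∈ T
      · have h2 := congrFun hc ⟨b, hb⟩
        rw [Finset.sum_apply] at h2
        exact h2
      · refine Finset.sum_eq_zero fun i _ => ?_
        rw [Pi.smul_apply, smul_eq_mul]
        have h3 : av a B x i.1 b = 0 := by
          by_contra hne
          apply hb
          have hi := Finset.mem_filter.1 i.2
          unfold av at hne
          have hxx : x (B.equivFin.symm b) = x i.1 := by
            by_contra hxx
            exact hne (if_neg hxx)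
          rw [if_pos hxx] at hne
          have hadj : Adj a B D x i.1 (B.equivFin.symm b) :=
            ⟨hB'.1.1 hi.1, (B.equivFin.symm b).2, hxx, hne⟩
          simp only [T, Finset.mem_filter, Finset.mem_univ, true_and]
          rw [← hz _ _ hadj]
          exact hi.2
        rw [h3, mul_zero]
    have h4 : LinearIndependent ℂ
        (fun i : {i // i ∈ B'.filter fun i => z i = s} => av a B x i.1) := by
      have h5 := hind.mono (t := ((B'.filter fun i => z i = s : Finset I) : Set I))
        (fun i hi => (Finset.mem_filter.1 (Finset.mem_coe.1 hi)).1)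
      exact h5
    exact Fintype.linearIndependent_iff.1 h4 c h1
  have h6 := hF.fintype_card_le_finrank
  rw [Module.finrank_fintype_fun_eq_card, Fintype.card_coe, Fintype.card_coe] at h6
  exact h6

theorem mem_LinM_iff (hB : MaxB a D x B) (z : I → ℚ) :
    z ∈ LinM a D x ↔ (∀ i, i ∉ D → z i = 0) ∧ ∀ i j, Adj a B D x i j → z i = z j := by
  classical
  constructor
  · intro hz
    exact ⟨hz.1, fun i j h => (LinM_exchange hz hB h.1 h.2.2.2 h.2.2.1).symm⟩
  · rintro ⟨hz0, hz⟩
    have key : ∀ B', MaxB a D x B' → ∑ b ∈ B', z b = ∑ b ∈ B, z b := by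
      intro B' hB'
      have m' : ∀ b ∈ B', z b ∈ D.image z := fun b hb =>
        Finset.mem_image_of_mem z (hB'.1.1 hb)
      have m : ∀ b ∈ B, z b ∈ D.image z := fun b hb => Finset.mem_image_of_mem z (hB.1.1 hb)
      have hcard : B'.card = B.card := by rw [isBas_card hB'.1, isBas_card hB.1]
      rw [Finset.card_eq_sum_card_fiberwise m', Finset.card_eq_sum_card_fiberwise m] at hcard
      have heq := (Finset.sum_eq_sum_iff_of_le fun s _ => n3_card_le hB hB' z hz s).1 hcard
      rw [← Finset.sum_fiberwise_of_maps_to m', ← Finset.sum_fiberwise_of_maps_to m]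
      refine Finset.sum_congr rfl fun s hs => ?_
      have e : ∀ C : Finset I, ∑ i ∈ C.filter (fun i => z i = s), z i
          = (C.filter (fun i => z i = s)).card • s := by
        intro C
        rw [← Finset.sum_const]
        exact Finset.sum_congr rfl fun i hi => (Finset.mem_filter.1 hi).2
      rw [e, e, heq s hs]
    exact ⟨hz0, fun B₁ B₂ h₁ h₂ => by rw [key B₁ h₁, key B₂ h₂]⟩

theorem finrank_LinM (hB : MaxB a D x B) {k : ℕ} {comp : I → ℕ}
    (h1 : ∀ i ∈ D, comp i < k) (h2 : ∀ j < k, ∃ i ∈ D, comp i = j)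
    (h3 : ∀ i j, Adj a B D x i j → comp i = comp j)
    (h4 : ∀ f : I → Prop, (∀ i j, Adj a B D x i j → (f i ↔ f j)) →
      ∀ i ∈ D, ∀ i' ∈ D, comp i = comp i' → (f i ↔ f i')) :
    Module.finrank ℚ (LinM a D x) = k := by
  classical
  let T : (Fin k → ℚ) →ₗ[ℚ] (I → ℚ) :=
    { toFun := fun f i => if h : i ∈ D then f ⟨comp i, h1 i h⟩ else 0
      map_add' := by
        intro f g
        funext i
        simp only [Pi.add_apply]
        split_ifs
        · rfl
        · rw [add_zero]
      map_smul' := by
        intro c f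
        funext i
        simp only [Pi.smul_apply, RingHom.id_apply]
        split_ifs
        · rfl
        · rw [smul_zero] }
  have hT : ∀ (f : Fin k → ℚ) (i : I) (h : i ∈ D), T f i = f ⟨comp i, h1 i h⟩ := by
    intro f i h
    show (if h : i ∈ D then f ⟨comp i, h1 i h⟩ else 0) = _
    rw [dif_pos h]
  have hT0 : ∀ (f : Fin k → ℚ) (i : I), i ∉ D → T f i = 0 := by
    intro f i h
    show (if h : i ∈ D then f ⟨comp i, h1 i h⟩ else 0) = _
    rw [dif_neg h]
  have hinj : Function.Injective T := by
    intro f g hfg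
    funext j
    obtain ⟨i, hi, hij⟩ := h2 j j.2
    have h5 := congrFun hfg i
    rw [hT f i hi, hT g i hi] at h5
    have h6 : (⟨comp i, h1 i hi⟩ : Fin k) = j := Fin.ext hij
    rwa [h6] at h5
  have hrange : LinearMap.range T = LinM a D x := by
    ext z
    rw [LinearMap.mem_range, mem_LinM_iff hB]
    constructor
    · rintro ⟨f, rfl⟩
      refine ⟨fun i hi => hT0 f i hi, fun i j hij => ?_⟩
      have hjD : j ∈ D := hB.1.1 hij.2.1
      rw [hT f i hij.1, hT f j hjD]
      congr 1
      exact Fin.ext (h3 i j hij)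
    · rintro ⟨hz0, hz⟩
      choose r hr hr' using h2
      refine ⟨fun j => z (r j j.2), ?_⟩
      funext i
      by_cases hi : i ∈ D
      · rw [hT _ i hi]
        have h5 := h4 (fun l => z l = z i) (fun i' j' hij => by rw [hz i' j' hij]) i hi
          (r (comp i) (h1 i hi)) (hr _ (h1 i hi)) (hr' _ (h1 i hi)).symm
        exact h5.1 rfl
      · rw [hT0 _ i hi, hz0 i hi]
  rw [← hrange, LinearMap.finrank_range_of_inj hinj, Module.finrank_fin_fun]

end LF
end MotMono
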