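import Pool.Agent.Lib.MP_4e5fcd_ag.LF.Base

/-!
# LF-N6: isogenies of tori

Write `M` for the matrix `A g j` (rows `g : R`, columns `j : Fin k`, `|R| = k`); identify `R ≃ Fin k`.
`hA` says that `M` is injective on `ℚ^k`, so `det M ≠ 0` (over `ℚ`, hence over `ℤ`, `ℂ`).
Nonempty: for `θ` with `θ g ≠ 0` choose `ϑ g` with `exp (ϑ g) = θ g`, solve `M y = ϑ` over `ℂ`, and put
`τ j = exp (y j)`: `∏_j τ j ^ A g j = exp (∑_j A g j y j) = θ g`.
Finite: let `δ = det M` (integer `≠ 0`). For `τ` in the solution set for `θ = 1`, with the adjugate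
`M' M = δ`: `τ j ^ δ = ∏_g (∏_l τ l ^ A g l) ^ M' j g = 1` (`zpow`, all `τ j ≠ 0`), so every coordinate is
a root of unity of order dividing `|δ|`: finitely many.
Constant cardinality: fix a solution `τ₀` for `θ`; `τ ↦ τ₀ * τ` is a bijection from the solutions for `1`
to those for `θ`. `n₀` = the number of solutions for `1`, which contains `τ = 1`.
-/

open MvPolynomial

namespace MotMono
namespace LF

/-- the matrix of exponents -/
def mat_n6 {R : Type} {k : ℕ} (e : R ≃ Fin k) (A : R → Fin k → ℕ) : Matrix (Fin k) (Fin k) ℤ :=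
  fun i j => (A (e.symm i) j : ℤ)

theorem det_n6 {R : Type} {k : ℕ} (e : R ≃ Fin k) (A : R → Fin k → ℕ)
    (hA : ∀ y : Fin k → ℚ, (∀ g, ∑ j, (A g j : ℚ) * y j = 0) → y = 0) :
    (mat_n6 e A).det ≠ 0 := by
  intro h0
  have h1 : ((mat_n6 e A).map (Int.castRingHom ℚ)).det = 0 := by
    rw [← RingHom.mapMatrix_apply, ← RingHom.map_det, h0, map_zero]
  obtain ⟨v, hv, hMv⟩ := Matrix.exists_mulVec_eq_zero_iff.mpr h1
  apply hv
  apply hA
  intro g
  have h2 := congrFun hMv (e g)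
  simp only [Matrix.mulVec, dotProduct, Matrix.map_apply, mat_n6, Equiv.symm_apply_apply,
    Pi.zero_apply] at h2
  rw [← h2]
  refine Finset.sum_congr rfl fun j _ => ?_
  simp

/-- the solutions -/
def sol_n6 {R : Type} {k : ℕ} (A : R → Fin k → ℕ) (θ : R → ℂ) : Set (Fin k → ℂ) :=
  {τ : Fin k → ℂ | (∀ j, τ j ≠ 0) ∧ ∀ g, ∏ j, τ j ^ A g j = θ g}

theorem prod_exp_n6 {k : ℕ} (a : Fin k → ℕ) (y : Fin k → ℂ) :
    ∏ j, Complex.exp (y j) ^ a j = Complex.exp (∑ j, (a j : ℂ) * y j) := by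
  rw [Complex.exp_sum]
  refine Finset.prod_congr rfl fun j _ => ?_
  rw [← Complex.exp_nat_mul]

theorem nonempty_n6 {R : Type} {k : ℕ} (e : R ≃ Fin k) (A : R → Fin k → ℕ)
    (hd : (mat_n6 e A).det ≠ 0) (θ : R → ℂ) (hθ : ∀ g, θ g ≠ 0) : (sol_n6 A θ).Nonempty := by
  obtain ⟨MC, hMC⟩ : ∃ MC : Matrix (Fin k) (Fin k) ℂ,
      MC = (mat_n6 e A).map (Int.castRingHom ℂ) := ⟨_, rfl⟩
  have hdC : MC.det ≠ 0 := by
    rw [hMC, ← RingHom.mapMatrix_apply, ← RingHom.map_det]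
    simpa using hd
  have hu : IsUnit MC.det := isUnit_iff_ne_zero.mpr hdC
  obtain ⟨y, hy⟩ : ∃ y : Fin k → ℂ, y = MC⁻¹.mulVec (fun i => Complex.log (θ (e.symm i))) :=
    ⟨_, rfl⟩
  have h1 : MC.mulVec y = fun i => Complex.log (θ (e.symm i)) := by
    rw [hy, Matrix.mulVec_mulVec, Matrix.mul_nonsing_inv _ hu, Matrix.one_mulVec]
  refine ⟨fun j => Complex.exp (y j), fun j => Complex.exp_ne_zero _, fun g => ?_⟩
  have h2 := congrFun h1 (e g)
  simp only [Matrix.mulVec, dotProduct, hMC, Matrix.map_apply, mat_n6,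
    Equiv.symm_apply_apply] at h2
  rw [prod_exp_n6, ← Complex.exp_log (hθ g), ← h2]
  congr 1

theorem pow_n6 {R : Type} {k : ℕ} (e : R ≃ Fin k) (A : R → Fin k → ℕ) (τ : Fin k → ℂ)
    (hτ : τ ∈ sol_n6 A (fun _ => 1)) (j : Fin k) : τ j ^ (mat_n6 e A).det.natAbs = 1 := by
  obtain ⟨h0, h1⟩ := hτ
  obtain ⟨y, hy⟩ : ∃ y : Fin k → ℂ, ∀ j, Complex.exp (y j) = τ j :=
    ⟨fun j => Complex.log (τ j), fun j => Complex.exp_log (h0 j)⟩
  have h2 : ∀ g, ∃ n : ℤ, ∑ j, (A g j : ℂ) * y j = n * (2 * Real.pi * Complex.I) := by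
    intro g
    rw [← Complex.exp_eq_one_iff, ← prod_exp_n6]
    refine Eq.trans ?_ (h1 g)
    refine Finset.prod_congr rfl fun j _ => ?_
    rw [hy]
  choose n hn using h2
  obtain ⟨MC, hMC⟩ : ∃ MC : Matrix (Fin k) (Fin k) ℂ,
      MC = (mat_n6 e A).map (Int.castRingHom ℂ) := ⟨_, rfl⟩
  have h3 : MC.mulVec y = fun i => (n (e.symm i) : ℂ) * (2 * Real.pi * Complex.I) := by
    funext i
    rw [← hn (e.symm i)]
    simp only [Matrix.mulVec, dotProduct, hMC, Matrix.map_apply, mat_n6]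
    refine Finset.sum_congr rfl fun j _ => ?_
    simp
  have h4 : MC.adjugate = (mat_n6 e A).adjugate.map (Int.castRingHom ℂ) := by
    rw [hMC, ← RingHom.mapMatrix_apply, ← RingHom.mapMatrix_apply, RingHom.map_adjugate]
  have h5 : MC.det = ((mat_n6 e A).det : ℂ) := by
    rw [hMC, ← RingHom.mapMatrix_apply, ← RingHom.map_det]
    simp
  have h6 : (MC.adjugate.mulVec (MC.mulVec y)) j = MC.det * y j := by
    rw [Matrix.mulVec_mulVec, Matrix.adjugate_mul, Matrix.smul_mulVec, Matrix.one_mulVec]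
    rfl
  have h7 : ((mat_n6 e A).det : ℂ) * y j =
      ((∑ i, (mat_n6 e A).adjugate j i * n (e.symm i) : ℤ) : ℂ) *
        (2 * Real.pi * Complex.I) := by
    rw [← h5, ← h6, h3, h4]
    simp only [Matrix.mulVec, dotProduct, Matrix.map_apply]
    push_cast
    rw [Finset.sum_mul]
    refine Finset.sum_congr rfl fun i _ => ?_
    simp only [eq_intCast]
    ring
  have h8 : Complex.exp (((mat_n6 e A).det : ℂ) * y j) = 1 :=
    Complex.exp_eq_one_iff.mpr ⟨_, h7⟩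
  rw [Complex.exp_int_mul, hy] at h8
  rcases Int.natAbs_eq (mat_n6 e A).det with h9 | h9
  · rw [h9, zpow_natCast] at h8
    exact h8
  · rw [h9, zpow_neg, zpow_natCast, inv_eq_one] at h8
    exact h8

theorem finite_n6 {R : Type} {k : ℕ} (e : R ≃ Fin k) (A : R → Fin k → ℕ)
    (hd : (mat_n6 e A).det ≠ 0) : (sol_n6 A (fun _ => 1)).Finite := by
  have hpos : 0 < (mat_n6 e A).det.natAbs := Int.natAbs_pos.mpr hd
  have h1 : {f : Fin k → ℂ | ∀ j, f j ∈
      {z : ℂ | z ^ (mat_n6 e A).det.natAbs = 1}}.Finite := by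
    refine Set.Finite.pi' fun j => ?_
    refine Set.Finite.subset
      (Polynomial.nthRootsFinset (mat_n6 e A).det.natAbs (1 : ℂ)).finite_toSet ?_
    intro z hz
    rw [Finset.mem_coe, Polynomial.mem_nthRootsFinset hpos]
    exact hz
  exact h1.subset fun τ hτ j => pow_n6 e A τ hτ j

theorem image_n6 {R : Type} {k : ℕ} (A : R → Fin k → ℕ) (θ : R → ℂ) (τ₀ : Fin k → ℂ)
    (h0 : τ₀ ∈ sol_n6 A θ) (hθ : ∀ g, θ g ≠ 0) :
    sol_n6 A θ = (fun τ => τ₀ * τ) '' sol_n6 A (fun _ => 1) := by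
  ext τ
  constructor
  · rintro ⟨h1, h2⟩
    refine ⟨fun j => τ j / τ₀ j, ⟨fun j => div_ne_zero (h1 j) (h0.1 j), fun g => ?_⟩, ?_⟩
    · have h3 : ∏ j, (τ j / τ₀ j) ^ A g j = (∏ j, τ j ^ A g j) / ∏ j, τ₀ j ^ A g j := by
        rw [← Finset.prod_div_distrib]
        refine Finset.prod_congr rfl fun j _ => ?_
        rw [div_pow]
      rw [h3, h2 g, h0.2 g, div_self (hθ g)]
    · funext j
      have h4 := h0.1 j
      simp only [Pi.mul_apply]
      field_simp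
  · rintro ⟨σ, ⟨h1, h2⟩, rfl⟩
    refine ⟨fun j => mul_ne_zero (h0.1 j) (h1 j), fun g => ?_⟩
    have h3 : ∏ j, (τ₀ * σ) j ^ A g j = (∏ j, τ₀ j ^ A g j) * ∏ j, σ j ^ A g j := by
      rw [← Finset.prod_mul_distrib]
      refine Finset.prod_congr rfl fun j _ => ?_
      rw [Pi.mul_apply, mul_pow]
    rw [h3, h0.2 g, h2 g, mul_one]

theorem exists_card_torus {R : Type} [Fintype R] {k : ℕ} (hR : Fintype.card R = k)
    (A : R → Fin k → ℕ)
    (hA : ∀ y : Fin k → ℚ, (∀ g, ∑ j, (A g j : ℚ) * y j = 0) → y = 0) :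
    ∃ n₀ : ℕ, 0 < n₀ ∧ ∀ θ : R → ℂ, (∀ g, θ g ≠ 0) →
      {τ : Fin k → ℂ | (∀ j, τ j ≠ 0) ∧ ∀ g, ∏ j, τ j ^ A g j = θ g}.Finite ∧
      {τ : Fin k → ℂ | (∀ j, τ j ≠ 0) ∧ ∀ g, ∏ j, τ j ^ A g j = θ g}.ncard = n₀ := by
  obtain ⟨e⟩ : Nonempty (R ≃ Fin k) := ⟨Fintype.equivFinOfCardEq hR⟩
  have hd := det_n6 e A hA
  have hfin := finite_n6 e A hd
  refine ⟨(sol_n6 A (fun _ => 1)).ncard, ?_, ?_⟩
  · rw [Set.ncard_pos hfin]
    exact ⟨fun _ => 1, fun _ => one_ne_zero, fun g => by simp⟩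
  · intro θ hθ
    obtain ⟨τ₀, h0⟩ := nonempty_n6 e A hd θ hθ
    have himg := image_n6 A θ τ₀ h0 hθ
    have hinj : Function.Injective (fun τ : Fin k → ℂ => τ₀ * τ) := by
      intro σ σ' h
      funext j
      have h1 := congrFun h j
      simp only [Pi.mul_apply] at h1
      exact mul_left_cancel₀ (h0.1 j) h1
    have hgoal : (sol_n6 A θ).Finite ∧ (sol_n6 A θ).ncard = (sol_n6 A (fun _ => 1)).ncard := by
      rw [himg]
      exact ⟨hfin.image _, Set.ncard_image_of_injective _ hinj⟩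
    exact hgoal

end LF
end MotMono
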