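import Pool.Agent.Lib.MP_4e5fcd_ag.LF.Base
import Pool.Agent.Lib.MP_4e5fcd_ag.Det.G2
import Pool.Agent.Lib.MP_4e5fcd_ag.Det.G3

/-!
# LF-P1: the generating function of a polyhedron

This is `Det/G3`, `Det/G4a` for a single weight `q ^ pair ν b` in any commutative ring; the slices
`b o = k` are finite because `0 < u o` for all rays.
-/

open MvPolynomial

namespace MotMono
namespace LF

section

variable {ι : Type} {R : Type*} [Fintype ι] [CommRing R]

/-- the coefficients vanish from some point on -/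
def p1Poly (F : PowerSeries R) : Prop := ∃ K, ∀ k, K ≤ k → PowerSeries.coeff k F = 0

theorem p1Poly_add {F G : PowerSeries R} (hF : p1Poly F) (hG : p1Poly G) : p1Poly (F + G) := by
  obtain ⟨K, hK⟩ := hF
  obtain ⟨L, hL⟩ := hG
  refine ⟨max K L, fun k hk => ?_⟩
  rw [map_add, hK k (le_trans (le_max_left _ _) hk), hL k (le_trans (le_max_right _ _) hk),
    add_zero]

theorem p1Poly_mul {F G : PowerSeries R} (hF : p1Poly F) (hG : p1Poly G) : p1Poly (F * G) := by
  obtain ⟨K, hK⟩ := hF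
  obtain ⟨L, hL⟩ := hG
  refine ⟨K + L, fun k hk => ?_⟩
  rw [PowerSeries.coeff_mul]
  refine Finset.sum_eq_zero fun p hp => ?_
  rw [Finset.HasAntidiagonal.mem_antidiagonal] at hp
  by_cases h : K ≤ p.1
  · rw [hK _ h, zero_mul]
  · rw [hL p.2 (by omega), mul_zero]

theorem p1Poly_coe {F : PowerSeries R} (hF : p1Poly F) :
    ∃ P : Polynomial R, F = (P : PowerSeries R) := by
  obtain ⟨K, hK⟩ := hF
  refine ⟨PowerSeries.trunc K F, ?_⟩
  ext k
  rw [Polynomial.coeff_coe, PowerSeries.coeff_trunc]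
  split_ifs with h
  · rfl
  · exact hK k (by omega)

/-- the generating function of a set -/
noncomputable def p1GF (q : R) (ν : ι → ℕ) (o : ι) (V : Set (ι → ℕ)) : PowerSeries R :=
  PowerSeries.mk fun k => ∑ᶠ b ∈ {b : ι → ℕ | b ∈ V ∧ b o = k}, q ^ pair ν b

/-- all slices are finite -/
def p1Fin (o : ι) (V : Set (ι → ℕ)) : Prop := ∀ k, {b : ι → ℕ | b ∈ V ∧ b o = k}.Finite

theorem p1Fin_mono {o : ι} {V V' : Set (ι → ℕ)} (h : p1Fin o V) (hV : V' ⊆ V) : p1Fin o V' :=
  fun k => (h k).subset fun _ hb => ⟨hV hb.1, hb.2⟩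

theorem p1GF_coeff (q : R) (ν : ι → ℕ) (o : ι) (V : Set (ι → ℕ)) (k : ℕ) :
    PowerSeries.coeff k (p1GF q ν o V) = ∑ᶠ b ∈ {b : ι → ℕ | b ∈ V ∧ b o = k}, q ^ pair ν b := by
  rw [p1GF, PowerSeries.coeff_mk]

theorem p1GF_union (q : R) (ν : ι → ℕ) (o : ι) {V V' : Set (ι → ℕ)} (hV : p1Fin o V)
    (hV' : p1Fin o V') (h : Disjoint V V') :
    p1GF q ν o (V ∪ V') = p1GF q ν o V + p1GF q ν o V' := by
  ext1 k
  rw [map_add, p1GF_coeff, p1GF_coeff, p1GF_coeff]
  rw [← finsum_mem_union _ (hV k) (hV' k)]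
  · refine finsum_mem_congr ?_ fun _ _ => rfl
    ext b
    simp only [Set.mem_union, Set.mem_ofPred_eq]
    tauto
  · rw [Set.disjoint_left] at h ⊢
    rintro b ⟨hb, _⟩ ⟨hb', _⟩
    exact h hb hb'

theorem p1GF_diff (q : R) (ν : ι → ℕ) (o : ι) {V V' : Set (ι → ℕ)} (hV : p1Fin o V)
    (h : V' ⊆ V) : p1GF q ν o (V \ V') = p1GF q ν o V - p1GF q ν o V' := by
  have h1 := p1GF_union q ν o (V := V \ V') (V' := V') (p1Fin_mono hV Set.sdiff_subset)
    (p1Fin_mono hV h) Set.disjoint_sdiff_left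
  rw [Set.sdiff_union_of_subset h] at h1
  rw [h1]
  abel

theorem p1GF_shift (q : R) (ν : ι → ℕ) (o : ι) {V : Set (ι → ℕ)} (hV : p1Fin o V) (u : ι → ℕ) :
    p1GF q ν o ((fun b => b + u) '' V) =
      PowerSeries.C (q ^ pair ν u) * PowerSeries.X ^ u o * p1GF q ν o V := by
  ext1 k
  rw [mul_assoc, PowerSeries.coeff_C_mul, PowerSeries.coeff_X_pow_mul', p1GF_coeff]
  split_ifs with hk
  · rw [p1GF_coeff]
    have h1 : {b | b ∈ (fun b => b + u) '' V ∧ b o = k} =
        (fun b => b + u) '' {b | b ∈ V ∧ b o = k - u o} := by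
      ext b
      constructor
      · rintro ⟨⟨b', hb', rfl⟩, hb2⟩
        refine ⟨b', ⟨hb', ?_⟩, rfl⟩
        dsimp only at hb2
        rw [Pi.add_apply] at hb2
        omega
      · rintro ⟨b', ⟨hb', hb2⟩, rfl⟩
        refine ⟨⟨b', hb', rfl⟩, ?_⟩
        dsimp only
        rw [Pi.add_apply]
        omega
    rw [h1, finsum_mem_image (fun a _ b _ hab => add_right_cancel hab),
      mul_finsum_mem' _ _ (hV (k - u o))]
    refine finsum_mem_congr rfl fun b _ => ?_
    rw [g3_pair_add, pow_add, mul_comm]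
  · rw [mul_zero]
    have h1 : {b | b ∈ (fun b => b + u) '' V ∧ b o = k} = ∅ := by
      ext b
      simp only [Set.mem_ofPred_eq, Set.mem_empty_iff_false, iff_false]
      rintro ⟨⟨b', hb', rfl⟩, hb2⟩
      dsimp only at hb2
      rw [Pi.add_apply] at hb2
      omega
    rw [h1, finsum_mem_empty]

theorem p1_isPoly (q : R) (ν : ι → ℕ) (o : ι) (U : Finset (ι → ℕ)) (M M' : Set (ι → ℕ))
    (hfin : p1Fin o M) (hM'M : M' ⊆ M)
    (hM : ∀ u ∈ U, ∀ b ∈ M, b + u ∈ M) (hM' : ∀ u ∈ U, ∀ b ∈ M', b + u ∈ M')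
    (F : Finset (ι → ℕ)) (hF : ∀ f ∈ F, f ∈ M \ M')
    (hgen : ∀ b ∈ M \ M', ∃ f ∈ F, ∃ α : (ι → ℕ) → ℕ, b = f + ∑ u ∈ U, α u • u) :
    p1Poly ((∏ u ∈ U, (1 - PowerSeries.C (q ^ pair ν u) * PowerSeries.X ^ u o)) *
      p1GF q ν o (M \ M')) := by
  classical
  induction U using Finset.induction_on generalizing M M' F with
  | empty =>
    rw [Finset.prod_empty, one_mul]
    refine ⟨F.sup (fun f => f o) + 1, fun k hk => ?_⟩
    rw [p1GF_coeff]
    have h1 : {b | b ∈ M \ M' ∧ b o = k} = ∅ := by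
      ext b
      simp only [Set.mem_ofPred_eq, Set.mem_empty_iff_false, iff_false]
      rintro ⟨hb, hb2⟩
      obtain ⟨f, hf, α, hα⟩ := hgen b hb
      rw [Finset.sum_empty, add_zero] at hα
      rw [hα] at hb2
      have : f o ≤ F.sup (fun f => f o) := Finset.le_sup (f := fun f : ι → ℕ => f o) hf
      omega
    rw [h1, finsum_mem_empty]
  | insert u U hu ih =>
    have hMu := hM u (Finset.mem_insert_self _ _)
    have hM'u := hM' u (Finset.mem_insert_self _ _)
    have hMU : ∀ u ∈ U, ∀ b ∈ M, b + u ∈ M := fun u' hu' => hM u' (Finset.mem_insert_of_mem hu')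
    have hM'U : ∀ u ∈ U, ∀ b ∈ M', b + u ∈ M' :=
      fun u' hu' => hM' u' (Finset.mem_insert_of_mem hu')
    let S : Set (ι → ℕ) := (fun b => b + u) '' M
    let N : Set (ι → ℕ) := {b | b ∈ M ∧ b + u ∈ M'}
    have hSM : S ⊆ M := by
      rintro _ ⟨b, hb, rfl⟩
      exact hMu b hb
    have hM'N : M' ⊆ N := fun b hb => ⟨hM'M hb, hM'u b hb⟩
    have hNM : N ⊆ M := fun b hb => hb.1
    have hSU : ∀ u ∈ U, ∀ b ∈ S, b + u ∈ S := by
      rintro u' hu' _ ⟨b, hb, rfl⟩
      exact ⟨b + u', hMU u' hu' b hb, by dsimp only; abel⟩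
    have hNU : ∀ u ∈ U, ∀ b ∈ N, b + u ∈ N := by
      rintro u' hu' b ⟨hb, hb'⟩
      refine ⟨hMU u' hu' b hb, ?_⟩
      rw [show b + u' + u = b + u + u' by abel]
      exact hM'U u' hu' _ hb'
    -- the decomposition
    have hdec : (1 - PowerSeries.C (q ^ pair ν u) * PowerSeries.X ^ u o) * p1GF q ν o (M \ M') =
        p1GF q ν o (M \ (M' ∪ S)) - PowerSeries.C (q ^ pair ν u) *
          PowerSeries.X ^ u o * p1GF q ν o (N \ M') := by
      have h1 : M \ M' = (M \ (M' ∪ S)) ∪ ((fun b => b + u) '' (M \ N)) := by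
        ext b
        constructor
        · rintro ⟨hb, hb'⟩
          by_cases hbS : b ∈ S
          · right
            obtain ⟨c, hc, rfl⟩ := hbS
            exact ⟨c, ⟨hc, fun h => hb' h.2⟩, rfl⟩
          · left
            exact ⟨hb, fun h => h.elim hb' hbS⟩
        · rintro (⟨hb, hb'⟩ | ⟨c, ⟨hc, hc'⟩, rfl⟩)
          · exact ⟨hb, fun h => hb' (Or.inl h)⟩
          · exact ⟨hMu c hc, fun h => hc' ⟨hc, h⟩⟩
      have h2 : Disjoint (M \ (M' ∪ S)) ((fun b => b + u) '' (M \ N)) := by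
        rw [Set.disjoint_left]
        rintro _ ⟨_, hb'⟩ ⟨c, ⟨hc, _⟩, rfl⟩
        exact hb' (Or.inr ⟨c, hc, rfl⟩)
      have hf1 : p1Fin o (M \ (M' ∪ S)) := p1Fin_mono hfin Set.sdiff_subset
      have hf2 : p1Fin o ((fun b => b + u) '' (M \ N)) := by
        refine p1Fin_mono hfin ?_
        rintro _ ⟨c, hc, rfl⟩
        exact hMu c hc.1
      have h3 : p1GF q ν o (M \ M') = p1GF q ν o (M \ (M' ∪ S)) +
          PowerSeries.C (q ^ pair ν u) * PowerSeries.X ^ u o * p1GF q ν o (M \ N) := by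
        rw [← p1GF_shift q ν o (p1Fin_mono hfin Set.sdiff_subset), ← p1GF_union q ν o hf1 hf2 h2,
          ← h1]
      have h4 : p1GF q ν o (M \ N) = p1GF q ν o (M \ M') - p1GF q ν o (N \ M') := by
        rw [p1GF_diff q ν o hfin hNM, p1GF_diff q ν o hfin hM'M,
          p1GF_diff q ν o (p1Fin_mono hfin hNM) hM'N]
        abel
      rw [h4] at h3
      linear_combination h3
    have hsplit : (∏ u ∈ insert u U, (1 - PowerSeries.C (q ^ pair ν u) * PowerSeries.X ^ u o)) *
          p1GF q ν o (M \ M') =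
        (∏ u ∈ U, (1 - PowerSeries.C (q ^ pair ν u) * PowerSeries.X ^ u o)) *
          p1GF q ν o (M \ (M' ∪ S)) +
        (-(PowerSeries.C (q ^ pair ν u) * PowerSeries.X ^ u o)) *
          ((∏ u ∈ U, (1 - PowerSeries.C (q ^ pair ν u) * PowerSeries.X ^ u o)) *
            p1GF q ν o (N \ M')) := by
      rw [Finset.prod_insert hu, mul_right_comm, hdec]
      ring
    rw [hsplit]
    apply p1Poly_add
    · refine ih M (M' ∪ S) hfin (Set.union_subset hM'M hSM) hMU ?_
        (F.filter fun f => f ∈ M \ (M' ∪ S)) (fun f hf => (Finset.mem_filter.1 hf).2) ?_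
      · rintro u' hu' b (hb | hb)
        · exact Or.inl (hM'U u' hu' b hb)
        · exact Or.inr (hSU u' hu' b hb)
      · rintro b ⟨hb, hb'⟩
        obtain ⟨f, hf, α, hα⟩ := hgen b ⟨hb, fun h => hb' (Or.inl h)⟩
        have hfM := hF f hf
        rw [Finset.sum_insert hu] at hα
        have hα0 : α u = 0 := by
          by_contra h
          apply hb'
          right
          refine ⟨f + (∑ u' ∈ U, α u' • u' + (α u - 1) • u), ?_, ?_⟩
          · have h1 := g3_stable hMU α f hfM.1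
            have h2 := g3_stable (U := {u}) (M := M) (by
              intro u' hu'
              rw [Finset.mem_singleton] at hu'
              rw [hu']
              exact hMu) (fun _ => α u - 1) _ h1
            rw [Finset.sum_singleton] at h2
            rwa [← add_assoc]
          · dsimp only
            rw [hα]
            have h3 : α u • u = (α u - 1) • u + u := by
              conv_lhs => rw [show α u = (α u - 1) + 1 by omega]
              rw [add_smul, one_smul]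
            rw [h3]
            abel
        rw [hα0, zero_smul, zero_add] at hα
        refine ⟨f, Finset.mem_filter.2 ⟨hf, hfM.1, ?_⟩, α, hα⟩
        rintro (h | h)
        · exact hfM.2 h
        · apply hb'
          right
          rw [hα]
          exact g3_stable hSU α f h
    · apply p1Poly_mul
      · refine ⟨u o + 1, fun k hk => ?_⟩
        rw [map_neg, PowerSeries.coeff_C_mul, PowerSeries.coeff_X_pow, if_neg (by omega)]
        simp
      · obtain ⟨G, hG, hG'⟩ := g3_fg (insert u U) M M' N hNM F hgen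
        refine ih N M' (p1Fin_mono hfin hNM) hM'N hNU hM'U G hG ?_
        intro b hb
        obtain ⟨g, hg, α, hα⟩ := hG' b hb
        have hgN := hG g hg
        rw [Finset.sum_insert hu] at hα
        have hα0 : α u = 0 := by
          by_contra h
          apply hb.2
          have h1 := g3_stable hM'U α _ hgN.1.2
          have h2 := g3_stable (U := {u}) (M := M') (by
            intro u' hu'
            rw [Finset.mem_singleton] at hu'
            rw [hu']
            exact hM'u) (fun _ => α u - 1) _ h1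
          rw [Finset.sum_singleton] at h2
          have h3 : α u • u = (α u - 1) • u + u := by
            conv_lhs => rw [show α u = (α u - 1) + 1 by omega]
            rw [add_smul, one_smul]
          have h4 : b = g + u + ∑ u' ∈ U, α u' • u' + (α u - 1) • u := by
            rw [hα, h3]
            abel
          rw [h4]
          exact h2
        rw [hα0, zero_smul, zero_add] at hα
        exact ⟨g, hg, α, hα⟩

theorem p1_beta {X : Type} (Cs : Finset (X × ℤ)) : ∃ β : X → ℤ,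
    (∀ c ∈ Cs, c.2 ≤ β c.1) ∧ ∀ c ∈ Cs, ∃ c' ∈ Cs, c'.1 = c.1 ∧ β c.1 = c'.2 := by
  classical
  have h : ∀ l : X, ∃ z : ℤ, (∀ c ∈ Cs, c.1 = l → c.2 ≤ z) ∧
      ((∃ c ∈ Cs, c.1 = l) → ∃ c' ∈ Cs, c'.1 = l ∧ z = c'.2) := by
    intro l
    by_cases hl : ∃ c ∈ Cs, c.1 = l
    · obtain ⟨c, hc, hcl⟩ := hl
      obtain ⟨m, hm, hm'⟩ := Finset.exists_max_image (Cs.filter fun c => c.1 = l) Prod.snd
        ⟨c, Finset.mem_filter.2 ⟨hc, hcl⟩⟩
      rw [Finset.mem_filter] at hm
      exact ⟨m.2, fun c' hc' h' => hm' c' (Finset.mem_filter.2 ⟨hc', h'⟩),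
        fun _ => ⟨m, hm.1, hm.2, rfl⟩⟩
    · exact ⟨0, fun c hc h' => absurd ⟨c, hc, h'⟩ hl, fun h' => absurd h' hl⟩
  choose β hβ1 hβ2 using h
  exact ⟨β, fun c hc => hβ1 c.1 c hc rfl, fun c hc => hβ2 c.1 ⟨c, hc, rfl⟩⟩

/-- slices of a finitely generated set are finite -/
theorem p1_fin (o : ι) (U : Finset (ι → ℕ)) (hpos : ∀ u ∈ U, 0 < u o) (V : Set (ι → ℕ))
    (F : Finset (ι → ℕ))
    (hgen : ∀ b ∈ V, ∃ f ∈ F, ∃ α : (ι → ℕ) → ℕ, b = f + ∑ u ∈ U, α u • u) : p1Fin o V := by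
  classical
  intro k
  refine ((F ×ˢ Fintype.piFinset (fun _ : U => Finset.range (k + 1))).image
    (fun p => p.1 + ∑ u : U, p.2 u • u.1)).finite_toSet.subset ?_
  rintro b ⟨hb, hbk⟩
  obtain ⟨f, hf, α, hα⟩ := hgen b hb
  rw [Finset.mem_coe, Finset.mem_image]
  refine ⟨(f, fun u => α u.1), ?_, ?_⟩
  · rw [Finset.mem_product, Fintype.mem_piFinset]
    refine ⟨hf, fun u => ?_⟩
    rw [Finset.mem_range]
    have h1 : (∑ u ∈ U, α u • u) o ≤ k := by
      rw [← hbk, hα, Pi.add_apply]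
      exact Nat.le_add_left _ _
    rw [Finset.sum_apply] at h1
    have h2 : (α u.1 • u.1) o ≤ ∑ u ∈ U, (α u • u) o :=
      Finset.single_le_sum (f := fun u : ι → ℕ => (α u • u) o) (fun _ _ => Nat.zero_le _) u.2
    have h3 : (α u.1 • u.1) o = α u.1 * u.1 o := by simp
    have h4 : α u.1 ≤ α u.1 * u.1 o := Nat.le_mul_of_pos_right _ (hpos u.1 u.2)
    dsimp only
    omega
  · rw [hα]
    congr 1
    exact Finset.sum_coe_sort U (fun u => α u • u)

end

open Classical in
theorem gf_poly {ι : Type} {R : Type*} [Fintype ι] [CommRing R] (q : R) (ν : ι → ℕ) (o : ι) (Z : Set ι)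
    (Cs : Finset ((ι → ℤ) × ℤ)) (U : Finset (ι → ℕ)) (hU : IsRays Z (Cs.image Prod.fst) U)
    (hpos : ∀ u ∈ U, 0 < u o) :
    (∀ k, {b : ι → ℕ | InP Z Cs b ∧ b o = k}.Finite) ∧
      ∃ P : Polynomial R,
        (∏ u ∈ U, (1 - PowerSeries.C (q ^ pair ν u) * PowerSeries.X ^ u o)) *
          PowerSeries.mk (fun k => ∑ᶠ (b : ι → ℕ) (_ : InP Z Cs b ∧ b o = k), q ^ pair ν b) =
        (P : PowerSeries R) := by
  obtain ⟨β, hβ1, hβ2⟩ := p1_beta Cs
  have hβ : ∀ b : ι → ℕ, (∀ l ∈ Cs.image Prod.fst, β l ≤ ∑ i, l i * (b i : ℤ)) ↔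
      ∀ c ∈ Cs, c.2 ≤ ∑ i, c.1 i * (b i : ℤ) := by
    intro b
    constructor
    · intro h c hc
      exact le_trans (hβ1 c hc) (h c.1 (Finset.mem_image_of_mem _ hc))
    · intro h l hl
      obtain ⟨c, hc, rfl⟩ := Finset.mem_image.1 hl
      obtain ⟨c', hc', h1, h2⟩ := hβ2 c hc
      rw [h2, ← h1]
      exact h c' hc'
  obtain ⟨F, hF, hF'⟩ := exists_gens Z (Cs.image Prod.fst) U hU β (fun i => if i ∈ Z then 0 else 1)
  let Q : Set (ι → ℕ) := {b | InP Z Cs b}
  have hmem : ∀ b : ι → ℕ, b ∈ Q ↔ ((∀ i ∈ Z, b i = 0) ∧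
      (∀ i, (if i ∈ Z then 0 else 1) ≤ b i) ∧
        ∀ l ∈ Cs.image Prod.fst, β l ≤ ∑ i, l i * (b i : ℤ)) := by
    intro b
    rw [hβ b]
    constructor
    · rintro ⟨h1, h2, h3⟩
      refine ⟨h1, fun i => ?_, h3⟩
      split_ifs with h
      · exact Nat.zero_le _
      · exact h2 i h
    · rintro ⟨h1, h2, h3⟩
      refine ⟨h1, fun i hi => ?_, h3⟩
      have := h2 i
      rwa [if_neg hi] at this
  have hgen : ∀ b ∈ Q, ∃ f ∈ F, ∃ α : (ι → ℕ) → ℕ, b = f + ∑ u ∈ U, α u • u := by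
    intro b hb
    rw [hmem] at hb
    exact hF' b hb.1 hb.2.1 hb.2.2
  have hfin : p1Fin o Q := p1_fin o U hpos Q F hgen
  refine ⟨hfin, ?_⟩
  have key := p1_isPoly q ν o U Q ∅ hfin (Set.empty_subset _) ?_ ?_ F ?_ ?_
  · rw [Set.sdiff_empty] at key
    exact p1Poly_coe key
  · rintro u hu b ⟨h1, h2, h3⟩
    refine ⟨fun i hi => ?_, fun i hi => ?_, fun c hc => ?_⟩
    · rw [Pi.add_apply, h1 i hi, hU.zero u hu i hi]
    · exact le_trans (h2 i hi) (Nat.le_add_right _ _)
    · have h4 := hU.nonneg u hu c.1 (Finset.mem_image_of_mem _ hc)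
      have h5 := h3 c hc
      have h6 : ∑ i, c.1 i * (((b + u) i : ℕ) : ℤ) =
          ∑ i, c.1 i * (b i : ℤ) + ∑ i, c.1 i * (u i : ℤ) := by
        rw [← Finset.sum_add_distrib]
        refine Finset.sum_congr rfl fun i _ => ?_
        rw [Pi.add_apply]
        push_cast
        ring
      rw [h6]
      linarith
  · intro u _ b hb
    exact absurd hb (Set.notMem_empty b)
  · intro f hf
    rw [Set.sdiff_empty, hmem]
    exact hF f hf
  · intro b hb
    rw [Set.sdiff_empty] at hb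
    exact hgen b hb

end LF
end MotMono
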