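import Pool.Agent.Lib.MP_4e5fcd_ag.LF.Base
import Pool.Agent.Lib.MP_4e5fcd_ag.Det.G1

/-!
# LF-P2: primitive generators of the rays

Let `U₁` be given by `exists_isRays`. For `u ≠ 0` let `g` be the gcd of the `u i`
(`Finset.univ.gcd u`), `0 < g`, and `u' i = u i / g`; `u i = g * u' i`, `Prim u'`
(`Finset.gcd_div_eq_one` or directly: `d ∣ u' i` for all `i` gives `g * d ∣ g`). Let `U` be the image of
`U₁` under `u ↦ u'`. The properties `ne`, `zero`, `nonneg`, `ext` are invariant under positive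
multiples. `gen`: `x i = ∑_{u ∈ U₁} α u * u i = ∑_{u ∈ U₁} (α u * g u) * u' i`; put
`α' v = ∑_{u ∈ U₁, u' = v} α u * g u` (`Finset.sum_fiberwise_of_maps_to`).
-/

open MvPolynomial

namespace MotMono
namespace LF

private noncomputable def p2g {ι : Type} [Fintype ι] (u : ι → ℕ) : ℕ := Finset.univ.gcd u

private noncomputable def p2p {ι : Type} [Fintype ι] (u : ι → ℕ) : ι → ℕ := fun i => u i / p2g u

private theorem p2g_pos {ι : Type} [Fintype ι] {u : ι → ℕ} (hu : u ≠ 0) : 0 < p2g u := by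
  rw [Nat.pos_iff_ne_zero]
  intro h
  apply hu
  funext i
  exact (Finset.gcd_eq_zero_iff.mp h) i (Finset.mem_univ i)

private theorem p2_mul {ι : Type} [Fintype ι] (u : ι → ℕ) (i : ι) :
    u i = p2g u * p2p u i := by
  exact (Nat.mul_div_cancel' (Finset.gcd_dvd (Finset.mem_univ i))).symm

private theorem p2_prim {ι : Type} [Fintype ι] {u : ι → ℕ} (hu : u ≠ 0) : Prim (p2p u) := by
  intro d hd
  have h1 : p2g u * d ∣ p2g u := by
    apply Finset.dvd_gcd
    intro i _
    rw [p2_mul u i]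
    exact Nat.mul_dvd_mul_left _ (hd i)
  have h2 := Nat.le_of_dvd (p2g_pos hu) h1
  have h3 := p2g_pos hu
  have h4 : d ≠ 0 := by
    rintro rfl
    rw [mul_zero] at h1
    exact h3.ne' (Nat.eq_zero_of_zero_dvd h1)
  have h5 : p2g u * d ≤ p2g u * 1 := by rw [mul_one]; exact h2
  have h6 := Nat.le_of_mul_le_mul_left h5 h3
  omega

theorem exists_prim_rays {ι : Type} [Fintype ι] (Z : Set ι) (Ls : Finset (ι → ℤ)) :
    ∃ U, IsRays Z Ls U ∧ ∀ u ∈ U, Prim u := by
  classical
  obtain ⟨U₁, hU⟩ := exists_isRays Z Ls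
  refine ⟨U₁.image p2p, ⟨?_, ?_, ?_, ?_, ?_⟩, ?_⟩
  · intro v hv
    obtain ⟨u, hu, rfl⟩ := Finset.mem_image.mp hv
    intro h
    apply hU.ne u hu
    funext i
    rw [p2_mul u i, h]
    simp
  · intro v hv i hi
    obtain ⟨u, hu, rfl⟩ := Finset.mem_image.mp hv
    have h := hU.zero u hu i hi
    rw [p2_mul u i] at h
    rcases Nat.mul_eq_zero.mp h with h | h
    · exact absurd h (p2g_pos (hU.ne u hu)).ne'
    · exact h
  · intro v hv l hl
    obtain ⟨u, hu, rfl⟩ := Finset.mem_image.mp hv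
    have h := hU.nonneg u hu l hl
    have hg : (0 : ℤ) < p2g u := by exact_mod_cast p2g_pos (hU.ne u hu)
    have e : ∑ i, l i * (u i : ℤ) = (p2g u : ℤ) * ∑ i, l i * (p2p u i : ℤ) := by
      rw [Finset.mul_sum]
      refine Finset.sum_congr rfl fun i _ => ?_
      conv_lhs => rw [p2_mul u i]
      push_cast
      ring
    rw [e] at h
    exact nonneg_of_mul_nonneg_right h hg
  · intro v hv y hy hy'
    obtain ⟨u, hu, rfl⟩ := Finset.mem_image.mp hv
    have hg : (0 : ℤ) < p2g u := by exact_mod_cast p2g_pos (hU.ne u hu)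
    obtain ⟨c, hc⟩ := hU.ext u hu y (fun i hi => hy i (by simp [p2p, hi])) (by
      intro l hl h0
      apply hy' l hl
      have e : ∑ i, l i * (u i : ℤ) = (p2g u : ℤ) * ∑ i, l i * (p2p u i : ℤ) := by
        rw [Finset.mul_sum]
        refine Finset.sum_congr rfl fun i _ => ?_
        conv_lhs => rw [p2_mul u i]
        push_cast
        ring
      rw [e] at h0
      rcases mul_eq_zero.mp h0 with h | h
      · exact absurd h hg.ne'
      · exact h)
    refine ⟨c * p2g u, fun i => ?_⟩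
    rw [hc i, p2_mul u i]
    push_cast
    ring
  · intro x hx hZ hL
    obtain ⟨α, hα, hx'⟩ := hU.gen x hx hZ hL
    refine ⟨fun v => ∑ u ∈ U₁ with p2p u = v, α u * p2g u, fun v => ?_, fun i => ?_⟩
    · exact Finset.sum_nonneg fun u _ => mul_nonneg (hα u) (Nat.cast_nonneg _)
    · rw [hx' i, ← Finset.sum_fiberwise_of_maps_to
        (g := p2p) (t := U₁.image p2p) (fun u hu => Finset.mem_image_of_mem _ hu)]
      refine Finset.sum_congr rfl fun v _ => ?_
      rw [Finset.sum_mul]
      refine Finset.sum_congr rfl fun u hu => ?_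
      rw [Finset.mem_filter] at hu
      rw [← hu.2]
      conv_lhs => rw [p2_mul u i]
      push_cast
      ring
  · intro v hv
    obtain ⟨u, hu, rfl⟩ := Finset.mem_image.mp hv
    exact p2_prim (hU.ne u hu)

end LF
end MotMono
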