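import Pool.Agent.Lib.MP_4e5fcd_ag.LF.A5
import Pool.Agent.Lib.MP_4e5fcd_ag.LF.A6

/-!
# LF-P3: basic facts on patterns

Throughout `hD : ∀ i, i ∈ D ↔ ∃ g ∈ S, w g i ≠ 0`, `D' = DT w D P.T`, `hP : IsPat a w S D K₁ mh₁ P` a
witness of the pattern.

`supp_le`: for `g ∈ S` or `g ∈ P.T`, `w g i ≠ 0` implies `i ∈ D'`.
`exists_mem_BB`: `mem_maxB_iff` for `mh₁` (`hP.closed`), `hP.BB`.
`BB_nonempty`: `exists_maxB`.
`maxB_iff_of_ineq`: let `y : I → ℕ` and `B₀ ∈ P.BB` such that `∑_{B} y = ∑_{B₀} y` for `B ∈ P.BB` and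
`∑_B y ≤ ∑_{B₀} y` for all bases `B` of `D'`. Then every `B ∈ P.BB` is a `MaxB` of `y`: choose a
`MaxB` `B*` of `y` (`exists_maxB`), `∑_{B*} y ≤ ∑_{B₀} y = ∑_B y`, use `MaxB.of_weight` (`B` is a basis of
`D'` by `hP.BB`).
`clo_eq_self`: if moreover `i ∈ D'` then `i ∈ B` for some `B ∈ P.BB`, a `MaxB` of `y`, so
`clo a D' y i = y i` by `mem_maxB_iff`.
`pair_clo_le`: for `c ∈ Cc a D' B₀`, `B₀` a `MaxB` of `y`, `y = clo a D' y` on `D'`:
`pair v (clo a D' y) ≤ ∑_j cform a D' v c j * y j` with equality for a suitable `c` (choose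
`c i = b` with `exists_clo_eq` for `i ∉ D'`, `a i ∈ sp D'`, and `c i = i` otherwise). Proof:
`∑_j cform a D' v c j * y j = ∑_{i ∈ D'} v i y i + ∑_{i ∉ D', a i ∈ sp D'} v i y (c i)`; for `i ∈ D'` the
closure is `y i`; for `i ∉ D'`, `a i ∈ sp D'` it is `≤ y (c i)` (`clo_le_of_cf`); for `a i ∉ sp D'` it is
`0` (`clo_eq_zero`).
-/

open MvPolynomial

namespace MotMono
namespace LF

variable {I Γ : Type} [Fintype I] [Fintype Γ] {N : ℕ} {a : I → Fin N → ℂ} {w : Γ → I → ℕ}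
  {S : Finset Γ} {D : Finset I} {K₁ : ℕ} {mh₁ : I → ℕ} {P : Pat I Γ}

theorem supp_le (hD : ∀ i, i ∈ D ↔ ∃ g ∈ S, w g i ≠ 0) {g : Γ} (hg : g ∈ S ∨ g ∈ P.T) {i : I}
    (hi : w g i ≠ 0) : i ∈ DT w D P.T := by
  classical
  rw [DT, Finset.mem_filter]
  refine ⟨Finset.mem_univ i, ?_⟩
  rcases hg with hg | hg
  · exact Or.inl ((hD i).2 ⟨g, hg, hi⟩)
  · exact Or.inr ⟨g, hg, hi⟩

theorem BB_nonempty (hP : IsPat a w S D K₁ mh₁ P) : P.BB.Nonempty := by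
  obtain ⟨B, hB⟩ := exists_maxB a (DT w D P.T) mh₁
  exact ⟨B, (hP.BB B).2 hB⟩

theorem exists_mem_BB (ha : ∀ i, a i ≠ 0) (hP : IsPat a w S D K₁ mh₁ P) {i : I}
    (hi : i ∈ DT w D P.T) : ∃ B ∈ P.BB, i ∈ B := by
  obtain ⟨B, hB, hiB⟩ := (mem_maxB_iff (ha i) hi).1 (hP.closed i)
  exact ⟨B, (hP.BB B).2 hB, hiB⟩

theorem maxB_of_ineq (hP : IsPat a w S D K₁ mh₁ P) (y : I → ℕ) (B₀ : Finset I)
    (h1 : ∀ B ∈ P.BB, ∑ b ∈ B, y b = ∑ b ∈ B₀, y b)
    (h2 : ∀ B, IsBas a (DT w D P.T) B → ∑ b ∈ B, y b ≤ ∑ b ∈ B₀, y b) :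
    ∀ B ∈ P.BB, MaxB a (DT w D P.T) y B := by
  intro B hB
  obtain ⟨B', hB'⟩ := exists_maxB a (DT w D P.T) y
  refine hB'.of_weight ((hP.BB B).1 hB).1 ?_
  rw [h1 B hB]
  exact h2 B' hB'.1

theorem clo_eq_self (ha : ∀ i, a i ≠ 0) (hP : IsPat a w S D K₁ mh₁ P) (y : I → ℕ)
    (h : ∀ B ∈ P.BB, MaxB a (DT w D P.T) y B) {i : I} (hi : i ∈ DT w D P.T) :
    clo a (DT w D P.T) y i = y i := by
  obtain ⟨B, hB, hiB⟩ := exists_mem_BB ha hP hi
  exact (mem_maxB_iff (ha i) hi).2 ⟨B, h B hB, hiB⟩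

private theorem p3_cform_sum {R : Type*} [CommRing R] {D' : Finset I} (v : I → ℕ) (c : I → I)
    (y : I → R) (h : ∀ i, Decidable (i ∈ D')) (h' : ∀ i, Decidable (a i ∈ sp a (D' : Set I))) :
    ∑ j, (cform a D' v c j : R) * y j = ∑ i, (v i : R) *
      (if i ∈ D' then y i else if a i ∈ sp a (D' : Set I) then y (c i) else 0) := by
  classical
  have e1 : ∀ j, (cform a D' v c j : R) * y j = (if j ∈ D' then (v j : R) * y j else 0) +
      ∑ i, if i ∉ D' ∧ a i ∈ sp a (D' : Set I) ∧ c i = j then (v i : R) * y j else 0 := by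
    intro j
    rw [cform]
    push_cast
    rw [add_mul, Finset.sum_mul]
    congr 1
    · split_ifs <;> simp
    · refine Finset.sum_congr rfl fun i _ => ?_
      split_ifs <;> simp
  rw [Finset.sum_congr rfl fun j _ => e1 j, Finset.sum_add_distrib, Finset.sum_comm,
    ← Finset.sum_add_distrib]
  refine Finset.sum_congr rfl fun i _ => ?_
  by_cases h1 : i ∈ D'
  · simp [h1]
  · by_cases h2 : a i ∈ sp a (D' : Set I)
    · simp [h1, h2]
    · simp [h1, h2]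

theorem pair_clo_le (ha : ∀ i, a i ≠ 0) {D' B₀ : Finset I} {y : I → ℕ} (hB : MaxB a D' y B₀)
    (hy : ∀ i ∈ D', clo a D' y i = y i) (v : I → ℕ) {c : I → I} (hc : c ∈ Cc a D' B₀) :
    (pair v (clo a D' y) : ℤ) ≤ ∑ j, cform a D' v c j * (y j : ℤ) := by
  classical
  have e := p3_cform_sum (R := ℤ) (a := a) (D' := D') v c (fun i => (y i : ℤ)) inferInstance
    inferInstance
  simp only [Int.cast_id] at e
  rw [e, pair]
  push_cast
  refine Finset.sum_le_sum fun i _ => ?_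
  refine mul_le_mul_of_nonneg_left ?_ (Int.natCast_nonneg _)
  rw [Cc, Finset.mem_filter] at hc
  split_ifs with h1 h2
  · rw [hy i h1]
  · exact_mod_cast clo_le_of_cf (ha i) hB h2 (hc.2 i h1 h2).2
  · rw [clo_eq_zero h2]
    simp

theorem exists_pair_clo_eq (ha : ∀ i, a i ≠ 0) {D' B₀ : Finset I} {y : I → ℕ}
    (hB : MaxB a D' y B₀) (hy : ∀ i ∈ D', clo a D' y i = y i) :
    ∃ c ∈ Cc a D' B₀, ∀ v : I → ℕ,
      (pair v (clo a D' y) : ℤ) = ∑ j, cform a D' v c j * (y j : ℤ) := by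
  classical
  have h0 : ∀ i, ∃ b, i ∉ D' → a i ∈ sp a (D' : Set I) →
      (b ∈ B₀ ∧ cf a B₀ i b ≠ 0) ∧ clo a D' y i = y b := by
    intro i
    by_cases h : a i ∈ sp a (D' : Set I)
    · obtain ⟨b, hb, hb', hb''⟩ := exists_clo_eq (ha i) hB h
      exact ⟨b, fun _ _ => ⟨⟨hb, hb'⟩, hb''⟩⟩
    · exact ⟨i, fun _ h' => absurd h' h⟩
  choose c hc using h0
  refine ⟨c, ?_, fun v => ?_⟩
  · rw [Cc, Finset.mem_filter]
    exact ⟨Finset.mem_univ _, fun i h1 h2 => (hc i h1 h2).1⟩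
  · have e := p3_cform_sum (R := ℤ) (a := a) (D' := D') v c (fun i => (y i : ℤ)) inferInstance
      inferInstance
    simp only [Int.cast_id] at e
    rw [e, pair]
    push_cast
    refine Finset.sum_congr rfl fun i _ => ?_
    split_ifs with h1 h2
    · rw [hy i h1]
    · rw [(hc i h1 h2).2]
    · rw [clo_eq_zero h2]
      simp

open Classical in
theorem sum_cform {D' : Finset I} (v : I → ℕ) (c : I → I) (y : I → ℚ) :
    ∑ j, (cform a D' v c j : ℚ) * y j = ∑ i, (v i : ℚ) *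
      (if i ∈ D' then y i else if a i ∈ sp a (D' : Set I) then y (c i) else 0) := by
  exact p3_cform_sum v c y _ _

end LF
end MotMono
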