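import Pool.Agent.Lib.MP_4e5fcd_ag.LF.P4
import Pool.Agent.Lib.MP_4e5fcd_ag.Det.G1

/-!
# LF-P5: the rays of a pattern polyhedron, basic properties

`hU : IsRays (Zp w D P) ((Cp a w S D P B₀).image Prod.fst) U`, `u ∈ U`, `y j = u (some j)`,
`κ = u none`, `D' = DT w D P.T`, `uh = clo a D' y`.

The homogeneous inequalities `hU.nonneg` (evaluate with `sum_fo`): for `g ∈ S` or `g ∈ P.T`:
`∑ w g i y i = κ`; `∑_B y = ∑_{B₀} y` for `B ∈ P.BB`; `∑_B y ≤ ∑_{B₀} y` for all bases `B` of `D'`;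
`∑_j cform a D' (w g) c j * y j ≥ κ` for `g ∉ S`, `g ∉ P.T`, `c ∈ Cc a D' B₀`. `hU.zero`: `y i = 0` for
`i ∉ D'` (and for `i ∈ Z0`).
So all `B ∈ P.BB` are `MaxB` of `y` (`maxB_of_ineq`), `uh = y` on `D'` (`clo_eq_self`). For `g ∈ S ∪ P.T`
(supported in `D'`, `supp_le`): `pair (w g) uh = κ`. For the other `g`: `exists_pair_clo_eq` gives
`pair (w g) uh ≥ κ`.
`κ > 0`: suppose `κ = 0`. If `S ∪ P.T ≠ ∅`... for every `i ∈ D'` there is `g ∈ S ∪ P.T` with
`w g i ≠ 0` (`hD` and the definition of `DT`), and `∑ w g i y i = 0`, so `y i = 0`. So `y = 0` and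
`u = 0`, contradicting `hU.ne`. (This covers all cases with `κ = 0`.)
`S ∪ P.T ≠ ∅`: otherwise `D' = ∅`, `y = 0`; take any `g : Γ` and `c` from `exists_pair_clo_eq`:
`0 = ∑ cform .. * y ≥ κ > 0`. So `mn w uh = κ` and `S, P.T ⊆ Fc w uh`.
`nu`: `nu_clo` with `B₀`, `pair (nuP B₀) u = ∑_{b ∈ B₀} y b`.
`Prim`: if `d ∣ uh i` for all `i`, then `d ∣ y i` for all `i` (`y = uh` on `D'`, `0` elsewhere) and
`d ∣ pair (w g) uh = κ` for a `g ∈ S ∪ P.T`; so `d ∣ u o` for all `o`, `d = 1`.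
-/

open MvPolynomial

namespace MotMono
namespace LF

variable {I Γ : Type} [Fintype I] [Fintype Γ] [Nonempty Γ] {N : ℕ} {a : I → Fin N → ℂ}
  {w : Γ → I → ℕ} {S : Finset Γ} {D : Finset I} {K₁ : ℕ} {mh₁ : I → ℕ} {P : Pat I Γ}

/-- the data of a ray -/
structure RayData (a : I → Fin N → ℂ) (w : Γ → I → ℕ) (S : Finset Γ) (D : Finset I) (P : Pat I Γ)
    (B₀ : Finset I) (u : Option I → ℕ) : Prop where
  zero : ∀ i, i ∉ DT w D P.T → u (some i) = 0
  maxB : ∀ B ∈ P.BB, MaxB a (DT w D P.T) (fun j => u (some j)) B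
  clo : ∀ i ∈ DT w D P.T, clo a (DT w D P.T) (fun j => u (some j)) i = u (some i)
  pos : 0 < u none
  ne : ∃ g, g ∈ S ∨ g ∈ P.T
  S : S ⊆ Fc w (LF.clo a (DT w D P.T) (fun j => u (some j)))
  T : P.T ⊆ Fc w (LF.clo a (DT w D P.T) (fun j => u (some j)))
  mn : mn w (LF.clo a (DT w D P.T) (fun j => u (some j))) = u none
  nu : nu a (LF.clo a (DT w D P.T) (fun j => u (some j))) = pair (nuP B₀) u
  prim : Prim u → Prim (LF.clo a (DT w D P.T) (fun j => u (some j)))

private theorem p5_cform_fo {D' : Finset I} (v : I → ℕ) (c : I → I) (u : Option I → ℕ) :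
    ∑ o, fo (cform a D' v c) (-1) o * (u o : ℤ) =
      -(u none : ℤ) + ∑ j, cform a D' v c j * (u (some j) : ℤ) := by
  rw [sum_fo]
  ring

open Classical in
theorem ray_data (ha : ∀ i, a i ≠ 0) (hD : ∀ i, i ∈ D ↔ ∃ g ∈ S, w g i ≠ 0)
    (hP : IsPat a w S D K₁ mh₁ P) {B₀ : Finset I} (hB₀ : B₀ ∈ P.BB) {U : Finset (Option I → ℕ)}
    (hU : IsRays (Zp w D P) ((Cp a w S D P B₀).image Prod.fst) U) (u : Option I → ℕ)
    (hu : u ∈ U) : RayData a w S D P B₀ u := by
  -- the inequalities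
  have hnn : ∀ c ∈ Cp a w S D P B₀, 0 ≤ ∑ o, c.1 o * (u o : ℤ) := fun c hc =>
    hU.nonneg u hu c.1 (Finset.mem_image_of_mem _ hc)
  have hz : ∀ i, i ∉ DT w D P.T → u (some i) = 0 := fun i hi =>
    hU.zero u hu (some i) ⟨i, rfl, Or.inl hi⟩
  have hST : ∀ g, (g ∈ S ∨ g ∈ P.T) → pair (w g) (fun j => u (some j)) = u none := by
    intro g hg
    have hle : 0 ≤ ∑ o, fo (fun i => (w g i : ℤ)) (-1) o * (u o : ℤ) := by
      rcases hg with hg | hg
      · refine hnn (fo (fun i => (w g i : ℤ)) (-1), -(∑ i, (w g i : ℤ)) - 1) ?_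
        simp only [Cp, Finset.mem_union]
        exact Or.inl (Or.inl (Or.inl (Or.inl (Or.inl (Or.inl
          (Finset.mem_image_of_mem (fun g => (fo (fun i => (w g i : ℤ)) (-1),
            -(∑ i, (w g i : ℤ)) - 1)) hg))))))
      · refine hnn (fo (fun i => (w g i : ℤ)) (-1), (P.off g : ℤ) - ∑ i, (w g i : ℤ)) ?_
        simp only [Cp, Finset.mem_union]
        exact Or.inl (Or.inl (Or.inl (Or.inl (Or.inr
          (Finset.mem_image_of_mem (fun g => (fo (fun i => (w g i : ℤ)) (-1),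
            (P.off g : ℤ) - ∑ i, (w g i : ℤ))) hg)))))
    have hge : 0 ≤ ∑ o, fo (fun i => -(w g i : ℤ)) 1 o * (u o : ℤ) := by
      rcases hg with hg | hg
      · refine hnn (fo (fun i => -(w g i : ℤ)) 1, (∑ i, (w g i : ℤ)) + 1) ?_
        simp only [Cp, Finset.mem_union]
        exact Or.inl (Or.inl (Or.inl (Or.inl (Or.inl (Or.inr
          (Finset.mem_image_of_mem (fun g => (fo (fun i => -(w g i : ℤ)) 1,
            (∑ i, (w g i : ℤ)) + 1)) hg))))))
      · refine hnn (fo (fun i => -(w g i : ℤ)) 1, (∑ i, (w g i : ℤ)) - P.off g) ?_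
        simp only [Cp, Finset.mem_union]
        exact Or.inl (Or.inl (Or.inl (Or.inr
          (Finset.mem_image_of_mem (fun g => (fo (fun i => -(w g i : ℤ)) 1,
            (∑ i, (w g i : ℤ)) - (P.off g : ℤ))) hg))))
    rw [sum_fo] at hle hge
    have e : ∑ i, -(w g i : ℤ) * (u (some i) : ℤ) = -∑ i, (w g i : ℤ) * (u (some i) : ℤ) := by
      rw [← Finset.sum_neg_distrib]
      exact Finset.sum_congr rfl fun i _ => by ring
    rw [e] at hge
    have h1 : ((pair (w g) (fun j => u (some j)) : ℕ) : ℤ) = (u none : ℤ) := by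
      rw [pair]
      push_cast
      linarith
    exact_mod_cast h1
  have hsum : ∀ (B : Finset I), ∑ i, ((if i ∈ B then 1 else 0 : ℤ)) * (u (some i) : ℤ) =
      ((∑ b ∈ B, u (some b) : ℕ) : ℤ) := by
    intro B
    push_cast
    simp [Finset.sum_ite_mem]
  have hdiff : ∀ (B B' : Finset I),
      ∑ o, fo (fun i => (if i ∈ B then 1 else 0) - (if i ∈ B' then 1 else 0)) 0 o * (u o : ℤ) =
        ((∑ b ∈ B, u (some b) : ℕ) : ℤ) - ((∑ b ∈ B', u (some b) : ℕ) : ℤ) := by
    intro B B'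
    rw [sum_fo, ← hsum, ← hsum, ← Finset.sum_sub_distrib, zero_mul, zero_add]
    exact Finset.sum_congr rfl fun i _ => by ring
  have hbas : ∀ B, IsBas a (DT w D P.T) B → ∑ b ∈ B, u (some b) ≤ ∑ b ∈ B₀, u (some b) := by
    intro B hB
    have h := hnn (fo (fun i => (if i ∈ B₀ then 1 else 0) - (if i ∈ B then 1 else 0)) 0,
      if B ∈ P.BB then 0 else 1) (by
        simp only [Cp, Finset.mem_union]
        exact Or.inl (Or.inr (Finset.mem_image_of_mem (fun B =>
          (fo (fun i => (if i ∈ B₀ then 1 else 0) - (if i ∈ B then 1 else 0)) 0,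
            if B ∈ P.BB then (0 : ℤ) else 1)) (Finset.mem_filter.mpr ⟨Finset.mem_univ B, hB⟩))))
    simp only at h
    rw [hdiff] at h
    have h' := sub_nonneg.mp h
    exact_mod_cast h'
  have hBB : ∀ B ∈ P.BB, ∑ b ∈ B, u (some b) = ∑ b ∈ B₀, u (some b) := by
    intro B hB
    refine le_antisymm (hbas B ((hP.BB B).1 hB).1) ?_
    have h := hnn (fo (fun i => (if i ∈ B then 1 else 0) - (if i ∈ B₀ then 1 else 0)) 0,
      0) (by
        simp only [Cp, Finset.mem_union]
        exact Or.inl (Or.inl (Or.inr (Finset.mem_image_of_mem (fun B =>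
          (fo (fun i => (if i ∈ B then 1 else 0) - (if i ∈ B₀ then 1 else 0)) 0,
            (0 : ℤ))) hB))))
    simp only at h
    rw [hdiff] at h
    have h' := sub_nonneg.mp h
    exact_mod_cast h'
  have hcc : ∀ g, g ∉ S → g ∉ P.T → ∀ c ∈ Cc a (DT w D P.T) B₀,
      (u none : ℤ) ≤ ∑ j, cform a (DT w D P.T) (w g) c j * (u (some j) : ℤ) := by
    intro g hS hT c hc
    have h := hnn (fo (cform a (DT w D P.T) (w g) c) (-1), (Hb w : ℤ) - ∑ i, (w g i : ℤ)) (by
        simp only [Cp, Finset.mem_union]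
        exact Or.inr (Finset.mem_image_of_mem (fun gc : Γ × (I → I) =>
          (fo (cform a (DT w D P.T) (w gc.1) gc.2) (-1), (Hb w : ℤ) - ∑ i, (w gc.1 i : ℤ)))
          (Finset.mem_filter.mpr ⟨Finset.mem_univ (g, c), hS, hT, hc⟩)))
    simp only at h
    rw [p5_cform_fo] at h
    linarith
  have hmax : ∀ B ∈ P.BB, MaxB a (DT w D P.T) (fun j => u (some j)) B :=
    maxB_of_ineq hP (fun j => u (some j)) B₀ hBB hbas
  have hclo : ∀ i ∈ DT w D P.T, clo a (DT w D P.T) (fun j => u (some j)) i = u (some i) :=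
    fun i hi => clo_eq_self ha hP (fun j => u (some j)) hmax hi
  have hpST : ∀ g, (g ∈ S ∨ g ∈ P.T) →
      pair (w g) (clo a (DT w D P.T) (fun j => u (some j))) = u none := by
    intro g hg
    rw [← hST g hg, pair, pair]
    refine Finset.sum_congr rfl fun i _ => ?_
    by_cases hi : w g i = 0
    · simp [hi]
    · rw [hclo i (supp_le hD hg hi)]
  have hall : ∀ g, u none ≤ pair (w g) (clo a (DT w D P.T) (fun j => u (some j))) := by
    intro g
    by_cases hg : g ∈ S ∨ g ∈ P.T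
    · exact (hpST g hg).ge
    · rw [not_or] at hg
      obtain ⟨c, hc, hc'⟩ := exists_pair_clo_eq ha (hmax B₀ hB₀) hclo
      have h := hcc g hg.1 hg.2 c hc
      rw [← hc' (w g)] at h
      exact_mod_cast h
  have hpos : 0 < u none := by
    rw [Nat.pos_iff_ne_zero]
    intro h0
    apply hU.ne u hu
    funext o
    rcases o with _ | i
    · exact h0
    · by_cases hi : i ∈ DT w D P.T
      · have hex : ∃ g, (g ∈ S ∨ g ∈ P.T) ∧ w g i ≠ 0 := by
          have hi' := (Finset.mem_filter.mp hi).2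
          rcases hi' with hi' | ⟨g, hg, hgi⟩
          · obtain ⟨g, hg, hgi⟩ := (hD i).1 hi'
            exact ⟨g, Or.inl hg, hgi⟩
          · exact ⟨g, Or.inr hg, hgi⟩
        obtain ⟨g, hg, hgi⟩ := hex
        have h1 := hST g hg
        rw [h0, pair, Finset.sum_eq_zero_iff] at h1
        rcases Nat.mul_eq_zero.mp (h1 i (Finset.mem_univ i)) with h2 | h2
        · exact absurd h2 hgi
        · exact h2
      · exact hz i hi
  have hne : ∃ g, g ∈ S ∨ g ∈ P.T := by
    by_contra hno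
    push Not at hno
    have hemp : ∀ i, i ∉ DT w D P.T := by
      intro i hi
      have hi' := (Finset.mem_filter.mp hi).2
      rcases hi' with hi' | ⟨g, hg, hgi⟩
      · obtain ⟨g, hg, hgi⟩ := (hD i).1 hi'
        exact (hno g).1 hg
      · exact (hno g).2 hg
    obtain ⟨g⟩ := (inferInstance : Nonempty Γ)
    obtain ⟨c, hc, hc'⟩ := exists_pair_clo_eq ha (hmax B₀ hB₀) hclo
    have h := hcc g (hno g).1 (hno g).2 c hc
    have h2 : ∑ j, cform a (DT w D P.T) (w g) c j * (u (some j) : ℤ) = 0 :=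
      Finset.sum_eq_zero fun j _ => by rw [hz j (hemp j)]; simp
    rw [h2] at h
    have : (u none : ℤ) > 0 := by exact_mod_cast hpos
    linarith
  have hmn : mn w (clo a (DT w D P.T) (fun j => u (some j))) = u none := by
    obtain ⟨g, hg⟩ := hne
    rw [mn]
    apply le_antisymm
    · rw [← hpST g hg]
      exact Nat.sInf_le ⟨g, rfl⟩
    · refine le_csInf (Set.range_nonempty_iff_nonempty.mpr ⟨g⟩) ?_
      rintro _ ⟨g', rfl⟩
      exact hall g'
  have hFc : ∀ g, (g ∈ S ∨ g ∈ P.T) →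
      g ∈ Fc w (clo a (DT w D P.T) (fun j => u (some j))) := by
    intro g hg
    rw [Fc, Finset.mem_filter]
    refine ⟨Finset.mem_univ g, fun g' => ?_⟩
    rw [hpST g hg]
    exact hall g'
  refine ⟨hz, hmax, hclo, hpos, hne, fun g hg => hFc g (Or.inl hg), fun g hg => hFc g (Or.inr hg),
    hmn, ?_, ?_⟩
  · rw [nu_clo ha (hmax B₀ hB₀), pair, Fintype.sum_option]
    simp [nuP, Finset.sum_ite_mem]
  · intro hprim d hd
    apply hprim d
    have hdy : ∀ i, d ∣ u (some i) := by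
      intro i
      by_cases hi : i ∈ DT w D P.T
      · rw [← hclo i hi]
        exact hd i
      · rw [hz i hi]
        exact dvd_zero d
    intro o
    rcases o with _ | i
    · obtain ⟨g, hg⟩ := hne
      rw [← hpST g hg, pair]
      exact Finset.dvd_sum fun i _ => Dvd.dvd.mul_left (hd i) _
    · exact hdy i

end LF
end MotMono
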