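import Pool.Agent.Lib.MP_4e5fcd_ag.LF.P5

/-!
# LF-P6: the rays of a pattern polyhedron are essential

Notation as in P5: `y j = u (some j)`, `κ = u none`, `D' = DT w D P.T`, `uh = clo a D' y`,
`E = Du w uh = {i | uh i ≠ 0, ∃ g ∈ Fc w uh, w g i ≠ 0}`; `ray_data` gives all basic facts.

(1) `E` contains all `i ∈ D'` with `uh i ≠ 0`: such `i` is in the support of some `g ∈ S ∪ P.T ⊆ Fc`.
`pos`: `mn w uh = κ > 0`.
`closed`: `clo a E uh i = uh i`: `≥`: if `uh i ≥ 1`, `a i ∈ sp {j ∈ D' | uh i ≤ y j}` (`le_clo_iff`), and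
these `j` have `uh j = y j ≥ 1`, so `j ∈ E`; `≤`: `clo a E uh ≤ clo a univ uh = uh` (`clo_mono`,
`clo_of_clo`/`clo_clo`).
(2) Let `B ∈ MaxB a D' uh` (equivalently `MaxB a D' y`, `maxB_congr`); then `B.filter (uh · ≠ 0)` is a
`MaxB a E uh` (`MaxB.restrict`; `clo a D' uh = uh` by `clo_clo`).
(3) `ext`: let `z ∈ LinM a E uh`, `pq (w g) z = kz` for all `g ∈ Fc w uh` (there is such a `g`). Define
`Y : Option I → ℚ`, `Y none = kz`, `Y (some i) = if i ∈ D' then z i else 0`. Apply `hU.ext u hu Y`:
 * `u o = 0 → Y o = 0`: `u none ≠ 0`; `u (some i) = 0`: if `i ∈ D'` then `uh i = 0`, `i ∉ E`,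
   `z i = 0` (definition of `LinM`).
 * forms vanishing on `u` vanish on `Y`: for `g ∈ S ∪ P.T`: `∑ w g i Y i = pq (w g) z = kz`, since
   `w g` is supported in `D'`. For the forms of two bases `B, B₀`, with `∑_B y = ∑_{B₀} y`: `B` is a
   basis of `D'` with maximal weight, so `MaxB a D' y B` (`MaxB.of_weight`), and by (2)
   `∑_B Y = ∑_{B.filter} z = ∑_{B₀.filter} z = ∑_{B₀} Y` (`z = 0` off `E`, in particular where
   `uh = 0`). For `g ∉ S ∪ P.T`, `c ∈ Cc a D' B₀` with `∑ cform .. * y = κ`: since
   `κ ≤ pair (w g) uh ≤ ∑ cform .. * y` (`pair_clo_le`, `mn_le`) we get `g ∈ Fc w uh` and, comparing term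
   by term (`sum_cform`), `y (c i) = uh i` for every `i ∉ D'` with `a i ∈ sp D'`, `w g i ≠ 0`
   (each term satisfies `uh i ≤ y (c i)` by `clo_le_of_cf`). We need
   `∑ cform .. * Y = kz = pq (w g) z`; by `sum_cform` it suffices: `Y (c i) = z i` for such `i`, and
   `z i = 0` for `a i ∉ sp D'` (then `uh i = 0` by `clo_eq_zero`, `i ∉ E`). If `uh i = 0`: `z i = 0`, and
   `c i ∈ B₀ ⊆ D'`, `y (c i) = 0`, so `z (c i) = 0` as `c i ∉ E`. If `uh i ≠ 0`: `i ∈ E` (`g ∈ Fc`,
   `w g i ≠ 0`); `B' = B₀.filter (uh · ≠ 0)` is `MaxB a E uh`; `c i ∈ B'`, and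
   `cf a B' i (c i) = cf a B₀ i (c i) ≠ 0` (`cf_subset`; `a i ∈ sp B'`); `uh (c i) = y (c i) = uh i`;
   `LinM_exchange` gives `z (c i) = z i`.
 So `Y = c • u`: `z i = c * y i = c * uh i` for `i ∈ D'`. For `i ∈ E`, `i ∉ D'`: `uh i ≥ 1`, so
 `a i ∈ sp D'`, by `exists_clo_eq` (for `MaxB a D' y B₀`) there is `b ∈ B₀` with `cf ≠ 0`, `y b = uh i`; as
 before `z b = z i` (`LinM_exchange` in `E`), so `z i = z b = c * y b = c * uh i`.
-/

open MvPolynomial

namespace MotMono
namespace LF

variable {I Γ : Type} [Fintype I] [Fintype Γ] [Nonempty Γ] {N : ℕ} {a : I → Fin N → ℂ}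
  {w : Γ → I → ℕ} {S : Finset Γ} {D : Finset I} {K₁ : ℕ} {mh₁ : I → ℕ} {P : Pat I Γ}

omit [Nonempty Γ] [Fintype Γ] in
theorem p6_sum_fo (v : I → ℤ) (s : ℤ) (Y : Option I → ℚ) :
    ∑ o, (fo v s o : ℚ) * Y o = s * Y none + ∑ i, (v i : ℚ) * Y (some i) := by
  rw [Fintype.sum_option]
  rfl

open Classical in
omit [Nonempty Γ] [Fintype Γ] in
theorem p6_sum_ind (B B' : Finset I) (f : I → ℚ) :
    ∑ i, ((((if i ∈ B then 1 else 0) - (if i ∈ B' then 1 else 0) : ℤ)) : ℚ) * f i =
      ∑ b ∈ B, f b - ∑ b ∈ B', f b := by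
  have h : ∀ C : Finset I, ∑ b ∈ C, f b = ∑ i, (if i ∈ C then (1 : ℚ) else 0) * f i := by
    intro C
    simp only [ite_mul, one_mul, zero_mul]
    rw [Finset.sum_ite_mem, Finset.univ_inter]
  rw [h B, h B', ← Finset.sum_sub_distrib]
  refine Finset.sum_congr rfl fun i _ => ?_
  push_cast
  ring

open Classical in
theorem ray_ess (ha : ∀ i, a i ≠ 0) (hD : ∀ i, i ∈ D ↔ ∃ g ∈ S, w g i ≠ 0)
    (hP : IsPat a w S D K₁ mh₁ P) {B₀ : Finset I} (hB₀ : B₀ ∈ P.BB) {U : Finset (Option I → ℕ)}
    (hU : IsRays (Zp w D P) ((Cp a w S D P B₀).image Prod.fst) U) (u : Option I → ℕ)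
    (hu : u ∈ U) : Ess a w (clo a (DT w D P.T) (fun j => u (some j))) := by
  have Rd := ray_data ha hD hP hB₀ hU u hu
  have hsupp : ∀ g, g ∈ S ∨ g ∈ P.T → ∀ i, i ∉ DT w D P.T → w g i = 0 := by
    intro g hg i hi
    by_contra hc
    exact hi (supp_le hD hg hc)
  have hDTm : ∀ i ∈ DT w D P.T, ∃ g, (g ∈ S ∨ g ∈ P.T) ∧ w g i ≠ 0 := by
    intro i hi
    unfold DT at hi
    rw [Finset.mem_filter] at hi
    rcases hi.2 with h | ⟨g, hg, h⟩
    · obtain ⟨g, hg, h⟩ := (hD i).1 h
      exact ⟨g, Or.inl hg, h⟩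
    · exact ⟨g, Or.inr hg, h⟩
  have hBm := Rd.maxB B₀ hB₀
  have hzero := Rd.zero
  have hclo := Rd.clo
  have hpos := Rd.pos
  have hne := Rd.ne
  have hS := Rd.S
  have hT := Rd.T
  have hmn := Rd.mn
  have hmaxB := Rd.maxB
  clear Rd
  set D' : Finset I := DT w D P.T with hD'
  set y : I → ℕ := fun j => u (some j) with hy
  set uh : I → ℕ := clo a D' y with huh
  have hyu : ∀ i ∈ D', uh i = y i := hclo
  have hE : ∀ i, i ∈ Du w uh ↔ uh i ≠ 0 ∧ ∃ g ∈ Fc w uh, w g i ≠ 0 := by
    intro i
    unfold Du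
    rw [Finset.mem_filter]
    exact ⟨fun h => h.2, fun h => ⟨Finset.mem_univ _, h⟩⟩
  have hST : ∀ g, g ∈ S ∨ g ∈ P.T → g ∈ Fc w uh := fun g hg => hg.elim (fun h => hS h) (fun h => hT h)
  have hDE : ∀ i ∈ D', uh i ≠ 0 → i ∈ Du w uh := by
    intro i hi h0
    obtain ⟨g, hg, hgi⟩ := hDTm i hi
    exact (hE i).2 ⟨h0, g, hST g hg, hgi⟩
  have hEne : ∀ i ∈ Du w uh, uh i ≠ 0 := fun i hi => ((hE i).1 hi).1
  have hcc : ∀ i, clo a D' uh i = uh i := clo_clo ha (Finset.Subset.refl _)
  -- restriction of the bases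
  have hres : ∀ B, MaxB a D' y B → MaxB a (Du w uh) uh (B.filter fun b => uh b ≠ 0) := by
    intro B hB
    exact MaxB.restrict ha hcc hDE hEne ((maxB_congr fun j hj => (hyu j hj).symm).1 hB)
  refine ⟨by rw [hmn]; exact hpos, ?_, ?_⟩
  · intro i
    apply le_antisymm
    · have h1 : clo a (Du w uh) uh i ≤ clo a Finset.univ uh i :=
        clo_mono (ha i) (Finset.subset_univ _) fun _ _ => le_rfl
      have h2 : clo a Finset.univ uh i = uh i := clo_clo ha (Finset.subset_univ _) i
      rwa [h2] at h1
    · rcases Nat.eq_zero_or_pos (uh i) with h0 | h0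
      · rw [h0]
        exact Nat.zero_le _
      · rw [le_clo_iff (ha i) h0]
        have h1 : a i ∈ sp a {j | j ∈ D' ∧ uh i ≤ y j} :=
          (le_clo_iff (ha i) h0).1 (le_refl (clo a D' y i))
        refine sp_mono ?_ h1
        rintro j ⟨hj1, hj2⟩
        have h3 : uh i ≤ uh j := by rw [hyu j hj1]; exact hj2
        exact ⟨hDE j hj1 (by omega), h3⟩
  · intro z hz hzF
    obtain ⟨g₀, hg₀⟩ := hne
    have hg₀F := hST g₀ hg₀
    have hkz : ∀ g ∈ Fc w uh, pq (w g) z = pq (w g₀) z := fun g hg => hzF g hg g₀ hg₀F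
    generalize pq (w g₀) z = kz at hkz
    have hz0 : ∀ i, i ∉ Du w uh → z i = 0 := hz.1
    have hz00 : ∀ i, uh i = 0 → z i = 0 := fun i hi => hz0 i fun h => hEne i h hi
    -- exchange
    have hexch : ∀ i b, i ∈ Du w uh → b ∈ B₀ → cf a B₀ i b ≠ 0 → uh i = y b → z b = z i := by
      intro i b hi hb hc hib
      have hbD : b ∈ D' := hBm.1.1 hb
      have hub : uh b = uh i := by rw [hyu b hbD, hib]
      have hBr := hres B₀ hBm
      have hbr : b ∈ B₀.filter fun b => uh b ≠ 0 :=
        Finset.mem_filter.2 ⟨hb, by rw [hub]; exact hEne i hi⟩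
      have hcf := cf_subset hBm.1.2.1 (Finset.filter_subset (fun b => uh b ≠ 0) B₀)
        (hBr.1.2.2 i hi) b hbr
      exact LinM_exchange hz hBr hi (by rw [hcf]; exact hc) hub
    -- sums over bases
    have hsum : ∀ B, MaxB a D' y B → ∑ b ∈ B, (if b ∈ D' then z b else 0)
        = ∑ b ∈ B.filter (fun b => uh b ≠ 0), z b := by
      intro B hB
      rw [Finset.sum_filter]
      refine Finset.sum_congr rfl fun b hb => ?_
      rw [if_pos (hB.1.1 hb)]
      by_cases h0 : uh b ≠ 0
      · rw [if_pos h0]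
      · rw [if_neg h0]
        exact hz00 b (not_not.1 h0)
    have hsumeq : ∀ B, MaxB a D' y B → ∑ b ∈ B, (if b ∈ D' then z b else 0)
        = ∑ b ∈ B₀, (if b ∈ D' then z b else 0) := by
      intro B hB
      rw [hsum B hB, hsum B₀ hBm]
      exact hz.2 _ _ (hres B hB) (hres B₀ hBm)
    have hpqD : ∀ g, g ∈ S ∨ g ∈ P.T → ∑ i, ((w g i : ℤ) : ℚ) * (if i ∈ D' then z i else 0) = kz := by
      intro g hg
      rw [← hkz g (hST g hg)]
      unfold pq
      refine Finset.sum_congr rfl fun i _ => ?_
      by_cases hi : i ∈ D'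
      · rw [if_pos hi]
        push_cast
        rfl
      · rw [hsupp g hg i hi]
        simp
    obtain ⟨c, hc⟩ := hU.ext u hu (fun o => o.elim kz (fun i => if i ∈ D' then z i else 0)) (by
      intro o ho
      cases o with
      | none => exact absurd ho hpos.ne'
      | some i =>
        show (if i ∈ D' then z i else 0) = 0
        split_ifs with hi
        · apply hz00
          rw [hyu i hi]
          exact ho
        · rfl) (by
      intro l hl hl0
      rw [Finset.mem_image] at hl
      obtain ⟨⟨l', s'⟩, hmem, hll⟩ := hl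
      simp only at hll
      subst hll
      unfold Cp at hmem
      rw [← hD'] at hmem
      simp only [Finset.mem_union, Finset.mem_image, Prod.mk.injEq, Finset.mem_filter,
        Finset.mem_univ, true_and] at hmem
      rcases hmem with (((((h | h) | h) | h) | h) | h) | h
      · obtain ⟨g, hg, rfl, _⟩ := h
        rw [p6_sum_fo]
        have := hpqD g (Or.inl hg)
        simp only [Option.elim_none, Option.elim_some]
        rw [this]
        push_cast
        ring
      · obtain ⟨g, hg, rfl, _⟩ := h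
        rw [p6_sum_fo]
        have := hpqD g (Or.inl hg)
        simp only [Option.elim_none, Option.elim_some, Int.cast_neg, neg_mul,
          Finset.sum_neg_distrib]
        rw [this]
        push_cast
        ring
      · obtain ⟨g, hg, rfl, _⟩ := h
        rw [p6_sum_fo]
        have := hpqD g (Or.inr hg)
        simp only [Option.elim_none, Option.elim_some]
        rw [this]
        push_cast
        ring
      · obtain ⟨g, hg, rfl, _⟩ := h
        rw [p6_sum_fo]
        have := hpqD g (Or.inr hg)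
        simp only [Option.elim_none, Option.elim_some, Int.cast_neg, neg_mul,
          Finset.sum_neg_distrib]
        rw [this]
        push_cast
        ring
      · obtain ⟨B, hB, rfl, _⟩ := h
        rw [p6_sum_fo]
        simp only [Option.elim_none, Option.elim_some]
        rw [p6_sum_ind, hsumeq B (hmaxB B hB)]
        push_cast
        ring
      · obtain ⟨B, hB, rfl, _⟩ := h
        have hBw : ∑ b ∈ B₀, (y b : ℚ) - ∑ b ∈ B, (y b : ℚ) = 0 := by
          have h1 := congrArg (fun n : ℤ => (n : ℚ)) hl0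
          have h2 := p6_sum_fo (fun i => (if i ∈ B₀ then 1 else 0) - (if i ∈ B then 1 else 0)) 0
            (fun o => (u o : ℚ))
          rw [p6_sum_ind] at h2
          push_cast at h1 h2
          rw [h1] at h2
          linarith
        have hBw' : ∑ b ∈ B₀, y b ≤ ∑ b ∈ B, y b := by
          have : ((∑ b ∈ B₀, y b : ℕ) : ℚ) = ((∑ b ∈ B, y b : ℕ) : ℚ) := by
            push_cast
            linarith
          exact le_of_eq (by exact_mod_cast this)
        have hBM : MaxB a D' y B := hBm.of_weight hB hBw'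
        rw [p6_sum_fo]
        simp only [Option.elim_none, Option.elim_some]
        rw [p6_sum_ind, hsumeq B hBM]
        push_cast
        ring
      · obtain ⟨⟨g, c⟩, ⟨hgS, hgT, hcc'⟩, rfl, _⟩ := h
        simp only at hgS hgT hcc' hl0
        rw [p6_sum_fo]
        simp only [Option.elim_none, Option.elim_some]
        have hcm : ∀ i, i ∉ D' → a i ∈ sp a (D' : Set I) → c i ∈ B₀ ∧ cf a B₀ i (c i) ≠ 0 := by
          unfold Cc at hcc'
          rw [Finset.mem_filter] at hcc'
          exact hcc'.2
        -- the order of the generator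
        rw [sum_fo] at hl0
        have hle := pair_clo_le ha hBm hyu (w g) hcc'
        have hmle := mn_le w uh g
        have hpair : pair (w g) uh = u none := by
          have h1 : (pair (w g) uh : ℤ) ≤ u none := by linarith
          rw [hmn] at hmle
          have h2 : pair (w g) uh ≤ u none := by exact_mod_cast h1
          omega
        have hgF : g ∈ Fc w uh := mem_Fc_iff.2 (by rw [hpair, hmn])
        -- the terms
        have hterm : ∀ i, w g i * uh i ≤ w g i *
            (if i ∈ D' then y i else if a i ∈ sp a (D' : Set I) then y (c i) else 0) := by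
          intro i
          refine Nat.mul_le_mul_left _ ?_
          split_ifs with h1 h2
          · exact le_of_eq (hyu i h1)
          · exact clo_le_of_cf (ha i) hBm h2 (hcm i h1 h2).2
          · exact le_of_eq (clo_eq_zero h2)
        have hsumt : ∑ i, w g i * uh i = ∑ i, w g i *
            (if i ∈ D' then y i else if a i ∈ sp a (D' : Set I) then y (c i) else 0) := by
          have h1 := sum_cform (a := a) (D' := D') (w g) c (fun j => (y j : ℚ))
          have h2 : ∑ j, (cform a D' (w g) c j : ℚ) * (y j : ℚ) = (u none : ℚ) := by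
            have h3 : ∑ j, cform a D' (w g) c j * (y j : ℤ) = (u none : ℤ) := by
              linarith
            exact_mod_cast h3
          rw [h2] at h1
          have h4 : ((∑ i, w g i * (if i ∈ D' then y i else if a i ∈ sp a (D' : Set I) then
              y (c i) else 0) : ℕ) : ℚ) = (u none : ℚ) := by
            rw [h1]
            push_cast
            rfl
          have h5 : ∑ i, w g i * (if i ∈ D' then y i else if a i ∈ sp a (D' : Set I) then
              y (c i) else 0) = u none := by exact_mod_cast h4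
          rw [h5, ← hpair]
          rfl
        have hteq := (Finset.sum_eq_sum_iff_of_le fun i _ => hterm i).1 hsumt
        have hgoal : ∑ j, (cform a D' (w g) c j : ℚ) * (if j ∈ D' then z j else 0) = kz := by
          rw [sum_cform (a := a) (D' := D') (w g) c (fun j => if j ∈ D' then z j else 0),
            ← hkz g hgF]
          unfold pq
          refine Finset.sum_congr rfl fun i _ => ?_
          by_cases hwi : w g i = 0
          · rw [hwi]
            simp
          · congr 1
            have h1 := Nat.eq_of_mul_eq_mul_left (Nat.pos_of_ne_zero hwi)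
              (hteq i (Finset.mem_univ i))
            by_cases hiD : i ∈ D'
            · rw [if_pos hiD, if_pos hiD]
            · rw [if_neg hiD]
              rw [if_neg hiD] at h1
              by_cases his : a i ∈ sp a (D' : Set I)
              · rw [if_pos his] at h1 ⊢
                have hci := hcm i hiD his
                have hciD : c i ∈ D' := hBm.1.1 hci.1
                rw [if_pos hciD]
                by_cases h0 : uh i = 0
                · rw [hz00 i h0]
                  apply hz00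
                  rw [hyu _ hciD, ← h1, h0]
                · exact hexch i (c i) ((hE i).2 ⟨h0, g, hgF, hwi⟩) hci.1 hci.2 h1
              · rw [if_neg his, hz00 i (clo_eq_zero his)]
        rw [hgoal]
        push_cast
        ring)
    refine ⟨c, fun i hi => ?_⟩
    have hDc : ∀ j ∈ D', z j = c * y j := by
      intro j hj
      have := hc (some j)
      simp only [Option.elim_some] at this
      rwa [if_pos hj] at this
    by_cases hiD : i ∈ D'
    · rw [hDc i hiD, hyu i hiD]
    · have his : a i ∈ sp a (D' : Set I) := by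
        by_contra hcon
        exact hEne i hi (clo_eq_zero hcon)
      obtain ⟨b, hb, hcf, hcl⟩ := exists_clo_eq (ha i) hBm his
      rw [← hexch i b hi hb hcf hcl, hDc b (hBm.1.1 hb)]
      congr 2
      exact hcl.symm

end LF
end MotMono
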