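import Pool.Agent.Lib.MP_4e5fcd_ag.LF.P1
import Pool.Agent.Lib.MP_4e5fcd_ag.LF.P2
import Pool.Agent.Lib.MP_4e5fcd_ag.LF.P6

/-!
# LF-P7: the generating function of one pattern
-/

open MvPolynomial

namespace MotMono
namespace LF

variable {I Γ : Type} [Fintype I] [Fintype Γ] [Nonempty Γ] {N : ℕ} {a : I → Fin N → ℂ}
  {w : Γ → I → ℕ} {S : Finset Γ} {D : Finset I} {K₁ : ℕ} {mh₁ : I → ℕ} {P : Pat I Γ}

omit [Nonempty Γ] in
private theorem p7_bij (ha : ∀ i, a i ≠ 0)
    (hD : ∀ i, i ∈ D ↔ ∃ g ∈ S, w g i ≠ 0) (hP : IsPat a w S D K₁ mh₁ P) {B₀ : Finset I}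
    (hB₀ : B₀ ∈ P.BB) (K : ℕ) (hK : 0 < K) :
    Set.BijOn (fun b : Option I → ℕ => clo a (DT w D P.T) (fun j => b (some j)))
      {b | InP (Zp w D P) (Cp a w S D P B₀) b ∧ b none = K} {mh | IsPat a w S D K mh P} := by
  classical
  refine ⟨?_, ?_, ?_⟩
  · rintro b ⟨hb, hbK⟩
    rw [inP_iff ha hD hP hB₀] at hb
    obtain ⟨-, -, -, h4⟩ := hb
    rw [hbK] at h4
    exact h4
  · rintro b ⟨hb, hbK⟩ b' ⟨hb', hbK'⟩ hbb
    rw [inP_iff ha hD hP hB₀] at hb hb'
    obtain ⟨-, h2, h3, -⟩ := hb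
    obtain ⟨-, h2', h3', -⟩ := hb'
    funext o
    cases o with
    | none => rw [hbK, hbK']
    | some i =>
      by_cases hi : i ∈ DT w D P.T
      · rw [← h3 i hi, ← h3' i hi]
        exact congrFun hbb i
      · rw [h2 i hi, h2' i hi]
  · intro mh hmh
    have hmh' : IsPat a w S D K mh P := hmh
    set b : Option I → ℕ := fun o => o.elim K (fun i => if i ∈ DT w D P.T then mh i else 0) with hb
    have hclo : clo a (DT w D P.T) (fun j => b (some j)) = mh := by
      funext i
      rw [clo_congr (x' := mh) (by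
        intro j hj
        simp only [hb, Option.elim_some, if_pos hj])]
      exact hmh'.closed i
    refine ⟨b, ⟨?_, rfl⟩, hclo⟩
    rw [inP_iff ha hD hP hB₀]
    refine ⟨hK, ?_, ?_, ?_⟩
    · intro i hi
      simp only [hb, Option.elim_some, if_neg hi]
    · intro i hi
      rw [hclo]
      simp only [hb, Option.elim_some, if_pos hi]
    · rw [hclo]
      exact hmh'

private theorem p7_pair (B₀ : Finset I) (b : Option I → ℕ) :
    pair (nuP B₀) b = ∑ i ∈ B₀, b (some i) := by
  classical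
  unfold pair nuP
  rw [Fintype.sum_option]
  simp

theorem pat_one {R : Type*} [CommRing R] (ha : ∀ i, a i ≠ 0)
    (hD : ∀ i, i ∈ D ↔ ∃ g ∈ S, w g i ≠ 0) (hP : IsPat a w S D K₁ mh₁ P) (q : R) :
    (∀ K, 0 < K → {mh | IsPat a w S D K mh P}.Finite) ∧
    ∃ U : Finset (I → ℕ), (∀ u ∈ U, Prim u ∧ Ess a w u ∧ S ⊆ Fc w u ∧ P.T ⊆ Fc w u) ∧
      ∃ Q : Polynomial R,
        (∏ u ∈ U, (1 - PowerSeries.C (q ^ nu a u) * PowerSeries.X ^ mn w u)) *
          PowerSeries.mk (fun K => if K = 0 then 0 else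
            ∑ᶠ (mh : I → ℕ) (_ : IsPat a w S D K mh P), q ^ nu a mh) =
        (Q : PowerSeries R) := by
  classical
  obtain ⟨B₀, hB₀⟩ := BB_nonempty hP
  obtain ⟨U₁, hU, hprim⟩ := exists_prim_rays (Zp w D P) ((Cp a w S D P B₀).image Prod.fst)
  have hray : ∀ u ∈ U₁, RayData a w S D P B₀ u := fun u hu => by
    have := ray_data ha hD hP hB₀ (U := U₁) (by convert hU) u hu
    exact this
  have hess : ∀ u ∈ U₁, Ess a w (clo a (DT w D P.T) (fun j => u (some j))) := fun u hu => by
    have := ray_ess ha hD hP hB₀ (U := U₁) (by convert hU) u hu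
    exact this
  obtain ⟨hfin, Q, hQ⟩ := gf_poly q (nuP B₀) none (Zp w D P) (Cp a w S D P B₀) U₁
    (by convert hU) (fun u hu => (hray u hu).pos)
  refine ⟨?_, ?_⟩
  · intro K hK
    have h := p7_bij ha hD hP hB₀ K hK
    rw [← h.image_eq]
    exact (hfin K).image _
  set ψ : (Option I → ℕ) → (I → ℕ) := fun b => clo a (DT w D P.T) (fun j => b (some j)) with hψ
  have hinj : Set.InjOn ψ (U₁ : Set (Option I → ℕ)) := by
    intro u hu u' hu' h
    have r := hray u hu
    have r' := hray u' hu'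
    funext o
    cases o with
    | none =>
      have e1 := r.mn
      have e2 := r'.mn
      have e3 : mn w (ψ u) = mn w (ψ u') := by rw [h]
      rw [← e1, ← e2]
      exact e3
    | some i =>
      by_cases hi : i ∈ DT w D P.T
      · rw [← r.clo i hi, ← r'.clo i hi]
        exact congrFun h i
      · rw [r.zero i hi, r'.zero i hi]
  refine ⟨U₁.image ψ, ?_, Q, ?_⟩
  · intro v hv
    rw [Finset.mem_image] at hv
    obtain ⟨u, hu, rfl⟩ := hv
    have r := hray u hu
    exact ⟨r.prim (hprim u hu), hess u hu, r.S, r.T⟩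
  · rw [Finset.prod_image hinj, ← hQ]
    congr 1
    · refine Finset.prod_congr rfl fun u hu => ?_
      have r := hray u hu
      have e1 : mn w (ψ u) = u none := r.mn
      have e2 : nu a (ψ u) = pair (nuP B₀) u := r.nu
      rw [e1, e2]
    · congr 1
      funext K
      rcases Nat.eq_zero_or_pos K with hK | hK
      · rw [if_pos hK, hK]
        symm
        apply finsum_eq_zero_of_forall_eq_zero
        intro b
        have hn : ¬ (InP (Zp w D P) (Cp a w S D P B₀) b ∧ b none = 0) := by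
          rintro ⟨h1, h2⟩
          have h3 := ((inP_iff ha hD hP hB₀ b).mp h1).1
          rw [h2] at h3
          exact absurd h3 (by norm_num)
        rw [finsum_eq_if, if_neg hn]
      · rw [if_neg hK.ne']
        have key : ∀ b ∈ {b | InP (Zp w D P) (Cp a w S D P B₀) b ∧ b none = K},
            (fun b => q ^ pair (nuP B₀) b) b = (fun mh => q ^ nu a mh) (ψ b) := ?_
        · exact (finsum_mem_eq_of_bijOn (f := fun b => q ^ pair (nuP B₀) b)
            (g := fun mh => q ^ nu a mh) ψ (p7_bij ha hD hP hB₀ K hK) key).symm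
        rintro b ⟨hb, hbK⟩
        simp only
        rw [inP_iff ha hD hP hB₀] at hb
        obtain ⟨-, h2, h3, h4⟩ := hb
        have h5 : MaxB a (DT w D P.T) (ψ b) B₀ := (h4.BB B₀).mp hB₀
        have h6 : MaxB a (DT w D P.T) (fun j => b (some j)) B₀ :=
          (maxB_congr (fun j hj => (h3 j hj).symm)).mpr h5
        rw [p7_pair, ← nu_clo ha h6]

end LF
end MotMono
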