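import Pool.Agent.Lib.MP_4e5fcd_ag.LF.J3
import Pool.Agent.Lib.MP_4e5fcd_ag.K1

/-!
# LF-S1: inclusion-exclusion and strata

`incl_excl`: for a finset `G` of conditions let `X_G = base ∩ {∀ g ∈ G, n + 1 ≤ pair_g}`,
`A_T = base ∩ {∀ g ∈ T, pair_g ≤ n}`, `base = {γ | level 0 = p, Sx, lc ∈ Θ}`, everything constructible
(`constr_of_vv`). More generally prove for disjoint `G`, `T₀`:
`cls (base ∩ {G} ∩ {T₀ small}) = ∑_{T ⊆ G} (-1)^|T| cls (A_{T ∪ T₀})` by induction on `G`
(`Finset.sum_powerset_insert`): `{insert g G} = {G} \ ({G} ∩ {pair_g ≤ n})`, `cls_diff`.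
`cls_AT`: `γ ∈ AT L n S T Θ`, `i ∈ DT w D T`: there is `g ∈ S ∪ T` with `w g i ≠ 0` and
`vv i + 1 ≤ pair_g ≤ n`, so `vv i < n`. Let `m i = vv i` for `i ∈ DT w D T` and `0` otherwise. Since the `w g`,
`g ∈ S ∪ T`, are supported in `DT w D T` (`hD`), the conditions on `vv` and on `m` are the same. So `AT` is
the disjoint union of the `YS L n (DT) (DT) m Θ` over the `m` in the index set (`cls_biUnion`).
-/

open MvPolynomial

namespace MotMono
namespace LF

variable {I Γ : Type} [Fintype I] [Fintype Γ] {N : ℕ}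

open Classical in
/-- jets with mixed conditions -/
private def zz (L : Loc I Γ N) (n : ℕ) (S G T : Finset Γ) (Θ : Set (I → ℂ)) :
    Set (Fin N × Fin (n + 1) → ℂ) :=
  {γ | ((∀ j, γ (j, 0) = L.p j) ∧ Sx L.w S (n + 1) (vv L.a γ) ∧
    (∀ g ∈ T, pair (L.w g) (fun i => vv L.a γ i + 1) ≤ n) ∧ lc L.a γ ∈ Θ) ∧
    ∀ g ∈ G, n + 1 ≤ pair (L.w g) (fun i => vv L.a γ i + 1)}

open Classical in
private lemma zz_main (L : Loc I Γ N) (n : ℕ) (S : Finset Γ) {Θ : Set (I → ℂ)} (hΘ : Constr Θ)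
    (G : Finset Γ) : ∀ T₀ : Finset Γ, Constr (zz L n S G T₀ Θ) ∧
      cls (zz L n S G T₀ Θ) = ∑ T ∈ G.powerset, (-1 : K0) ^ T.card * cls (AT L n S (T ∪ T₀) Θ) := by
  induction G using Finset.induction_on with
  | empty =>
    intro T₀
    have h : zz L n S ∅ T₀ Θ = AT L n S T₀ Θ := by
      ext γ
      simp [zz, AT]
    rw [h]
    refine ⟨constr_AT L S T₀ hΘ, ?_⟩
    simp
  | insert g G hg ih =>
    intro T₀
    have h : zz L n S (insert g G) T₀ Θ = zz L n S G T₀ Θ \ zz L n S G (insert g T₀) Θ := by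
      ext γ
      simp only [zz, Set.mem_sdiff, Set.mem_setOf_eq, Finset.mem_insert, forall_eq_or_imp]
      constructor
      · rintro ⟨⟨h1, h2, h3, h4⟩, h5, h6⟩
        refine ⟨⟨⟨h1, h2, h3, h4⟩, h6⟩, ?_⟩
        rintro ⟨⟨-, -, ⟨h7, -⟩, -⟩, -⟩
        omega
      · rintro ⟨⟨⟨h1, h2, h3, h4⟩, h6⟩, h7⟩
        refine ⟨⟨h1, h2, h3, h4⟩, ?_, h6⟩
        by_contra h8
        exact h7 ⟨⟨h1, h2, ⟨by omega, h3⟩, h4⟩, h6⟩
    have hsub : zz L n S G (insert g T₀) Θ ⊆ zz L n S G T₀ Θ := by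
      rintro γ ⟨⟨h1, h2, h3, h4⟩, h5⟩
      exact ⟨⟨h1, h2, fun g' hg' => h3 g' (Finset.mem_insert_of_mem hg'), h4⟩, h5⟩
    rw [h]
    refine ⟨(ih T₀).1.diff (ih (insert g T₀)).1, ?_⟩
    rw [cls_diff (ih T₀).1 (ih (insert g T₀)).1 hsub, (ih T₀).2, (ih (insert g T₀)).2,
      Finset.sum_powerset_insert hg, sub_eq_add_neg, ← Finset.sum_neg_distrib]
    congr 1
    refine Finset.sum_congr rfl fun T hT => ?_
    have hgT : g ∉ T := fun h' => hg (Finset.mem_powerset.1 hT h')
    rw [Finset.card_insert_of_notMem hgT, pow_succ, Finset.insert_union, Finset.union_insert]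
    ring

open Classical in
theorem incl_excl (L : Loc I Γ N) (n : ℕ) (S : Finset Γ) {Θ : Set (I → ℂ)} (hΘ : Constr Θ) :
    cls (XX L n S Θ) = ∑ T ∈ Sᶜ.powerset, (-1 : K0) ^ T.card * cls (AT L n S T Θ) := by
  have h := (zz_main L n S hΘ Sᶜ ∅).2
  have h2 : zz L n S Sᶜ ∅ Θ = XX L n S Θ := by
    ext γ
    simp only [zz, XX, Set.mem_setOf_eq, Finset.mem_compl, Finset.notMem_empty, false_imp_iff,
      implies_true, true_and]
    tauto
  rw [h2] at h
  rw [h]
  refine Finset.sum_congr rfl fun T _ => ?_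
  rw [Finset.union_empty]


open Classical in
/-- the index set of the strata -/
noncomputable def MT (w : Γ → I → ℕ) (S : Finset Γ) (D : Finset I) (n : ℕ) (T : Finset Γ) :
    Finset (I → ℕ) :=
  (Fintype.piFinset fun i => if i ∈ DT w D T then Finset.range n else {0}).filter fun m =>
    Sx w S (n + 1) m ∧ ∀ g ∈ T, pair (w g) (fun i => m i + 1) ≤ n

theorem cls_AT (L : Loc I Γ N) (n : ℕ) (S : Finset Γ) (D : Finset I)
    (hD : ∀ i, i ∈ D ↔ ∃ g ∈ S, L.w g i ≠ 0) (T : Finset Γ) {Θ : Set (I → ℂ)}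
    (hΘ : Constr Θ) :
    cls (AT L n S T Θ) =
      ∑ m ∈ MT L.w S D n T, cls (YS L n (DT L.w D T) (DT L.w D T) m Θ) := by
  classical
  have hcong : ∀ (m m' : I → ℕ), (∀ i ∈ DT L.w D T, m i = m' i) → ∀ g ∈ S ∪ T,
      pair (L.w g) (fun i => m i + 1) = pair (L.w g) (fun i => m' i + 1) := by
    intro m m' h g hg
    unfold pair
    refine Finset.sum_congr rfl fun i _ => ?_
    by_cases hi : L.w g i = 0
    · rw [hi, zero_mul, zero_mul]
    · have hi2 : i ∈ DT L.w D T := by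
        simp only [DT, Finset.mem_filter, Finset.mem_univ, true_and]
        rcases Finset.mem_union.1 hg with h3 | h3
        · exact Or.inl ((hD i).2 ⟨g, h3, hi⟩)
        · exact Or.inr ⟨g, h3, hi⟩
      simp only [h i hi2]
  have hle : ∀ (m : I → ℕ) (g : Γ) (i : I), L.w g i ≠ 0 →
      m i + 1 ≤ pair (L.w g) (fun i => m i + 1) := by
    intro m g i hi
    unfold pair
    calc m i + 1 ≤ L.w g i * (m i + 1) := Nat.le_mul_of_pos_left _ (Nat.pos_of_ne_zero hi)
      _ ≤ ∑ i, L.w g i * (m i + 1) :=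
        Finset.single_le_sum (f := fun i => L.w g i * (m i + 1)) (fun _ _ => Nat.zero_le _)
          (Finset.mem_univ i)
  have hEq : AT L n S T Θ = ⋃ m ∈ MT L.w S D n T, YS L n (DT L.w D T) (DT L.w D T) m Θ := by
    ext γ
    simp only [Set.mem_iUnion]
    constructor
    · rintro ⟨h1, h2, h3, h4⟩
      have hlt : ∀ i ∈ DT L.w D T, vv L.a γ i < n := by
        intro i hi
        simp only [DT, Finset.mem_filter, Finset.mem_univ, true_and] at hi
        rcases hi with hi | ⟨g, hg, hgi⟩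
        · obtain ⟨g, hg, hgi⟩ := (hD i).1 hi
          have h5 := hle (vv L.a γ) g i hgi
          have h6 := h2 g hg
          omega
        · have h5 := hle (vv L.a γ) g i hgi
          have h6 := h3 g hg
          omega
      have hm : ∀ i ∈ DT L.w D T, (fun i => if i ∈ DT L.w D T then vv L.a γ i else 0) i =
          vv L.a γ i := by
        intro i hi
        simp only [if_pos hi]
      refine ⟨fun i => if i ∈ DT L.w D T then vv L.a γ i else 0, ?_, h1, ?_, ?_, h4⟩
      · simp only [MT, Finset.mem_filter, Fintype.mem_piFinset]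
        refine ⟨fun i => ?_, fun g hg => ?_, fun g hg => ?_⟩
        · split_ifs with hi
          · exact Finset.mem_range.2 (hlt i hi)
          · exact Finset.mem_singleton_self 0
        · rw [hcong _ (vv L.a γ) hm g (Finset.mem_union_left _ hg)]
          exact h2 g hg
        · rw [hcong _ (vv L.a γ) hm g (Finset.mem_union_right _ hg)]
          exact h3 g hg
      · intro i hi
        exact (hm i hi).le
      · intro i hi
        exact ⟨(hm i hi).symm, by rw [hm i hi]; exact hlt i hi⟩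
    · rintro ⟨m, hm, h1, -, h3, h4⟩
      simp only [MT, Finset.mem_filter] at hm
      have hv : ∀ i ∈ DT L.w D T, vv L.a γ i = m i := fun i hi => (h3 i hi).1
      refine ⟨h1, fun g hg => ?_, fun g hg => ?_, h4⟩
      · rw [hcong (vv L.a γ) m hv g (Finset.mem_union_left _ hg)]
        exact hm.2.1 g hg
      · rw [hcong (vv L.a γ) m hv g (Finset.mem_union_right _ hg)]
        exact hm.2.2 g hg
  rw [hEq]
  refine cls_biUnion _ (fun m _ => constr_YS L _ _ m hΘ) fun m hm m' hm' hne => ?_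
  rw [Set.disjoint_left]
  rintro γ ⟨-, -, h3, -⟩ ⟨-, -, h3', -⟩
  apply hne
  funext i
  simp only [MT, Finset.mem_filter, Fintype.mem_piFinset] at hm hm'
  by_cases hi : i ∈ DT L.w D T
  · rw [← (h3 i hi).1, ← (h3' i hi).1]
  · have h5 := hm.1 i
    have h6 := hm'.1 i
    rw [if_neg hi, Finset.mem_singleton] at h5 h6
    rw [h5, h6]


end LF
end MotMono
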