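import Pool.Agent.Lib.MP_4e5fcd_ag.LF.A5
import Pool.Agent.Lib.MP_4e5fcd_ag.LF.A6

/-!
# LF-T1: restriction to a flat, bases and closures

`F : Finset J` is a flat: `lam i ∈ sp lam F → i ∈ F`. `I = {i // i ∈ F}`, `a i = lam i`; `ex x` is the
extension of `x : I → ℕ` by `0`; for `D : Finset I`, `D.map (Embedding.subtype _)` is the corresponding
subset of `J`. `sp a D = sp lam (image of D)` (`Set.image_image`). `IsBas` and `MaxB` correspond: every
subset of `D.map _` is `B.map _` for a unique `B ⊆ D`; linear independence: `LinearIndepOn` and injective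
maps (`LinearIndepOn.image`-type lemmas / `linearIndepOn_iff_image`, or directly
`LinearIndepOn.comp`). `clo_ex`: for `i ∈ F` the sets `{j | j ∈ D ∧ c ≤ x j}` correspond under the embedding
for all `c`; for `i ∉ F`: `lam i ∉ sp lam (D.map _) ⊆ sp lam F`, so the closure is `0` (`clo_eq_zero`).
-/

open MvPolynomial

namespace MotMono
namespace LF

variable {J : Type} [Fintype J] {N : ℕ} {lam : J → Fin N → ℂ} {F : Finset J}

open Classical in
/-- extension by zero -/
noncomputable def ex (F : Finset J) {M : Type} [Zero M] (x : {i // i ∈ F} → M) : J → M :=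
  fun i => if h : i ∈ F then x ⟨i, h⟩ else 0

/-- the image in `J` of a subset of `F` -/
def mp (F : Finset J) (D : Finset {i // i ∈ F}) : Finset J :=
  D.map (Function.Embedding.subtype _)

omit [Fintype J] in
private theorem t1_sp (E : Set {i // i ∈ F}) :
    sp (fun i : {i // i ∈ F} => lam i) E = sp lam (Subtype.val '' E) := by
  unfold sp
  rw [Set.image_image]

omit [Fintype J] in
private theorem t1_coe (D : Finset {i // i ∈ F}) : (mp F D : Set J) =
    Subtype.val '' (D : Set {i // i ∈ F}) := by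
  unfold mp
  rw [Finset.coe_map]
  rfl

omit [Fintype J] in
private theorem t1_mem (D : Finset {i // i ∈ F}) (i : {i // i ∈ F}) :
    (i : J) ∈ mp F D ↔ i ∈ D := by
  unfold mp
  exact Finset.mem_map' (Function.Embedding.subtype _)

omit [Fintype J] in
private theorem t1_mem' (D : Finset {i // i ∈ F}) {j : J} (h : j ∈ mp F D) :
    ∃ i ∈ D, (i : J) = j := by
  unfold mp at h
  rw [Finset.mem_map] at h
  obtain ⟨i, hi, h⟩ := h
  exact ⟨i, hi, h⟩

omit [Fintype J] in
private theorem t1_ex (x : {i // i ∈ F} → ℕ) (i : {i // i ∈ F}) : ex F x i = x i := by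
  unfold ex
  rw [dif_pos i.2]

omit [Fintype J] in
/-- the levels correspond -/
private theorem t1_lev (D : Finset {i // i ∈ F}) (x : {i // i ∈ F} → ℕ) (c : ℕ) :
    {j | j ∈ mp F D ∧ c ≤ ex F x j} = Subtype.val '' {j | j ∈ D ∧ c ≤ x j} := by
  ext j
  simp only [Set.mem_ofPred_eq, Set.mem_image]
  constructor
  · rintro ⟨h1, h2⟩
    obtain ⟨i, hi, rfl⟩ := t1_mem' D h1
    rw [t1_ex] at h2
    exact ⟨i, ⟨hi, h2⟩, rfl⟩
  · rintro ⟨i, ⟨h1, h2⟩, rfl⟩
    exact ⟨(t1_mem D i).mpr h1, by rw [t1_ex]; exact h2⟩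

omit [Fintype J] in
private theorem t1_isBas (D B : Finset {i // i ∈ F}) :
    IsBas lam (mp F D) (mp F B) ↔ IsBas (fun i : {i // i ∈ F} => lam i) D B := by
  unfold IsBas
  refine and_congr ?_ (and_congr ?_ ?_)
  · unfold mp
    exact Finset.map_subset_map
  · rw [t1_coe]
    constructor
    · intro h
      exact h.comp_of_image Subtype.val_injective.injOn
    · intro h
      exact LinearIndepOn.image_of_comp (Subtype.val) lam h
  · rw [t1_sp, ← t1_coe]
    constructor
    · intro h i hi
      exact h i ((t1_mem D i).mpr hi)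
    · intro h j hj
      obtain ⟨i, hi, rfl⟩ := t1_mem' D hj
      exact h i hi

theorem maxB_mp (D B : Finset {i // i ∈ F}) (x : {i // i ∈ F} → ℕ) :
    MaxB lam (mp F D) (ex F x) (mp F B) ↔ MaxB (fun i : {i // i ∈ F} => lam i) D x B := by
  unfold MaxB
  rw [t1_isBas]
  refine and_congr Iff.rfl ?_
  constructor
  · intro h i hi
    have h1 := h i ((t1_mem D i).mpr hi)
    rw [t1_lev, t1_ex, ← t1_sp] at h1
    exact h1
  · intro h j hj
    obtain ⟨i, hi, rfl⟩ := t1_mem' D hj
    rw [t1_lev, t1_ex, ← t1_sp]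
    exact h i hi

theorem exists_mp {D : Finset {i // i ∈ F}} {x : {i // i ∈ F} → ℕ} {B' : Finset J}
    (h : MaxB lam (mp F D) (ex F x) B') : ∃ B : Finset {i // i ∈ F}, B' = mp F B := by
  classical
  refine ⟨Finset.univ.filter fun i => (i : J) ∈ B', ?_⟩
  ext j
  constructor
  · intro hj
    obtain ⟨i, hi, rfl⟩ := t1_mem' D (h.1.1 hj)
    rw [t1_mem]
    simp [hj]
  · intro hj
    obtain ⟨i, hi, rfl⟩ := t1_mem' _ hj
    simpa using hi

theorem clo_ex (hF : ∀ i, lam i ∈ sp lam (F : Set J) → i ∈ F) (D : Finset {i // i ∈ F})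
    (x : {i // i ∈ F} → ℕ) :
    clo lam (mp F D) (ex F x) = ex F (clo (fun i : {i // i ∈ F} => lam i) D x) := by
  funext j
  by_cases hj : j ∈ F
  · have h1 := t1_ex (F := F) (clo (fun i : {i // i ∈ F} => lam i) D x) ⟨j, hj⟩
    change ex F (clo (fun i : {i // i ∈ F} => lam i) D x) j = _ at h1
    rw [h1]
    unfold clo
    congr 1
    ext c
    rw [Set.mem_ofPred_eq, Set.mem_ofPred_eq, t1_lev, ← t1_sp]
  · have h1 : ex F (clo (fun i : {i // i ∈ F} => lam i) D x) j = 0 := by
      unfold ex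
      rw [dif_neg hj]
    rw [h1]
    apply clo_eq_zero
    intro h
    apply hj
    apply hF
    refine sp_mono ?_ h
    intro i hi
    obtain ⟨i', -, rfl⟩ := t1_mem' D (Finset.mem_coe.mp hi)
    exact i'.2

end LF
end MotMono
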