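import Pool.Agent.Lib.MP_4e5fcd_ag.LF.A6
import Pool.Agent.Lib.MP_4e5fcd_ag.LF.A5
import Pool.Agent.Lib.MP_4e5fcd_ag.LF.J3
import Pool.Agent.Lib.MP_4e5fcd_ag.Kum.E3

/-!
# LF-X2: torus actions on the sets `XM`

`ci_congr`: if `x b = x i ↔ x' b = x' i` for all `b ∈ B` with `cf a B i b ≠ 0`, the `ci` agree.
`XM_congr`: for `B` with `MaxB a D' x B` and the same `MaxB` sets for `x'`: for `i ∈ D ⊆ D'` and `b` with
`cf ≠ 0`: `x b = x i ↔ MaxB a D' x (insert i (B.erase b)) ↔ ... ↔ x' b = x' i` (`MaxB.exchange`); `Θ`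
depends only on the coordinates in `D`.
`Th_dep`: `Th w S t` depends only on the coordinates in `D` if the `w g`, `g ∈ S` are supported in `D`
(`0 ^ 0 = 1`: factors with `w g i = 0` are `1`).
`XM_empty`: if `i ∈ D` and `clo a D x i ≠ x i`, i.e. `x i < clo a D x i` (`le_clo`), then all `b ∈ B` with
`cf a B i b ≠ 0` have `x b ≥ clo a D x i > x i` (`clo_le_of_cf`), so `ci i = 0` for all `c`.
`ci_torus`: let `z : I → ℤ` with `z b = z i` whenever `i ∈ D`, `b ∈ B`, `cf a B i b ≠ 0`, `x b = x i`. Then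
`ci a B x (fun b => τ ^ z b * c b) i = τ ^ z i * ci a B x c i` for `i ∈ D`.
`chi_XM_eq_zero`: `¬ Sep`: there is `z ∈ LinM a D x`, `z ≠ 0`, `pq (w g) z = 0` for `g ∈ S`. Multiply
with a common denominator: `ζ : I → ℤ`, `(ζ i : ℚ) = M * z i`, `M > 0`; `ζ i₀ ≠ 0` for some `i₀`, which
is in `D`; replacing `ζ` by `-ζ` we may assume `e = ζ i₀ > 0`. `LinM_exchange` gives the hypothesis of
`ci_torus`. `∏ i, (τ ^ ζ i * c i) ^ w g i = τ ^ (∑ w g i ζ i) * ∏ = ∏`. Apply `chi_torus` with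
`σ = B`, weights `ζ b`, `h` the linear polynomial `∑_{b, x b = x i₀} cf b X b` (`eval c h = ci c i₀`).
-/

open MvPolynomial

namespace MotMono
namespace LF

variable {I Γ : Type} [Fintype I] {N : ℕ} {a : I → Fin N → ℂ} {D D' B : Finset I}
  {x x' : I → ℕ}

theorem Th_dep {w : Γ → I → ℕ} {S : Finset Γ} {t : Γ → ℂ}
    (hS : ∀ g ∈ S, ∀ i, w g i ≠ 0 → i ∈ D) (c c' : I → ℂ) (h : ∀ i ∈ D, c i = c' i)
    (hc : c ∈ Th w S t) : c' ∈ Th w S t := by
  intro g hg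
  rw [← hc g hg]
  refine Finset.prod_congr rfl fun i _ => ?_
  by_cases hi : w g i = 0
  · rw [hi, pow_zero, pow_zero]
  · rw [h i (hS g hg i hi)]

theorem XM_congr (hDD : D ⊆ D') (hB : MaxB a D' x B)
    (h : ∀ B, MaxB a D' x B ↔ MaxB a D' x' B) {Θ : Set (I → ℂ)}
    (hΘ : ∀ c c' : I → ℂ, (∀ i ∈ D, c i = c' i) → c ∈ Θ → c' ∈ Θ) :
    XM a B x D Θ = XM a B x' D Θ := by
  classical
  have key : ∀ (c : B → ℂ), ∀ i ∈ D, ci a B x c i = ci a B x' c i := by
    intro c i hi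
    unfold ci
    refine Finset.sum_congr rfl fun b _ => ?_
    by_cases hc : cf a B i b = 0
    · simp [hc]
    · have h1 := hB.exchange (hDD hi) hc
      have h2 := ((h B).1 hB).exchange (hDD hi) hc
      have h3 : x b = x i ↔ x' b = x' i := h1.symm.trans ((h _).trans h2)
      by_cases h4 : x b = x i
      · rw [if_pos h4, if_pos (h3.1 h4)]
      · rw [if_neg h4, if_neg (fun h5 => h4 (h3.2 h5))]
  ext c
  constructor
  · rintro ⟨h1, h2⟩
    exact ⟨fun i hi => by rw [← key c i hi]; exact h1 i hi, hΘ _ _ (key c) h2⟩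
  · rintro ⟨h1, h2⟩
    exact ⟨fun i hi => by rw [key c i hi]; exact h1 i hi, hΘ _ _ (fun i hi => (key c i hi).symm) h2⟩

theorem XM_empty (ha : ∀ i, a i ≠ 0) (hB : MaxB a D x B) {i : I} (hi : i ∈ D)
    (h : clo a D x i ≠ x i) (Θ : Set (I → ℂ)) : XM a B x D Θ = ∅ := by
  rw [Set.eq_empty_iff_forall_notMem]
  rintro c ⟨h1, -⟩
  apply h1 i hi
  unfold ci
  refine Finset.sum_eq_zero fun b _ => ?_
  by_cases hc : cf a B i b = 0
  · simp [hc]
  · have h2 : clo a D x i ≤ x b := clo_le_of_cf (ha i) hB (mem_sp_of_mem (D := (D : Set I)) hi) hc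
    have h3 : x i ≤ clo a D x i := le_clo (ha i) hi
    rw [if_neg]
    omega

theorem ci_torus {z : I → ℤ} {i : I}
    (hz : ∀ b ∈ B, cf a B i b ≠ 0 → x b = x i → z b = z i) (τ : ℂ) (c : B → ℂ) :
    ci a B x (fun b => τ ^ z b * c b) i = τ ^ z i * ci a B x c i := by
  unfold ci
  rw [Finset.mul_sum]
  refine Finset.sum_congr rfl fun b _ => ?_
  by_cases hc : cf a B i b = 0
  · simp [hc]
  · by_cases hx : x b = x i
    · have h1 : z b = z i := hz b b.2 hc hx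
      rw [if_pos hx, if_pos hx]
      show cf a B i b * (τ ^ z b * c b) = τ ^ z i * (cf a B i b * c b)
      rw [h1]
      ring
    · rw [if_neg hx, if_neg hx, mul_zero]

/-- `ci` is given by a polynomial -/
theorem exists_ciPoly (a : I → Fin N → ℂ) (B : Finset I) (x : I → ℕ) (i : I) :
    ∃ P : MvPolynomial B ℂ, ∀ c, eval c P = ci a B x c i := by
  classical
  refine ⟨∑ b : B, if x b = x i then C (cf a B i b) * X b else 0, fun c => ?_⟩
  unfold ci
  rw [map_sum]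
  refine Finset.sum_congr rfl fun b _ => ?_
  by_cases hx : x b = x i
  · rw [if_pos hx, if_pos hx, map_mul, eval_C, eval_X]
  · rw [if_neg hx, if_neg hx, map_zero]

private theorem x2_prod_zpow {ι : Type*} (s : Finset ι) (f : ι → ℤ) {τ : ℂ} (hτ : τ ≠ 0) :
    ∏ i ∈ s, τ ^ f i = τ ^ ∑ i ∈ s, f i := by
  classical
  induction s using Finset.induction_on with
  | empty => simp
  | insert i s hi ih => rw [Finset.prod_insert hi, Finset.sum_insert hi, zpow_add₀ hτ, ih]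

theorem chi_XM_eq_zero {χ : K0 →+* ℤ} (hχ : IsEulerChar χ) {w : Γ → I → ℕ} {S : Finset Γ}
    {t : Γ → ℂ} (hS : ∀ g ∈ S, ∀ i, w g i ≠ 0 → i ∈ D) (hB : MaxB a D x B)
    (h : ¬ Sep w S (LinM a D x)) : χ (cls (XM a B x D (Th w S t))) = 0 := by
  unfold Sep at h
  push Not at h
  obtain ⟨z, hz, hzS, hz0⟩ := h
  obtain ⟨b, hb⟩ := IsLocalization.exist_integer_multiples_of_finite (nonZeroDivisors ℤ) z
  have hb0 : (b : ℤ) ≠ 0 := nonZeroDivisors.coe_ne_zero b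
  choose ζ hζ using hb
  have hζ' : ∀ i, (ζ i : ℚ) = (b : ℤ) * z i := by
    intro i
    have h1 := hζ i
    rw [zsmul_eq_mul] at h1
    exact_mod_cast h1
  obtain ⟨i₀, hi₀⟩ : ∃ i, z i ≠ 0 := by
    by_contra hcon
    push Not at hcon
    exact hz0 (funext hcon)
  have hi₀D : i₀ ∈ D := by
    by_contra hcon
    exact hi₀ (hz.1 i₀ hcon)
  have hb0' : ((b : ℤ) : ℚ) ≠ 0 := by exact_mod_cast hb0
  have hζ0 : ζ i₀ ≠ 0 := by
    intro h1
    have h2 := hζ' i₀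
    rw [h1, Int.cast_zero] at h2
    exact (mul_ne_zero hb0' hi₀) h2.symm
  obtain ⟨s, hs⟩ : ∃ s : ℤ, 0 < s * ζ i₀ := by
    rcases lt_or_gt_of_ne hζ0 with h1 | h1
    · exact ⟨-1, by linarith⟩
    · exact ⟨1, by linarith⟩
  obtain ⟨e, he⟩ : ∃ e : ℕ, (e : ℤ) = s * ζ i₀ := ⟨(s * ζ i₀).toNat, Int.toNat_of_nonneg hs.le⟩
  have he0 : 0 < e := by
    have : (0 : ℤ) < e := by rw [he]; exact hs
    exact_mod_cast this
  set ξ : I → ℤ := fun i => s * ζ i with hξ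
  have hex : ∀ i ∈ D, ∀ b' ∈ B, cf a B i b' ≠ 0 → x b' = x i → ξ b' = ξ i := by
    intro i hi b' _ hc hx
    have h1 := LinM_exchange hz hB hi hc hx
    have h2 : (ζ b' : ℚ) = ζ i := by rw [hζ', hζ', h1]
    have h3 : ζ b' = ζ i := by exact_mod_cast h2
    simp only [hξ, h3]
  have hsum : ∀ g ∈ S, ∑ i, ξ i * (w g i : ℤ) = 0 := by
    intro g hg
    have h1 := hzS g hg
    unfold pq at h1
    have h2 : ((∑ i, ξ i * (w g i : ℤ) : ℤ) : ℚ) = (s : ℚ) * ((b : ℤ) : ℚ) * ∑ i, (w g i : ℚ) * z i := by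
      rw [Finset.mul_sum]
      push_cast
      refine Finset.sum_congr rfl fun i _ => ?_
      simp only [hξ]
      push_cast
      rw [hζ' i]
      ring
    rw [h1, mul_zero] at h2
    exact_mod_cast h2
  obtain ⟨P, hP⟩ := exists_ciPoly a B x i₀
  have htor : ∀ i ∈ D, ∀ (τ : ℂ) (c : B → ℂ),
      ci a B x (fun b => τ ^ ξ b * c b) i = τ ^ ξ i * ci a B x c i := fun i hi τ c =>
    ci_torus (hex i hi) τ c
  refine Kum.chi_torus χ hχ _ (constr_XM a B x D (constr_Th w S t)) (fun b => ξ b) P e he0 ?_ ?_ ?_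
  · rintro c ⟨h1, h2⟩ τ hτ
    refine ⟨fun i hi => ?_, fun g hg => ?_⟩
    · rw [htor i hi]
      exact mul_ne_zero (zpow_ne_zero _ hτ) (h1 i hi)
    · have h3 : ∏ i, ci a B x (fun b => τ ^ ξ b * c b) i ^ w g i =
          ∏ i, (τ ^ (ξ i * (w g i : ℤ)) * ci a B x c i ^ w g i) := by
        refine Finset.prod_congr rfl fun i _ => ?_
        by_cases hi : w g i = 0
        · rw [hi]
          simp
        · rw [htor i (hS g hg i hi), mul_pow, ← zpow_natCast (τ ^ ξ i) (w g i), ← zpow_mul]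
      rw [h3, Finset.prod_mul_distrib, x2_prod_zpow _ _ hτ, hsum g hg, zpow_zero, one_mul]
      exact h2 g hg
  · rintro c ⟨h1, -⟩
    rw [hP]
    exact h1 i₀ hi₀D
  · rintro c ⟨h1, -⟩ τ hτ
    rw [hP, hP, htor i₀ hi₀D]
    have h4 : τ ^ ξ i₀ = τ ^ e := by
      have : ξ i₀ = (e : ℤ) := he.symm
      rw [this, zpow_natCast]
    rw [h4]

end LF
end MotMono
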