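import Pool.Agent.Lib.MP_4e5fcd_ag.LF.J2
import Pool.Agent.Lib.MP_4e5fcd_ag.LF.J4
import Pool.Agent.Lib.MP_4e5fcd_ag.LF.J5

/-!
# LF-Z1: the coefficients of the motivic zeta function

`zz L K = class of {jets with K levels, level 0 = p, all generators vanish to order ≥ K} * L^(-N K)`.

`zz_eq` (`K = n + 1`): `dec` with `S = ∅`, `D = ∅`, `Θ = univ` (`hD` is trivial), apply
`algebraMap K0 MC` (`map_sum`, `map_intCast`) and `cls_YS_pole`
(`mh i ≤ n` because `mh i ∈ range (n + 1)`). `Gc .. (φ = 1) (q = Lu⁻¹)`: the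
condition `TT .. ∈ univ` is trivial, `Sx w ∅` is trivial, `(∅ : Finset Γ)ᶜ = univ`.

`zmot_coeff` (`k = n + 1 ≥ 1`, `L.p = 0`): with `l < n + 1 + 1` levels,
`ordLocus L.J (n + 1) = A \ B`, `A = {γ | level 0 = 0, ∀ g, n + 1 ≤ pair (w g) (vv γ + 1)}`,
`B = XX L (n + 1) ∅ univ = {γ | level 0 = 0, ∀ g, n + 2 ≤ pair ..}` (`along_gen_lt_iff`,
`along_J_lt`: all `f ∈ J` vanish to order `≥ n + 1` iff all generators do; some `f ∈ J` has nonzero
coefficient `n + 1` iff not all generators vanish to order `≥ n + 2`). `B ⊆ A`, `cls_diff`.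
`A` is the preimage of `XX L n ∅ univ` under forgetting the last level (the coefficients `< n + 1` of
`along f γ` depend only on the levels `≤ n`: `along f γ` and `along f γ'` are congruent modulo
`X ^ (n + 1)`, where `γ'` is the truncation), so `A ≅ XX L n ∅ univ × ℂ^N` (`RegIso`, `cls_prodSet`,
`cls_univ`), `cls A = cls (XX L n ∅ univ) * LL ^ N`.
-/

open MvPolynomial

namespace MotMono
namespace LF

variable {I Γ : Type} [Fintype I] [Fintype Γ] {N : ℕ}

/-- normalised class of the jets with `n + 1` levels along which the ideal vanishes to order at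
least `n + 1` -/
noncomputable def zz (L : Loc I Γ N) (n : ℕ) : MC :=
  algebraMap K0 MC (cls (XX L n ∅ Set.univ)) * ((Lu ^ (-(N * (n + 1) : ℤ)) : MCˣ) : MC)

theorem zz_eq (L : Loc I Γ N) (n : ℕ) :
    zz L n = ((Lu ^ (-(N : ℤ)) : MCˣ) : MC) *
      Gc L.a L.w ∅ ∅ Set.univ (fun _ _ => (1 : MC)) ((Lu⁻¹ : MCˣ) : MC) (n + 1) := by
  classical
  have h := dec L n ∅ ∅ (by simp) (Θ := Set.univ) constr_univ
  rw [zz, h, Gc, map_sum, Finset.sum_mul, Finset.mul_sum]
  refine Finset.sum_congr rfl fun mh hmh => ?_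
  have hmh' : ∀ i, mh i ≤ n := by
    intro i
    have := Finset.mem_range.1 (Fintype.mem_piFinset.1 hmh i)
    omega
  by_cases hc : (∀ i, clo L.a Finset.univ mh i = mh i) ∧ Sx L.w ∅ (n + 1) mh
  · rw [if_pos hc, if_pos ⟨hc.1, hc.2, Set.mem_univ _⟩, map_mul, mul_assoc, cls_YS_pole L n mh hmh',
      map_intCast]
    ring
  · rw [if_neg hc, if_neg (fun h' => hc ⟨h'.1, h'.2.1⟩), map_zero, zero_mul, mul_zero]

omit [Fintype I] in
theorem z1_vv_trunc (a : I → Fin N → ℂ) {n : ℕ} (γ' : Fin N × Fin (n + 1 + 1) → ℂ) (i : I) :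
    vv a (fun p : Fin N × Fin (n + 1) => γ' (p.1, p.2.castSucc)) i = min (vv a γ' i) n := by
  set γ : Fin N × Fin (n + 1) → ℂ := fun p => γ' (p.1, p.2.castSucc) with hγ
  have hlev : ∀ (l : ℕ) (h : l < n), lev γ (Fin.succ ⟨l, h⟩) =
      lev γ' (Fin.succ ⟨l, Nat.lt_succ_of_lt h⟩) := by
    intro l h
    funext j
    rfl
  refine le_antisymm (le_min ?_ (vv_le a γ i)) ?_
  · rw [le_vv_iff (by have := vv_le a γ i; omega)]
    intro l hl
    have h1 : (l : ℕ) < n := lt_of_lt_of_le hl (vv_le a γ i)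
    have h2 := (le_vv_iff (a := a) (γ := γ) (i := i) (vv_le a γ i)).1 le_rfl ⟨l, h1⟩ hl
    rw [hlev] at h2
    exact h2
  · rw [le_vv_iff (min_le_right _ _)]
    intro l hl
    rw [show l.succ = Fin.succ ⟨(l : ℕ), l.2⟩ from rfl, hlev (l : ℕ) l.2]
    exact (le_vv_iff (a := a) (γ := γ') (i := i) (vv_le a γ' i)).1 le_rfl
      ⟨(l : ℕ), Nat.lt_succ_of_lt l.2⟩ (lt_of_lt_of_le hl (min_le_left _ _))

theorem z1_pair_trunc (w : I → ℕ) (v : I → ℕ) (n : ℕ) :
    n + 1 ≤ pair w (fun i => min (v i) n + 1) ↔ n + 1 ≤ pair w (fun i => v i + 1) := by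
  by_cases h : ∃ i, w i ≠ 0 ∧ n ≤ v i
  · obtain ⟨i, hi, hn⟩ := h
    have h1 : n + 1 ≤ w i * (min (v i) n + 1) := by
      rw [min_eq_right hn]
      exact Nat.le_mul_of_pos_left _ (Nat.pos_of_ne_zero hi)
    have h2 : n + 1 ≤ w i * (v i + 1) :=
      le_trans (Nat.succ_le_succ hn) (Nat.le_mul_of_pos_left _ (Nat.pos_of_ne_zero hi))
    have h3 : w i * (min (v i) n + 1) ≤ pair w (fun i => min (v i) n + 1) :=
      Finset.single_le_sum (f := fun i => w i * (min (v i) n + 1)) (fun _ _ => Nat.zero_le _)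
        (Finset.mem_univ i)
    have h4 : w i * (v i + 1) ≤ pair w (fun i => v i + 1) :=
      Finset.single_le_sum (f := fun i => w i * (v i + 1)) (fun _ _ => Nat.zero_le _)
        (Finset.mem_univ i)
    exact ⟨fun _ => h2.trans h4, fun _ => h1.trans h3⟩
  · push Not at h
    have : pair w (fun i => min (v i) n + 1) = pair w (fun i => v i + 1) := by
      unfold pair
      refine Finset.sum_congr rfl fun i _ => ?_
      by_cases hi : w i = 0
      · rw [hi, zero_mul, zero_mul]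
      · show w i * (min (v i) n + 1) = w i * (v i + 1)
        rw [min_eq_left (h i hi).le]
    rw [this]

/-- the equivalence which splits off the last level -/
def z1_e (N n : ℕ) : Fin N × Fin (n + 1 + 1) ≃ (Fin N × Fin (n + 1)) ⊕ Fin N where
  toFun p := Fin.lastCases (motive := fun _ => (Fin N × Fin (n + 1)) ⊕ Fin N) (Sum.inr p.1)
    (fun l => Sum.inl (p.1, l)) p.2
  invFun := Sum.elim (fun p => (p.1, p.2.castSucc)) (fun j => (j, Fin.last _))
  left_inv := by
    rintro ⟨j, l⟩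
    refine Fin.lastCases ?_ (fun l => ?_) l
    · simp
    · simp
  right_inv := by
    rintro (⟨j, l⟩ | j)
    · simp
    · simp

theorem zmot_coeff (L : Loc I Γ N) (hp : L.p = 0) (n : ℕ) :
    PowerSeries.coeff (n + 1) (Zmot L.J) = zz L n - zz L (n + 1) := by
  classical
  have hpz : ∀ j, L.p j = 0 := fun j => by rw [hp]; rfl
  let A : Set (Fin N × Fin (n + 1 + 1) → ℂ) :=
    {γ | (∀ j, γ (j, 0) = L.p j) ∧ ∀ g : Γ, n + 1 ≤ pair (L.w g) (fun i => vv L.a γ i + 1)}
  have hA : A = {y : Fin N × Fin (n + 1 + 1) → ℂ |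
      (fun i => (fun p => y ((z1_e N n).symm p)) i) ∈
        prodSet (XX L n ∅ Set.univ) (Set.univ : Set (Fin N → ℂ))} := by
    ext γ
    have h1 : ∀ p : Fin N × Fin (n + 1), (z1_e N n).symm (Sum.inl p) = (p.1, p.2.castSucc) :=
      fun p => rfl
    simp only [A, Set.mem_ofPred_eq, prodSet, XX, Sx, Set.mem_univ, and_true, Finset.notMem_empty,
      IsEmpty.forall_iff, implies_true, not_false_eq_true, true_and, forall_true_left, h1]
    refine and_congr (Iff.rfl) (forall_congr' fun g => ?_)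
    have h2 := z1_pair_trunc (L.w g) (vv L.a γ) n
    rw [← h2]
    have h3 : (fun i => vv L.a (fun p : Fin N × Fin (n + 1) => γ (p.1, p.2.castSucc)) i + 1) =
        fun i => min (vv L.a γ i) n + 1 := by
      funext i
      rw [z1_vv_trunc]
    rw [h3]
  have hXn : Constr (XX L n ∅ Set.univ) := constr_XX L ∅ constr_univ
  have hXn1 : Constr (XX L (n + 1) ∅ Set.univ) := constr_XX L ∅ constr_univ
  have hprod : Constr (prodSet (XX L n ∅ Set.univ) (Set.univ : Set (Fin N → ℂ))) :=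
    hXn.prodSet constr_univ
  have hAc : Constr A := by
    rw [hA]
    have := hprod.preimage (fun p => (X ((z1_e N n).symm p) : MvPolynomial _ ℂ))
    simpa using this
  have hcA : cls A = cls (XX L n ∅ Set.univ) * LL ^ N := by
    have h1 := RegIso.reindex (z1_e N n).symm
      (prodSet (XX L n ∅ Set.univ) (Set.univ : Set (Fin N → ℂ)))
    have h2 : cls (prodSet (XX L n ∅ Set.univ) (Set.univ : Set (Fin N → ℂ))) = cls A := by
      refine cls_iso hprod hAc ?_
      rw [hA]
      exact h1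
    rw [← h2, cls_prodSet hXn constr_univ, cls_univ, Fintype.card_fin]
  have hsub : XX L (n + 1) ∅ Set.univ ⊆ A := by
    rintro γ ⟨h1, _, h3, _⟩
    exact ⟨h1, fun g => le_trans (Nat.le_succ _) (h3 g (Finset.notMem_empty g))⟩
  have hord : ordLocus L.J (n + 1) = A \ XX L (n + 1) ∅ Set.univ := by
    ext γ
    constructor
    · rintro ⟨h1, h2, f, hf, hfc⟩
      have h0 : ∀ j, γ (j, 0) = L.p j := fun j => by rw [h1 j, hpz j]
      refine ⟨⟨h0, fun g => ?_⟩, ?_⟩
      · rw [← along_gen_lt_iff L h0 g (by omega)]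
        exact h2 _ (Ideal.subset_span ⟨g, rfl⟩)
      · rintro ⟨_, _, h3, _⟩
        refine hfc (along_J_lt L γ (k := n + 1 + 1) (fun g => ?_) f hf (n + 1) (Nat.lt_succ_self _))
        rw [along_gen_lt_iff L h0 g le_rfl]
        exact h3 g (Finset.notMem_empty g)
    · rintro ⟨⟨h0, h2⟩, h3⟩
      refine ⟨fun j => by rw [h0 j, hpz j], fun f hf => along_J_lt L γ (k := n + 1)
        (fun g => (along_gen_lt_iff L h0 g (by omega)).2 (h2 g)) f hf, ?_⟩
      have h4 : ∃ g, ¬ (n + 1 + 1 ≤ pair (L.w g) (fun i => vv L.a γ i + 1)) := by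
        by_contra hc
        push Not at hc
        exact h3 ⟨h0, fun g hg => absurd hg (Finset.notMem_empty g), fun g _ => hc g,
          Set.mem_univ _⟩
      obtain ⟨g, hg⟩ := h4
      rw [← along_gen_lt_iff L h0 g le_rfl] at hg
      push Not at hg
      obtain ⟨l, hl, hl'⟩ := hg
      have h5 := (along_gen_lt_iff L h0 g (by omega)).2 (h2 g)
      have hln : l = n + 1 := by
        by_contra hne
        exact hl' (h5 l (by omega))
      subst hln
      exact ⟨L.gen g, Ideal.subset_span ⟨g, rfl⟩, hl'⟩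
  rw [Zmot, PowerSeries.coeff_mk, hord, cls_diff hAc hXn1 hsub, hcA, map_sub, map_mul, map_pow, zz,
    zz, sub_mul]
  congr 1
  have hLu : algebraMap K0 MC LL = ((Lu : MCˣ) : MC) := rfl
  rw [hLu, mul_assoc]
  congr 1
  rw [← Units.val_pow_eq_pow_val, ← Units.val_mul, ← zpow_natCast, ← zpow_add]
  congr 2
  push_cast
  ring

end LF
end MotMono
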